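import Pool.Agent.Lib.MP_938ce2_ag_h99w.BD

/-!
The functionals attached to distributions. As `LL_add`, `LL_neg`, `LL_zero`, `LL_rel`, `LL_relSub` (h85c/BoxFunc.lean), with `w` in place of `chi2`.
-/

set_option autoImplicit false
set_option linter.style.haveILetI false
set_option linter.unusedSectionVars false

open Finset

namespace Pool.Agent.Lib.MP_938ce2_ag_h99w

open Pool.Agent.Lib.MP_938ce2_ag_h99 Pool.Agent.Lib.MP_938ce2_ag_h85c
open Pool.Agent.Lib.MP_938ce2_ag_H7f Pool.Agent.Lib.MP_938ce2_ag_h6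

variable {m : ℕ} [NeZero m]

lemma LW_add (w : ZMod m → ZMod 2) (F G : ZMod m → ℤ) : LW w (F + G) = LW w F + LW w G := by
  unfold LW
  rw [← sum_add_distrib]
  exact sum_congr rfl fun x _ => by rw [Pi.add_apply, add_mul]

lemma LW_neg (w : ZMod m → ZMod 2) (F : ZMod m → ℤ) : LW w (-F) = - LW w F := by
  unfold LW
  rw [← sum_neg_distrib]
  exact sum_congr rfl fun x _ => by rw [Pi.neg_apply, neg_mul]

lemma LW_zero (w : ZMod m → ZMod 2) : LW w (0 : ZMod m → ℤ) = 0 := by
  unfold LW
  simp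

/-- the signed indicator of a weight -/
private def wx (w : ZMod m → ZMod 2) (x : ZMod m) : ℤ := if w x = 1 then eps x else 0

private lemma wx_odd {w : ZMod m → ZMod 2} (hw : FDist w) : OddF (wx w) := by
  intro x
  unfold wx
  rw [hw.even x]
  by_cases h : w x = 1
  · rw [if_pos h, if_pos h, eps_neg]
    intro hx
    rw [hw.fix x hx] at h
    exact absurd h (by decide)
  · rw [if_neg h, if_neg h, neg_zero]

private lemma wx_cast (w : ZMod m → ZMod 2) (x : ZMod m) : ((wx w x : ℤ) : ZMod 2) = w x := by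
  unfold wx
  by_cases h : w x = 1
  · rw [if_pos h, h]
    rcases eps_odd x with h1 | h1
    · rw [h1]; decide
    · rw [h1]; decide
  · rw [if_neg h]
    have key : ∀ y : ZMod 2, y ≠ 1 → ((0 : ℤ) : ZMod 2) = y := by decide
    exact key _ h

private lemma LW_eq (w : ZMod m → ZMod 2) (F : ZMod m → ℤ) : LW w F = ∑ x, F x * wx w x := rfl

lemma LW_even {w : ZMod m → ZMod 2} (hw : FDist w) {F : ZMod m → ℤ} (hF : OddF F) :
    2 ∣ LW w F := by
  rw [LW_eq, show (2 : ℤ) = 2 * 1 by norm_num]
  apply MP_938ce2_ag_h85c.even_sum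
  · intro c
    rw [hF c, wx_odd hw c]
    ring
  · intro c hc
    rw [OddF.zero_of_neg hF hc, zero_mul]
  · intro c
    exact one_dvd _

private lemma LW_rel {w : ZMod m → ZMod 2} (hw : FDist w) {p : ℕ} (hp : p.Prime)
    (hpm : p ∣ m) {g : ZMod m → ℤ} (hg : OddF g) (hs : ∀ a, g a ≠ 0 → ∃ b, a = (p : ZMod m) * b) :
    4 ∣ LW w (rel p g) := by
  set T : ZMod m → ℤ := fun c =>
    ∑ b ∈ univ.filter (fun b : ZMod m => (p : ZMod m) * b = c), wx w b - wx w c with hT
  have h1 : LW w (rel p g) = ∑ c, g c * T c := by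
    have h2 : ∑ b, g ((p : ZMod m) * b) * wx w b
        = ∑ c, g c * ∑ b ∈ univ.filter (fun b : ZMod m => (p : ZMod m) * b = c), wx w b := by
      rw [← Finset.sum_fiberwise_of_maps_to (s := univ) (t := univ)
        (g := fun b : ZMod m => (p : ZMod m) * b) (fun _ _ => mem_univ _)]
      refine sum_congr rfl fun c _ => ?_
      rw [mul_sum]
      refine sum_congr rfl fun b hb => ?_
      rw [(mem_filter.mp hb).2]
    rw [LW_eq]
    unfold rel
    simp only [sub_mul, sum_sub_distrib, hT, mul_sub]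
    rw [h2]
  have hTodd : ∀ c, T (-c) = - T c := by
    intro c
    have h2 : ∑ b ∈ univ.filter (fun b : ZMod m => (p : ZMod m) * b = -c), wx w b
        = - ∑ b ∈ univ.filter (fun b : ZMod m => (p : ZMod m) * b = c), wx w b := by
      rw [← sum_neg_distrib]
      refine sum_bij' (fun b _ => -b) (fun b _ => -b) ?_ ?_ ?_ ?_ ?_
      · intro b hb
        refine mem_filter.mpr ⟨mem_univ _, ?_⟩
        rw [mul_neg, (mem_filter.mp hb).2, neg_neg]
      · intro b hb
        refine mem_filter.mpr ⟨mem_univ _, ?_⟩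
        rw [mul_neg, (mem_filter.mp hb).2]
      · intro b _; exact neg_neg b
      · intro b _; exact neg_neg b
      · intro b _
        rw [wx_odd hw b, neg_neg]
    rw [hT]
    dsimp only
    rw [h2, wx_odd hw c]
    ring
  rw [h1, show (4 : ℤ) = 2 * 2 by norm_num]
  apply MP_938ce2_ag_h85c.even_sum
  · intro c
    rw [hg c, hTodd c]
    ring
  · intro c hc
    rw [OddF.zero_of_neg hg hc, zero_mul]
  · intro c
    by_cases hgc : g c = 0
    · rw [hgc, zero_mul]
      exact dvd_zero _
    · apply Dvd.dvd.mul_left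
      obtain ⟨b0, rfl⟩ := hs c hgc
      have h2 := hw.fib p hp hpm b0
      have h3 : ((T ((p : ZMod m) * b0) : ℤ) : ZMod 2) = 0 := by
        rw [hT]
        dsimp only
        push_cast
        rw [sum_congr rfl fun b _ => wx_cast w b, wx_cast, h2, sub_self]
      exact_mod_cast (ZMod.intCast_zmod_eq_zero_iff_dvd (T ((p : ZMod m) * b0)) 2).mp h3

theorem LW_relSub {w : ZMod m → ZMod 2} (hw : FDist w) {F : ZMod m → ℤ} (h : F ∈ relSub m) :
    4 ∣ LW w F := by
  unfold relSub at h
  induction h using AddSubgroup.closure_induction with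
  | mem x hx =>
    obtain ⟨p, g, hp, hpm, hg, hs, rfl⟩ := hx
    exact LW_rel hw hp hpm hg hs
  | zero => rw [LW_zero]; exact dvd_zero _
  | add x y _ _ hx hy => rw [LW_add]; exact dvd_add hx hy
  | neg x _ hx => rw [LW_neg]; exact (dvd_neg).mpr hx

lemma LL_even {F : ZMod m → ℤ} (hF : OddF F) : 2 ∣ LL F := by
  unfold LL
  rw [show (2 : ℤ) = 2 * 1 by norm_num]
  apply MP_938ce2_ag_h85c.even_sum
  · intro c
    rw [hF c, chi_odd c]
    ring
  · intro c hc
    rw [OddF.zero_of_neg hF hc, zero_mul]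
  · intro c
    exact one_dvd _

end Pool.Agent.Lib.MP_938ce2_ag_h99w
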