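import Pool.Agent.Lib.MP_938ce2_ag_h99w.BD
import Pool.Agent.Lib.MP_938ce2_ag_H7f.Fibre

/-!
The weight of the odd orders divisible by `105`.
-/

set_option autoImplicit false
set_option linter.style.haveILetI false
set_option linter.unusedSectionVars false

open Finset

namespace Pool.Agent.Lib.MP_938ce2_ag_h99w

open Pool.Agent.Lib.MP_938ce2_ag_h99 Pool.Agent.Lib.MP_938ce2_ag_h85c
open Pool.Agent.Lib.MP_938ce2_ag_H7f Pool.Agent.Lib.MP_938ce2_ag_h6

variable {m : ℕ} [NeZero m]

private lemma fibA {p : ℕ} (hp : p.Prime) {b : ZMod m} (h : p ∣ addOrderOf ((p : ZMod m) * b)) :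
    addOrderOf b = p * addOrderOf ((p : ZMod m) * b) := by
  rcases order_of_mul hp (b := b) rfl with h1 | h1
  · exfalso
    have h2 : p ∣ addOrderOf b := by rw [h1]; exact h
    have h3 := addOrderOf_natCast_mul (m := m) (p := p) hp.ne_zero h2
    rw [← h1] at h3
    exact absurd h3.symm (Nat.div_lt_self (addOrderOf_pos b) hp.one_lt).ne
  · exact h1

private lemma fibB {p : ℕ} (hp : p.Prime) {b0 : ZMod m}
    (h : ¬ p ∣ addOrderOf ((p : ZMod m) * b0)) :
    ∃ a0 ∈ univ.filter (fun b : ZMod m => (p : ZMod m) * b = (p : ZMod m) * b0),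
      addOrderOf a0 = addOrderOf ((p : ZMod m) * b0) ∧
      ∀ b ∈ univ.filter (fun b : ZMod m => (p : ZMod m) * b = (p : ZMod m) * b0), b ≠ a0 →
        addOrderOf b = p * addOrderOf ((p : ZMod m) * b0) := by
  set c := (p : ZMod m) * b0 with hc
  set e := addOrderOf c with he
  have hcop : Nat.Coprime p e := (Nat.Prime.coprime_iff_not_dvd hp).mpr h
  have he0 : 0 < e := addOrderOf_pos c
  obtain ⟨k, hk⟩ : ∃ k : ℕ, p * k ≡ 1 [MOD e] := by
    obtain ⟨k, hk⟩ := Nat.chineseRemainder hcop 0 1
    obtain ⟨c, hc⟩ := (Nat.modEq_zero_iff_dvd.mp hk.1)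
    exact ⟨c, hc ▸ hk.2⟩
  have hb0 : (p : ZMod m) * ((k : ZMod m) * c) = c := by
    have h1 : (p * k) • c = 1 • c := by
      rw [nsmul_eq_nsmul_iff_modEq, ← he]
      exact hk
    rw [one_smul, nsmul_eq_mul, Nat.cast_mul] at h1
    linear_combination h1
  have hord0 : addOrderOf ((k : ZMod m) * c) = e := by
    rcases order_of_mul hp (b := (k : ZMod m) * c) (e := e) (by rw [hb0]) with h1 | h1
    · exact h1
    · exfalso
      have h2 : addOrderOf ((k : ZMod m) * c) ∣ e := by
        apply addOrderOf_dvd_of_nsmul_eq_zero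
        rw [← mul_smul_comm, he, addOrderOf_nsmul_eq_zero, mul_zero]
      rw [h1] at h2
      have := Nat.le_of_dvd he0 h2
      have := hp.two_le
      nlinarith
  refine ⟨(k : ZMod m) * c, mem_filter.mpr ⟨mem_univ _, hb0⟩, hord0, ?_⟩
  intro b hb hne
  have hb1 : (p : ZMod m) * b = c := (mem_filter.mp hb).2
  rcases order_of_mul hp (b := b) (e := e) (by rw [hb1]) with h1 | h1
  · exfalso
    apply hne
    rw [← sub_eq_zero, ← AddMonoid.addOrderOf_eq_one_iff]
    have h2 : addOrderOf (b - (k : ZMod m) * c) ∣ p := by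
      apply addOrderOf_dvd_of_nsmul_eq_zero
      rw [nsmul_eq_mul, mul_sub, hb1, hb0, sub_self]
    have h3 : addOrderOf (b - (k : ZMod m) * c) ∣ e := by
      apply addOrderOf_dvd_of_nsmul_eq_zero
      have e1 : e • b = 0 := by rw [← h1]; exact addOrderOf_nsmul_eq_zero b
      have e2 : e • ((k : ZMod m) * c) = 0 := by
        rw [← hord0]; exact addOrderOf_nsmul_eq_zero _
      rw [nsmul_sub, e1, e2, sub_zero]
    have h4 := Nat.dvd_gcd h2 h3
    rw [hcop] at h4
    exact Nat.dvd_one.mp h4
  · exact h1

/-- the weight as a function of the order -/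
private noncomputable def V105 (n : ℕ) : ZMod 2 := by
  classical
  exact if Odd n ∧ 105 ∣ n then 1 else 0

private lemma w105_eq (x : ZMod m) : w105 x = V105 (addOrderOf x) := rfl

private lemma V105_not {n : ℕ} (h : ¬ (Odd n ∧ 105 ∣ n)) : V105 n = 0 := by
  unfold V105
  rw [if_neg h]

private lemma V105_congr {n k : ℕ} (h : (Odd n ∧ 105 ∣ n) ↔ (Odd k ∧ 105 ∣ k)) :
    V105 n = V105 k := by
  unfold V105
  by_cases h1 : Odd n ∧ 105 ∣ n
  · rw [if_pos h1, if_pos (h.mp h1)]
  · rw [if_neg h1, if_neg fun h2 => h1 (h.mpr h2)]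

/-- Fibres over `c = p * b0`: if `p ∣ addOrderOf c` all `p` elements have order
`p * addOrderOf c`; otherwise one has the order of `c` and `p - 1` have order `p * addOrderOf c`.
For `p = 2` the elements of order `2 * addOrderOf c` have weight zero; for odd `p` not dividing the
order of `c` the number `p - 1` is even (here `p ∣ 105`, so `c` and `a0` have weight zero). -/
theorem w105_dist (h7 : ∀ p, p.Prime → p ∣ m → p ≤ 7) : FDist (w105 (m := m)) := by
  refine ⟨?_, ?_, ?_⟩
  · intro x
    rw [w105_eq, w105_eq, addOrderOf_neg]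
  · intro x hx
    rw [w105_eq]
    apply V105_not
    rintro ⟨_, h1⟩
    have h2 : (2 : ℕ) • x = 0 := by
      rw [two_smul]
      nth_rewrite 1 [← hx]
      exact neg_add_cancel x
    have h3 := addOrderOf_dvd_of_nsmul_eq_zero h2
    have h4 := Nat.le_of_dvd (by norm_num) (h1.trans h3)
    omega
  · intro p hp hpm b0
    set c := (p : ZMod m) * b0 with hc
    have hcard : (univ.filter (fun b : ZMod m => (p : ZMod m) * b = c)).card = p :=
      Pool.Agent.Lib.MP_938ce2_ag_H7f.card_fib hp.pos hpm b0
    have hp7 := h7 p hp hpm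
    have hp2 := hp.two_le
    rw [w105_eq c]
    by_cases hd : p ∣ addOrderOf c
    · have h1 : ∀ b ∈ univ.filter (fun b : ZMod m => (p : ZMod m) * b = c),
          w105 b = V105 (p * addOrderOf c) := by
        intro b hb
        have hb1 : (p : ZMod m) * b = c := (mem_filter.mp hb).2
        rw [w105_eq, fibA hp (by rw [hb1]; exact hd), hb1]
      rw [sum_congr rfl h1, sum_const, hcard, nsmul_eq_mul]
      rcases hp.eq_two_or_odd' with h2 | h2
      · rw [h2] at hd ⊢
        rw [V105_not (n := 2 * addOrderOf c), V105_not (n := addOrderOf c), mul_zero]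
        · rintro ⟨h3, _⟩
          rw [← Nat.not_even_iff_odd] at h3
          exact h3 (even_iff_two_dvd.mpr hd)
        · rintro ⟨h3, _⟩
          rw [← Nat.not_even_iff_odd] at h3
          exact h3 (even_two_mul _)
      · have h3 : ((p : ℕ) : ZMod 2) = 1 := by
          obtain ⟨k, hk⟩ := h2
          rw [hk]
          push_cast
          have : (2 : ZMod 2) = 0 := by decide
          rw [this]
          ring
        rw [h3, one_mul]
        apply V105_congr
        rw [Nat.odd_mul]
        have h4 : 105 ∣ p * addOrderOf c ↔ 105 ∣ addOrderOf c := by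
          constructor
          · intro h5
            obtain ⟨e, he⟩ := hd
            have hp3 : p = 3 ∨ p = 5 ∨ p = 7 := by
              interval_cases p
              · exact absurd h2 (by decide)
              · exact Or.inl rfl
              · exact absurd h2 (by decide)
              · exact Or.inr (Or.inl rfl)
              · exact absurd h2 (by decide)
              · exact Or.inr (Or.inr rfl)
            rcases hp3 with h6 | h6 | h6 <;> rw [h6] at h5 he <;> omega
          · exact fun h5 => Dvd.dvd.mul_left h5 p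
        rw [h4]
        constructor
        · rintro ⟨⟨_, h5⟩, h6⟩
          exact ⟨h5, h6⟩
        · rintro ⟨h5, h6⟩
          exact ⟨⟨h2, h5⟩, h6⟩
    · obtain ⟨a0, ha0, ha1, ha2⟩ := fibB hp hd
      rw [← hc] at ha0 ha1 ha2
      have h1 : ∀ b ∈ (univ.filter (fun b : ZMod m => (p : ZMod m) * b = c)).erase a0,
          w105 b = V105 (p * addOrderOf c) := by
        intro b hb
        rw [mem_erase] at hb
        rw [w105_eq, ha2 b hb.2 hb.1]
      rw [← add_sum_erase _ _ ha0, sum_congr rfl h1, sum_const, card_erase_of_mem ha0, hcard,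
        nsmul_eq_mul, w105_eq, ha1]
      rcases hp.eq_two_or_odd' with h2 | h2
      · rw [h2, V105_not (n := 2 * addOrderOf c), mul_zero, add_zero]
        rintro ⟨h3, _⟩
        rw [← Nat.not_even_iff_odd] at h3
        exact h3 (even_two_mul _)
      · have h3 : ((p - 1 : ℕ) : ZMod 2) = 0 := by
          obtain ⟨k, hk⟩ := h2
          have : p - 1 = 2 * k := by omega
          rw [this]
          push_cast
          have : (2 : ZMod 2) = 0 := by decide
          rw [this]
          ring
        rw [h3, zero_mul, add_zero]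

end Pool.Agent.Lib.MP_938ce2_ag_h99w
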