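import Pool.Agent.Lib.MP_938ce2_ag_h99w.BD

/-!
Numerators.
-/

set_option autoImplicit false
set_option linter.style.haveILetI false
set_option linter.unusedSectionVars false

open Finset

namespace Pool.Agent.Lib.MP_938ce2_ag_h99w

open Pool.Agent.Lib.MP_938ce2_ag_h99 Pool.Agent.Lib.MP_938ce2_ag_h85c
open Pool.Agent.Lib.MP_938ce2_ag_H7f Pool.Agent.Lib.MP_938ce2_ag_h6

variable {m : ℕ} [NeZero m]

private lemma div_ord (x : ZMod m) : m / addOrderOf x = Nat.gcd m x.val := by
  have hm0 : m ≠ 0 := NeZero.ne m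
  have h1 : addOrderOf x = m / Nat.gcd m x.val := by
    conv_lhs => rw [← ZMod.natCast_zmod_val x]
    rw [ZMod.addOrderOf_coe x.val hm0]
  rw [h1, Nat.div_div_self (Nat.gcd_dvd_left _ _) hm0]

private lemma ord_eq (x : ZMod m) : addOrderOf x = m / Nat.gcd m x.val := by
  have hm0 : m ≠ 0 := NeZero.ne m
  conv_lhs => rw [← ZMod.natCast_zmod_val x]
  rw [ZMod.addOrderOf_coe x.val hm0]

private lemma mul_div_ord {d : ℕ} (hd : d ∣ m) : d * (m / d) = m := Nat.mul_div_cancel' hd

private lemma int_zmod_zero {v : ℤ} : ((v : ℤ) : ZMod m) = 0 ↔ (m : ℤ) ∣ v :=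
  ZMod.intCast_zmod_eq_zero_iff_dvd v m

/-- multiples of `m / d` -/
private lemma div_mul_eq {d : ℕ} (hd : d ∣ m) (v w : ℤ) :
    ((m / d : ℕ) : ZMod m) * (v : ZMod m) = ((m / d : ℕ) : ZMod m) * (w : ZMod m)
      ↔ (d : ℤ) ∣ v - w := by
  have hm0 : 0 < m := Nat.pos_of_ne_zero (NeZero.ne m)
  have h0 : 0 < m / d := Nat.div_pos (Nat.le_of_dvd hm0 hd) (Nat.pos_of_dvd_of_pos hd hm0)
  have h1 : (m : ℤ) = (m / d : ℕ) * d := by
    rw [← Nat.cast_mul, Nat.div_mul_cancel hd]
  rw [← sub_eq_zero, ← mul_sub]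
  have h2 : ((m / d : ℕ) : ZMod m) * ((v : ZMod m) - (w : ZMod m))
      = (((m / d : ℕ) * (v - w) : ℤ) : ZMod m) := by
    rw [Int.cast_mul, Int.cast_sub, Int.cast_natCast]
  rw [h2, int_zmod_zero, h1]
  have h3 : ((m / d : ℕ) : ℤ) ≠ 0 := by exact_mod_cast h0.ne'
  exact mul_dvd_mul_iff_left h3

lemma vr_spec (x : ZMod m) : x = ((m / addOrderOf x : ℕ) : ZMod m) * (vr x : ZMod m) := by
  have h1 : (m / addOrderOf x) * (x.val / (m / addOrderOf x)) = x.val := by
    rw [div_ord]
    exact Nat.mul_div_cancel' (Nat.gcd_dvd_right _ _)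
  unfold vr
  rw [Int.cast_natCast, ← Nat.cast_mul, h1, ZMod.natCast_zmod_val]

lemma vr_uniq {x : ZMod m} {v : ℤ} (h : x = ((m / addOrderOf x : ℕ) : ZMod m) * (v : ZMod m)) :
    (addOrderOf x : ℤ) ∣ vr x - v := by
  rw [← div_mul_eq (addOrderOf_dvd_m x)]
  rw [← vr_spec x]
  exact h

lemma vr_neg (x : ZMod m) : (addOrderOf x : ℤ) ∣ vr (-x) + vr x := by
  have h1 := vr_uniq (x := -x) (v := -vr x) (by
    rw [addOrderOf_neg]
    conv_lhs => rw [vr_spec x]
    push_cast
    ring)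
  rw [addOrderOf_neg, sub_neg_eq_add] at h1
  exact h1

lemma vr_coprime (x : ZMod m) : IsCoprime (vr x) (addOrderOf x : ℤ) := by
  unfold vr
  rw [Nat.isCoprime_iff_coprime, div_ord, ord_eq]
  have h0 : 0 < Nat.gcd x.val m := Nat.gcd_pos_of_pos_right _ (Nat.pos_of_ne_zero (NeZero.ne m))
  have h1 := Nat.coprime_div_gcd_div_gcd h0
  rwa [Nat.gcd_comm] at h1

private lemma div_up {p n : ℕ} (hp : 0 < p) (h : p * n ∣ m) : p * (m / (p * n)) = m / n := by
  obtain ⟨e, he⟩ := h
  rcases Nat.eq_zero_or_pos n with h0 | h0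
  · rw [h0, mul_zero, zero_mul] at he
    exact absurd he (NeZero.ne m)
  · rw [he, Nat.mul_div_cancel_left _ (Nat.mul_pos hp h0)]
    have : p * n * e = n * (p * e) := by ring
    rw [this, Nat.mul_div_cancel_left _ h0]

/-- the order goes up -/
lemma vr_up {p : ℕ} {b : ZMod m} (h : addOrderOf b = p * addOrderOf ((p : ZMod m) * b)) :
    (addOrderOf ((p : ZMod m) * b) : ℤ) ∣ vr b - vr ((p : ZMod m) * b) := by
  have hp : 0 < p := by
    rcases Nat.eq_zero_or_pos p with h0 | h0
    · rw [h0, zero_mul] at h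
      exact absurd h (addOrderOf_pos b).ne'
    · exact h0
  have h1 := vr_uniq (x := (p : ZMod m) * b) (v := vr b) (by
    conv_lhs => rw [vr_spec b, h]
    rw [← mul_assoc, ← Nat.cast_mul, div_up hp (h ▸ addOrderOf_dvd_m b)])
  have h2 := (dvd_neg).mpr h1
  rwa [neg_sub] at h2

/-- the order stays the same -/
lemma vr_same {p : ℕ} {b : ZMod m} (h : addOrderOf b = addOrderOf ((p : ZMod m) * b)) :
    (addOrderOf b : ℤ) ∣ p * vr b - vr ((p : ZMod m) * b) := by
  have h1 := vr_uniq (x := (p : ZMod m) * b) (v := p * vr b) (by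
    rw [← h]
    conv_lhs => rw [vr_spec b]
    push_cast
    ring)
  have h2 := (dvd_neg).mpr h1
  rw [neg_sub, ← h] at h2
  exact h2

/-- the elements of a fibre whose order goes up, over an element of order prime to `p` -/
lemma vr_res {p : ℕ} (hp : p.Prime) (hpm : p ∣ m) (b0 : ZMod m)
    (h : ¬ p ∣ addOrderOf ((p : ZMod m) * b0)) (k : ℤ) (hk : ¬ (p : ℤ) ∣ k) :
    ∃ b : ZMod m, ((p : ZMod m) * b = (p : ZMod m) * b0 ∧
      addOrderOf b = p * addOrderOf ((p : ZMod m) * b0) ∧ (p : ℤ) ∣ vr b - k) ∧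
      ∀ b' : ZMod m, (p : ZMod m) * b' = (p : ZMod m) * b0 →
        addOrderOf b' = p * addOrderOf ((p : ZMod m) * b0) → (p : ℤ) ∣ vr b' - k → b' = b := by
  set c := (p : ZMod m) * b0 with hc
  set n := addOrderOf c with hn
  have hnm : n ∣ m := addOrderOf_dvd_m c
  have hcop : Nat.Coprime p n := (Nat.Prime.coprime_iff_not_dvd hp).mpr h
  have hpn : p * n ∣ m := hcop.mul_dvd_of_dvd_of_dvd hpm hnm
  have hicop : IsCoprime (p : ℤ) (n : ℤ) := Nat.isCoprime_iff_coprime.mpr hcop
  obtain ⟨α, β, hαβ⟩ := hicop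
  -- `v` is `vr c` modulo `n` and `k` modulo `p`
  obtain ⟨v, hv1, hv2⟩ : ∃ v : ℤ, (n : ℤ) ∣ v - vr c ∧ (p : ℤ) ∣ v - k := by
    refine ⟨vr c * (α * p) + k * (β * n), ?_, ?_⟩
    · exact ⟨(k - vr c) * β, by linear_combination (vr c) * hαβ⟩
    · exact ⟨(vr c - k) * α, by linear_combination k * hαβ⟩
  have hpc : (p : ZMod m) * (((m / (p * n) : ℕ) : ZMod m) * (v : ZMod m)) = c := by
    rw [← mul_assoc, ← Nat.cast_mul, div_up hp.pos hpn]
    conv_rhs => rw [vr_spec c]
    exact (div_mul_eq hnm _ _).mpr hv1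
  have hord : addOrderOf (((m / (p * n) : ℕ) : ZMod m) * (v : ZMod m)) = p * n := by
    rcases order_of_mul hp (e := n) (by rw [hpc]) with h1 | h1
    · exfalso
      have h2 : (n : ℕ) • (((m / (p * n) : ℕ) : ZMod m) * (v : ZMod m)) = 0 := by
        have h3 := addOrderOf_nsmul_eq_zero (((m / (p * n) : ℕ) : ZMod m) * (v : ZMod m))
        rwa [h1] at h3
      have h4 : n * (m / (p * n)) = m / p := by
        rw [mul_comm p n]
        exact div_up (Nat.pos_of_dvd_of_pos hnm (Nat.pos_of_ne_zero (NeZero.ne m)))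
          (by rw [mul_comm]; exact hpn)
      rw [nsmul_eq_mul, ← mul_assoc, ← Nat.cast_mul, h4] at h2
      have h5 := (div_mul_eq hpm v 0).mp (by rw [h2, Int.cast_zero, mul_zero])
      rw [sub_zero] at h5
      have h6 := dvd_sub h5 hv2
      rw [sub_sub_cancel] at h6
      exact hk h6
    · exact h1
  refine ⟨((m / (p * n) : ℕ) : ZMod m) * (v : ZMod m), ⟨hpc, hord, ?_⟩, ?_⟩
  · have h1 := vr_uniq (x := ((m / (p * n) : ℕ) : ZMod m) * (v : ZMod m)) (v := v) (by rw [hord])
    rw [hord] at h1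
    have h2 : (p : ℤ) ∣ vr (((m / (p * n) : ℕ) : ZMod m) * (v : ZMod m)) - v :=
      (Dvd.intro _ (by push_cast; rfl)).trans h1
    have h3 := dvd_add h2 hv2
    rwa [sub_add_sub_cancel] at h3
  · intro b' h1 h2 h3
    have h4 : addOrderOf b' = p * addOrderOf ((p : ZMod m) * b') := by rw [h1]; exact h2
    have h5 := vr_up h4
    rw [h1, ← hn] at h5
    conv_lhs => rw [vr_spec b', h2]
    rw [div_mul_eq hpn]
    push_cast
    apply IsCoprime.mul_dvd (Nat.isCoprime_iff_coprime.mpr hcop)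
    · have := dvd_sub h3 hv2
      rwa [sub_sub_sub_cancel_right] at this
    · have := dvd_sub h5 hv1
      rwa [sub_sub_sub_cancel_right] at this

/-- the two elements of a fibre at the prime two, over an element of even order: here
`p = 2` and the other element is `b + m / 2` -/
lemma vr_two (h2m : 2 ∣ m) {b : ZMod m} (h : 2 ∣ addOrderOf ((2 : ZMod m) * b)) :
    addOrderOf b = 2 * addOrderOf ((2 : ZMod m) * b) ∧ ∃ b' : ZMod m, b' ≠ b ∧
      (2 : ZMod m) * b' = (2 : ZMod m) * b ∧ addOrderOf b' = addOrderOf b ∧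
      (addOrderOf b : ℤ) ∣ vr b' - vr b - addOrderOf ((2 : ZMod m) * b) ∧
      ∀ c : ZMod m, (2 : ZMod m) * c = (2 : ZMod m) * b → c = b ∨ c = b' := by
  have hm0 : 0 < m := Nat.pos_of_ne_zero (NeZero.ne m)
  have hcast : ((2 : ℕ) : ZMod m) = (2 : ZMod m) := by norm_cast
  -- the order doubles
  have hup : ∀ x : ZMod m, 2 ∣ addOrderOf ((2 : ZMod m) * x) →
      addOrderOf x = 2 * addOrderOf ((2 : ZMod m) * x) := by
    intro x hx
    rcases order_of_mul Nat.prime_two (b := x) (e := addOrderOf ((2 : ZMod m) * x))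
      (by rw [hcast]) with h1 | h1
    · exfalso
      have h2 : 2 ∣ addOrderOf x := by rw [h1]; exact hx
      have h3 := addOrderOf_natCast_mul (m := m) (p := 2) (by norm_num) h2
      rw [hcast, ← h1] at h3
      exact absurd h3.symm (Nat.div_lt_self (addOrderOf_pos x) (by norm_num)).ne
    · exact h1
  obtain ⟨d, hd⟩ := h2m
  have hd0 : 0 < d := by omega
  have h2d : (2 : ZMod m) * (d : ZMod m) = 0 := by
    rw [← hcast, ← Nat.cast_mul, ← hd]
    exact ZMod.natCast_self m
  have hdne : (d : ZMod m) ≠ 0 := by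
    intro h0
    rw [ZMod.natCast_eq_zero_iff] at h0
    have := Nat.le_of_dvd hd0 h0
    omega
  have hhalf : ∀ y : ZMod m, (2 : ZMod m) * y = 0 → y = 0 ∨ y = (d : ZMod m) := by
    intro y hy
    have h1 : ((2 * y.val : ℕ) : ZMod m) = 0 := by
      rw [Nat.cast_mul, ZMod.natCast_zmod_val, hcast]
      exact hy
    rw [ZMod.natCast_eq_zero_iff] at h1
    have h2 := ZMod.val_lt y
    obtain ⟨e, he⟩ := h1
    have he2 : e < 2 := by
      by_contra hcon
      have : 2 ≤ e := not_lt.mp hcon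
      have h3 : m * 2 ≤ m * e := Nat.mul_le_mul_left m this
      omega
    interval_cases e
    · left
      have : y.val = 0 := by omega
      exact (ZMod.val_eq_zero y).mp this
    · right
      have : y.val = d := by omega
      rw [← this, ZMod.natCast_zmod_val]
  have hb := hup b h
  set n := addOrderOf ((2 : ZMod m) * b) with hn
  have h2b' : (2 : ZMod m) * (b + (d : ZMod m)) = (2 : ZMod m) * b := by
    rw [mul_add, h2d, add_zero]
  have hb' : addOrderOf (b + (d : ZMod m)) = 2 * n := by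
    have := hup (b + (d : ZMod m)) (by rw [h2b']; exact h)
    rw [this, h2b']
  refine ⟨hb, b + (d : ZMod m), ?_, h2b', by rw [hb', hb], ?_, ?_⟩
  · intro h0
    apply hdne
    exact add_eq_left.mp h0
  · have h2n : 2 * n ∣ m := hb ▸ addOrderOf_dvd_m b
    have h1 := vr_uniq (x := b + (d : ZMod m)) (v := vr b + n) (by
      rw [hb']
      conv_lhs => rw [vr_spec b, hb]
      have h3 : (m / (2 * n)) * n = d := by
        obtain ⟨e, he⟩ := h2n
        have hn0 : 0 < n := by
          rcases Nat.eq_zero_or_pos n with h0 | h0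
          · rw [h0] at he; omega
          · exact h0
        rw [he, Nat.mul_div_cancel_left _ (by omega : 0 < 2 * n)]
        have : 2 * (e * n) = 2 * d := by rw [← hd, he]; ring
        omega
      rw [← h3]
      push_cast
      ring)
    rw [hb'] at h1
    rw [hb, sub_sub]
    exact h1
  · intro c hc
    rcases hhalf (c - b) (by rw [mul_sub, hc, sub_self]) with h1 | h1
    · left
      exact sub_eq_zero.mp h1
    · right
      rw [← h1]
      ring

end Pool.Agent.Lib.MP_938ce2_ag_h99w
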