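import Pool.Agent.Lib.MP_938ce2_ag_h99w.B03

/-!
The weights `wT`: first properties.
-/

set_option autoImplicit false
set_option linter.style.haveILetI false
set_option linter.unusedSectionVars false

open Finset

namespace Pool.Agent.Lib.MP_938ce2_ag_h99w

open Pool.Agent.Lib.MP_938ce2_ag_h99 Pool.Agent.Lib.MP_938ce2_ag_h85c
open Pool.Agent.Lib.MP_938ce2_ag_H7f Pool.Agent.Lib.MP_938ce2_ag_h6

variable {m : ℕ} [NeZero m]

private lemma ind_congr {P Q : Prop} (h : P ↔ Q) : ind P = ind Q := by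
  rw [propext h]

private lemma T2_neg (x : ZMod m) (k : ℤ) : T2 (-x) k ↔ T2 x (-k) := by
  unfold T2
  rw [addOrderOf_neg]
  have h1 : ((2 ^ (addOrderOf x).factorization 2 : ℕ) : ℤ) ∣ vr (-x) + vr x := by
    refine dvd_trans ?_ (vr_neg x)
    exact_mod_cast Nat.ordProj_dvd (addOrderOf x) 2
  constructor
  · intro h
    have h2 := dvd_sub h1 h
    have h3 : vr (-x) + vr x - (vr (-x) - k) = vr x - -k := by ring
    rwa [h3] at h2
  · intro h
    have h2 := dvd_sub h1 h
    have h3 : vr (-x) + vr x - (vr x - -k) = vr (-x) - k := by ring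
    rwa [h3] at h2

private lemma Tt_neg {t : ℕ} {x : ZMod m} (ht : t ∣ addOrderOf x) (k : ℤ) :
    Tt t (-x) k ↔ Tt t x (-k) := by
  unfold Tt
  have h1 : (t : ℤ) ∣ vr (-x) + vr x := by
    refine dvd_trans ?_ (vr_neg x)
    exact_mod_cast ht
  constructor
  · intro h
    have h2 := dvd_sub h1 h
    have h3 : vr (-x) + vr x - (vr (-x) - k) = vr x - -k := by ring
    rwa [h3] at h2
  · intro h
    have h2 := dvd_sub h1 h
    have h3 : vr (-x) + vr x - (vr x - -k) = vr (-x) - k := by ring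
    rwa [h3] at h2

/-- `vr (-x) = - vr x` modulo the order -/
lemma wT_even {r s t : ℕ} (x : ZMod m) : wT r s t (-x) = wT r s t x := by
  unfold wT
  rw [addOrderOf_neg]
  split_ifs with h1 h2
  · rw [ind_congr (and_congr (T2_neg x 1) (Tt_neg h2 1)),
      ind_congr (and_congr (T2_neg x (-1)) (Tt_neg h2 (-1))),
      ind_congr (and_congr (T2_neg x (-t)) (Tt_neg h2 1)),
      ind_congr (and_congr (T2_neg x t) (Tt_neg h2 (-1))), neg_neg, neg_neg]
    ring
  · rw [ind_congr (T2_neg x 1), ind_congr (T2_neg x (-1)), neg_neg]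
    ring
  · rfl

lemma wT_supp {r s t : ℕ} {x : ZMod m} (h : wT r s t x ≠ 0) :
    4 ∣ addOrderOf x ∧ r ∣ addOrderOf x ∧ s ∣ addOrderOf x := by
  by_contra hc
  apply h
  unfold wT
  rw [if_neg hc]

lemma wT_fix {r s t : ℕ} (x : ZMod m) (h : -x = x) : wT r s t x = 0 := by
  by_contra hc
  have h1 := (wT_supp hc).1
  have h2 : (2 : ℕ) • x = 0 := by
    rw [two_smul]
    nth_rewrite 1 [← h]
    exact neg_add_cancel x
  have h3 := addOrderOf_dvd_of_nsmul_eq_zero h2
  have h4 := Nat.le_of_dvd (by norm_num) (h1.trans h3)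
  omega

private lemma T2_congr {x : ZMod m} {d : ℕ} {e : ℕ} (hd : ¬ 2 ^ (e + 1) ∣ addOrderOf x)
    (hde : d = 2 ^ e) {k l : ℤ} (hkl : (d : ℤ) ∣ k - l) : T2 x k ↔ T2 x l := by
  unfold T2
  have h0 : (addOrderOf x).factorization 2 ≤ e := by
    by_contra hcon
    have h1 : e + 1 ≤ (addOrderOf x).factorization 2 := by omega
    exact hd ((Nat.prime_two.pow_dvd_iff_le_factorization (addOrderOf_pos x).ne').mpr h1)
  have h1 : ((2 ^ (addOrderOf x).factorization 2 : ℕ) : ℤ) ∣ k - l := by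
    refine dvd_trans ?_ hkl
    rw [hde]
    exact_mod_cast pow_dvd_pow 2 h0
  constructor
  · intro h
    have h2 := dvd_add h h1
    rwa [sub_add_sub_cancel] at h2
  · intro h
    have h2 := dvd_sub h h1
    have h3 : vr x - l - (k - l) = vr x - k := by ring
    rwa [h3] at h2

private lemma two_zero (a b : ZMod 2) : a + b + a + b = 0 := by
  revert a b
  decide

/-- here `-7 = 1` modulo `8`, so the terms cancel if `16` does not divide the order -/
lemma wT_supp7 {x : ZMod m} (h : wT 3 5 7 x ≠ 0) (h7 : 7 ∣ addOrderOf x) :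
    16 ∣ addOrderOf x := by
  by_contra hc
  apply h
  unfold wT
  rw [if_pos (wT_supp h), if_pos h7]
  have h1 : T2 x (-(7 : ℕ)) ↔ T2 x 1 := T2_congr (e := 3) (d := 8) hc (by norm_num) (by norm_num)
  have h2 : T2 x ((7 : ℕ) : ℤ) ↔ T2 x (-1) :=
    T2_congr (e := 3) (d := 8) hc (by norm_num) (by norm_num)
  rw [ind_congr (and_congr_left' (c := Tt 7 x 1) h1),
    ind_congr (and_congr_left' (c := Tt 7 x (-1)) h2)]
  exact two_zero _ _

/-- here `-3 = 1` modulo `4` -/
lemma wT_supp3 {x : ZMod m} (h : wT 5 7 3 x ≠ 0) (h7 : 3 ∣ addOrderOf x) :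
    8 ∣ addOrderOf x := by
  by_contra hc
  apply h
  unfold wT
  rw [if_pos (wT_supp h), if_pos h7]
  have h1 : T2 x (-(3 : ℕ)) ↔ T2 x 1 := T2_congr (e := 2) (d := 4) hc (by norm_num) (by norm_num)
  have h2 : T2 x ((3 : ℕ) : ℤ) ↔ T2 x (-1) :=
    T2_congr (e := 2) (d := 4) hc (by norm_num) (by norm_num)
  rw [ind_congr (and_congr_left' (c := Tt 3 x 1) h1),
    ind_congr (and_congr_left' (c := Tt 3 x (-1)) h2)]
  exact two_zero _ _

end Pool.Agent.Lib.MP_938ce2_ag_h99w
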