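import Pool.Agent.Lib.MP_938ce2_ag_h99w.WD

/-!
Fibres of the multiplication by a prime.
-/

set_option autoImplicit false
set_option linter.style.haveILetI false
set_option linter.unusedSectionVars false

open Finset

namespace Pool.Agent.Lib.MP_938ce2_ag_h99w

open Pool.Agent.Lib.MP_938ce2_ag_h99

variable {m : ℕ} [NeZero m]

private lemma e02_order {p : ℕ} (hp : p.Prime) (b : ZMod m) :
    (p ∣ addOrderOf b → addOrderOf b = p * addOrderOf ((p : ZMod m) * b)) ∧
      (¬ p ∣ addOrderOf b → addOrderOf b = addOrderOf ((p : ZMod m) * b)) := by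
  have h1 : addOrderOf ((p : ZMod m) * b) = addOrderOf b / (addOrderOf b).gcd p := by
    rw [← nsmul_eq_mul]
    exact addOrderOf_nsmul' b hp.ne_zero
  constructor
  · intro h
    rw [h1, Nat.gcd_eq_right h, Nat.mul_div_cancel' h]
  · intro h
    have h2 : (addOrderOf b).gcd p = 1 := ((Nat.Prime.coprime_iff_not_dvd hp).mpr h).symm
    rw [h1, h2, Nat.div_one]

lemma fib_dvd {p : ℕ} (hp : p.Prime) {b : ZMod m} (h : p ∣ addOrderOf ((p : ZMod m) * b)) :
    addOrderOf b = p * addOrderOf ((p : ZMod m) * b) := by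
  by_cases h1 : p ∣ addOrderOf b
  · exact (e02_order hp b).1 h1
  · rw [← (e02_order hp b).2 h1] at h
    exact absurd h h1

lemma fib_not {p : ℕ} (hp : p.Prime) (b : ZMod m) :
    addOrderOf b = addOrderOf ((p : ZMod m) * b) ∨
      addOrderOf b = p * addOrderOf ((p : ZMod m) * b) := by
  by_cases h1 : p ∣ addOrderOf b
  · exact Or.inr ((e02_order hp b).1 h1)
  · exact Or.inl ((e02_order hp b).2 h1)

/-- the element of the fibre with the same order -/
lemma fib_one {p : ℕ} (hp : p.Prime) (b0 : ZMod m)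
    (h : ¬ p ∣ addOrderOf ((p : ZMod m) * b0)) :
    ∃ a0 : ZMod m, (p : ZMod m) * a0 = (p : ZMod m) * b0 ∧
      addOrderOf a0 = addOrderOf ((p : ZMod m) * b0) ∧
      ∀ b : ZMod m, (p : ZMod m) * b = (p : ZMod m) * b0 →
        addOrderOf b = addOrderOf ((p : ZMod m) * b0) → b = a0 := by
  set c : ZMod m := (p : ZMod m) * b0 with hc
  have hcop : Nat.Coprime p (addOrderOf c) := (Nat.Prime.coprime_iff_not_dvd hp).mpr h
  have hN : addOrderOf c ≠ 0 :=
    (Nat.pos_of_dvd_of_pos (addOrderOf_dvd_m c) (Nat.pos_of_ne_zero (NeZero.ne m))).ne'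
  obtain ⟨k, hk⟩ : ∃ k : ℕ, p * k ≡ 1 [MOD addOrderOf c] := by
    haveI : NeZero (addOrderOf c) := ⟨hN⟩
    refine ⟨((ZMod.unitOfCoprime p hcop)⁻¹ : (ZMod (addOrderOf c))ˣ).val.val, ?_⟩
    rw [← ZMod.natCast_eq_natCast_iff]
    push_cast
    rw [ZMod.natCast_zmod_val]
    have h1 := Units.mul_inv (ZMod.unitOfCoprime p hcop)
    rw [ZMod.coe_unitOfCoprime] at h1
    exact h1
  have hred : ∀ b : ZMod m, addOrderOf b = addOrderOf c → (p * k) • b = b := by
    intro b hb
    have h1 : (p * k) • b = 1 • b := by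
      rw [← hb] at hk
      exact nsmul_eq_nsmul_iff_modEq.mpr hk
    rwa [one_smul] at h1
  have ha : (p : ZMod m) * (k • c) = c := by
    have h1 := hred c rfl
    rw [mul_smul, nsmul_eq_mul] at h1
    exact h1
  refine ⟨k • c, ha, ?_, ?_⟩
  · apply Nat.dvd_antisymm
    · apply addOrderOf_dvd_of_nsmul_eq_zero
      rw [smul_comm, addOrderOf_nsmul_eq_zero, smul_zero]
    · apply addOrderOf_dvd_of_nsmul_eq_zero
      have h1 : addOrderOf (k • c) • c = addOrderOf (k • c) • ((p : ZMod m) * (k • c)) := by rw [ha]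
      rw [h1, ← nsmul_eq_mul, smul_comm, addOrderOf_nsmul_eq_zero, smul_zero]
  · intro b hb ho
    have h1 := hred b ho
    rw [mul_comm p k, mul_smul, nsmul_eq_mul p b, hb] at h1
    exact h1.symm

open Classical in
lemma fib_card {p : ℕ} (hp : p.Prime) (hpm : p ∣ m) (b0 : ZMod m) :
    (univ.filter (fun b : ZMod m => (p : ZMod m) * b = (p : ZMod m) * b0)).card = p := by
  obtain ⟨e, he⟩ := hpm
  have hm0 : 0 < m := Nat.pos_of_ne_zero (NeZero.ne m)
  have he0 : 0 < e := Nat.pos_of_ne_zero fun h0 => by rw [h0, mul_zero] at he; omega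
  have h1 : univ.filter (fun b : ZMod m => (p : ZMod m) * b = (p : ZMod m) * b0) =
      (range p).image fun j : ℕ => b0 + ((e * j : ℕ) : ZMod m) := by
    ext b
    simp only [mem_filter, mem_univ, true_and, mem_image, mem_range]
    constructor
    · intro hb
      have h2 : (p : ZMod m) * (b - b0) = 0 := by rw [mul_sub, hb, sub_self]
      rw [← ZMod.natCast_zmod_val (b - b0), ← Nat.cast_mul, ZMod.natCast_eq_zero_iff] at h2
      have h3 : e ∣ (b - b0).val := by
        have h4 : p * e ∣ p * (b - b0).val := by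
          rw [← he]
          exact h2
        exact Nat.dvd_of_mul_dvd_mul_left hp.pos h4
      obtain ⟨j, hj⟩ := h3
      refine ⟨j, ?_, ?_⟩
      · have h5 := ZMod.val_lt (b - b0)
        by_contra hcon
        rw [not_lt] at hcon
        have h6 : p * e ≤ e * j := by
          rw [mul_comm p e]
          exact Nat.mul_le_mul_left e hcon
        omega
      · rw [← hj, ZMod.natCast_zmod_val]
        ring
    · rintro ⟨j, -, rfl⟩
      rw [mul_add]
      have h2 : (p : ZMod m) * ((e * j : ℕ) : ZMod m) = 0 := by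
        rw [← Nat.cast_mul, ZMod.natCast_eq_zero_iff]
        exact ⟨j, by rw [← mul_assoc, ← he]⟩
      rw [h2, add_zero]
  rw [h1, card_image_of_injOn, card_range]
  intro i hi j hj hij
  have h2 : ((e * i : ℕ) : ZMod m) = ((e * j : ℕ) : ZMod m) := add_left_cancel hij
  rw [ZMod.natCast_eq_natCast_iff] at h2
  have hi' : i < p := by simpa using hi
  have hj' : j < p := by simpa using hj
  have h3 : e * i < m := by
    rw [he, mul_comm p e]
    exact Nat.mul_lt_mul_of_pos_left hi' he0
  have h4 : e * j < m := by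
    rw [he, mul_comm p e]
    exact Nat.mul_lt_mul_of_pos_left hj' he0
  have h5 : e * i = e * j := Nat.ModEq.eq_of_lt_of_lt h2 h3 h4
  exact Nat.eq_of_mul_eq_mul_left he0 h5

end Pool.Agent.Lib.MP_938ce2_ag_h99w
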