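import Pool.Agent.Lib.MP_938ce2_ag_h99w.B03
import Pool.Agent.Lib.MP_938ce2_ag_h99w.E02

/-!
The weights `wT`: fibres at the prime two.
-/

set_option autoImplicit false
set_option linter.style.haveILetI false
set_option linter.unusedSectionVars false

open Finset

namespace Pool.Agent.Lib.MP_938ce2_ag_h99w

open Pool.Agent.Lib.MP_938ce2_ag_h99 Pool.Agent.Lib.MP_938ce2_ag_h85c
open Pool.Agent.Lib.MP_938ce2_ag_H7f Pool.Agent.Lib.MP_938ce2_ag_h6

variable {m : ℕ} [NeZero m]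

lemma ind_pos5 {P : Prop} (h : P) : ind P = 1 := by
  unfold ind
  rw [if_pos h]

lemma ind_neg5 {P : Prop} (h : ¬ P) : ind P = 0 := by
  unfold ind
  rw [if_neg h]

lemma wT_pos5 {r s t : ℕ} {x : ZMod m} {N : ℕ} (hN : addOrderOf x = N)
    (h : 4 ∣ N ∧ r ∣ N ∧ s ∣ N) (ht : t ∣ N) : wT r s t x =
      ind (T2 x 1 ∧ Tt t x 1) + ind (T2 x (-1) ∧ Tt t x (-1)) + ind (T2 x (-t) ∧ Tt t x 1)
        + ind (T2 x t ∧ Tt t x (-1)) := by
  unfold wT
  rw [hN, if_pos h, if_pos ht]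

lemma wT_neg5 {r s t : ℕ} {x : ZMod m} {N : ℕ} (hN : addOrderOf x = N)
    (h : 4 ∣ N ∧ r ∣ N ∧ s ∣ N) (ht : ¬ t ∣ N) : wT r s t x = ind (T2 x 1) + ind (T2 x (-1)) := by
  unfold wT
  rw [hN, if_pos h, if_neg ht]

lemma wT_zero5 {r s t : ℕ} {x : ZMod m} {N : ℕ} (hN : addOrderOf x = N)
    (h : ¬ (4 ∣ N ∧ r ∣ N ∧ s ∣ N)) : wT r s t x = 0 := by
  unfold wT
  rw [hN, if_neg h]

/-- the two lifts of a class modulo `2 ^ e` -/
lemma two_lift5 {e : ℕ} {o v v' vc k : ℤ} (ho : ¬ 2 ∣ o)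
    (h1 : (2 : ℤ) ^ (e + 1) ∣ v' - v - 2 ^ e * o) (h2 : (2 : ℤ) ^ e ∣ v - vc) (Q : Prop) :
    ind ((2 : ℤ) ^ (e + 1) ∣ v - k ∧ Q) + ind ((2 : ℤ) ^ (e + 1) ∣ v' - k ∧ Q) =
      ind ((2 : ℤ) ^ e ∣ vc - k ∧ Q) := by
  have h0 : (2 : ℤ) ^ e ≠ 0 := by positivity
  have hee : (2 : ℤ) ^ e ∣ 2 ^ (e + 1) := pow_dvd_pow 2 (Nat.le_succ e)
  have key : ∀ j : ℤ, (2 : ℤ) ^ (e + 1) ∣ 2 ^ e * j ↔ 2 ∣ j := by
    intro j
    rw [pow_succ]
    exact mul_dvd_mul_iff_left h0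
  by_cases hQ : Q
  swap
  · unfold ind
    rw [if_neg (fun h => hQ h.2), if_neg (fun h => hQ h.2), if_neg (fun h => hQ h.2), add_zero]
  have hv : (2 : ℤ) ^ e ∣ vc - k ↔ (2 : ℤ) ^ e ∣ v - k := by
    constructor
    · intro h
      have := dvd_add h h2
      have e1 : vc - k + (v - vc) = v - k := by ring
      rwa [e1] at this
    · intro h
      have := dvd_sub h h2
      have e1 : v - k - (v - vc) = vc - k := by ring
      rwa [e1] at this
  by_cases hk : (2 : ℤ) ^ e ∣ v - k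
  · obtain ⟨j, hj⟩ := hk
    have e1 : (2 : ℤ) ^ (e + 1) ∣ v - k ↔ 2 ∣ j := by rw [hj]; exact key j
    have e2 : (2 : ℤ) ^ (e + 1) ∣ v' - k ↔ 2 ∣ o + j := by
      rw [← key (o + j)]
      have e3 : v' - k = (v' - v - 2 ^ e * o) + 2 ^ e * (o + j) := by linear_combination hj
      rw [e3]
      exact dvd_add_right h1
    have e3 : (2 : ℤ) ^ e ∣ vc - k := hv.mpr ⟨j, hj⟩
    rw [ind_pos5 (P := (2 : ℤ) ^ e ∣ vc - k ∧ Q) ⟨e3, hQ⟩]
    by_cases hj2 : 2 ∣ j
    · rw [ind_pos5 (P := (2 : ℤ) ^ (e + 1) ∣ v - k ∧ Q) ⟨e1.mpr hj2, hQ⟩,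
        ind_neg5 (P := (2 : ℤ) ^ (e + 1) ∣ v' - k ∧ Q), add_zero]
      rintro ⟨h, -⟩
      have := e2.mp h
      exact ho (by omega)
    · rw [ind_neg5 (P := (2 : ℤ) ^ (e + 1) ∣ v - k ∧ Q) (fun h => hj2 (e1.mp h.1)),
        ind_pos5 (P := (2 : ℤ) ^ (e + 1) ∣ v' - k ∧ Q) ⟨e2.mpr (by omega), hQ⟩, zero_add]
  · have e1 : ¬ (2 : ℤ) ^ (e + 1) ∣ v - k := fun h => hk (dvd_trans hee h)
    have e2 : ¬ (2 : ℤ) ^ (e + 1) ∣ v' - k := by
      intro h
      apply hk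
      have h3 := dvd_trans hee h
      have h4 := dvd_trans hee h1
      have h5 : v - k = (v' - k) - (v' - v - 2 ^ e * o) - 2 ^ e * o := by ring
      rw [h5]
      exact dvd_sub (dvd_sub h3 h4) (dvd_mul_right _ _)
    unfold ind
    rw [if_neg (fun h => e1 h.1), if_neg (fun h => e2 h.1), if_neg (fun h => hk (hv.mp h.1)),
      add_zero]

lemma odd_dvd5 {r K : ℕ} (hr : ¬ 2 ∣ r) : r ∣ 2 * K ↔ r ∣ K := by
  have h1 : Nat.Coprime r 2 := ((Nat.Prime.coprime_iff_not_dvd Nat.prime_two).mpr hr).symm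
  exact ⟨fun h => h1.dvd_of_dvd_mul_left h, fun h => Dvd.dvd.mul_left h 2⟩

/-- the weight modulo four -/
lemma mod_four5 {v v' t : ℤ} (hv : ¬ 2 ∣ v) (h : (4 : ℤ) ∣ v' - v - 2) (ht : ¬ 2 ∣ t)
    (A B : Prop) :
    ind ((4 : ℤ) ∣ v - 1 ∧ A) + ind ((4 : ℤ) ∣ v - -1 ∧ B) + ind ((4 : ℤ) ∣ v - -t ∧ A)
      + ind ((4 : ℤ) ∣ v - t ∧ B) =
    ind ((4 : ℤ) ∣ v' - 1 ∧ A) + ind ((4 : ℤ) ∣ v' - -1 ∧ B) + ind ((4 : ℤ) ∣ v' - -t ∧ A)
      + ind ((4 : ℤ) ∣ v' - t ∧ B) := by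
  have hv4 : v % 4 = 1 ∨ v % 4 = 3 := by omega
  have ht4 : t % 4 = 1 ∨ t % 4 = 3 := by omega
  have hx : ∀ x : ZMod 2, x + x = 0 := by decide
  rcases hv4 with h1 | h1 <;> rcases ht4 with h2 | h2
  · have a1 : (4 : ℤ) ∣ v - 1 := by omega
    have a2 : ¬ (4 : ℤ) ∣ v - -1 := by omega
    have a3 : ¬ (4 : ℤ) ∣ v - -t := by omega
    have a4 : (4 : ℤ) ∣ v - t := by omega
    have b1 : ¬ (4 : ℤ) ∣ v' - 1 := by omega
    have b2 : (4 : ℤ) ∣ v' - -1 := by omega
    have b3 : (4 : ℤ) ∣ v' - -t := by omega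
    have b4 : ¬ (4 : ℤ) ∣ v' - t := by omega
    simp only [a1, a2, a3, a4, b1, b2, b3, b4, true_and, false_and]
    ring
  · have a1 : (4 : ℤ) ∣ v - 1 := by omega
    have a2 : ¬ (4 : ℤ) ∣ v - -1 := by omega
    have a3 : (4 : ℤ) ∣ v - -t := by omega
    have a4 : ¬ (4 : ℤ) ∣ v - t := by omega
    have b1 : ¬ (4 : ℤ) ∣ v' - 1 := by omega
    have b2 : (4 : ℤ) ∣ v' - -1 := by omega
    have b3 : ¬ (4 : ℤ) ∣ v' - -t := by omega
    have b4 : (4 : ℤ) ∣ v' - t := by omega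
    simp only [a1, a2, a3, a4, b1, b2, b3, b4, true_and, false_and]
    linear_combination hx (ind A) - hx (ind B)
  · have a1 : ¬ (4 : ℤ) ∣ v - 1 := by omega
    have a2 : (4 : ℤ) ∣ v - -1 := by omega
    have a3 : (4 : ℤ) ∣ v - -t := by omega
    have a4 : ¬ (4 : ℤ) ∣ v - t := by omega
    have b1 : (4 : ℤ) ∣ v' - 1 := by omega
    have b2 : ¬ (4 : ℤ) ∣ v' - -1 := by omega
    have b3 : ¬ (4 : ℤ) ∣ v' - -t := by omega
    have b4 : (4 : ℤ) ∣ v' - t := by omega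
    simp only [a1, a2, a3, a4, b1, b2, b3, b4, true_and, false_and]
    ring
  · have a1 : ¬ (4 : ℤ) ∣ v - 1 := by omega
    have a2 : (4 : ℤ) ∣ v - -1 := by omega
    have a3 : ¬ (4 : ℤ) ∣ v - -t := by omega
    have a4 : (4 : ℤ) ∣ v - t := by omega
    have b1 : (4 : ℤ) ∣ v' - 1 := by omega
    have b2 : ¬ (4 : ℤ) ∣ v' - -1 := by omega
    have b3 : (4 : ℤ) ∣ v' - -t := by omega
    have b4 : ¬ (4 : ℤ) ∣ v' - t := by omega
    simp only [a1, a2, a3, a4, b1, b2, b3, b4, true_and, false_and]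
    linear_combination hx (ind B) - hx (ind A)

lemma mod_four5' {v v' : ℤ} (hv : ¬ 2 ∣ v) (h : (4 : ℤ) ∣ v' - v - 2) :
    ind ((4 : ℤ) ∣ v - 1) + ind ((4 : ℤ) ∣ v - -1) =
    ind ((4 : ℤ) ∣ v' - 1) + ind ((4 : ℤ) ∣ v' - -1) := by
  have hv4 : v % 4 = 1 ∨ v % 4 = 3 := by omega
  rcases hv4 with h1 | h1
  · have a1 : (4 : ℤ) ∣ v - 1 := by omega
    have a2 : ¬ (4 : ℤ) ∣ v - -1 := by omega
    have b1 : ¬ (4 : ℤ) ∣ v' - 1 := by omega
    have b2 : (4 : ℤ) ∣ v' - -1 := by omega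
    simp only [a1, a2, b1, b2]
    ring
  · have a1 : ¬ (4 : ℤ) ∣ v - 1 := by omega
    have a2 : (4 : ℤ) ∣ v - -1 := by omega
    have b1 : (4 : ℤ) ∣ v' - 1 := by omega
    have b2 : ¬ (4 : ℤ) ∣ v' - -1 := by omega
    simp only [a1, a2, b1, b2]
    ring

/-- Put `c = 2 * b0`. If `4 ∣ addOrderOf c`: two elements `b`, `b'` of twice the order with
numerators `v`, `v + addOrderOf c` (`vr_two`), which are the two lifts modulo `2 ^ (a + 1)` of the
class modulo `2 ^ a`; so each condition `T2 c k` holds for exactly one of them if it holds for `c`,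
and for none otherwise. If `addOrderOf c % 4 = 2`: `wT c = 0` and the two elements have order
divisible by `4` exactly; every odd number is `1` or `-1` modulo `4`, and the two values are equal
(`t` is odd). If the order of `c` is odd, all weights in the fibre are zero. -/
theorem wT_fib2 {r s t : ℕ} (hr : ¬ 2 ∣ r) (hs : ¬ 2 ∣ s) (ht : ¬ 2 ∣ t) (h2m : 2 ∣ m)
    (b0 : ZMod m) :
    ∑ b ∈ univ.filter (fun b : ZMod m => (2 : ZMod m) * b = (2 : ZMod m) * b0), wT r s t b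
      = wT r s t ((2 : ZMod m) * b0) := by
  classical
  by_cases h2K : 2 ∣ addOrderOf ((2 : ZMod m) * b0)
  swap
  · -- all the weights are zero
    have h4 : ¬ 4 ∣ addOrderOf ((2 : ZMod m) * b0) := fun h => h2K (dvd_trans (by norm_num) h)
    have h5 : wT r s t ((2 : ZMod m) * b0) = 0 := by
      unfold wT
      rw [if_neg (fun h => h4 h.1)]
    rw [h5]
    apply Finset.sum_eq_zero
    intro b hb
    have hb' : (2 : ZMod m) * b = (2 : ZMod m) * b0 := (Finset.mem_filter.mp hb).2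
    have h6 := fib_not Nat.prime_two b
    rw [Nat.cast_ofNat, hb'] at h6
    unfold wT
    rw [if_neg]
    rintro ⟨h, -⟩
    rcases h6 with h7 | h7
    · exact h4 (h7 ▸ h)
    · rw [h7] at h
      omega
  obtain ⟨ho, b', hne, hb1, hb2, hb3, hb4⟩ := vr_two h2m h2K
  have hfil : univ.filter (fun b : ZMod m => (2 : ZMod m) * b = (2 : ZMod m) * b0) = {b0, b'} := by
    ext b
    rw [Finset.mem_filter, Finset.mem_insert, Finset.mem_singleton]
    constructor
    · rintro ⟨-, h⟩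
      exact hb4 b h
    · rintro (h | h)
      · exact ⟨Finset.mem_univ _, by rw [h]⟩
      · exact ⟨Finset.mem_univ _, by rw [h, hb1]⟩
  rw [hfil, Finset.sum_pair hne.symm]
  set c : ZMod m := (2 : ZMod m) * b0 with hc
  have hK0 : addOrderOf c ≠ 0 := (addOrderOf_pos c).ne'
  set K := addOrderOf c with hK
  have ho' : addOrderOf b' = 2 * K := by rw [hb2, ho]
  have hup : (K : ℤ) ∣ vr b0 - vr c := by
    have h := vr_up (p := 2) (b := b0) (by rw [Nat.cast_ofNat]; exact ho)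
    rwa [Nat.cast_ofNat] at h
  have hb3' : ((2 * K : ℕ) : ℤ) ∣ vr b' - vr b0 - K := by rw [← ho]; exact hb3
  have hKbb : (K : ℤ) ∣ vr b' - vr b0 := by
    have h1 : (K : ℤ) ∣ vr b' - vr b0 - K := dvd_trans (by push_cast; exact Dvd.intro_left _ rfl) hb3'
    have h2 := dvd_add h1 (dvd_refl (K : ℤ))
    have h3 : vr b' - vr b0 - K + K = vr b' - vr b0 := by ring
    rwa [h3] at h2
  -- the conditions at t
  have hTt : t ∣ K → ∀ k, (Tt t b0 k ↔ Tt t c k) ∧ (Tt t b' k ↔ Tt t c k) := by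
    intro htK k
    have htK' : (t : ℤ) ∣ (K : ℤ) := by exact_mod_cast htK
    have h1 := dvd_trans htK' hup
    have h2 := dvd_trans htK' hKbb
    unfold Tt
    have e1 : (t : ℤ) ∣ vr b0 - k ↔ (t : ℤ) ∣ vr c - k := by
      constructor
      · intro h
        have := dvd_sub h h1
        have e : vr b0 - k - (vr b0 - vr c) = vr c - k := by ring
        rwa [e] at this
      · intro h
        have := dvd_add h h1
        have e : vr c - k + (vr b0 - vr c) = vr b0 - k := by ring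
        rwa [e] at this
    refine ⟨e1, ?_⟩
    rw [← e1]
    constructor
    · intro h
      have := dvd_sub h h2
      have e : vr b' - k - (vr b' - vr b0) = vr b0 - k := by ring
      rwa [e] at this
    · intro h
      have := dvd_add h h2
      have e : vr b0 - k + (vr b' - vr b0) = vr b' - k := by ring
      rwa [e] at this
  by_cases hrs : r ∣ K ∧ s ∣ K
  swap
  · -- all zero
    have hr2 : ¬ (r ∣ 2 * K ∧ s ∣ 2 * K) := by
      rw [odd_dvd5 hr, odd_dvd5 hs]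
      exact hrs
    have e1 : wT r s t b0 = 0 := wT_zero5 ho (fun h => hr2 h.2)
    have e2 : wT r s t b' = 0 := wT_zero5 ho' (fun h => hr2 h.2)
    have e3 : wT r s t c = 0 := wT_zero5 hK.symm (fun h => hrs h.2)
    rw [e1, e2, e3, add_zero]
  have hr2 : r ∣ 2 * K ∧ s ∣ 2 * K := by
    rw [odd_dvd5 hr, odd_dvd5 hs]
    exact hrs
  have h42 : 4 ∣ 2 * K := by omega
  have hfac : (2 * K).factorization 2 = K.factorization 2 + 1 := by
    rw [Nat.factorization_mul (by norm_num) hK0, Finsupp.add_apply,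
      Nat.Prime.factorization_self Nat.prime_two, add_comm]
  have hKe : K = 2 ^ K.factorization 2 * (K / 2 ^ K.factorization 2) :=
    (Nat.ordProj_mul_ordCompl_eq_self K 2).symm
  have hoo : ¬ (2 : ℤ) ∣ ((K / 2 ^ K.factorization 2 : ℕ) : ℤ) := by
    intro h
    have h' : 2 ∣ K / 2 ^ K.factorization 2 := by exact_mod_cast h
    exact Nat.not_dvd_ordCompl Nat.prime_two hK0 h'
  set e := K.factorization 2 with he
  set o := K / 2 ^ e with hoe
  by_cases h4K : 4 ∣ K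
  · -- the main case
    have hl : ∀ (k : ℤ) (Q : Prop), ind (T2 b0 k ∧ Q) + ind (T2 b' k ∧ Q) = ind (T2 c k ∧ Q) := by
      intro k Q
      unfold T2
      rw [ho, ho', ← hK, ← he, hfac]
      push_cast
      apply two_lift5 (o := (o : ℤ)) hoo
      · have h1 : ((2 : ℤ) ^ (e + 1)) ∣ ((2 * K : ℕ) : ℤ) := by
          push_cast
          rw [hKe]
          push_cast
          rw [pow_succ]
          exact ⟨(o : ℤ), by ring⟩
        have h2 := dvd_trans h1 hb3'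
        have h3 : (K : ℤ) = 2 ^ e * (o : ℤ) := by
          have := congrArg (Nat.cast : ℕ → ℤ) hKe
          push_cast at this
          exact this
        rwa [← h3]
      · have h3 : (K : ℤ) = 2 ^ e * (o : ℤ) := by
          have := congrArg (Nat.cast : ℕ → ℤ) hKe
          push_cast at this
          exact this
        exact dvd_trans ⟨(o : ℤ), h3⟩ hup
    by_cases htK : t ∣ K
    · have htK2 : t ∣ 2 * K := Dvd.dvd.mul_left htK 2
      rw [wT_pos5 ho ⟨h42, hr2⟩ htK2, wT_pos5 ho' ⟨h42, hr2⟩ htK2, wT_pos5 hK.symm ⟨h4K, hrs⟩ htK]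
      simp only [(hTt htK _).1, (hTt htK _).2]
      rw [← hl 1, ← hl (-1), ← hl (-t), ← hl t]
      ring
    · have htK2 : ¬ t ∣ 2 * K := by rw [odd_dvd5 ht]; exact htK
      rw [wT_neg5 ho ⟨h42, hr2⟩ htK2, wT_neg5 ho' ⟨h42, hr2⟩ htK2, wT_neg5 hK.symm ⟨h4K, hrs⟩ htK]
      have h1 := hl 1 True
      have h2 := hl (-1) True
      simp only [and_true] at h1 h2
      rw [← h1, ← h2]
      ring
  · -- order twice an odd number
    have hwc : wT r s t c = 0 := by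
      unfold wT
      rw [if_neg (fun h => h4K h.1)]
    rw [hwc]
    have he1 : e = 1 := by
      have h1 : 1 ≤ e := by
        rw [he]
        exact (Nat.Prime.dvd_iff_one_le_factorization Nat.prime_two hK0).mp h2K
      by_contra h2
      have h3 : 2 ≤ e := by omega
      apply h4K
      have h4 : 2 ^ 2 ∣ 2 ^ e := pow_dvd_pow 2 h3
      exact dvd_trans h4 (Nat.ordProj_dvd K 2)
    have hT : ∀ (b : ZMod m), addOrderOf b = 2 * K → ∀ k, T2 b k ↔ (4 : ℤ) ∣ vr b - k := by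
      intro b hb k
      unfold T2
      rw [hb, hfac, he1]
      norm_num
    have hv : ¬ (2 : ℤ) ∣ vr b0 := by
      intro h
      have h1 := vr_coprime b0
      have h2 : (2 : ℤ) ∣ (addOrderOf b0 : ℤ) := by
        rw [ho]
        push_cast
        exact Dvd.intro _ rfl
      have h3 := h1.isUnit_of_dvd' h h2
      rw [Int.isUnit_iff] at h3
      omega
    have hK2 : K % 4 = 2 := by omega
    have h4 : (4 : ℤ) ∣ vr b' - vr b0 - 2 := by
      have h1 : (4 : ℤ) ∣ ((2 * K : ℕ) : ℤ) := by exact_mod_cast h42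
      have h2 := dvd_trans h1 hb3'
      omega
    have ht' : ¬ (2 : ℤ) ∣ (t : ℤ) := by
      intro h
      exact ht (by exact_mod_cast h)
    have heq : wT r s t b0 = wT r s t b' := by
      by_cases htK : t ∣ K
      · have htK2 : t ∣ 2 * K := Dvd.dvd.mul_left htK 2
        rw [wT_pos5 ho ⟨h42, hr2⟩ htK2, wT_pos5 ho' ⟨h42, hr2⟩ htK2]
        simp only [(hTt htK _).1, (hTt htK _).2, hT b0 ho, hT b' ho']
        exact mod_four5 hv h4 ht' _ _
      · have htK2 : ¬ t ∣ 2 * K := by rw [odd_dvd5 ht]; exact htK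
        rw [wT_neg5 ho ⟨h42, hr2⟩ htK2, wT_neg5 ho' ⟨h42, hr2⟩ htK2]
        simp only [hT b0 ho, hT b' ho']
        exact mod_four5' hv h4
    rw [heq]
    exact CharTwo.add_self_eq_zero _

end Pool.Agent.Lib.MP_938ce2_ag_h99w
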