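import Pool.Agent.Lib.MP_938ce2_ag_h99w.B03
import Pool.Agent.Lib.MP_938ce2_ag_h99w.E02

/-!
The weights `wT`: fibres at the prime `t`.
-/

set_option autoImplicit false
set_option linter.style.haveILetI false
set_option linter.unusedSectionVars false

open Finset

namespace Pool.Agent.Lib.MP_938ce2_ag_h99w

open Pool.Agent.Lib.MP_938ce2_ag_h99 Pool.Agent.Lib.MP_938ce2_ag_h85c
open Pool.Agent.Lib.MP_938ce2_ag_H7f Pool.Agent.Lib.MP_938ce2_ag_h6

variable {m : ℕ} [NeZero m]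

lemma dvd_iff6 {a x y : ℤ} (h : a ∣ x - y) (k : ℤ) : a ∣ x - k ↔ a ∣ y - k := by
  constructor
  · intro h'
    have h2 := dvd_sub h' h
    have h3 : x - k - (x - y) = y - k := by ring
    rwa [h3] at h2
  · intro h'
    have h2 := dvd_add h' h
    have h3 : y - k + (x - y) = x - k := by ring
    rwa [h3] at h2

lemma pow_dvd_order6 (K : ℕ) : ((2 ^ K.factorization 2 : ℕ) : ℤ) ∣ (K : ℤ) := by
  exact_mod_cast Nat.ordProj_dvd K 2

lemma fact_up6 {p K : ℕ} (hp : p.Prime) (hp2 : p ≠ 2) (hK : K ≠ 0) :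
    (p * K).factorization 2 = K.factorization 2 := by
  rw [Nat.factorization_mul hp.ne_zero hK, Finsupp.add_apply,
    Nat.factorization_eq_zero_of_not_dvd, zero_add]
  intro h
  exact hp2 ((Nat.prime_dvd_prime_iff_eq Nat.prime_two hp).mp h).symm

lemma T2_up6 {p : ℕ} (hp : p.Prime) (hp2 : p ≠ 2) {b : ZMod m}
    (h : addOrderOf b = p * addOrderOf ((p : ZMod m) * b)) (k : ℤ) :
    T2 b k ↔ T2 ((p : ZMod m) * b) k := by
  unfold T2
  have hK : addOrderOf ((p : ZMod m) * b) ≠ 0 := (addOrderOf_pos _).ne'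
  have h1 : (addOrderOf b).factorization 2 = (addOrderOf ((p : ZMod m) * b)).factorization 2 := by
    conv_lhs => rw [h]
    exact fact_up6 hp hp2 hK
  rw [h1]
  exact dvd_iff6 (dvd_trans (pow_dvd_order6 _) (vr_up h)) k

lemma Tt_up6 {p t : ℕ} {b : ZMod m}
    (h : addOrderOf b = p * addOrderOf ((p : ZMod m) * b))
    (ht : t ∣ addOrderOf ((p : ZMod m) * b)) (k : ℤ) :
    Tt t b k ↔ Tt t ((p : ZMod m) * b) k := by
  unfold Tt
  refine dvd_iff6 (dvd_trans ?_ (vr_up h)) k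
  exact_mod_cast ht

lemma four_dvd6 {p K : ℕ} (hp : p.Prime) (hp2 : p ≠ 2) : 4 ∣ p * K ↔ 4 ∣ K := by
  have h1 : Nat.Coprime p 2 := (Nat.coprime_primes hp Nat.prime_two).mpr hp2
  have h2 : Nat.Coprime 4 p := (Nat.Coprime.pow_right 2 h1).symm
  exact ⟨fun h => h2.dvd_of_dvd_mul_left h, fun h => Dvd.dvd.mul_left h p⟩

lemma prime_dvd6 {p r K : ℕ} (hp : p.Prime) (hr : r.Prime) (h : r = p → p ∣ K) :
    r ∣ p * K ↔ r ∣ K := by
  constructor
  · intro h1
    rcases (Nat.Prime.dvd_mul hr).mp h1 with h2 | h2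
    · have h3 := (Nat.prime_dvd_prime_iff_eq hr hp).mp h2
      rw [h3]
      exact h h3
    · exact h2
  · intro h1
    exact Dvd.dvd.mul_left h1 p

/-- the weight of the elements of a fibre whose order goes up -/
lemma wT_up6 {r s t p : ℕ} (ht : t.Prime) (hp : p.Prime) (hp2 : p ≠ 2) {b : ZMod m}
    (h : addOrderOf b = p * addOrderOf ((p : ZMod m) * b))
    (hpt : p = t → p ∣ addOrderOf ((p : ZMod m) * b)) [Decidable (4 ∣ addOrderOf ((p : ZMod m) * b)
      ∧ r ∣ p * addOrderOf ((p : ZMod m) * b) ∧ s ∣ p * addOrderOf ((p : ZMod m) * b))]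
    [Decidable (t ∣ addOrderOf ((p : ZMod m) * b))] :
    wT r s t b = if 4 ∣ addOrderOf ((p : ZMod m) * b) ∧ r ∣ p * addOrderOf ((p : ZMod m) * b) ∧
        s ∣ p * addOrderOf ((p : ZMod m) * b) then
      (if t ∣ addOrderOf ((p : ZMod m) * b) then
        ind (T2 ((p : ZMod m) * b) 1 ∧ Tt t ((p : ZMod m) * b) 1)
          + ind (T2 ((p : ZMod m) * b) (-1) ∧ Tt t ((p : ZMod m) * b) (-1))
          + ind (T2 ((p : ZMod m) * b) (-t) ∧ Tt t ((p : ZMod m) * b) 1)
          + ind (T2 ((p : ZMod m) * b) t ∧ Tt t ((p : ZMod m) * b) (-1))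
      else ind (T2 ((p : ZMod m) * b) 1) + ind (T2 ((p : ZMod m) * b) (-1)))
      else 0 := by
  unfold wT
  have e1 : (4 ∣ addOrderOf b ∧ r ∣ addOrderOf b ∧ s ∣ addOrderOf b) ↔
      (4 ∣ addOrderOf ((p : ZMod m) * b) ∧ r ∣ p * addOrderOf ((p : ZMod m) * b) ∧
        s ∣ p * addOrderOf ((p : ZMod m) * b)) := by
    rw [h, four_dvd6 hp hp2]
  have e2 : t ∣ addOrderOf b ↔ t ∣ addOrderOf ((p : ZMod m) * b) := by
    rw [h]
    exact prime_dvd6 hp ht (fun h3 => hpt h3.symm)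
  by_cases h1 : (4 ∣ addOrderOf ((p : ZMod m) * b) ∧ r ∣ p * addOrderOf ((p : ZMod m) * b) ∧
        s ∣ p * addOrderOf ((p : ZMod m) * b))
  · rw [if_pos (e1.mpr h1), if_pos h1]
    by_cases h2 : t ∣ addOrderOf ((p : ZMod m) * b)
    · rw [if_pos (e2.mpr h2), if_pos h2]
      simp only [T2_up6 hp hp2 h, Tt_up6 h h2]
    · rw [if_neg (fun h3 => h2 (e2.mp h3)), if_neg h2]
      simp only [T2_up6 hp hp2 h]
  · rw [if_neg (fun h3 => h1 (e1.mp h3)), if_neg h1]

lemma odd_nsmul6 {p : ℕ} (hp : p.Prime) (hp2 : p ≠ 2) (w : ZMod 2) : p • w = w := by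
  obtain ⟨k, hk⟩ := hp.odd_of_ne_two hp2
  rw [hk, add_smul, one_smul, mul_comm, mul_smul, two_nsmul, CharTwo.add_self_eq_zero, smul_zero,
    zero_add]

lemma even_nsmul6 {p : ℕ} (hp : p.Prime) (hp2 : p ≠ 2) (w : ZMod 2) : (p - 1) • w = 0 := by
  obtain ⟨k, hk⟩ := hp.odd_of_ne_two hp2
  have : p - 1 = k * 2 := by omega
  rw [this, mul_smul, two_nsmul, CharTwo.add_self_eq_zero, smul_zero]

open Classical in
/-- the fibre, when `p` divides the order below -/
lemma wT_fibp6 {r s t p : ℕ} (hr : r.Prime) (hs : s.Prime) (ht : t.Prime) (hp : p.Prime)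
    (hp2 : p ≠ 2) (hpm : p ∣ m) (b0 : ZMod m) (hd : p ∣ addOrderOf ((p : ZMod m) * b0)) :
    ∑ b ∈ univ.filter (fun b : ZMod m => (p : ZMod m) * b = (p : ZMod m) * b0), wT r s t b
      = wT r s t ((p : ZMod m) * b0) := by
  have h1 : ∀ b ∈ univ.filter (fun b : ZMod m => (p : ZMod m) * b = (p : ZMod m) * b0),
      wT r s t b = wT r s t ((p : ZMod m) * b0) := by
    intro b hb
    have hb' : (p : ZMod m) * b = (p : ZMod m) * b0 := (Finset.mem_filter.mp hb).2
    have hd' : p ∣ addOrderOf ((p : ZMod m) * b) := by rw [hb']; exact hd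
    have h2 := fib_dvd hp hd'
    rw [wT_up6 (r := r) (s := s) ht hp hp2 h2 (fun _ => hd'), hb']
    unfold wT
    have e1 : (4 ∣ addOrderOf ((p : ZMod m) * b0) ∧ r ∣ p * addOrderOf ((p : ZMod m) * b0) ∧
        s ∣ p * addOrderOf ((p : ZMod m) * b0)) ↔ (4 ∣ addOrderOf ((p : ZMod m) * b0) ∧
        r ∣ addOrderOf ((p : ZMod m) * b0) ∧ s ∣ addOrderOf ((p : ZMod m) * b0)) := by
      rw [prime_dvd6 hp hr (fun _ => hd), prime_dvd6 hp hs (fun _ => hd)]
    by_cases h3 : (4 ∣ addOrderOf ((p : ZMod m) * b0) ∧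
        r ∣ addOrderOf ((p : ZMod m) * b0) ∧ s ∣ addOrderOf ((p : ZMod m) * b0))
    · rw [if_pos (e1.mpr h3), if_pos h3]
    · rw [if_neg (fun h4 => h3 (e1.mp h4)), if_neg h3]
  rw [Finset.sum_congr rfl h1, Finset.sum_const, fib_card hp hpm b0, odd_nsmul6 hp hp2]

/-- Put `c = t * b0`. If `t ∣ addOrderOf c`, the fibre has `t` elements, all of order
`t * addOrderOf c` and with the weight of `c` (`vr_up`), and `t` is odd. Otherwise: one element
`a0` of the same order with `t * vr a0 = vr c`, so its weight is that of the conditions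
`T2 c t`, `T2 c (-t)`; exactly one element with numerator `1` modulo `t` and one with `-1`
(`vr_res`), which give the four terms. -/
theorem wT_fibt {r s t : ℕ} (hr : r.Prime) (hs : s.Prime) (ht : t.Prime) (hrt : r ≠ t)
    (hst : s ≠ t) (ht2 : t ≠ 2) (htm : t ∣ m) (b0 : ZMod m) :
    ∑ b ∈ univ.filter (fun b : ZMod m => (t : ZMod m) * b = (t : ZMod m) * b0), wT r s t b
      = wT r s t ((t : ZMod m) * b0) := by
  classical
  by_cases hd : t ∣ addOrderOf ((t : ZMod m) * b0)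
  · have := wT_fibp6 (r := r) (s := s) hr hs ht ht ht2 htm b0 hd
    convert this using 1
  obtain ⟨a0, ha1, ha2, ha3⟩ := fib_one ht b0 hd
  set c : ZMod m := (t : ZMod m) * b0 with hc
  have hK0 : addOrderOf c ≠ 0 := (addOrderOf_pos c).ne'
  -- splitting the fibre
  have ha0 : a0 ∈ univ.filter (fun b : ZMod m => (t : ZMod m) * b = c) :=
    Finset.mem_filter.mpr ⟨Finset.mem_univ _, ha1⟩
  have hmem : ∀ b ∈ (univ.filter (fun b : ZMod m => (t : ZMod m) * b = c)).erase a0,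
      (t : ZMod m) * b = c ∧ addOrderOf b = t * addOrderOf c := by
    intro b hb
    rw [Finset.mem_erase, Finset.mem_filter] at hb
    obtain ⟨hb1, _, hb2⟩ := hb
    refine ⟨hb2, ?_⟩
    rcases fib_not ht b with h | h
    · rw [hb2] at h
      exact absurd (ha3 b hb2 h) hb1
    · rw [h, hb2]
  have hmem' : ∀ b : ZMod m, (t : ZMod m) * b = c → addOrderOf b = t * addOrderOf c →
      b ∈ (univ.filter (fun b : ZMod m => (t : ZMod m) * b = c)).erase a0 := by
    intro b hb1 hb2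
    rw [Finset.mem_erase, Finset.mem_filter]
    refine ⟨?_, Finset.mem_univ _, hb1⟩
    intro h
    rw [h, ha2] at hb2
    have : 1 * addOrderOf c = t * addOrderOf c := by rw [one_mul]; exact hb2
    exact ht.one_lt.ne (Nat.eq_of_mul_eq_mul_right (Nat.pos_of_ne_zero hK0) this)
  rw [← Finset.add_sum_erase _ _ ha0]
  -- the counts
  have hcount : ∀ (P : Prop) (k : ℤ), ¬ (t : ℤ) ∣ k →
      ∑ b ∈ (univ.filter (fun b : ZMod m => (t : ZMod m) * b = c)).erase a0,
        ind (P ∧ Tt t b k) = ind P := by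
    intro P k hk
    obtain ⟨b1, ⟨hb1, hb2, hb3⟩, hb4⟩ := vr_res ht htm b0 hd k hk
    rw [← hc] at hb1 hb2 hb4
    rw [Finset.sum_eq_single b1]
    · unfold ind
      by_cases hP : P
      · rw [if_pos hP, if_pos ⟨hP, hb3⟩]
      · rw [if_neg hP, if_neg (fun h => hP h.1)]
    · intro b hb hne
      obtain ⟨h1, h2⟩ := hmem b hb
      unfold ind
      rw [if_neg]
      rintro ⟨-, h3⟩
      exact hne (hb4 b h1 h2 h3)
    · intro h
      exact absurd (hmem' b1 hb1 hb2) h
  have ht1 : ¬ (t : ℤ) ∣ 1 := by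
    intro h
    have h' : t ∣ 1 := by exact_mod_cast h
    exact ht.one_lt.ne' (Nat.dvd_one.mp h')
  have ht1' : ¬ (t : ℤ) ∣ -1 := fun h => ht1 (by simpa using h)
  by_cases hcond : 4 ∣ addOrderOf c ∧ r ∣ addOrderOf c ∧ s ∣ addOrderOf c
  swap
  · -- all zero
    have hwc : wT r s t c = 0 := by
      unfold wT
      rw [if_neg hcond]
    have hwa : wT r s t a0 = 0 := by
      unfold wT
      rw [ha2, if_neg hcond]
    rw [hwc, hwa, zero_add]
    apply Finset.sum_eq_zero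
    intro b hb
    obtain ⟨h1, h2⟩ := hmem b hb
    unfold wT
    rw [if_neg]
    rw [h2, four_dvd6 ht ht2, prime_dvd6 ht hr (fun h => absurd h hrt),
      prime_dvd6 ht hs (fun h => absurd h hst)]
    exact hcond
  have hwc : wT r s t c = ind (T2 c 1) + ind (T2 c (-1)) := by
    unfold wT
    rw [if_pos hcond, if_neg hd]
  have hT2a : ∀ k : ℤ, T2 a0 k ↔ T2 c (t * k) := by
    intro k
    unfold T2
    have h1 := vr_same (p := t) (b := a0) (by rw [ha2, ha1])
    rw [ha1, ha2] at h1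
    have h2 := dvd_trans (pow_dvd_order6 _) h1
    rw [ha2]
    rw [← dvd_iff6 h2 (t * k)]
    have h3 : (t : ℤ) * vr a0 - t * k = t * (vr a0 - k) := by ring
    rw [h3]
    have hcop : IsCoprime ((2 ^ (addOrderOf c).factorization 2 : ℕ) : ℤ) (t : ℤ) := by
      have h4 : Nat.Coprime (2 ^ (addOrderOf c).factorization 2) t := by
        apply Nat.Coprime.pow_left
        exact ((Nat.coprime_primes ht Nat.prime_two).mpr ht2).symm
      exact Nat.isCoprime_iff_coprime.mpr h4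
    constructor
    · intro h
      exact Dvd.dvd.mul_left h _
    · intro h
      exact hcop.dvd_of_dvd_mul_left h
  have hwa : wT r s t a0 = ind (T2 c t) + ind (T2 c (-t)) := by
    unfold wT
    rw [ha2, if_pos hcond, if_neg hd]
    have e1 : T2 a0 1 ↔ T2 c t := by rw [hT2a, mul_one]
    have e2 : T2 a0 (-1) ↔ T2 c (-t) := by rw [hT2a, mul_neg_one]
    rw [propext e1, propext e2]
  have hwb : ∀ b ∈ (univ.filter (fun b : ZMod m => (t : ZMod m) * b = c)).erase a0,
      wT r s t b = ind (T2 c 1 ∧ Tt t b 1) + ind (T2 c (-1) ∧ Tt t b (-1))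
        + ind (T2 c (-t) ∧ Tt t b 1) + ind (T2 c t ∧ Tt t b (-1)) := by
    intro b hb
    obtain ⟨h1, h2⟩ := hmem b hb
    have h3 : addOrderOf b = t * addOrderOf ((t : ZMod m) * b) := by rw [h1]; exact h2
    have hT : ∀ k, T2 b k ↔ T2 c k := by
      intro k
      rw [T2_up6 ht ht2 h3, h1]
    unfold wT
    rw [if_pos, if_pos]
    · simp only [hT]
    · rw [h2]
      exact Dvd.intro _ rfl
    · rw [h2, four_dvd6 ht ht2, prime_dvd6 ht hr (fun h => absurd h hrt),
        prime_dvd6 ht hs (fun h => absurd h hst)]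
      exact hcond
  rw [Finset.sum_congr rfl hwb, Finset.sum_add_distrib, Finset.sum_add_distrib,
    Finset.sum_add_distrib, hcount _ 1 ht1, hcount _ (-1) ht1', hcount _ 1 ht1,
    hcount _ (-1) ht1', hwa, hwc]
  have h2 : ∀ x y z w : ZMod 2, x + y + (z + w + y + x) = z + w := by decide
  exact h2 _ _ _ _

end Pool.Agent.Lib.MP_938ce2_ag_h99w
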