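import Pool.Agent.Lib.MP_938ce2_ag_h99w.B06

/-!
The weights `wT`: fibres at the primes `r` and `s`.
-/

set_option autoImplicit false
set_option linter.style.haveILetI false
set_option linter.unusedSectionVars false

open Finset

namespace Pool.Agent.Lib.MP_938ce2_ag_h99w

open Pool.Agent.Lib.MP_938ce2_ag_h99 Pool.Agent.Lib.MP_938ce2_ag_h85c
open Pool.Agent.Lib.MP_938ce2_ag_H7f Pool.Agent.Lib.MP_938ce2_ag_h6

variable {m : ℕ} [NeZero m]

/-- Put `c = p * b0`. If `p ∣ addOrderOf c`, the fibre has `p` elements, with the same weight as `c`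
(`vr_up`). Otherwise the weight of `c` and of the element of the same order are zero, because `p`
divides `r * s`, and the other `p - 1` elements have the same weight. -/
theorem wT_fibr {r s t p : ℕ} (hr : r.Prime) (hs : s.Prime) (ht : t.Prime) (hrt : r ≠ t)
    (hst : s ≠ t) (hrs : r ≠ s) (hr2 : r ≠ 2) (hs2 : s ≠ 2) (ht2 : t ≠ 2) (hp : p = r ∨ p = s)
    (hpm : p ∣ m) (b0 : ZMod m) :
    ∑ b ∈ univ.filter (fun b : ZMod m => (p : ZMod m) * b = (p : ZMod m) * b0), wT r s t b
      = wT r s t ((p : ZMod m) * b0) := by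
  classical
  have hpp : p.Prime := by
    rcases hp with h | h
    · rw [h]; exact hr
    · rw [h]; exact hs
  have hp2 : p ≠ 2 := by
    rcases hp with h | h
    · rw [h]; exact hr2
    · rw [h]; exact hs2
  have hpt : p ≠ t := by
    rcases hp with h | h
    · rw [h]; exact hrt
    · rw [h]; exact hst
  by_cases hd : p ∣ addOrderOf ((p : ZMod m) * b0)
  · have := wT_fibp6 (r := r) (s := s) hr hs ht hpp hp2 hpm b0 hd
    convert this using 1
  obtain ⟨a0, ha1, ha2, ha3⟩ := fib_one hpp b0 hd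
  set c : ZMod m := (p : ZMod m) * b0 with hc
  have hcond : ¬ (4 ∣ addOrderOf c ∧ r ∣ addOrderOf c ∧ s ∣ addOrderOf c) := by
    rintro ⟨-, h1, h2⟩
    rcases hp with h | h
    · exact hd (h ▸ h1)
    · exact hd (h ▸ h2)
  have hwc : wT r s t c = 0 := by
    unfold wT
    rw [if_neg hcond]
  have hwa : wT r s t a0 = 0 := by
    unfold wT
    rw [ha2, if_neg hcond]
  have ha0 : a0 ∈ univ.filter (fun b : ZMod m => (p : ZMod m) * b = c) :=
    Finset.mem_filter.mpr ⟨Finset.mem_univ _, ha1⟩
  rw [← Finset.add_sum_erase _ _ ha0, hwa, hwc, zero_add]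
  have hcard : ((univ.filter (fun b : ZMod m => (p : ZMod m) * b = c)).erase a0).card
      = p - 1 := by
    rw [Finset.card_erase_of_mem ha0]
    congr 1
    exact fib_card hpp hpm b0
  set W : ZMod 2 := if 4 ∣ addOrderOf c ∧ r ∣ p * addOrderOf c ∧ s ∣ p * addOrderOf c then
      (if t ∣ addOrderOf c then
        ind (T2 c 1 ∧ Tt t c 1) + ind (T2 c (-1) ∧ Tt t c (-1))
          + ind (T2 c (-t) ∧ Tt t c 1) + ind (T2 c t ∧ Tt t c (-1))
      else ind (T2 c 1) + ind (T2 c (-1))) else 0 with hW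
  have h1 : ∀ b ∈ (univ.filter (fun b : ZMod m => (p : ZMod m) * b = c)).erase a0,
      wT r s t b = W := by
    intro b hb
    rw [Finset.mem_erase, Finset.mem_filter] at hb
    obtain ⟨hb1, _, hb2⟩ := hb
    have h2 : addOrderOf b = p * addOrderOf ((p : ZMod m) * b) := by
      rcases fib_not hpp b with h | h
      · rw [hb2] at h
        exact absurd (ha3 b hb2 h) hb1
      · exact h
    rw [wT_up6 (r := r) (s := s) ht hpp hp2 h2 (fun h => absurd h hpt), hb2]
  rw [Finset.sum_congr rfl h1, Finset.sum_const, hcard, even_nsmul6 hpp hp2]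

end Pool.Agent.Lib.MP_938ce2_ag_h99w
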