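import Pool.Agent.Lib.MP_938ce2_ag_h99w.B01
import Pool.Agent.Lib.MP_938ce2_ag_h99w.B02
import Pool.Agent.Lib.MP_938ce2_ag_h99w.B04
import Pool.Agent.Lib.MP_938ce2_ag_h99w.B05
import Pool.Agent.Lib.MP_938ce2_ag_h99w.B06
import Pool.Agent.Lib.MP_938ce2_ag_h99w.B07

/-!
The weights are distributions.
-/

set_option autoImplicit false
set_option linter.style.haveILetI false
set_option linter.unusedSectionVars false

open Finset

namespace Pool.Agent.Lib.MP_938ce2_ag_h99w

open Pool.Agent.Lib.MP_938ce2_ag_h99 Pool.Agent.Lib.MP_938ce2_ag_h85c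
open Pool.Agent.Lib.MP_938ce2_ag_H7f Pool.Agent.Lib.MP_938ce2_ag_h6

variable {m : ℕ} [NeZero m]

private lemma prime_le_seven {p : ℕ} (hp : p.Prime) (h : p ≤ 7) : p = 2 ∨ p = 3 ∨ p = 5 ∨ p = 7 := by
  interval_cases p
  · exact absurd hp (by decide)
  · exact absurd hp (by decide)
  · exact Or.inl rfl
  · exact Or.inr (Or.inl rfl)
  · exact absurd hp (by decide)
  · exact Or.inr (Or.inr (Or.inl rfl))
  · exact absurd hp (by decide)
  · exact Or.inr (Or.inr (Or.inr rfl))

theorem wT357_dist (h7 : ∀ p, p.Prime → p ∣ m → p ≤ 7) : FDist (wT (m := m) 3 5 7) := by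
  refine ⟨wT_even, wT_fix, ?_⟩
  intro p hp hpm b0
  rcases prime_le_seven hp (h7 p hp hpm) with rfl | rfl | rfl | rfl
  · have h := wT_fib2 (m := m) (r := 3) (s := 5) (t := 7) (by norm_num) (by norm_num)
      (by norm_num) hpm b0
    exact_mod_cast h
  · exact wT_fibr (by norm_num) (by norm_num) (by norm_num) (by norm_num) (by norm_num)
      (by norm_num) (by norm_num) (by norm_num) (by norm_num) (Or.inl rfl) hpm b0
  · exact wT_fibr (by norm_num) (by norm_num) (by norm_num) (by norm_num) (by norm_num)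
      (by norm_num) (by norm_num) (by norm_num) (by norm_num) (Or.inr rfl) hpm b0
  · exact wT_fibt (by norm_num) (by norm_num) (by norm_num) (by norm_num) (by norm_num)
      (by norm_num) hpm b0

theorem wT573_dist (h7 : ∀ p, p.Prime → p ∣ m → p ≤ 7) : FDist (wT (m := m) 5 7 3) := by
  refine ⟨wT_even, wT_fix, ?_⟩
  intro p hp hpm b0
  rcases prime_le_seven hp (h7 p hp hpm) with rfl | rfl | rfl | rfl
  · have h := wT_fib2 (m := m) (r := 5) (s := 7) (t := 3) (by norm_num) (by norm_num)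
      (by norm_num) hpm b0
    exact_mod_cast h
  · exact wT_fibt (by norm_num) (by norm_num) (by norm_num) (by norm_num) (by norm_num)
      (by norm_num) hpm b0
  · exact wT_fibr (by norm_num) (by norm_num) (by norm_num) (by norm_num) (by norm_num)
      (by norm_num) (by norm_num) (by norm_num) (by norm_num) (Or.inl rfl) hpm b0
  · exact wT_fibr (by norm_num) (by norm_num) (by norm_num) (by norm_num) (by norm_num)
      (by norm_num) (by norm_num) (by norm_num) (by norm_num) (Or.inr rfl) hpm b0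

private lemma three_le_eff {n p q r : ℕ} (hn : n ≠ 0) (hp : p.Prime) (hq : q.Prime) (hr : r.Prime)
    (hpq : p ≠ q) (hpr : p ≠ r) (hqr : q ≠ r) (hpn : p ∣ n) (hqn : q ∣ n) (hrn : r ∣ n)
    (h2 : p = 2 ∨ q = 2 ∨ r = 2 → 4 ∣ n) : 3 ≤ (effB n).card := by
  have hsub : ({p, q, r} : Finset ℕ) ⊆ effB n := by
    intro x hx
    simp only [mem_insert, mem_singleton] at hx
    unfold effB
    rw [mem_filter, Nat.mem_primeFactors]
    rcases hx with rfl | rfl | rfl
    · exact ⟨⟨hp, hpn, hn⟩, fun h => h2 (Or.inl h)⟩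
    · exact ⟨⟨hq, hqn, hn⟩, fun h => h2 (Or.inr (Or.inl h))⟩
    · exact ⟨⟨hr, hrn, hn⟩, fun h => h2 (Or.inr (Or.inr h))⟩
  have hcard : ({p, q, r} : Finset ℕ).card = 3 := by
    rw [card_eq_three]
    exact ⟨p, q, r, hpq, hpr, hqr, rfl⟩
  rw [← hcard]
  exact card_le_card hsub

lemma w105_eff {x : ZMod m} (h : w105 x ≠ 0) : 3 ≤ (effB (addOrderOf x)).card := by
  have h1 : Odd (addOrderOf x) ∧ 105 ∣ addOrderOf x := by
    by_contra hc
    apply h
    unfold w105
    rw [if_neg hc]
  have h2 := h1.2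
  exact three_le_eff (p := 3) (q := 5) (r := 7) (addOrderOf_pos x).ne' (by norm_num) (by norm_num)
    (by norm_num) (by norm_num) (by norm_num) (by norm_num) (by omega) (by omega) (by omega)
    (by norm_num)

lemma wT357_eff {x : ZMod m} (h : wT 3 5 7 x ≠ 0) : 3 ≤ (effB (addOrderOf x)).card := by
  obtain ⟨h1, h2, h3⟩ := wT_supp h
  exact three_le_eff (p := 2) (q := 3) (r := 5) (addOrderOf_pos x).ne' (by norm_num) (by norm_num)
    (by norm_num) (by norm_num) (by norm_num) (by norm_num) (by omega) h2 h3 (fun _ => h1)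

lemma wT573_eff {x : ZMod m} (h : wT 5 7 3 x ≠ 0) : 3 ≤ (effB (addOrderOf x)).card := by
  obtain ⟨h1, h2, h3⟩ := wT_supp h
  exact three_le_eff (p := 2) (q := 5) (r := 7) (addOrderOf_pos x).ne' (by norm_num) (by norm_num)
    (by norm_num) (by norm_num) (by norm_num) (by norm_num) (by omega) h2 h3 (fun _ => h1)

end Pool.Agent.Lib.MP_938ce2_ag_h99w
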