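import Pool.Agent.Lib.MP_938ce2_ag_h99w.B01

/-!
Functions supported off the orders divisible by `420`.
-/

set_option autoImplicit false
set_option linter.style.haveILetI false
set_option linter.unusedSectionVars false

open Finset

namespace Pool.Agent.Lib.MP_938ce2_ag_h99w

open Pool.Agent.Lib.MP_938ce2_ag_h99 Pool.Agent.Lib.MP_938ce2_ag_h85c
open Pool.Agent.Lib.MP_938ce2_ag_H7f Pool.Agent.Lib.MP_938ce2_ag_h6

variable {m : ℕ} [NeZero m]

/-- the functions whose functional is divisible by four -/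
private def XW (w : ZMod m → ZMod 2) : AddSubgroup (ZMod m → ℤ) where
  carrier := {H | 4 ∣ LW w H}
  add_mem' := by
    intro F G hF hG
    show 4 ∣ LW w (F + G)
    rw [LW_add]
    exact dvd_add hF hG
  zero_mem' := by
    show 4 ∣ LW w 0
    rw [LW_zero]
    exact dvd_zero _
  neg_mem' := by
    intro F hF
    show 4 ∣ LW w (-F)
    rw [LW_neg]
    exact (dvd_neg).mpr hF

private lemma mem_XW {w : ZMod m → ZMod 2} {H : ZMod m → ℤ} : H ∈ XW w ↔ 4 ∣ LW w H := Iff.rfl

private lemma effB_le {k n : ℕ} (hn : n ≠ 0) (hk : k ∣ n) (A : Finset ℕ) (hA : A.card ≤ 2)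
    (h : ∀ p, p.Prime → p ∣ n → (p = 2 → 4 ∣ n) → p ∈ A) : (effB k).card ≤ 2 := by
  refine le_trans (card_le_card fun p hp => ?_) hA
  unfold effB at hp
  rw [mem_filter, Nat.mem_primeFactors] at hp
  exact h p hp.1.1 (hp.1.2.1.trans hk) fun h2 => (hp.2 h2).trans hk

private lemma excW (h420 : 420 ∣ m) {w : ZMod m → ZMod 2}
    (hs : ∀ x, w x ≠ 0 → 3 ≤ (effB (addOrderOf x)).card) {p q n : ℕ} (hn : n ∣ 420)
    (hn' : n < 420) (h2n : 2 ∣ n)
    (hq : q.Prime) (hpq : p < q) (h : Tin p q) (hf : ep p * ep q ∣ m) (hfn : ep p * ep q ∣ n)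
    (A : Finset ℕ) (hA : A.card ≤ 2) (hAp : ∀ p, p.Prime → p ∣ n → (p = 2 → 4 ∣ n) → p ∈ A) :
    Exc (fun f => ¬ 420 ∣ f) (XW w) (ep p * ep q) p q hf := by
  have h0 : n ≠ 0 := by
    rintro rfl
    omega
  obtain ⟨c1, c2, E, hc1, hc2, hc, -, h1, h2, h3, h4⟩ :=
    excAll hq hpq h h2n (hn.trans h420) hf hfn
  refine ⟨c1, c2, E, hc1, hc2, hc, ?_, h1, h2, fun a ha => ⟨(h3 a ha).1, ?_⟩, h4⟩
  · refine AddSubgroup.mem_sup_left ?_
    rw [mem_XW]
    have hz : LW w E = 0 := by
      unfold LW
      refine sum_eq_zero fun x _ => ?_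
      by_cases hx : E x = 0
      · rw [hx, zero_mul]
      · have h5 := effB_le h0 (h3 x hx).2 A hA hAp
        have h6 : w x = 0 := by
          by_contra h7
          have := hs x h7
          omega
        rw [h6, if_neg (by decide), mul_zero]
    rw [hz]
    exact dvd_zero _
  · intro hg2
    have h5 := hg2.trans (h3 a ha).2
    have := Nat.le_of_dvd (Nat.pos_of_ne_zero h0) h5
    omega

private lemma exc420W (h420 : 420 ∣ m) (h7 : ∀ p, p.Prime → p ∣ m → p ≤ 7) {w : ZMod m → ZMod 2}
    (hs : ∀ x, w x ≠ 0 → 3 ≤ (effB (addOrderOf x)).card) {p q : ℕ} (hp : p.Prime) (hq : q.Prime)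
    (hpq : p < q) (hq7 : q ≤ 7)
    (hf : ep p * ep q ∣ m) : Exc (fun f => ¬ 420 ∣ f) (XW w) (ep p * ep q) p q hf := by
  have key : (p = 2 ∧ q = 3) ∨ (p = 2 ∧ q = 5) ∨ (p = 2 ∧ q = 7) ∨ (p = 3 ∧ q = 5) ∨
      (p = 3 ∧ q = 7) ∨ (p = 5 ∧ q = 7) := by
    have hp2 := hp.two_le
    clear hf
    interval_cases q <;> interval_cases p <;> first
      | omega
      | (exfalso; revert hp; norm_num; done)
      | (exfalso; revert hq; norm_num; done)
  rcases key with ⟨rfl, rfl⟩ | ⟨rfl, rfl⟩ | ⟨rfl, rfl⟩ | ⟨rfl, rfl⟩ | ⟨rfl, rfl⟩ | ⟨rfl, rfl⟩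
  · refine excW (n := 12) h420 hs (by norm_num) (by norm_num) (by norm_num) hq hpq (by decide)
      hf (by decide) {2, 3} (by decide) fun r hr hrn h2 => ?_
    have h8 := h7 r hr (hrn.trans ((by norm_num : 12 ∣ 420).trans h420))
    interval_cases r <;> first | decide | (exfalso; revert hr; norm_num; done) |
      (exfalso; revert hrn; norm_num; done)
  · refine excW (n := 20) h420 hs (by norm_num) (by norm_num) (by norm_num) hq hpq (by decide)
      hf (by decide) {2, 5} (by decide) fun r hr hrn h2 => ?_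
    have h8 := h7 r hr (hrn.trans ((by norm_num : 20 ∣ 420).trans h420))
    interval_cases r <;> first | decide | (exfalso; revert hr; norm_num; done) |
      (exfalso; revert hrn; norm_num; done)
  · refine excW (n := 28) h420 hs (by norm_num) (by norm_num) (by norm_num) hq hpq (by decide)
      hf (by decide) {2, 7} (by decide) fun r hr hrn h2 => ?_
    have h8 := h7 r hr (hrn.trans ((by norm_num : 28 ∣ 420).trans h420))
    interval_cases r <;> first | decide | (exfalso; revert hr; norm_num; done) |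
      (exfalso; revert hrn; norm_num; done)
  · refine excW (n := 30) h420 hs (by norm_num) (by norm_num) (by norm_num) hq hpq (by decide)
      hf (by decide) {3, 5} (by decide) fun r hr hrn h2 => ?_
    have h8 := h7 r hr (hrn.trans ((by norm_num : 30 ∣ 420).trans h420))
    interval_cases r <;> first | decide | (exfalso; revert hr; norm_num; done) |
      (exfalso; revert hrn; norm_num; done) | (exfalso; revert h2; norm_num; done)
  · refine excW (n := 42) h420 hs (by norm_num) (by norm_num) (by norm_num) hq hpq (by decide)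
      hf (by decide) {3, 7} (by decide) fun r hr hrn h2 => ?_
    have h8 := h7 r hr (hrn.trans ((by norm_num : 42 ∣ 420).trans h420))
    interval_cases r <;> first | decide | (exfalso; revert hr; norm_num; done) |
      (exfalso; revert hrn; norm_num; done) | (exfalso; revert h2; norm_num; done)
  · refine excW (n := 70) h420 hs (by norm_num) (by norm_num) (by norm_num) hq hpq (by decide)
      hf (by decide) {5, 7} (by decide) fun r hr hrn h2 => ?_
    have h8 := h7 r hr (hrn.trans ((by norm_num : 70 ∣ 420).trans h420))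
    interval_cases r <;> first | decide | (exfalso; revert hr; norm_num; done) |
      (exfalso; revert hrn; norm_num; done) | (exfalso; revert h2; norm_num; done)

private theorem off420_mem (h420 : 420 ∣ m) (h7 : ∀ p, p.Prime → p ∣ m → p ≤ 7)
    {w : ZMod m → ZMod 2} (hs : ∀ x, w x ≠ 0 → 3 ≤ (effB (addOrderOf x)).card)
    (F : ZMod m → ℤ) (hodd : OddF F) (hT : TateF F) (hsup : ∀ a, F a ≠ 0 → ¬ 420 ∣ addOrderOf a) :
    F ∈ XW w ⊔ relSub m := by
  have hD : ∀ f g, (¬ 420 ∣ f) → g ∣ f → ¬ 420 ∣ g := fun f g h1 h2 h3 => h1 (h3.trans h2)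
  refine mainA_aux (D := fun f => ¬ 420 ∣ f) hD (XW w) ?_ m F hodd hT (fun a _ => Nat.le_of_dvd
    (Nat.pos_of_ne_zero (NeZero.ne m)) (addOrderOf_dvd_m a)) hsup
  intro f hf hDf hf1 hf4 hfr
  have hf0 : f ≠ 0 := f_ne_zero hf
  have hprod := eff_prod hf0 hf4 hfr
  have htot := tot_prod hf0 hf4 hfr
  have hsub : f.primeFactors ⊆ ({2, 3, 5, 7} : Finset ℕ) := by
    intro p hp
    have hpp := Nat.prime_of_mem_primeFactors hp
    have h8 := h7 p hpp ((Nat.dvd_of_mem_primeFactors hp).trans hf)
    clear hp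
    interval_cases p <;> first | decide | (exfalso; revert hpp; norm_num)
  have hne : f.primeFactors ≠ ({2, 3, 5, 7} : Finset ℕ) := by
    intro h
    rw [h] at hprod
    apply hDf
    rw [hprod]
    decide
  have hcard : f.primeFactors.card ≤ 3 := by
    have h1 := card_lt_card (ssubset_of_subset_of_ne hsub hne)
    have h2 : ({2, 3, 5, 7} : Finset ℕ).card = 4 := by decide
    omega
  have hall : ∀ {l : List ℕ}, (∀ x ∈ f.primeFactors, x ∈ l) → ∀ r, r.Prime → r ∣ f → r ∈ l :=
    fun h r hr hrf => h r (Nat.mem_primeFactors.mpr ⟨hr, hrf, hf0⟩)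
  have hpos : 0 < f.primeFactors.card := by
    rw [Finset.card_pos, Nat.nonempty_primeFactors]
    omega
  have hc : f.primeFactors.card = 1 ∨ f.primeFactors.card = 2 ∨ f.primeFactors.card = 3 := by
    omega
  rcases hc with hc | hc | hc
  · obtain ⟨p, hp⟩ := Finset.card_eq_one.mp hc
    have hpm : p ∈ f.primeFactors := by rw [hp]; exact mem_singleton_self p
    exact step_one hD (XW w) hf0 hf hDf p (Nat.prime_of_mem_primeFactors hpm)
      (Nat.dvd_of_mem_primeFactors hpm) (hall (by rw [hp]; simp))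
  · obtain ⟨p', q', hpq', hp'⟩ := Finset.card_eq_two.mp hc
    obtain ⟨p, q, hpq, hp⟩ : ∃ p q, p < q ∧ f.primeFactors = {p, q} := by
      rcases lt_or_gt_of_ne hpq' with h | h
      · exact ⟨p', q', h, hp'⟩
      · exact ⟨q', p', h, by rw [hp', pair_comm]⟩
    have hpm : p ∈ f.primeFactors := by rw [hp]; simp
    have hqm : q ∈ f.primeFactors := by rw [hp]; simp
    rw [hp, prod_pair hpq.ne] at htot
    have hfe := ep_mul_of_pair hpq.ne hprod hp
    have hall' := hall (l := [p, q]) (by rw [hp]; simp)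
    have hpp := Nat.prime_of_mem_primeFactors hpm
    have hqq := Nat.prime_of_mem_primeFactors hqm
    have hpf := Nat.dvd_of_mem_primeFactors hpm
    have hqf := Nat.dvd_of_mem_primeFactors hqm
    have hq7 : q ≤ 7 := h7 q hqq (hqf.trans hf)
    clear hp hpm hqm hc hcard hpos hsub hprod hall hf4 hfr hf1 hne
    subst hfe
    exact step_two hD (XW w) hf0 hf hDf p q hpp hqq hpq.ne hpf hqf hall' htot
      (exc420W h420 h7 hs hpp hqq hpq hq7 hf)
  · obtain ⟨p, q, r, hpq, hpr, hqr, hp⟩ := Finset.card_eq_three.mp hc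
    have hpm : p ∈ f.primeFactors := by rw [hp]; simp
    have hqm : q ∈ f.primeFactors := by rw [hp]; simp
    have hrm : r ∈ f.primeFactors := by rw [hp]; simp
    have hpp := Nat.prime_of_mem_primeFactors hpm
    have hqq := Nat.prime_of_mem_primeFactors hqm
    have hrr := Nat.prime_of_mem_primeFactors hrm
    have hpf := Nat.dvd_of_mem_primeFactors hpm
    have hqf := Nat.dvd_of_mem_primeFactors hqm
    have hrf := Nat.dvd_of_mem_primeFactors hrm
    have htot' : (if r ∣ f / r then r else r - 1) * ((if p ∣ f / p then p else p - 1) *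
        (if q ∣ f / q then q else q - 1)) = f.totient := by
      rw [← htot, hp, prod_insert (by simp [hpq, hpr]), prod_pair hqr]
      ring
    have key : ∀ a b c : ℕ, a.Prime → b.Prime → c.Prime → a ∣ f → b ∣ f → c ∣ f → a ≠ b → a ≠ c →
        b ≠ c → ¬ f ∣ 2 * (a * b) := by
      intro a b c ha hb hc ha' hb' hc' hab hac hbc h
      have h1 : c ∣ 2 * (a * b) := hc'.trans h
      rcases (Nat.Prime.dvd_mul hc).mp h1 with h2 | h2
      · have hc2 : c = 2 := (Nat.prime_dvd_prime_iff_eq hc Nat.prime_two).mp h2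
        subst hc2
        have h4 : 4 ∣ 2 * (a * b) := by
          have : 4 ∣ f := by omega
          exact this.trans h
        have h5 : 2 ∣ a * b := by omega
        rcases (Nat.Prime.dvd_mul Nat.prime_two).mp h5 with h6 | h6
        · exact hac ((Nat.prime_dvd_prime_iff_eq Nat.prime_two ha).mp h6).symm
        · exact hbc ((Nat.prime_dvd_prime_iff_eq Nat.prime_two hb).mp h6).symm
      · rcases (Nat.Prime.dvd_mul hc).mp h2 with h3 | h3
        · exact hac ((Nat.prime_dvd_prime_iff_eq hc ha).mp h3).symm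
        · exact hbc ((Nat.prime_dvd_prime_iff_eq hc hb).mp h3).symm
    exact step_three hD (XW w) hf0 hf hDf p q r hpp hqq hrr hpf hqf hrf hpq hpr hqr
      (hall (l := [r, p, q]) (by rw [hp]; simp)) htot'
      (key p q r hpp hqq hrr hpf hqf hrf hpq hpr hqr)
      (key p r q hpp hrr hqq hpf hrf hqf hpr hpq hqr.symm)
      (key q r p hqq hrr hpp hqf hrf hpf hqr hpq.symm hpr.symm)

/-- As `below420` (h85c/Below.lean), with the subgroup of the functions `H` with `4 ∣ LW w H` in
place of `XF m`; the exceptional classes come from `excAll` (see `exc420_aux`), where they are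
supported at the orders dividing `n = 12, 20, 28, 30, 42, 70`, with at most two effective primes, so
their functional is zero. -/
theorem LW_off420 (h420 : 420 ∣ m) (h7 : ∀ p, p.Prime → p ∣ m → p ≤ 7) {w : ZMod m → ZMod 2}
    (hw : FDist w) (hs : ∀ x, w x ≠ 0 → 3 ≤ (effB (addOrderOf x)).card)
    (F : ZMod m → ℤ) (hodd : OddF F) (hT : TateF F) (hsup : ∀ a, F a ≠ 0 → ¬ 420 ∣ addOrderOf a) :
    4 ∣ LW w F := by
  have h1 : XW w ⊔ relSub m ≤ XW w :=
    sup_le le_rfl fun H hH => mem_XW.2 (LW_relSub hw hH)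
  exact mem_XW.1 (h1 (off420_mem h420 h7 hs F hodd hT hsup))

end Pool.Agent.Lib.MP_938ce2_ag_h99w
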