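import Pool.Agent.Lib.MP_938ce2_ag_h99w.BD

/-!
An explicit function at level `420`.
-/

set_option autoImplicit false
set_option linter.style.haveILetI false
set_option linter.unusedSectionVars false

open Finset

namespace Pool.Agent.Lib.MP_938ce2_ag_h99w

open Pool.Agent.Lib.MP_938ce2_ag_h99 Pool.Agent.Lib.MP_938ce2_ag_h85c
open Pool.Agent.Lib.MP_938ce2_ag_H7f Pool.Agent.Lib.MP_938ce2_ag_h6

/-- the values, up to sign -/
def E0L : List (ℕ × ℤ) := [(16, -1), (28, 1), (29, -1), (31, 1), (61, -1), (69, 1), (88, 1),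
  (113, -1), (144, 1), (159, -1), (163, -1), (183, 1), (188, -1), (193, 1), (203, 1)]

/-- the function -/
def E0 (x : ZMod 420) : ℤ :=
  (E0L.map fun p => (if x = (p.1 : ZMod 420) then p.2 else 0)
    - (if x = -(p.1 : ZMod 420) then p.2 else 0)).sum

lemma E0_odd : OddF E0 := by
  have h : ∀ a : ZMod 420, E0 (-a) = - E0 a := by decide +kernel
  exact h

private lemma b10_sum (L : List (ℕ × ℤ)) (G : ZMod 420 → ℤ) :
    ∑ a : ZMod 420, (L.map fun p => (if a = (p.1 : ZMod 420) then p.2 else 0)
      - (if a = -(p.1 : ZMod 420) then p.2 else 0)).sum * G a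
      = (L.map fun p => p.2 * (G (p.1 : ZMod 420) - G (-(p.1 : ZMod 420)))).sum := by
  induction L with
  | nil => simp
  | cons p L ih =>
    simp only [List.map_cons, List.sum_cons, add_mul, sum_add_distrib, ih]
    congr 1
    simp only [sub_mul, ite_mul, zero_mul, sum_sub_distrib, sum_ite_eq', mem_univ, if_true]
    ring

/-- `∑ c (2 (t a mod 420) - 420) = 0` for all `t` prime to `420`: a computation with natural
numbers by `decide +kernel` -/
theorem E0_tate : TateF E0 := by
  have key : ∀ t : ZMod 420, Nat.Coprime t.val 420 →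
      (E0L.map fun p => p.2 * (((t * (p.1 : ZMod 420)).val : ℤ)
        - ((t * -(p.1 : ZMod 420)).val : ℤ))).sum = 0 := by
    decide +kernel
  intro t
  have h1 := b10_sum E0L (fun a => (((t : ZMod 420) * a).val : ℤ))
  unfold E0
  rw [h1]
  exact key t (ZMod.val_coe_unit_coprime t)

/-- the Tate condition is inherited (see `transfer` in H7f/Transfer.lean, `jj_mul`, `jj_val`) -/
theorem extZ_tate {m f : ℕ} [NeZero m] [NeZero f] (hf : f ∣ m) {F : ZMod f → ℤ} (h : TateF F) :
    TateF (extZ hf F) := by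
  intro T
  rw [← sum_jj hf (G := fun a => extZ hf F a * (((T : ZMod m) * a).val : ℤ)) (by
    intro a ha
    by_cases h : ∃ y, jj hf y = a
    · obtain ⟨y, rfl⟩ := h
      exact order_jj_dvd hf y
    · push Not at h
      rw [extZ_out hf _ h, zero_mul] at ha
      exact absurd rfl ha)]
  have h2 : ∀ y : ZMod f, extZ hf F (jj hf y) * (((T : ZMod m) * jj hf y).val : ℤ)
      = (m / f : ℕ) * (F y * (((ZMod.unitsMap hf T : ZMod f) * y).val : ℤ)) := by
    intro y
    rw [extZ_jj, jj_mul, jj_val]
    have h3 : ZMod.castHom hf (ZMod f) (T : ZMod m) = (ZMod.unitsMap hf T : ZMod f) := by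
      rw [ZMod.unitsMap_val]
      rfl
    rw [h3]
    push_cast
    ring
  rw [sum_congr rfl fun y _ => h2 y, ← mul_sum, h (ZMod.unitsMap hf T), mul_zero]

end Pool.Agent.Lib.MP_938ce2_ag_h99w
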