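import Pool.Agent.Lib.MP_938ce2_ag_h99w.B10
import Pool.Agent.Lib.MP_938ce2_ag_h99w.B04

/-!
The values of the functionals on the explicit function.
-/

set_option autoImplicit false
set_option linter.style.haveILetI false
set_option linter.unusedSectionVars false

open Finset

namespace Pool.Agent.Lib.MP_938ce2_ag_h99w

open Pool.Agent.Lib.MP_938ce2_ag_h99 Pool.Agent.Lib.MP_938ce2_ag_h85c
open Pool.Agent.Lib.MP_938ce2_ag_H7f Pool.Agent.Lib.MP_938ce2_ag_h6

variable {m : ℕ} [NeZero m]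

private lemma b11_nat {m f o : ℕ} (hm : 0 < m) (hf : f ∣ m) (ho : o ∣ f) :
    m / o = m / f * (f / o) := by
  obtain ⟨c, rfl⟩ := hf
  obtain ⟨d, rfl⟩ := ho
  have h1 : 0 < o * d := Nat.pos_of_ne_zero (fun h => by rw [h, zero_mul] at hm; omega)
  have h2 : 0 < o := Nat.pos_of_ne_zero (fun h => by rw [h, zero_mul] at h1; omega)
  rw [Nat.mul_div_cancel_left c h1, Nat.mul_div_cancel_left d h2, mul_assoc,
    Nat.mul_div_cancel_left (d * c) h2, mul_comm]

/-- the numerators do not depend on the level -/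
lemma vr_jj {f : ℕ} [NeZero f] (hf : f ∣ m) (x : ZMod f) : vr (jj hf x) = vr x := by
  unfold vr
  rw [jj_val, addOrderOf_jj]
  congr 1
  have h1 : addOrderOf x ∣ f := addOrderOf_dvd_m x
  have hf0 : 0 < f := Nat.pos_of_ne_zero (NeZero.ne f)
  have hm0 : 0 < m := Nat.pos_of_ne_zero (NeZero.ne m)
  have h2 : m / addOrderOf x = m / f * (f / addOrderOf x) := b11_nat hm0 hf h1
  rw [h2, Nat.mul_div_mul_left _ _ (Nat.div_pos (Nat.le_of_dvd hm0 hf) hf0)]

private lemma b11_sumL (L : List (ℕ × ℤ)) (G : ZMod 420 → ℤ) :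
    ∑ a : ZMod 420, (L.map fun p => (if a = (p.1 : ZMod 420) then p.2 else 0)
      - (if a = -(p.1 : ZMod 420) then p.2 else 0)).sum * G a
      = (L.map fun p => p.2 * (G (p.1 : ZMod 420) - G (-(p.1 : ZMod 420)))).sum := by
  induction L with
  | nil => simp
  | cons p L ih =>
    simp only [List.map_cons, List.sum_cons, add_mul, sum_add_distrib, ih]
    congr 1
    simp only [sub_mul, ite_mul, zero_mul, sum_sub_distrib, sum_ite_eq', mem_univ, if_true]
    ring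

/-- sums with an odd function -/
private lemma b11_sum (hf : 420 ∣ m) (g : ZMod m → ℤ) (hg : ∀ x, g (-x) = - g x) :
    ∑ x, extZ hf E0 x * g x = 2 * (E0L.map fun p => p.2 * g (jj hf (p.1 : ZMod 420))).sum := by
  rw [← sum_jj hf (G := fun a => extZ hf E0 a * g a) (by
    intro a ha
    by_cases h : ∃ y, jj hf y = a
    · obtain ⟨y, rfl⟩ := h
      exact order_jj_dvd hf y
    · push Not at h
      rw [extZ_out hf _ h, zero_mul] at ha
      exact absurd rfl ha)]
  have h1 := b11_sumL E0L (fun y => g (jj hf y))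
  have h2 : ∀ y : ZMod 420, extZ hf E0 (jj hf y) * g (jj hf y) = E0 y * g (jj hf y) := by
    intro y
    rw [extZ_jj]
  rw [sum_congr rfl fun y _ => h2 y]
  unfold E0
  rw [h1, ← List.sum_map_mul_left]
  congr 1
  apply List.map_congr_left
  intro p _
  rw [map_neg, hg]
  ring

private lemma b11_mod (L : List (ℕ × ℤ)) (hL : ∀ p ∈ L, p.2 = 1 ∨ p.2 = -1) (g : ℕ → ℤ)
    (w : ℕ → ZMod 2) (hgw : ∀ n, ((g n : ℤ) : ZMod 2) = w n)
    (h : (L.map fun p => w p.1).sum = 1) :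
    (2 * (L.map fun p => p.2 * g p.1).sum) % 4 = 2 := by
  have h1 : (((L.map fun p => p.2 * g p.1).sum : ℤ) : ZMod 2) = (L.map fun p => w p.1).sum := by
    clear h
    induction L with
    | nil => simp
    | cons p L ih =>
      rw [List.map_cons, List.sum_cons, List.map_cons, List.sum_cons, Int.cast_add,
        ih fun q hq => hL q (List.mem_cons_of_mem _ hq), Int.cast_mul, hgw]
      congr 1
      rcases hL p List.mem_cons_self with h | h <;> rw [h]
      · simp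
      · simp
  rw [h] at h1
  have h2 : ((((L.map fun p => p.2 * g p.1).sum - 1 : ℤ)) : ZMod 2) = 0 := by
    rw [Int.cast_sub, h1]
    simp
  rw [ZMod.intCast_zmod_eq_zero_iff_dvd] at h2
  push_cast at h2
  omega

private lemma b11_L : ∀ p ∈ E0L, p.2 = 1 ∨ p.2 = -1 := by decide

/-- the value is `2 * ∑ (p.2 * (if w (jj p.1) = 1 then eps (jj p.1) else 0))` -/
lemma LW_E0 (hf : 420 ∣ m) {w : ZMod m → ZMod 2} (hw : ∀ x, w (-x) = w x)
    (hw0 : ∀ x, -x = x → w x = 0)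
    (hodd : (E0L.map fun p => w (jj hf (p.1 : ZMod 420))).sum = 1) :
    LW w (extZ hf E0) % 4 = 2 := by
  unfold LW
  rw [b11_sum hf (fun x => if w x = 1 then eps x else 0) (by
    intro x
    rw [hw]
    by_cases hx : -x = x
    · rw [hw0 x hx, if_neg (by decide), if_neg (by decide), neg_zero]
    · rw [eps_neg hx]
      split_ifs
      · rfl
      · rw [neg_zero])]
  refine b11_mod E0L b11_L (fun n => if w (jj hf (n : ZMod 420)) = 1 then
    eps (jj hf (n : ZMod 420)) else 0) (fun n => w (jj hf (n : ZMod 420))) ?_ hodd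
  intro n
  by_cases h : w (jj hf (n : ZMod 420)) = 1
  · rw [if_pos h, h]
    rcases eps_odd (jj hf (n : ZMod 420)) with h1 | h1 <;> rw [h1] <;> simp
  · have h2 : w (jj hf (n : ZMod 420)) = 0 := by
      generalize w (jj hf (n : ZMod 420)) = z at h
      revert z
      decide
    rw [if_neg h, h2]
    simp

/-- the order of an element of the list -/
private lemma b11_ord (hf : 420 ∣ m) (n : ℕ) :
    addOrderOf (jj hf (n : ZMod 420)) = 420 / Nat.gcd 420 n := by
  rw [addOrderOf_jj, ZMod.addOrderOf_coe n (by norm_num)]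

private lemma b11_vr (hf : 420 ∣ m) (n : ℕ) (hn : n < 420) :
    vr (jj hf (n : ZMod 420)) = ((n / Nat.gcd 420 n : ℕ) : ℤ) := by
  rw [vr_jj]
  unfold vr
  rw [ZMod.val_natCast_of_lt hn, ZMod.addOrderOf_coe n (by norm_num)]
  have h1 : 420 / (420 / Nat.gcd 420 n) = Nat.gcd 420 n :=
    Nat.div_div_self (Nat.gcd_dvd_left _ _) (by norm_num)
  rw [h1]

private def b11_W (n : ℕ) : ZMod 2 :=
  if Odd (420 / Nat.gcd 420 n) ∧ 105 ∣ 420 / Nat.gcd 420 n then 1 else 0

/-- orders `105`: the elements `16, 88, 188` -/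
theorem LW_E0_105 (hf : 420 ∣ m) : LW (w105 (m := m)) (extZ hf E0) % 4 = 2 := by
  classical
  apply LW_E0 hf
  · intro x
    unfold w105
    rw [addOrderOf_neg]
  · intro x hx
    unfold w105
    rw [if_neg]
    rintro ⟨h1, h2⟩
    have h3 : (2 : ℕ) • x = 0 := by
      rw [two_smul]
      nth_rewrite 1 [← hx]
      exact neg_add_cancel x
    have h4 := addOrderOf_dvd_of_nsmul_eq_zero h3
    have h5 := Nat.le_of_dvd (by norm_num) (h2.trans h4)
    omega
  · have h1 : ∀ n : ℕ, w105 (jj hf (n : ZMod 420)) = b11_W n := by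
      intro n
      unfold w105 b11_W
      rw [b11_ord]
    have h2 : (E0L.map fun p => w105 (jj hf (p.1 : ZMod 420))).sum
        = (E0L.map fun p => b11_W p.1).sum := by
      congr 1
      apply List.map_congr_left
      intro p _
      exact h1 p.1
    rw [h2]
    decide +kernel

private def b11_T (r s t n : ℕ) : ZMod 2 :=
  if 4 ∣ 420 / Nat.gcd 420 n ∧ r ∣ 420 / Nat.gcd 420 n ∧ s ∣ 420 / Nat.gcd 420 n then
    (if t ∣ 420 / Nat.gcd 420 n then
      (if (4 : ℤ) ∣ (n / Nat.gcd 420 n : ℕ) - 1 ∧ (t : ℤ) ∣ (n / Nat.gcd 420 n : ℕ) - 1 then 1 else 0)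
      + (if (4 : ℤ) ∣ (n / Nat.gcd 420 n : ℕ) - (-1) ∧ (t : ℤ) ∣ (n / Nat.gcd 420 n : ℕ) - (-1)
          then 1 else 0)
      + (if (4 : ℤ) ∣ (n / Nat.gcd 420 n : ℕ) - (-(t : ℤ)) ∧
          (t : ℤ) ∣ (n / Nat.gcd 420 n : ℕ) - 1 then 1 else 0)
      + (if (4 : ℤ) ∣ (n / Nat.gcd 420 n : ℕ) - (t : ℤ) ∧
          (t : ℤ) ∣ (n / Nat.gcd 420 n : ℕ) - (-1) then 1 else 0)
    else (if (4 : ℤ) ∣ (n / Nat.gcd 420 n : ℕ) - 1 then 1 else 0)
      + (if (4 : ℤ) ∣ (n / Nat.gcd 420 n : ℕ) - (-1) then 1 else 0))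
  else 0

private lemma b11_four (o : ℕ) (ho : o ∣ 420) (h4 : 4 ∣ o) :
    ((2 ^ o.factorization 2 : ℕ) : ℤ) = 4 := by
  have ho0 : o ≠ 0 := ne_zero_of_dvd_ne_zero (by norm_num) ho
  have h1 : 2 ≤ o.factorization 2 :=
    (Nat.prime_two.pow_dvd_iff_le_factorization ho0).1 (by simpa using h4)
  have h2 : ¬ 3 ≤ o.factorization 2 := by
    intro h
    have h3 := (Nat.prime_two.pow_dvd_iff_le_factorization ho0).2 h
    have h5 : 2 ^ 3 ∣ 420 := h3.trans ho
    norm_num at h5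
  have h3 : o.factorization 2 = 2 := by omega
  rw [h3]
  norm_num

private lemma b11_wT (hf : 420 ∣ m) (r s t n : ℕ) (hn : n < 420) :
    wT r s t (jj hf (n : ZMod 420)) = b11_T r s t n := by
  classical
  unfold wT b11_T
  have ho : addOrderOf (jj hf (n : ZMod 420)) = 420 / Nat.gcd 420 n := b11_ord hf n
  have hv := b11_vr hf n hn
  have hod : 420 / Nat.gcd 420 n ∣ 420 := Nat.div_dvd_of_dvd (Nat.gcd_dvd_left _ _)
  by_cases h : 4 ∣ 420 / Nat.gcd 420 n ∧ r ∣ 420 / Nat.gcd 420 n ∧ s ∣ 420 / Nat.gcd 420 n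
  · rw [if_pos (by rw [ho]; exact h), if_pos h]
    have h4 := b11_four _ hod h.1
    have hT2 : ∀ k : ℤ, T2 (jj hf (n : ZMod 420)) k ↔ (4 : ℤ) ∣ (n / Nat.gcd 420 n : ℕ) - k := by
      intro k
      unfold T2
      rw [ho, h4, hv]
    have hTt : ∀ k : ℤ, Tt t (jj hf (n : ZMod 420)) k ↔
        (t : ℤ) ∣ (n / Nat.gcd 420 n : ℕ) - k := by
      intro k
      unfold Tt
      rw [hv]
    unfold ind
    simp only [hT2, hTt, ho]
  · rw [if_neg (by rw [ho]; exact h), if_neg h]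

private lemma b11_lt : ∀ p ∈ E0L, p.1 < 420 := by decide

private lemma b11_main (hf : 420 ∣ m) (r s t : ℕ) (h : (E0L.map fun p => b11_T r s t p.1).sum = 1) :
    LW (wT (m := m) r s t) (extZ hf E0) % 4 = 2 := by
  apply LW_E0 hf (fun x => wT_even x) (fun x hx => wT_fix x hx)
  rw [← h]
  congr 1
  apply List.map_congr_left
  intro p hp
  exact b11_wT hf r s t p.1 (b11_lt p hp)

/-- the element `203` of order `60` (all the elements of order `420` have weight zero) -/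
theorem LW_E0_357 (hf : 420 ∣ m) : LW (wT (m := m) 3 5 7) (extZ hf E0) % 4 = 2 :=
  b11_main hf 3 5 7 (by decide +kernel)

/-- the elements `69, 159, 183` of order `140` -/
theorem LW_E0_573 (hf : 420 ∣ m) : LW (wT (m := m) 5 7 3) (extZ hf E0) % 4 = 2 :=
  b11_main hf 5 7 3 (by decide +kernel)

private lemma b11_InE_dvd {p : ℕ} (hp : p.Prime) (hpm : p ∣ m) {y : ℤ} (h : InE m y) :
    (p : ℤ) ∣ y - 1 ∨ (p : ℤ) ∣ y + 1 := by
  have h1 : p ∣ p ^ m.factorization p := by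
    apply dvd_pow_self
    exact (hp.factorization_pos_of_dvd (NeZero.ne m) hpm).ne'
  have h2 : (p : ℤ) ∣ ((p ^ m.factorization p : ℕ) : ℤ) := Int.natCast_dvd_natCast.2 h1
  rcases h p hp with h3 | h3
  · exact Or.inl (h2.trans h3)
  · exact Or.inr (h2.trans h3)

/-- membership in the box at the level `420` -/
private lemma b11_box (hf : 420 ∣ m) (n : ℕ) (h : InB (jj hf (n : ZMod 420))) :
    420 / Nat.gcd 420 n = 420 ∧ ∃ y : ℤ, InE m y ∧ (420 : ℤ) ∣ y - n := by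
  obtain ⟨h1, y, hy, h2⟩ := h
  rw [b11_ord] at h1 h2
  have hd : 420 / Nat.gcd 420 n ≤ 420 := Nat.div_le_self _ _
  have hpos : 0 < 420 / Nat.gcd 420 n :=
    Nat.div_pos (Nat.le_of_dvd (by norm_num) (Nat.gcd_dvd_left _ _))
      (Nat.gcd_pos_of_pos_left _ (by norm_num))
  have h3 : 420 / Nat.gcd 420 n = 420 := le_antisymm hd (Nat.le_of_dvd hpos h1)
  refine ⟨h3, y, hy, ?_⟩
  rw [h3, jj_natCast] at h2
  have hm0 : (m : ℤ) ≠ 0 := by exact_mod_cast NeZero.ne m
  have h5 : (m : ℤ) ∣ ((m / 420 : ℕ) : ℤ) * (y - n) := by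
    rw [← ZMod.intCast_zmod_eq_zero_iff_dvd, Int.cast_mul, Int.cast_natCast, Int.cast_sub,
      Int.cast_natCast, mul_sub, ← h2, Nat.cast_mul, sub_self]
  have h6 : (m : ℤ) = ((m / 420 : ℕ) : ℤ) * 420 := by
    exact_mod_cast (Nat.div_mul_cancel hf).symm
  have h7 : ((m / 420 : ℕ) : ℤ) ≠ 0 := by
    intro h0
    rw [h0, zero_mul] at h6
    exact hm0 h6
  rw [h6] at h5
  exact (mul_dvd_mul_iff_left h7).1 h5

private lemma b11_29 (hf : 420 ∣ m) : InB (jj hf ((29 : ℕ) : ZMod 420)) := by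
  have hm : m ≠ 0 := NeZero.ne m
  obtain ⟨N3, hN3⟩ := exists_flip hm Nat.prime_three
  obtain ⟨N5, hN5⟩ := exists_flip hm Nat.prime_five
  have ho : addOrderOf (jj hf ((29 : ℕ) : ZMod 420)) = 420 := by
    rw [b11_ord]
    norm_num
  have hP : ∀ p k : ℕ, p.Prime → p ^ k ∣ 420 →
      ((p ^ k : ℕ) : ℤ) ∣ ((p ^ m.factorization p : ℕ) : ℤ) := by
    intro p k hp hk
    exact Int.natCast_dvd_natCast.2
      (pow_dvd_pow p ((hp.pow_dvd_iff_le_factorization hm).mp (hk.trans hf)))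
  refine ⟨by rw [ho], N3 * N5, hN3.inE.mul hN5.inE, ?_⟩
  rw [ho]
  -- the congruence modulo 420
  have e4 : (4 : ℤ) ∣ N3 * N5 - 29 := by
    have a1 := (hP 2 2 Nat.prime_two (by norm_num)).trans (hN3.2 2 Nat.prime_two (by norm_num))
    have a2 := (hP 2 2 Nat.prime_two (by norm_num)).trans (hN5.2 2 Nat.prime_two (by norm_num))
    norm_num at a1 a2
    rw [show N3 * N5 - 29 = N3 * (N5 - 1) + (N3 - 1) - 4 * 7 by ring]
    exact dvd_sub (dvd_add (a2.mul_left _) a1) (dvd_mul_right _ _)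
  have e3 : (3 : ℤ) ∣ N3 * N5 - 29 := by
    have a1 := (hP 3 1 Nat.prime_three (by norm_num)).trans hN3.1
    have a2 := (hP 3 1 Nat.prime_three (by norm_num)).trans (hN5.2 3 Nat.prime_three (by norm_num))
    norm_num at a1 a2
    rw [show N3 * N5 - 29 = N3 * (N5 - 1) + (N3 + 1) - 3 * 10 by ring]
    exact dvd_sub (dvd_add (a2.mul_left _) a1) (dvd_mul_right _ _)
  have e5 : (5 : ℤ) ∣ N3 * N5 - 29 := by
    have a1 := (hP 5 1 Nat.prime_five (by norm_num)).trans (hN3.2 5 Nat.prime_five (by norm_num))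
    have a2 := (hP 5 1 Nat.prime_five (by norm_num)).trans hN5.1
    norm_num at a1 a2
    rw [show N3 * N5 - 29 = N3 * (N5 + 1) - (N3 - 1) - 5 * 6 by ring]
    exact dvd_sub (dvd_sub (a2.mul_left _) a1) (dvd_mul_right _ _)
  have e7 : (7 : ℤ) ∣ N3 * N5 - 29 := by
    have p7 : Nat.Prime 7 := by norm_num
    have a1 := (hP 7 1 p7 (by norm_num)).trans (hN3.2 7 p7 (by norm_num))
    have a2 := (hP 7 1 p7 (by norm_num)).trans (hN5.2 7 p7 (by norm_num))
    norm_num at a1 a2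
    rw [show N3 * N5 - 29 = N3 * (N5 - 1) + (N3 - 1) - 7 * 4 by ring]
    exact dvd_sub (dvd_add (a2.mul_left _) a1) (dvd_mul_right _ _)
  have e420 : (420 : ℤ) ∣ N3 * N5 - 29 := by omega
  have h5 : ((m / 420 : ℕ) : ZMod m) * ((N3 : ZMod m) * (N5 : ZMod m) - 29) = 0 := by
    have h6 : (m : ℤ) ∣ ((m / 420 : ℕ) : ℤ) * (N3 * N5 - 29) := by
      obtain ⟨c, hc⟩ := e420
      rw [hc]
      refine ⟨c, ?_⟩
      have h6 : (m : ℤ) = ((m / 420 : ℕ) : ℤ) * 420 := by
        exact_mod_cast (Nat.div_mul_cancel hf).symm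
      linear_combination (-c) * h6
    have h7 := (ZMod.intCast_zmod_eq_zero_iff_dvd _ m).2 h6
    rw [Int.cast_mul, Int.cast_natCast, Int.cast_sub, Int.cast_mul, Int.cast_ofNat] at h7
    exact h7
  rw [jj_natCast, Nat.cast_mul, Int.cast_mul, Nat.cast_ofNat]
  linear_combination (-1 : ZMod m) * h5

private lemma b11_not (hf : 420 ∣ m) (n : ℕ)
    (h : 420 / Nat.gcd 420 n ≠ 420 ∨ (n % 5 ≠ 1 ∧ n % 5 ≠ 4) ∨ (n % 7 ≠ 1 ∧ n % 7 ≠ 6)) :
    ¬ InB (jj hf (n : ZMod 420)) := by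
  intro hB
  obtain ⟨h1, y, hy, h2⟩ := b11_box hf n hB
  have h5 := b11_InE_dvd (p := 5) (by norm_num) ((by norm_num : 5 ∣ 420).trans hf) hy
  have h7 := b11_InE_dvd (p := 7) (by norm_num) ((by norm_num : 7 ∣ 420).trans hf) hy
  push_cast at h5 h7
  rcases h with h | h | h
  · exact h h1
  · omega
  · omega

/-- the element `29` is the only one in the box -/
theorem LL_E0 (hf : 420 ∣ m) : LL (extZ hf E0) % 4 = 2 := by
  unfold LL
  rw [b11_sum hf chi chi_odd]
  refine b11_mod E0L b11_L (fun n => chi (jj hf (n : ZMod 420)))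
    (fun n => chi2 (jj hf (n : ZMod 420))) (fun n => chi_cast _) ?_
  have h0 : ∀ n : ℕ, (420 / Nat.gcd 420 n ≠ 420 ∨ (n % 5 ≠ 1 ∧ n % 5 ≠ 4) ∨
      (n % 7 ≠ 1 ∧ n % 7 ≠ 6)) → chi2 (jj hf (n : ZMod 420)) = 0 := fun n h =>
    chi2_not (b11_not hf n h)
  have h1 : chi2 (jj hf ((29 : ℕ) : ZMod 420)) = 1 := chi2_of (b11_29 hf)
  unfold E0L
  simp only [List.map_cons, List.map_nil, List.sum_cons, List.sum_nil]
  rw [h0 16 (by decide), h0 28 (by decide), h1, h0 31 (by decide), h0 61 (by decide),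
    h0 69 (by decide), h0 88 (by decide), h0 113 (by decide), h0 144 (by decide),
    h0 159 (by decide), h0 163 (by decide), h0 183 (by decide), h0 188 (by decide),
    h0 193 (by decide), h0 203 (by decide)]
  decide

end Pool.Agent.Lib.MP_938ce2_ag_h99w
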