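import Pool.Agent.Lib.MP_938ce2_ag_h99w.BD

/-!
The mass of a function in a box.
-/

set_option autoImplicit false
set_option linter.style.haveILetI false
set_option linter.unusedSectionVars false

open Finset

namespace Pool.Agent.Lib.MP_938ce2_ag_h99w

open Pool.Agent.Lib.MP_938ce2_ag_h99 Pool.Agent.Lib.MP_938ce2_ag_h85c
open Pool.Agent.Lib.MP_938ce2_ag_H7f Pool.Agent.Lib.MP_938ce2_ag_h6

variable {m : ℕ} [NeZero m]

/-- the mass in the box translated by `U` -/
noncomputable def cB (U : (ZMod m)ˣ) (F : ZMod m → ℤ) : ℤ := by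
  classical
  exact ∑ a, if InB (((U⁻¹ : (ZMod m)ˣ) : ZMod m) * a) then |F a| else 0

/-- substitute `a = U * x`; the function `x ↦ (|F (U x)| - F (U x) eps x)` on the box is even with
even values (`even_sum`) -/
theorem cB_mod {F : ZMod m → ℤ} (hodd : OddF F) (U : (ZMod m)ˣ) :
    4 ∣ cB U F - LL (tr U F) := by
  classical
  set G : ZMod m → ℤ := tr U F with hG
  have hGodd : ∀ x, G (-x) = - G x := by
    intro x
    simp only [hG, tr]
    rw [mul_neg, hodd]
  have h1 : cB U F = ∑ x, if InB x then |G x| else 0 := by
    unfold cB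
    symm
    refine Fintype.sum_equiv (Units.mulLeft U) _ _ fun x => ?_
    rw [Units.mulLeft_apply, Units.inv_mul_cancel_left]
    rfl
  have h2 : cB U F - LL G = ∑ x, ((if InB x then |G x| else 0) - G x * chi x) := by
    rw [h1, sum_sub_distrib]
    rfl
  rw [h2]
  have h3 := even_sum (m := m) (h := fun x => (if InB x then |G x| else 0) - G x * chi x) (k := 2)
    (by
      intro x
      have e1 : (if InB (-x) then |G (-x)| else 0) = if InB x then |G x| else 0 := by
        simp only [InB.neg_iff, hGodd, abs_neg]
      rw [e1, hGodd, chi_odd x]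
      ring)
    (by
      intro x hx
      have e1 : ¬ InB x := fun h => neg_ne_self h.1 hx
      rw [if_neg e1, chi_not e1]
      ring)
    (by
      intro x
      by_cases h : InB x
      · rw [if_pos h, chi_of h]
        rcases abs_choice (G x) with e1 | e1 <;> rcases eps_odd x with e2 | e2 <;> rw [e1, e2]
        · exact ⟨0, by ring⟩
        · exact ⟨G x, by ring⟩
        · exact ⟨-G x, by ring⟩
        · exact ⟨0, by ring⟩
      · rw [if_neg h, chi_not h]
        exact ⟨0, by ring⟩)
  simpa using h3

end Pool.Agent.Lib.MP_938ce2_ag_h99w
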