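import Pool.Agent.Lib.MP_938ce2_ag_h99w.B08
import Pool.Agent.Lib.MP_938ce2_ag_h99w.B09
import Pool.Agent.Lib.MP_938ce2_ag_h99w.B11
import Pool.Agent.Lib.MP_938ce2_ag_h99w.B12

/-!
Functions outside the group.
-/

set_option autoImplicit false
set_option linter.style.haveILetI false
set_option linter.unusedSectionVars false

open Finset

namespace Pool.Agent.Lib.MP_938ce2_ag_h99w

open Pool.Agent.Lib.MP_938ce2_ag_h99 Pool.Agent.Lib.MP_938ce2_ag_h85c
open Pool.Agent.Lib.MP_938ce2_ag_H7f Pool.Agent.Lib.MP_938ce2_ag_h6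

variable {m : ℕ} [NeZero m]

/-- Otherwise `4 ∣ LL (tr U F)` (it is even by `LL_even`), and `phase3` and `below420` apply. -/
theorem cB_of_not_mem (h420 : 420 ∣ m) (h7 : ∀ p, p.Prime → p ∣ m → p ≤ 7) {F : ZMod m → ℤ}
    (hodd : OddF F) (hT : TateF F) (hn : F ∉ XF m ⊔ relSub m) (U : (ZMod m)ˣ) :
    cB U F % 4 = 2 := by
  by_contra hc
  have h1 := cB_mod hodd U
  have h2 : 2 ∣ LL (tr U F) := LL_even (tr_odd hodd)
  have h4 : 4 ∣ LL (tr U F) := by omega
  obtain ⟨F', f1, f2, f3, f4⟩ := phase3 h420 h7 F hodd hT U h4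
  apply hn
  have h5 := below420 h420 h7 F' f2 f3 f4
  have h6 := (XF m ⊔ relSub m).add_mem ((le_sup_right : relSub m ≤ XF m ⊔ relSub m) f1) h5
  rwa [sub_add_cancel] at h6

lemma tr_one13 (F : ZMod m → ℤ) : tr (1 : (ZMod m)ˣ) F = F := by
  funext x
  unfold tr
  rw [Units.val_one, one_mul]

lemma tateF_sub13 {F G : ZMod m → ℤ} (hF : TateF F) (hG : TateF G) : TateF (F - G) := by
  intro t
  have h1 := hF t
  have h2 := hG t
  simp only [Pi.sub_apply, sub_mul, sum_sub_distrib] at *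
  linarith

/-- The function `F - extZ h420 E0` has `4 ∣ LL` (case `U = 1`, and `LL_E0`), so by `phase2` it is a
relation plus a function off `420`; hence `LW w F = LW w E0 = 2` modulo `4`, in particular it is not
zero. -/
theorem exists_of_not_mem (h420 : 420 ∣ m) (h7 : ∀ p, p.Prime → p ∣ m → p ≤ 7) {F : ZMod m → ℤ}
    (hodd : OddF F) (hT : TateF F) (hn : F ∉ XF m ⊔ relSub m) {w : ZMod m → ZMod 2}
    (hw : FDist w) (hs : ∀ x, w x ≠ 0 → 3 ≤ (effB (addOrderOf x)).card)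
    (hE : LW w (extZ h420 E0) % 4 = 2) : ∃ x, w x ≠ 0 ∧ F x ≠ 0 := by
  have c1 := cB_of_not_mem h420 h7 hodd hT hn 1
  have c2 := cB_mod hodd 1
  rw [tr_one13] at c2
  have c3 := LL_E0 (m := m) h420
  have hEo : OddF (extZ h420 E0) := extZ_odd h420 E0_odd
  have hET : TateF (extZ h420 E0) := extZ_tate h420 E0_tate
  have hGo : OddF (F - extZ h420 E0) := by
    intro a
    rw [Pi.sub_apply, Pi.sub_apply, hodd a, hEo a]
    ring
  have hGT : TateF (F - extZ h420 E0) := tateF_sub13 hT hET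
  have hG4 : 4 ∣ LL (F - extZ h420 E0) := by
    rw [sub_eq_add_neg, LL_add, LL_neg]
    omega
  obtain ⟨G, g1, g2, g3, g4⟩ := phase2 h420 h7 _ hGo hGT hG4
  have d1 := LW_off420 h420 h7 hw hs G g2 g3 g4
  have d2 := LW_relSub hw g1
  rw [sub_eq_add_neg, LW_add, LW_neg, sub_eq_add_neg, LW_add, LW_neg] at d2
  have d3 : LW w F % 4 = 2 := by omega
  by_contra hcon
  push Not at hcon
  have d4 : LW w F = 0 := by
    unfold LW
    apply sum_eq_zero
    intro x _
    by_cases hx : w x = 1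
    · have h9 : w x ≠ 0 := by rw [hx]; decide
      rw [hcon x h9, zero_mul]
    · rw [if_neg hx, mul_zero]
  rw [d4] at d3
  norm_num at d3

end Pool.Agent.Lib.MP_938ce2_ag_h99w
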