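import Pool.Agent.Lib.MP_938ce2_ag_h99w.B12

/-!
Square classes.
-/

set_option autoImplicit false
set_option linter.style.haveILetI false
set_option linter.unusedSectionVars false

open Finset

namespace Pool.Agent.Lib.MP_938ce2_ag_h99w

open Pool.Agent.Lib.MP_938ce2_ag_h99 Pool.Agent.Lib.MP_938ce2_ag_h85c
open Pool.Agent.Lib.MP_938ce2_ag_H7f Pool.Agent.Lib.MP_938ce2_ag_h6

variable {m : ℕ} [NeZero m]

/-- the mass of a square class -/
noncomputable def NC (F : ZMod m → ℤ) (s : ZMod 420) : ℤ := by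
  classical
  exact ∑ a, if Cl a s then |F a| else 0

/-- from `InB.cl` -/
lemma Cl_of_InB (h420 : 420 ∣ m) (h7 : ∀ p, p.Prime → p ∣ m → p ≤ 7) {a : ZMod m}
    {U : (ZMod m)ˣ} (h : InB (((U⁻¹ : (ZMod m)ˣ) : ZMod m) * a)) :
    Cl a ((ZMod.castHom h420 (ZMod 420) (U : ZMod m)) ^ 2) := by
  obtain ⟨h1, y, hy, hxy⟩ := h
  set x := ((U⁻¹ : (ZMod m)ˣ) : ZMod m) * a with hx
  have hax : a = (U : ZMod m) * x := by rw [hx, ← mul_assoc, Units.mul_inv, one_mul]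
  have ho : addOrderOf a = addOrderOf x := by rw [hax]; exact order_unit_mul U x
  refine ⟨by rw [ho]; exact h1, (((U : ZMod m).val : ℕ) : ℤ) * y, ?_, ?_⟩
  · rw [ho]
    conv_lhs => rw [hax, hxy]
    push_cast
    rw [ZMod.natCast_val, ZMod.cast_id', id]
    ring
  · push_cast
    rw [mul_pow, hy.sq420 h420, mul_one, ZMod.natCast_val, ZMod.castHom_apply]

/-- the numerator of an element whose order is divisible by `420` is prime to `m` -/
lemma num_coprime (h420 : 420 ∣ m) (h7 : ∀ p, p.Prime → p ∣ m → p ≤ 7) {a : ZMod m} {v : ℤ}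
    (h1 : 420 ∣ addOrderOf a) (hv : a = ((m / addOrderOf a : ℕ) : ZMod m) * (v : ZMod m)) :
    IsCoprime (m : ℤ) v := by
  rw [Int.isCoprime_iff_gcd_eq_one, Int.gcd, Int.natAbs_natCast]
  apply Nat.coprime_of_dvd
  intro q hq hqm hqv
  have hq7 := h7 q hq hqm
  have hq420 : q ∣ 420 := by
    clear hqm hqv
    interval_cases q <;> first | decide | (exfalso; revert hq; norm_num)
  have hqk : q ∣ addOrderOf a := hq420.trans h1
  have hkm := addOrderOf_dvd_m a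
  have hm : m ≠ 0 := NeZero.ne m
  have hk0 : addOrderOf a ≠ 0 := ne_zero_of_dvd_ne_zero hm hkm
  obtain ⟨w, hw⟩ := Int.natCast_dvd.mpr hqv
  have h2 : (addOrderOf a / q) • a = 0 := by
    have ha : a = ((m / addOrderOf a : ℕ) : ZMod m) * (((q : ℤ) * w : ℤ) : ZMod m) := by
      rw [← hw]; exact hv
    rw [nsmul_eq_mul]
    have e : ((addOrderOf a / q : ℕ) : ZMod m) * (((m / addOrderOf a : ℕ) : ZMod m) *
        (((q : ℤ) * w : ℤ) : ZMod m)) =
        ((addOrderOf a / q * q * (m / addOrderOf a) : ℕ) : ZMod m) * (w : ZMod m) := by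
      push_cast; ring
    calc ((addOrderOf a / q : ℕ) : ZMod m) * a = ((addOrderOf a / q : ℕ) : ZMod m) *
        (((m / addOrderOf a : ℕ) : ZMod m) * (((q : ℤ) * w : ℤ) : ZMod m)) := by rw [← ha]
      _ = 0 := by
        rw [e, Nat.div_mul_cancel hqk, Nat.mul_div_cancel' hkm, ZMod.natCast_self, zero_mul]
  have h3 := addOrderOf_dvd_of_nsmul_eq_zero h2
  have h4 : 0 < addOrderOf a / q := Nat.div_pos (Nat.le_of_dvd (Nat.pos_of_ne_zero hk0) hqk) hq.pos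
  have h5 := Nat.le_of_dvd h4 h3
  have h6 := Nat.div_lt_self (Nat.pos_of_ne_zero hk0) hq.one_lt
  omega

/-- the numerator is a unit `U` -/
lemma InB_of_Cl (h420 : 420 ∣ m) (h7 : ∀ p, p.Prime → p ∣ m → p ≤ 7) {a : ZMod m}
    {s : ZMod 420} (h : Cl a s) : ∃ U : (ZMod m)ˣ, InB (((U⁻¹ : (ZMod m)ˣ) : ZMod m) * a) ∧
      (ZMod.castHom h420 (ZMod 420) (U : ZMod m)) ^ 2 = s := by
  obtain ⟨h1, v, hv, hs⟩ := h
  obtain ⟨U, hU⟩ := (ZMod.coe_int_isUnit_iff_isCoprime v m).mpr (num_coprime h420 h7 h1 hv)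
  have ho := order_unit_mul U⁻¹ a
  refine ⟨U, ⟨by rw [ho]; exact h1, 1, InE.one m, ?_⟩, ?_⟩
  · rw [ho]
    conv_lhs => rw [hv, ← hU, mul_left_comm, Units.inv_mul]
    simp
  · rw [hU, map_intCast, hs]

/-- the numerator exists -/
lemma num_exists (a : ZMod m) :
    ∃ v : ℤ, a = ((m / addOrderOf a : ℕ) : ZMod m) * (v : ZMod m) := by
  have hkm := addOrderOf_dvd_m a
  have hm : m ≠ 0 := NeZero.ne m
  have hk0 : addOrderOf a ≠ 0 := ne_zero_of_dvd_ne_zero hm hkm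
  have h1 : m ∣ addOrderOf a * a.val := by
    rw [← ZMod.natCast_eq_zero_iff]
    push_cast
    rw [ZMod.natCast_val, ZMod.cast_id', id, ← nsmul_eq_mul]
    exact addOrderOf_nsmul_eq_zero a
  have h2 : m / addOrderOf a ∣ a.val := by
    have h3 : addOrderOf a * (m / addOrderOf a) ∣ addOrderOf a * a.val := by
      rwa [Nat.mul_div_cancel' hkm]
    exact Nat.dvd_of_mul_dvd_mul_left (Nat.pos_of_ne_zero hk0) h3
  obtain ⟨w, hw⟩ := h2
  refine ⟨w, ?_⟩
  rw [← ZMod.natCast_zmod_val a]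
  conv_lhs => rw [hw]
  push_cast
  simp

lemma unit_sq : ∀ x : ZMod 420, Nat.Coprime x.val 420 →
    ∃ i : Fin 6, x ^ 2 = MP_938ce2_ag_h85c.sq i := by
  decide +kernel

lemma Cl_of_dvd (h420 : 420 ∣ m) (h7 : ∀ p, p.Prime → p ∣ m → p ≤ 7) {a : ZMod m}
    (h : 420 ∣ addOrderOf a) : ∃ i : Fin 6, Cl a (MP_938ce2_ag_h85c.sq i) := by
  obtain ⟨v, hv⟩ := num_exists a
  have h1 := num_coprime h420 h7 h hv
  have h2 : IsCoprime ((420 : ℕ) : ℤ) v := by
    obtain ⟨k, hk⟩ := h420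
    rw [hk] at h1
    push_cast at h1
    exact_mod_cast h1.of_mul_left_left
  obtain ⟨u, hu⟩ := (ZMod.coe_int_isUnit_iff_isCoprime v 420).mpr h2
  obtain ⟨i, hi⟩ := unit_sq _ (ZMod.val_coe_unit_coprime u)
  rw [hu] at hi
  exact ⟨i, h, v, hv, hi⟩

lemma exists_root (h420 : 420 ∣ m) (h7 : ∀ p, p.Prime → p ∣ m → p ≤ 7) (i : Fin 6) :
    ∃ U : (ZMod m)ˣ, (ZMod.castHom h420 (ZMod 420) (U : ZMod m)) ^ 2 =
      MP_938ce2_ag_h85c.sq i := by
  refine ⟨ZMod.unitOfCoprime (Transv.root i) (coprime_of_210 h7 (root_cop i)), ?_⟩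
  rw [ZMod.coe_unitOfCoprime, map_natCast, root_sq]

lemma cB_le_NC (h420 : 420 ∣ m) (h7 : ∀ p, p.Prime → p ∣ m → p ≤ 7) (F : ZMod m → ℤ)
    (U : (ZMod m)ˣ) : cB U F ≤ NC F ((ZMod.castHom h420 (ZMod 420) (U : ZMod m)) ^ 2) := by
  unfold cB NC
  refine sum_le_sum fun a _ => ?_
  split_ifs with h1 h2 h2
  · exact le_rfl
  · exact absurd (Cl_of_InB h420 h7 h1) h2
  · exact abs_nonneg _
  · exact le_rfl

end Pool.Agent.Lib.MP_938ce2_ag_h99w
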