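import Pool.Agent.Lib.MP_938ce2_ag_h99w.B14

/-!
Classes with one pair of elements.
-/

set_option autoImplicit false
set_option linter.style.haveILetI false
set_option linter.unusedSectionVars false

open Finset

namespace Pool.Agent.Lib.MP_938ce2_ag_h99w

open Pool.Agent.Lib.MP_938ce2_ag_h99 Pool.Agent.Lib.MP_938ce2_ag_h85c
open Pool.Agent.Lib.MP_938ce2_ag_H7f Pool.Agent.Lib.MP_938ce2_ag_h6

variable {m : ℕ} [NeZero m]

lemma inv_mul_of_mul {U V : (ZMod m)ˣ} {r : ZMod m} (hV : (V : ZMod m) = r * (U : ZMod m))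
    (a : ZMod m) : r * (((V⁻¹ : (ZMod m)ˣ) : ZMod m) * a) = ((U⁻¹ : (ZMod m)ˣ) : ZMod m) * a := by
  have h : r = (V : ZMod m) * ((U⁻¹ : (ZMod m)ˣ) : ZMod m) := by
    rw [hV, mul_assoc, Units.mul_inv, mul_one]
  rw [h]
  calc (V : ZMod m) * ((U⁻¹ : (ZMod m)ˣ) : ZMod m) * (((V⁻¹ : (ZMod m)ˣ) : ZMod m) * a)
      = ((V : ZMod m) * ((V⁻¹ : (ZMod m)ˣ) : ZMod m)) * (((U⁻¹ : (ZMod m)ˣ) : ZMod m) * a) := by
        ring
    _ = ((U⁻¹ : (ZMod m)ˣ) : ZMod m) * a := by rw [Units.mul_inv, one_mul]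

/-- If `InB (U⁻¹ a)` and `InB ((421 U)⁻¹ a)` then the order of `a` is `420` (`order_of_421`). -/
lemma order_of_two_boxes (h420 : 420 ∣ m) (h7 : ∀ p, p.Prime → p ∣ m → p ≤ 7) {a : ZMod m}
    {U V : (ZMod m)ˣ} (hV : (V : ZMod m) = 421 * (U : ZMod m))
    (h1 : InB (((U⁻¹ : (ZMod m)ˣ) : ZMod m) * a)) (h2 : InB (((V⁻¹ : (ZMod m)ˣ) : ZMod m) * a)) :
    addOrderOf a = 420 := by
  have h3 : ((421 : ℕ) : ZMod m) * (((V⁻¹ : (ZMod m)ˣ) : ZMod m) * a) =
      ((U⁻¹ : (ZMod m)ˣ) : ZMod m) * a := by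
    have := inv_mul_of_mul hV a
    exact_mod_cast this
  have h4 := order_of_421 h420 h7 h1 h2 h3
  rwa [order_unit_mul U⁻¹ a] at h4

open Classical in
/-- the mass is at least the number of elements of the support -/
lemma card_le_mass (P : ZMod m → Prop) (F : ZMod m → ℤ) (S : Finset (ZMod m))
    (h : ∀ x ∈ S, P x ∧ F x ≠ 0) : (S.card : ℤ) ≤ ∑ a, if P a then |F a| else 0 := by
  have h1 : (S.card : ℤ) = ∑ a : ZMod m, if a ∈ S then 1 else 0 := by
    rw [sum_boole]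
    simp
  rw [h1]
  refine sum_le_sum fun a _ => ?_
  split_ifs with h2 h3 h3
  · exact Int.one_le_abs (h a h2).2
  · exact absurd (h a h2).1 h3
  · exact abs_nonneg _
  · exact le_rfl

lemma card_le_NC {F : ZMod m → ℤ} {s : ZMod 420} (S : Finset (ZMod m))
    (h : ∀ x ∈ S, Cl x s ∧ F x ≠ 0) : (S.card : ℤ) ≤ NC F s := by
  unfold NC
  exact card_le_mass (fun a => Cl a s) F S h

lemma card_le_cB {F : ZMod m → ℤ} {U : (ZMod m)ˣ} (S : Finset (ZMod m))
    (h : ∀ x ∈ S, InB (((U⁻¹ : (ZMod m)ˣ) : ZMod m) * x) ∧ F x ≠ 0) : (S.card : ℤ) ≤ cB U F := by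
  unfold cB
  exact card_le_mass (fun a => InB (((U⁻¹ : (ZMod m)ˣ) : ZMod m) * a)) F S h

/-- a box of positive mass contains an element of the support -/
lemma exists_of_cB {F : ZMod m → ℤ} {U : (ZMod m)ˣ} (h : cB U F ≠ 0) :
    ∃ a, InB (((U⁻¹ : (ZMod m)ˣ) : ZMod m) * a) ∧ F a ≠ 0 := by
  unfold cB at h
  obtain ⟨a, _, ha⟩ := Finset.exists_ne_zero_of_sum_ne_zero h
  by_cases h1 : InB (((U⁻¹ : (ZMod m)ˣ) : ZMod m) * a)
  · rw [if_pos h1] at ha
    exact ⟨a, h1, fun h0 => ha (by rw [h0, abs_zero])⟩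
  · rw [if_neg h1] at ha
    exact absurd rfl ha

lemma InB_neg' {U : (ZMod m)ˣ} {a : ZMod m} (h : InB (((U⁻¹ : (ZMod m)ˣ) : ZMod m) * a)) :
    InB (((U⁻¹ : (ZMod m)ˣ) : ZMod m) * (-a)) := by
  rw [mul_neg]
  exact InB.neg_iff.mpr h

lemma oddF_ne {F : ZMod m → ℤ} (hodd : OddF F) {a : ZMod m} (h : F a ≠ 0) : F (-a) ≠ 0 := by
  rw [hodd a]
  exact neg_ne_zero.mpr h

/-- two pairs of elements -/
lemma card_four {a b : ZMod m} (ha : -a ≠ a) (hb : -b ≠ b) (h1 : b ≠ a) (h2 : b ≠ -a) :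
    ({a, -a, b, -b} : Finset (ZMod m)).card = 4 := by
  have h3 : -b ≠ a := fun h => h2 (by rw [← h, neg_neg])
  have h4 : -b ≠ -a := fun h => h1 (neg_injective h)
  rw [card_insert_of_notMem, card_insert_of_notMem, card_insert_of_notMem, card_singleton]
  · simpa using hb.symm
  · simp only [mem_insert, mem_singleton, not_or]
    exact ⟨h2.symm, h4.symm⟩
  · simp only [mem_insert, mem_singleton, not_or]
    exact ⟨ha.symm, h1.symm, h3.symm⟩

lemma cl_ne {a : ZMod m} {s : ZMod 420} (h : Cl a s) : -a ≠ a := neg_ne_self h.1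

/-- the unit `421` -/
lemma exists_421 (h420 : 420 ∣ m) (h7 : ∀ p, p.Prime → p ∣ m → p ≤ 7) (U : (ZMod m)ˣ) :
    ∃ V : (ZMod m)ˣ, (V : ZMod m) = 421 * (U : ZMod m) ∧
      ZMod.castHom h420 (ZMod 420) (V : ZMod m) = ZMod.castHom h420 (ZMod 420) (U : ZMod m) := by
  refine ⟨ZMod.unitOfCoprime 421 (coprime_of_210 h7 (by norm_num)) * U, ?_, ?_⟩
  · rw [Units.val_mul, ZMod.coe_unitOfCoprime]
    norm_num
  · rw [Units.val_mul, ZMod.coe_unitOfCoprime, map_mul, map_natCast, cast_421, one_mul]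

/-- the class has positive mass in each of its boxes, and only one pair of elements -/
theorem ord_of_two (h420 : 420 ∣ m) (h7 : ∀ p, p.Prime → p ∣ m → p ≤ 7) {F : ZMod m → ℤ}
    (hodd : OddF F) (hc : ∀ U, cB U F % 4 = 2) {s : ZMod 420} (h2 : NC F s < 4) {a : ZMod m}
    (ha : Cl a s) (hF : F a ≠ 0) : addOrderOf a = 420 := by
  classical
  obtain ⟨U, hU, hUs⟩ := InB_of_Cl h420 h7 ha
  obtain ⟨V, hV, hVs⟩ := exists_421 h420 h7 U
  have hcV := hc V
  obtain ⟨b, hb, hFb⟩ := exists_of_cB (F := F) (U := V) (fun h => by rw [h] at hcV; omega)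
  have hbs : Cl b s := by
    have := Cl_of_InB h420 h7 hb
    rwa [hVs, hUs] at this
  have hab : b = a ∨ b = -a := by
    by_contra hcon
    push Not at hcon
    have h3 := card_le_NC (F := F) (s := s) {a, -a, b, -b} (by
      intro x hx
      simp only [mem_insert, mem_singleton] at hx
      rcases hx with rfl | rfl | rfl | rfl
      · exact ⟨ha, hF⟩
      · exact ⟨ha.neg, oddF_ne hodd hF⟩
      · exact ⟨hbs, hFb⟩
      · exact ⟨hbs.neg, oddF_ne hodd hFb⟩)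
    rw [card_four (cl_ne ha) (cl_ne hbs) hcon.1 hcon.2] at h3
    push_cast at h3
    omega
  refine order_of_two_boxes h420 h7 hV hU ?_
  rcases hab with h | h
  · rwa [h] at hb
  · rw [h] at hb
    have := InB_neg' hb
    rwa [neg_neg] at this

end Pool.Agent.Lib.MP_938ce2_ag_h99w
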