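import Pool.Agent.Lib.MP_938ce2_ag_h99w.B15

/-!
Classes with two pairs of elements.
-/

set_option autoImplicit false
set_option linter.style.haveILetI false
set_option linter.unusedSectionVars false

open Finset

namespace Pool.Agent.Lib.MP_938ce2_ag_h99w

open Pool.Agent.Lib.MP_938ce2_ag_h99 Pool.Agent.Lib.MP_938ce2_ag_h85c
open Pool.Agent.Lib.MP_938ce2_ag_H7f Pool.Agent.Lib.MP_938ce2_ag_h6

variable {m : ℕ} [NeZero m]

/-- as `order_of_421`: `(421 ^ 2 - 1) * x = 0`, and `421 ^ 2 - 1 = 840 * 211` -/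
lemma order_of_sq_boxes (h420 : 420 ∣ m) (h7 : ∀ p, p.Prime → p ∣ m → p ≤ 7) {a : ZMod m}
    {U V : (ZMod m)ˣ} (hV : (V : ZMod m) = 421 ^ 2 * (U : ZMod m))
    (h1 : InB (((U⁻¹ : (ZMod m)ˣ) : ZMod m) * a)) (h2 : InB (((V⁻¹ : (ZMod m)ˣ) : ZMod m) * a)) :
    ¬ 16 ∣ addOrderOf a := by
  have h3 := inv_mul_of_mul hV a
  have hoU := order_unit_mul U⁻¹ a
  have hoV := order_unit_mul V⁻¹ a
  obtain ⟨g1, y, hy, hxy⟩ := h1
  obtain ⟨_, y', hy', hxy'⟩ := h2
  rw [hoU] at hxy g1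
  rw [hoV] at hxy'
  have h4 : ((m / addOrderOf a : ℕ) : ZMod m) * ((421 ^ 2 * y' : ℤ) : ZMod m)
      = ((m / addOrderOf a : ℕ) : ZMod m) * (y : ZMod m) := by
    rw [← hxy, ← h3, hxy']
    push_cast
    ring
  have h5 := dvd_of_mul_eq (addOrderOf_dvd_m a) h4
  have h6 : (420 : ℤ) ∣ 421 ^ 2 * y' - y :=
    (by exact_mod_cast g1 : (420 : ℤ) ∣ (addOrderOf a : ℤ)).trans h5
  have h7' : (420 : ℤ) ∣ y' - y := by omega
  have h8 := cast_eq_of_dvd (hy'.eq (NeZero.ne m) h420 h7 hy h7')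
  have h9 : ((V⁻¹ : (ZMod m)ˣ) : ZMod m) * a = ((U⁻¹ : (ZMod m)ˣ) : ZMod m) * a := by
    rw [hxy', h8]
    exact hxy.symm
  have h10 : (177240 : ℕ) • (((U⁻¹ : (ZMod m)ˣ) : ZMod m) * a) = 0 := by
    rw [h9] at h3
    rw [nsmul_eq_mul]
    have h11 : (421 : ZMod m) ^ 2 = ((177240 : ℕ) : ZMod m) + 1 := by norm_num
    rw [h11, add_mul, one_mul] at h3
    exact add_eq_right.mp h3
  have h12 := addOrderOf_dvd_of_nsmul_eq_zero h10
  rw [hoU] at h12
  intro h16
  have := h16.trans h12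
  omega

/-- an element of order `420` in a box is in the box translated by `421` -/
lemma InB_421 (h420 : 420 ∣ m) (h7 : ∀ p, p.Prime → p ∣ m → p ≤ 7) {a : ZMod m}
    {U V : (ZMod m)ˣ} (hV : (V : ZMod m) = 421 * (U : ZMod m)) (ho : addOrderOf a = 420)
    (h1 : InB (((V⁻¹ : (ZMod m)ˣ) : ZMod m) * a)) : InB (((U⁻¹ : (ZMod m)ˣ) : ZMod m) * a) := by
  have h3 := inv_mul_of_mul hV a
  have hoV := order_unit_mul V⁻¹ a
  have h4 : (420 : ZMod m) * (((V⁻¹ : (ZMod m)ˣ) : ZMod m) * a) = 0 := by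
    have := addOrderOf_nsmul_eq_zero (((V⁻¹ : (ZMod m)ˣ) : ZMod m) * a)
    rw [hoV, ho, nsmul_eq_mul] at this
    exact_mod_cast this
  have h5 : (421 : ZMod m) = 420 + 1 := by norm_num
  rw [h5, add_mul, h4, zero_add, one_mul] at h3
  rwa [h3] at h1

/-- Suppose `16 ∣ addOrderOf a`, `NC F s < 6`. Take `U` with `a` in the box of `U` (`InB_of_Cl`).
The mass of the box is `2` modulo `4` and at most `NC F s`, so it is `2`: then `|F a| = 1`, and `a`,
`-a` are the only elements of the support in the box of `U`. In the boxes of `421 U` and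
`421 ^ 2 U` (same class) `a` is not present (`order_of_two_boxes`, `order_of_sq_boxes`), so there
are other pairs `a1`, `a2` with nonzero value; as `NC F s < 6`, `a2 = a1` or `a2 = - a1`; so
`a1` has order `420` and is in the box of `U` (`InB_421`), whose mass is then at least `4`. -/
theorem ord_of_four (h420 : 420 ∣ m) (h7 : ∀ p, p.Prime → p ∣ m → p ≤ 7) {F : ZMod m → ℤ}
    (hodd : OddF F) (hc : ∀ U, cB U F % 4 = 2) {s : ZMod 420} (h4 : NC F s < 6) {a : ZMod m}
    (ha : Cl a s) (hF : F a ≠ 0) : ¬ 16 ∣ addOrderOf a := by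
  classical
  intro h16
  obtain ⟨U, hU, hUs⟩ := InB_of_Cl h420 h7 ha
  obtain ⟨V, hV, hVs⟩ := exists_421 h420 h7 U
  obtain ⟨W, hW, hWs⟩ := exists_421 h420 h7 V
  have hW2 : (W : ZMod m) = 421 ^ 2 * (U : ZMod m) := by rw [hW, hV]; ring
  have hcU := hc U
  have hcV := hc V
  have hcW := hc W
  have hUle := cB_le_NC h420 h7 F U
  rw [hUs] at hUle
  obtain ⟨a1, hb1, hF1⟩ := exists_of_cB (F := F) (U := V) (fun h => by rw [h] at hcV; omega)
  obtain ⟨a2, hb2, hF2⟩ := exists_of_cB (F := F) (U := W) (fun h => by rw [h] at hcW; omega)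
  have hs1 : Cl a1 s := by
    have := Cl_of_InB h420 h7 hb1
    rwa [hVs, hUs] at this
  have hs2 : Cl a2 s := by
    have := Cl_of_InB h420 h7 hb2
    rwa [hWs, hVs, hUs] at this
  have hV' : InB (((V⁻¹ : (ZMod m)ˣ) : ZMod m) * a) → False := fun h => by
    have := order_of_two_boxes h420 h7 hV hU h
    rw [this] at h16
    omega
  have hW' : InB (((W⁻¹ : (ZMod m)ˣ) : ZMod m) * a) → False := fun h =>
    order_of_sq_boxes h420 h7 hW2 hU h h16
  have n1 : a1 ≠ a := fun h => hV' (by rwa [h] at hb1)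
  have n1' : a1 ≠ -a := fun h => hV' (by
    rw [h] at hb1
    have := InB_neg' hb1
    rwa [neg_neg] at this)
  have n2 : a2 ≠ a := fun h => hW' (by rwa [h] at hb2)
  have n2' : a2 ≠ -a := fun h => hW' (by
    rw [h] at hb2
    have := InB_neg' hb2
    rwa [neg_neg] at this)
  have h12 : a2 = a1 ∨ a2 = -a1 := by
    by_contra hcon
    push Not at hcon
    have h3 := card_le_NC (F := F) (s := s) ({a2, -a2} ∪ {a, -a, a1, -a1}) (by
      intro x hx
      simp only [mem_union, mem_insert, mem_singleton] at hx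
      rcases hx with (rfl | rfl) | (rfl | rfl | rfl | rfl)
      · exact ⟨hs2, hF2⟩
      · exact ⟨hs2.neg, oddF_ne hodd hF2⟩
      · exact ⟨ha, hF⟩
      · exact ⟨ha.neg, oddF_ne hodd hF⟩
      · exact ⟨hs1, hF1⟩
      · exact ⟨hs1.neg, oddF_ne hodd hF1⟩)
    rw [card_union_of_disjoint, card_four (cl_ne ha) (cl_ne hs1) n1 n1', card_pair (cl_ne hs2).symm]
      at h3
    · push_cast at h3
      omega
    · rw [Finset.disjoint_left]
      intro x hx hx'
      simp only [mem_insert, mem_singleton] at hx hx'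
      have e1 : ∀ b : ZMod m, a2 ≠ b → a2 ≠ -b → ¬ (x = b ∨ x = -b) := by
        intro b k1 k2 h
        rcases hx with hx | hx
        · rcases h with h | h
          · exact k1 (hx.symm.trans h)
          · exact k2 (hx.symm.trans h)
        · rcases h with h | h
          · exact k2 (by rw [← neg_neg a2, ← hx, h])
          · exact k1 (neg_injective (hx.symm.trans h))
      rcases hx' with h | h | h | h
      · exact e1 a n2 n2' (Or.inl h)
      · exact e1 a n2 n2' (Or.inr h)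
      · exact e1 a1 hcon.1 hcon.2 (Or.inl h)
      · exact e1 a1 hcon.1 hcon.2 (Or.inr h)
  have hb3 : InB (((W⁻¹ : (ZMod m)ˣ) : ZMod m) * a1) := by
    rcases h12 with h | h
    · rwa [h] at hb2
    · rw [h] at hb2
      have := InB_neg' hb2
      rwa [neg_neg] at this
  have ho1 := order_of_two_boxes h420 h7 hW hb1 hb3
  have hb4 := InB_421 h420 h7 hV ho1 hb1
  have h5 := card_le_cB (F := F) (U := U) {a, -a, a1, -a1} (by
    intro x hx
    simp only [mem_insert, mem_singleton] at hx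
    rcases hx with rfl | rfl | rfl | rfl
    · exact ⟨hU, hF⟩
    · exact ⟨InB_neg' hU, oddF_ne hodd hF⟩
    · exact ⟨hb4, hF1⟩
    · exact ⟨InB_neg' hb4, oddF_ne hodd hF1⟩)
  rw [card_four (cl_ne ha) (cl_ne hs1) n1 n1'] at h5
  push_cast at h5
  omega

end Pool.Agent.Lib.MP_938ce2_ag_h99w
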