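import Pool.Agent.Lib.MP_938ce2_ag_h99w.B13
import Pool.Agent.Lib.MP_938ce2_ag_h99w.B16

/-!
Functions of norm at most sixteen, for degrees with prime factors up to seven.
-/

set_option autoImplicit false
set_option linter.style.haveILetI false
set_option linter.unusedSectionVars false

open Finset

namespace Pool.Agent.Lib.MP_938ce2_ag_h99w

open Pool.Agent.Lib.MP_938ce2_ag_h99 Pool.Agent.Lib.MP_938ce2_ag_h85c
open Pool.Agent.Lib.MP_938ce2_ag_H7f Pool.Agent.Lib.MP_938ce2_ag_h6

variable {m : ℕ} [NeZero m]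

/-- the mass at the orders with at least three effective primes -/
noncomputable def N3 (F : ZMod m → ℤ) : ℤ := by
  classical
  exact ∑ a, if 3 ≤ (effB (addOrderOf a)).card then |F a| else 0

/-- a multiple of `420` has at least three effective primes -/
lemma effB_420 {k : ℕ} (hk : k ≠ 0) (h : 420 ∣ k) : 3 ≤ (effB k).card := by
  have h1 : ({3, 5, 7} : Finset ℕ) ⊆ effB k := by
    intro p hp
    simp only [mem_insert, mem_singleton] at hp
    unfold effB
    rw [mem_filter, Nat.mem_primeFactors]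
    rcases hp with rfl | rfl | rfl
    · exact ⟨⟨by norm_num, (by norm_num : 3 ∣ 420).trans h, hk⟩, fun h => absurd h (by norm_num)⟩
    · exact ⟨⟨by norm_num, (by norm_num : 5 ∣ 420).trans h, hk⟩, fun h => absurd h (by norm_num)⟩
    · exact ⟨⟨by norm_num, (by norm_num : 7 ∣ 420).trans h, hk⟩, fun h => absurd h (by norm_num)⟩
  have h2 := card_le_card h1
  have h3 : ({3, 5, 7} : Finset ℕ).card = 3 := by decide
  omega

/-- the classes and a few other pairs of elements -/
lemma mass_le (h420 : 420 ∣ m) (h7 : ∀ p, p.Prime → p ∣ m → p ≤ 7) {F : ZMod m → ℤ}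
    (hodd : OddF F) (A : Finset (ZMod m))
    (hA : ∀ a ∈ A, 3 ≤ (effB (addOrderOf a)).card ∧ ¬ 420 ∣ addOrderOf a ∧ F a ≠ 0 ∧ -a ≠ a ∧
      -a ∉ A) : ∑ i : Fin 6, NC F (MP_938ce2_ag_h85c.sq i) + 2 * (A.card : ℤ) ≤ N3 F := by
  classical
  have e1 : ∑ i : Fin 6, NC F (MP_938ce2_ag_h85c.sq i) =
      ∑ a : ZMod m, ∑ i : Fin 6, if Cl a (MP_938ce2_ag_h85c.sq i) then |F a| else 0 := by
    unfold NC
    rw [sum_comm]
  have e2 : (A.card : ℤ) = ∑ a : ZMod m, if a ∈ A then 1 else 0 := by
    rw [sum_boole]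
    simp
  have e3 : (A.card : ℤ) = ∑ a : ZMod m, if -a ∈ A then 1 else 0 := by
    rw [e2]
    exact (Fintype.sum_equiv (Equiv.neg _) _ _ fun x => by simp)
  have e4 : 2 * (A.card : ℤ) =
      (∑ a : ZMod m, if a ∈ A then 1 else 0) + ∑ a : ZMod m, if -a ∈ A then 1 else 0 := by
    rw [← e2, ← e3, two_mul]
  rw [e1, e4, ← sum_add_distrib, ← sum_add_distrib]
  unfold N3
  refine sum_le_sum fun a _ => ?_
  have hm : m ≠ 0 := NeZero.ne m
  have ho0 : addOrderOf a ≠ 0 := ne_zero_of_dvd_ne_zero hm (addOrderOf_dvd_m a)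
  by_cases h : 420 ∣ addOrderOf a
  · have h1 : a ∉ A := fun h' => (hA a h').2.1 h
    have h2 : -a ∉ A := fun h' => (hA _ h').2.1 (by rwa [addOrderOf_neg])
    rw [if_neg h1, if_neg h2, if_pos (effB_420 ho0 h), add_zero, add_zero]
    obtain ⟨i, hi⟩ := Cl_of_dvd h420 h7 h
    rw [sum_eq_single i]
    · rw [if_pos hi]
    · intro j _ hj
      rw [if_neg]
      intro hj'
      exact hj (sq_inj j i (hj'.unique hi))
    · intro h'
      exact absurd (mem_univ _) h'
  · have h1 : ∑ i : Fin 6, (if Cl a (MP_938ce2_ag_h85c.sq i) then |F a| else 0) = 0 :=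
      sum_eq_zero fun i _ => if_neg fun h' => h h'.1
    rw [h1, zero_add]
    by_cases hx : a ∈ A
    · obtain ⟨k1, _, k3, _, k5⟩ := hA a hx
      rw [if_pos hx, if_neg k5, if_pos k1, add_zero]
      exact Int.one_le_abs k3
    · rw [if_neg hx, zero_add]
      by_cases hy : -a ∈ A
      · obtain ⟨k1, _, k3, _, _⟩ := hA _ hy
        rw [addOrderOf_neg] at k1
        rw [if_pos hy, if_pos k1]
        apply Int.one_le_abs
        intro h0
        exact k3 (by rw [hodd, h0, neg_zero])
      · rw [if_neg hy]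
        split_ifs
        · exact abs_nonneg _
        · exact le_rfl

lemma NC_even {F : ZMod m → ℤ} (hodd : OddF F) (s : ZMod 420) : 2 ∣ NC F s := by
  classical
  unfold NC
  have := even_sum (m := m) (h := fun a => if Cl a s then |F a| else 0) (k := 1) (by
    intro x
    have e : Cl (-x) s ↔ Cl x s :=
      ⟨fun h => by have := h.neg; rwa [neg_neg] at this, fun h => h.neg⟩
    simp only [e, hodd x, abs_neg]) (by
    intro x hx
    have : F x = 0 := OddF.zero_of_neg hodd hx
    simp [this]) (fun x => one_dvd _)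
  simpa using this

/-- Suppose not; then `cB U F % 4 = 2` for all `U`, `NC F (sq i) ≥ 2` for all `i` (and it is even),
and there are `x1, x2, x3` in the supports of `w105`, `wT 3 5 7`, `wT 5 7 3` (`exists_of_not_mem`).
Case A: all `NC F (sq i) < 4`. Then all the elements of the support of order divisible by `420` have
order `420` (`ord_of_two`), so `7` does not divide the order of `x2` and `3` does not divide the
order of `x3` (`wT_supp7`, `wT_supp3`), and `A = {x1, x2, x3}` in `mass_le` gives `12 + 6 ≤ 16`.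
Case B: some `NC F (sq j) ≥ 4`. With `A = {x1}`: `10 + NC F (sq j) + 2 ≤ 16`, so
`NC F (sq j) = 4`, the others are `2`; with `A = {x1, x2}` it would be more than `16`, so
`420 ∣ addOrderOf x2`, `16 ∣ addOrderOf x2` (`wT_supp7`), against `ord_of_two`, `ord_of_four`. -/
theorem smooth7 (h420 : 420 ∣ m) (h7 : ∀ p, p.Prime → p ∣ m → p ≤ 7) {F : ZMod m → ℤ}
    (hodd : OddF F) (hT : TateF F) (hN : N3 F ≤ 16) : F ∈ XF m ⊔ relSub m := by
  classical
  by_contra hn
  have hc := cB_of_not_mem h420 h7 hodd hT hn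
  have hNC : ∀ i, 2 ≤ NC F (MP_938ce2_ag_h85c.sq i) := by
    intro i
    obtain ⟨U, hU⟩ := exists_root h420 h7 i
    have h1 := hc U
    have h2 := cB_le_NC h420 h7 F U
    rw [hU] at h2
    have h3 : 0 ≤ cB U F := by
      unfold cB
      refine sum_nonneg fun a _ => ?_
      split_ifs
      · exact abs_nonneg _
      · exact le_rfl
    omega
  obtain ⟨x1, hw1, hF1⟩ := exists_of_not_mem h420 h7 hodd hT hn (w105_dist h7)
    (fun x hx => w105_eff hx) (LW_E0_105 h420)
  obtain ⟨x2, hw2, hF2⟩ := exists_of_not_mem h420 h7 hodd hT hn (wT357_dist h7)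
    (fun x hx => wT357_eff hx) (LW_E0_357 h420)
  obtain ⟨x3, hw3, hF3⟩ := exists_of_not_mem h420 h7 hodd hT hn (wT573_dist h7)
    (fun x hx => wT573_eff hx) (LW_E0_573 h420)
  have ho1 : Odd (addOrderOf x1) := by
    by_contra h
    apply hw1
    unfold w105
    rw [if_neg (fun h' => h h'.1)]
  have n1 : ¬ 4 ∣ addOrderOf x1 := by
    intro h
    obtain ⟨k, hk⟩ := ho1
    omega
  have n1' : ¬ 420 ∣ addOrderOf x1 := fun h => n1 ((by norm_num : 4 ∣ 420).trans h)
  obtain ⟨h42, h32, h52⟩ := wT_supp hw2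
  obtain ⟨h43, h53, h73⟩ := wT_supp hw3
  -- fixed points
  have hfix : ∀ {x : ZMod m}, F x ≠ 0 → -x ≠ x := fun h h' => h (OddF.zero_of_neg hodd h')
  have d420 : ∀ k : ℕ, 4 ∣ k → 3 ∣ k → 5 ∣ k → 7 ∣ k → 420 ∣ k := by
    intro k g4 g3 g5 g7
    omega
  -- disjointness by the orders
  have ne_of_ord : ∀ {x y : ZMod m} {d : ℕ}, d ∣ addOrderOf x → ¬ d ∣ addOrderOf y →
      x ≠ y ∧ x ≠ -y ∧ -x ≠ y := by
    intro x y d h1 h2
    refine ⟨fun h => h2 (h ▸ h1), fun h => h2 ?_, fun h => h2 ?_⟩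
    · rw [h, addOrderOf_neg] at h1
      exact h1
    · rw [← h, addOrderOf_neg]
      exact h1
  by_cases hB : ∃ j, 4 ≤ NC F (MP_938ce2_ag_h85c.sq j)
  · obtain ⟨j, hj⟩ := hB
    have hsum : ∀ i, NC F (MP_938ce2_ag_h85c.sq i) + 10 ≤
        ∑ i : Fin 6, NC F (MP_938ce2_ag_h85c.sq i) := by
      intro i
      have h0 := add_sum_erase univ (fun k => NC F (MP_938ce2_ag_h85c.sq k)) (mem_univ i)
      have h1 : ∑ k ∈ univ.erase i, (2 : ℤ) ≤
          ∑ k ∈ univ.erase i, NC F (MP_938ce2_ag_h85c.sq k) := sum_le_sum fun k _ => hNC k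
      have h2 : ∑ k ∈ univ.erase i, (2 : ℤ) = 10 := by
        rw [sum_const, card_erase_of_mem (mem_univ i), card_univ, Fintype.card_fin]
        norm_num
      rw [h2] at h1
      rw [← h0]
      linarith
    have hm1 := mass_le h420 h7 hodd {x1} (by
      intro a ha
      rw [mem_singleton] at ha
      subst ha
      refine ⟨w105_eff hw1, n1', hF1, hfix hF1, ?_⟩
      rw [mem_singleton]
      exact hfix hF1)
    rw [card_singleton] at hm1
    have hlt : ∀ i, NC F (MP_938ce2_ag_h85c.sq i) < 6 := by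
      intro i
      have := hsum i
      push_cast at hm1
      omega
    by_cases h2 : 420 ∣ addOrderOf x2
    · have h16 := wT_supp7 hw2 ((by norm_num : 7 ∣ 420).trans h2)
      obtain ⟨i, hi⟩ := Cl_of_dvd h420 h7 h2
      exact ord_of_four h420 h7 hodd hc (hlt i) hi hF2 h16
    · obtain ⟨k1, k2, k3⟩ := ne_of_ord h42 n1
      have hm2 := mass_le h420 h7 hodd {x1, x2} (by
        intro a ha
        simp only [mem_insert, mem_singleton] at ha
        rcases ha with rfl | rfl
        · refine ⟨w105_eff hw1, n1', hF1, hfix hF1, ?_⟩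
          simp only [mem_insert, mem_singleton, not_or]
          exact ⟨hfix hF1, fun h => k2 h.symm⟩
        · refine ⟨wT357_eff hw2, h2, hF2, hfix hF2, ?_⟩
          simp only [mem_insert, mem_singleton, not_or]
          exact ⟨k3, hfix hF2⟩)
      rw [card_pair k1.symm] at hm2
      have := hsum j
      push_cast at hm2
      omega
  · push Not at hB
    have hord : ∀ x, F x ≠ 0 → 420 ∣ addOrderOf x → addOrderOf x = 420 := by
      intro x hx h
      obtain ⟨i, hi⟩ := Cl_of_dvd h420 h7 h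
      exact ord_of_two h420 h7 hodd hc (hB i) hi hx
    have g2 : ¬ 7 ∣ addOrderOf x2 := by
      intro h
      have h1 := hord x2 hF2 (d420 _ h42 h32 h52 h)
      have h2 := wT_supp7 hw2 h
      rw [h1] at h2
      omega
    have g3 : ¬ 3 ∣ addOrderOf x3 := by
      intro h
      have h1 := hord x3 hF3 (d420 _ h43 h h53 h73)
      have h2 := wT_supp3 hw3 h
      rw [h1] at h2
      omega
    have n2 : ¬ 420 ∣ addOrderOf x2 := fun h => g2 ((by norm_num : 7 ∣ 420).trans h)
    have n3 : ¬ 420 ∣ addOrderOf x3 := fun h => g3 ((by norm_num : 3 ∣ 420).trans h)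
    obtain ⟨a1, a2, a3⟩ := ne_of_ord h42 n1
    obtain ⟨b1, b2, b3⟩ := ne_of_ord h43 n1
    obtain ⟨c1, c2, c3⟩ := ne_of_ord h73 g2
    have hm := mass_le h420 h7 hodd {x1, x2, x3} (by
      intro a ha
      simp only [mem_insert, mem_singleton] at ha
      rcases ha with rfl | rfl | rfl
      · refine ⟨w105_eff hw1, n1', hF1, hfix hF1, ?_⟩
        simp only [mem_insert, mem_singleton, not_or]
        exact ⟨hfix hF1, fun h => a2 h.symm, fun h => b2 h.symm⟩
      · refine ⟨wT357_eff hw2, n2, hF2, hfix hF2, ?_⟩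
        simp only [mem_insert, mem_singleton, not_or]
        exact ⟨a3, hfix hF2, fun h => c2 h.symm⟩
      · refine ⟨wT573_eff hw3, n3, hF3, hfix hF3, ?_⟩
        simp only [mem_insert, mem_singleton, not_or]
        exact ⟨b3, c3, hfix hF3⟩)
    have hcard : ({x1, x2, x3} : Finset (ZMod m)).card = 3 := by
      rw [card_insert_of_notMem, card_pair c1.symm]
      simp only [mem_insert, mem_singleton, not_or]
      exact ⟨a1.symm, b1.symm⟩
    rw [hcard] at hm
    have hs : (12 : ℤ) ≤ ∑ i : Fin 6, NC F (MP_938ce2_ag_h85c.sq i) := by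
      have h1 : ∑ _i : Fin 6, (2 : ℤ) ≤ ∑ i : Fin 6, NC F (MP_938ce2_ag_h85c.sq i) :=
        sum_le_sum fun k _ => hNC k
      have h2 : ∑ _i : Fin 6, (2 : ℤ) = 12 := by decide
      omega
    push_cast at hm
    omega

end Pool.Agent.Lib.MP_938ce2_ag_h99w
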