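import Pool.Agent.Lib.MP_938ce2_ag_h85c.Many
import Pool.Agent.Lib.MP_938ce2_ag_h85c.Below
import Pool.Agent.Lib.MP_938ce2_ag_H7f.Transfer

/-!
Distributions with two values: definitions.
-/

set_option autoImplicit false
set_option linter.style.haveILetI false
set_option linter.unusedSectionVars false

open Finset

namespace Pool.Agent.Lib.MP_938ce2_ag_h99w

open Pool.Agent.Lib.MP_938ce2_ag_h99 Pool.Agent.Lib.MP_938ce2_ag_h85c
open Pool.Agent.Lib.MP_938ce2_ag_H7f Pool.Agent.Lib.MP_938ce2_ag_h6

variable {m : ℕ} [NeZero m]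

/-- the effective primes -/
def effB (k : ℕ) : Finset ℕ := k.primeFactors.filter fun p => p = 2 → 4 ∣ k

/-- even distributions with values in `ZMod 2` -/
structure FDist (w : ZMod m → ZMod 2) : Prop where
  even : ∀ x, w (-x) = w x
  fix : ∀ x, -x = x → w x = 0
  fib : ∀ p, p.Prime → p ∣ m → ∀ b0 : ZMod m,
    ∑ b ∈ univ.filter (fun b : ZMod m => (p : ZMod m) * b = (p : ZMod m) * b0), w b
      = w ((p : ZMod m) * b0)

/-- the functional attached to a weight -/
noncomputable def LW (w : ZMod m → ZMod 2) (F : ZMod m → ℤ) : ℤ :=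
  ∑ x, F x * (if w x = 1 then eps x else 0)

/-- the weight of the odd orders divisible by `105` -/
noncomputable def w105 (x : ZMod m) : ZMod 2 := by
  classical
  exact if Odd (addOrderOf x) ∧ 105 ∣ addOrderOf x then 1 else 0

/-- the numerator of an element -/
noncomputable def vr (x : ZMod m) : ℤ := ((x.val / (m / addOrderOf x) : ℕ) : ℤ)

/-- the indicator of a proposition -/
noncomputable def ind (P : Prop) : ZMod 2 := by
  classical
  exact if P then 1 else 0

/-- the numerator is `k` at the prime two -/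
def T2 (x : ZMod m) (k : ℤ) : Prop :=
  ((2 ^ (addOrderOf x).factorization 2 : ℕ) : ℤ) ∣ vr x - k

/-- the numerator is `k` modulo `t` -/
def Tt (t : ℕ) (x : ZMod m) (k : ℤ) : Prop := (t : ℤ) ∣ vr x - k

/-- the weight attached to the orders `2 ^ a * r ^ b * s ^ c`, extended to the orders divisible by
`t` -/
noncomputable def wT (r s t : ℕ) (x : ZMod m) : ZMod 2 := by
  classical
  exact if 4 ∣ addOrderOf x ∧ r ∣ addOrderOf x ∧ s ∣ addOrderOf x then
    (if t ∣ addOrderOf x then
      ind (T2 x 1 ∧ Tt t x 1) + ind (T2 x (-1) ∧ Tt t x (-1)) + ind (T2 x (-t) ∧ Tt t x 1)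
        + ind (T2 x t ∧ Tt t x (-1))
    else ind (T2 x 1) + ind (T2 x (-1)))
  else 0

end Pool.Agent.Lib.MP_938ce2_ag_h99w
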