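import Pool.Agent.Lib.MP_938ce2_ag_H7f.StepGen

/-!
The transform of the character modulo three, away from the points of order six.
-/

set_option autoImplicit false
set_option linter.style.haveILetI false
set_option linter.unusedSectionVars false

open Finset

namespace Pool.Agent.Lib.MP_938ce2_ag_h99w

open Pool.Agent.Lib.MP_938ce2_ag_h99 Pool.Agent.Lib.MP_938ce2_ag_H7f
open Pool.Agent.Lib.MP_938ce2_ag_H7e

/-- The transform of the character modulo three is at most its value at the points of order three,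
away from the points of order six. -/
theorem norm_Vx3 {n : ℕ} [NeZero n] (hf : 3 ∣ n) {z z0 : ZMod n} (hz : addOrderOf z ≠ 6)
    (hz0 : addOrderOf z0 = 3) : ‖Vx hf chi3 z‖ ≤ ‖Vx hf chi3 z0‖ := by
  have hK := norm_Vx_le hf chi3 chi3_norm (Vx_van_prime hf Nat.prime_three chi3 chi3_neg)
    (c := 2) (by norm_num) (fun _ => by rw [chi3_two]; norm_num) hz0
  have hV0 := norm_nonneg (Vx hf chi3 z0)
  by_cases h2 : 2 ∣ addOrderOf z
  swap
  · have := hK z
    rwa [if_neg h2, one_mul] at this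
  by_cases h3 : 3 ∣ addOrderOf z
  swap
  · rw [Vx_van_prime hf Nat.prime_three chi3 chi3_neg z h3, norm_zero]
    exact hV0
  obtain ⟨k, hk⟩ : ∃ k, k = addOrderOf z := ⟨_, rfl⟩
  have hk0 : 0 < k := hk ▸ addOrderOf_pos z
  have h6 : 6 ∣ k := by
    rw [hk]
    exact Nat.Coprime.mul_dvd_of_dvd_of_dvd (by norm_num : Nat.Coprime 2 3) h2 h3
  obtain ⟨e, he⟩ := h6
  have he1 : e ≠ 1 := by
    rintro rfl
    exact hz (by rw [← hk, he])
  obtain ⟨p, hp, hpe⟩ := Nat.exists_prime_and_dvd he1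
  obtain ⟨e', he'⟩ := hpe
  have hkp : k = p * (6 * e') := by rw [he, he']; ring
  have hpk : p ∣ addOrderOf z := by rw [← hk, hkp]; exact Dvd.intro _ rfl
  have hdiv : addOrderOf z / p = 6 * e' := by
    rw [← hk, hkp, Nat.mul_div_cancel_left _ hp.pos]
  have hfz : 3 ∣ addOrderOf z / p := by
    rw [hdiv]
    exact ⟨2 * e', by ring⟩
  have hVp : ‖Vx hf chi3 ((p : ZMod n) * z)‖ ≤ 2 * ‖Vx hf chi3 z0‖ := by
    refine (hK _).trans (mul_le_mul_of_nonneg_right ?_ hV0)
    split_ifs <;> norm_num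
  have h5 := norm_nonneg (Vx hf chi3 z)
  have hp2 : (2 : ℝ) ≤ p := by exact_mod_cast hp.two_le
  by_cases hpp : p * p ∣ addOrderOf z
  · have h1 := Vx_A hf chi3 hp hpp hfz
    have h4 : ‖Vx hf chi3 ((p : ZMod n) * z)‖ = p * ‖Vx hf chi3 z‖ := by
      rw [h1, norm_mul, Complex.norm_natCast]
    rw [h4] at hVp
    nlinarith
  · have hp5 : 5 ≤ p := by
      by_contra hlt
      have hp4 : p < 5 := by omega
      apply hpp
      rw [← hk, hkp]
      interval_cases p
      · exact absurd hp (by norm_num)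
      · exact absurd hp (by norm_num)
      · exact ⟨3 * e', by ring⟩
      · exact ⟨2 * e', by ring⟩
      · exact absurd hp (by norm_num)
    have h1 := Vx_B hf chi3 hp hpk hpp hfz
    have h4 : ((p : ℝ) - 1) * ‖Vx hf chi3 z‖
        = ‖1 - chi3 (p : ZMod 3)‖ * ‖Vx hf chi3 ((p : ZMod n) * z)‖ := by
      rw [← norm_mul, ← h1, norm_mul]
      congr 1
      have h3 : ((p : ℂ) - 1) = (((p : ℝ) - 1 : ℝ) : ℂ) := by push_cast; rfl
      rw [h3, Complex.norm_real, Real.norm_of_nonneg (by linarith)]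
    have hp5' : (5 : ℝ) ≤ p := by exact_mod_cast hp5
    have hpf : Nat.Coprime p 3 := by
      rw [Nat.Prime.coprime_iff_not_dvd hp]
      intro h
      have := (Nat.prime_dvd_prime_iff_eq hp Nat.prime_three).mp h
      omega
    have h7 : ‖1 - chi3 (p : ZMod 3)‖ ≤ 2 := by
      refine (norm_sub_le _ _).trans ?_
      have h4 := chi3_norm (ZMod.unitOfCoprime p hpf)
      rw [ZMod.coe_unitOfCoprime] at h4
      rw [norm_one, h4]
      norm_num
    have h8 := norm_nonneg (Vx hf chi3 ((p : ZMod n) * z))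
    have h9 : ‖1 - chi3 (p : ZMod 3)‖ * ‖Vx hf chi3 ((p : ZMod n) * z)‖
        ≤ 2 * (2 * ‖Vx hf chi3 z0‖) := mul_le_mul h7 hVp h8 (by norm_num)
    nlinarith

end Pool.Agent.Lib.MP_938ce2_ag_h99w
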