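import Pool.Agent.Lib.MP_938ce2_ag_H7f.StepGen

/-!
Norm of the push-up, if the square of the prime divides the orders.
-/

set_option autoImplicit false
set_option linter.style.haveILetI false
set_option linter.unusedSectionVars false

open Finset

namespace Pool.Agent.Lib.MP_938ce2_ag_h99w

open Pool.Agent.Lib.MP_938ce2_ag_h99 Pool.Agent.Lib.MP_938ce2_ag_H7f
open Pool.Agent.Lib.MP_938ce2_ag_H7e

variable {m Q n q : ℕ} [NeZero m]

/-- as `upF_norm` (H7f/Up2.lean): only the indices `j ≤ K - 2` contribute -/
theorem upF_norm2 (hD : Dat m Q n q) {K : ℕ} (hQ : Q = q ^ K) (F : ZMod m → ℤ)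
    (hs : ∀ a, F a ≠ 0 → q * q ∣ addOrderOf a) :
    q * ∑ b, |upF Q q K F b| ≤ q ^ (K - 1) * ∑ a, |F a| := by
  classical
  have hK : 1 ≤ K := by
    obtain ⟨K', hK', hQ'⟩ := hD.hQ
    by_contra h
    have : K = 0 := by omega
    rw [this, pow_zero] at hQ
    rw [hQ] at hQ'
    have := Nat.one_lt_pow hK' hD.hq.one_lt
    omega
  set Fj : ℕ → ZMod m → ℤ := fun j a => if (addOrderOf a).factorization q = K - j then F a else 0
    with hFj
  have hq1 : (1 : ℤ) ≤ q := by exact_mod_cast hD.hq.one_lt.le
  have h1 : ∀ b, |upF Q q K F b| ≤ ∑ j ∈ range K, |Fj j (((q ^ j : ℕ) : ZMod m) * b)| := by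
    intro b
    unfold upF
    split_ifs with hb
    · refine (abs_sum_le_sum_abs _ _).trans (le_of_eq (sum_congr rfl fun j hj => ?_))
      have := (order_mul_pow hD hQ hb j (mem_range.mp hj).le).1
      simp only [hFj]
      rw [Nat.cast_pow, if_pos this]
    · rw [abs_zero]
      exact sum_nonneg fun _ _ => abs_nonneg _
  have hs2 : ∀ a, F a ≠ 0 → 2 ≤ (addOrderOf a).factorization q := by
    intro a ha
    have h := hs a ha
    rw [← pow_two] at h
    exact (hD.hq.pow_dvd_iff_le_factorization (order_pos a).ne').mp h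
  have h2 : ∀ j ∈ range K, q * ∑ b, |Fj j (((q ^ j : ℕ) : ZMod m) * b)|
      ≤ q ^ (K - 1) * ∑ a, |Fj j a| := by
    intro j hj
    have hjK := mem_range.mp hj
    have hd : q ^ j ∣ m := by
      refine dvd_trans ?_ hD.Qm
      rw [hQ]; exact pow_dvd_pow q hjK.le
    by_cases hj2 : j + 2 ≤ K
    · have h5 := sum_comp_mul_le (pow_pos hD.hq.pos j) hd (Fj j)
      have h6 : (0 : ℤ) ≤ q := by linarith
      calc (q : ℤ) * ∑ b, |Fj j (((q ^ j : ℕ) : ZMod m) * b)|
          ≤ q * (((q ^ j : ℕ) : ℤ) * ∑ a, |Fj j a|) := mul_le_mul_of_nonneg_left h5 h6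
        _ = (q : ℤ) ^ (j + 1) * ∑ a, |Fj j a| := by push_cast; ring
        _ ≤ q ^ (K - 1) * ∑ a, |Fj j a| := by
            apply mul_le_mul_of_nonneg_right _ (sum_nonneg fun _ _ => abs_nonneg _)
            exact pow_le_pow_right₀ hq1 (by omega)
    · have hz : ∀ a, Fj j a = 0 := by
        intro a
        simp only [hFj]
        split_ifs with h7
        · by_contra h8
          have := hs2 a h8
          omega
        · rfl
      simp [hz]
  have h3 : ∀ a, ∑ j ∈ range K, |Fj j a| ≤ |F a| := by
    intro a
    by_cases ha : F a = 0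
    · rw [ha, abs_zero]
      apply le_of_eq
      apply sum_eq_zero
      intro j _
      simp only [hFj]
      rw [ha]
      simp
    · have hl : 1 ≤ (addOrderOf a).factorization q :=
        le_trans (by norm_num) (hs2 a ha)
      have h4 : ∀ j ∈ range K, |Fj j a|
          = if j = K - (addOrderOf a).factorization q then |F a| else 0 := by
        intro j hj
        have hjK := mem_range.mp hj
        simp only [hFj]
        by_cases h5 : (addOrderOf a).factorization q = K - j
        · rw [if_pos h5, if_pos (by omega)]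
        · by_cases h6 : j = K - (addOrderOf a).factorization q
          · exfalso
            apply h5
            have h7 : (addOrderOf a).factorization q ≤ K := by
              have h1 : addOrderOf a ∣ Q * n := (addOrderOf_dvd_m a).trans (dvd_of_eq hD.hm)
              have hQn0 : Q * n ≠ 0 := mul_ne_zero hD.Qpos.ne' hD.hn
              have h2 := (Nat.factorization_le_iff_dvd (order_pos a).ne' hQn0).mpr h1 q
              rw [Nat.factorization_mul hD.Qpos.ne' hD.hn, Finsupp.add_apply, hQ,
                Nat.Prime.factorization_pow hD.hq, Finsupp.single_apply, if_pos rfl] at h2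
              have h3 : n.factorization q = 0 := by
                apply Nat.factorization_eq_zero_of_not_dvd
                intro h
                have h4 : q ∣ 1 := by
                  have := Nat.dvd_gcd hD.qQ h
                  rwa [hD.hcop.gcd_eq_one] at this
                exact hD.hq.one_lt.ne' (Nat.dvd_one.mp h4)
              omega
            omega
          · rw [if_neg h5, if_neg h6, abs_zero]
      rw [sum_congr rfl h4, sum_ite_eq']
      split_ifs
      · exact le_refl _
      · exact abs_nonneg _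
  have hq0 : (0 : ℤ) ≤ q := by linarith
  calc (q : ℤ) * ∑ b, |upF Q q K F b|
      ≤ q * ∑ b, ∑ j ∈ range K, |Fj j (((q ^ j : ℕ) : ZMod m) * b)| :=
        mul_le_mul_of_nonneg_left (sum_le_sum fun b _ => h1 b) hq0
    _ = ∑ j ∈ range K, q * ∑ b, |Fj j (((q ^ j : ℕ) : ZMod m) * b)| := by
        rw [sum_comm, mul_sum]
    _ ≤ ∑ j ∈ range K, q ^ (K - 1) * ∑ a, |Fj j a| := sum_le_sum h2
    _ = q ^ (K - 1) * ∑ a, ∑ j ∈ range K, |Fj j a| := by rw [← mul_sum, sum_comm]
    _ ≤ q ^ (K - 1) * ∑ a, |F a| := by
        apply mul_le_mul_of_nonneg_left (sum_le_sum fun a _ => h3 a) (by positivity)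

end Pool.Agent.Lib.MP_938ce2_ag_h99w
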