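import Pool.Agent.Lib.MP_938ce2_ag_H7f.StepGen

/-!
Support of the push-forward.
-/

set_option autoImplicit false
set_option linter.style.haveILetI false
set_option linter.unusedSectionVars false

open Finset

namespace Pool.Agent.Lib.MP_938ce2_ag_h99w

open Pool.Agent.Lib.MP_938ce2_ag_h99 Pool.Agent.Lib.MP_938ce2_ag_H7f
open Pool.Agent.Lib.MP_938ce2_ag_H7e

variable {m Q n q : ℕ} [NeZero m]

/-- as in `push_supp_dvd` (H7f/StepGen.lean): `y` is the component of some `a` with
`Q ∣ addOrderOf a` and `F (q ^ j * a) ≠ 0`; the order of `q ^ j * a` is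
`q ^ (K - j) * addOrderOf y` -/
theorem push_supp6 (hD : Dat m Q n q) [NeZero n] {K : ℕ} (hQ : Q = q ^ K) {F : ZMod m → ℤ}
    (hs : ∀ a, F a ≠ 0 → q ∣ addOrderOf a ∧ ¬ q * q ∣ addOrderOf a ∧ addOrderOf a ≠ 6 * q)
    {y : ZMod n} (hy : push hD (upF Q q K F) y ≠ 0) : addOrderOf y ≠ 6 := by
  intro h6
  haveI : NeZero Q := ⟨hD.Qpos.ne'⟩
  obtain ⟨x, _, hx⟩ := exists_ne_zero_of_sum_ne_zero (show ∑ x : ZMod Q, upF Q q K F
    (hD.crt.symm (x, y)) ≠ 0 from hy)
  set a := hD.crt.symm (x, y) with ha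
  unfold upF at hx
  split_ifs at hx with hQa
  · obtain ⟨j, hjK, hj⟩ := exists_ne_zero_of_sum_ne_zero hx
    rw [mem_range] at hjK
    obtain ⟨-, h2, h3⟩ := hs _ hj
    have hca : hD.crt a = (x, y) := by rw [ha, RingEquiv.apply_symm_apply]
    have h7 : 6 ∣ addOrderOf a := by
      have h8 : y = (hD.crt a).2 := by rw [hca]
      have h9 : y = ((RingHom.snd (ZMod Q) (ZMod n)).comp
        (hD.crt : ZMod m →+* ZMod Q × ZMod n)) a := h8
      rw [← h6, h9]
      exact addOrderOf_map_dvd (((RingHom.snd (ZMod Q) (ZMod n)).comp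
        (hD.crt : ZMod m →+* ZMod Q × ZMod n)) : ZMod m →+ ZMod n) a
    have hcop : Nat.Coprime Q 6 := by
      have h8 : 6 ∣ n := by rw [← h6]; exact addOrderOf_dvd_m y
      exact Nat.Coprime.coprime_dvd_right h8 hD.hcop
    have h8 : Q * 6 ∣ addOrderOf a := hcop.mul_dvd_of_dvd_of_dvd hQa h7
    have h9 : addOrderOf a ∣ Q * 6 := by
      apply addOrderOf_dvd_of_nsmul_eq_zero
      apply hD.crt.injective
      rw [map_zero, map_nsmul, hca]
      refine Prod.ext ?_ ?_
      · change (Q * 6) • x = 0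
        rw [nsmul_eq_mul]
        push_cast
        rw [ZMod.natCast_self, zero_mul, zero_mul]
      · change (Q * 6) • y = 0
        rw [mul_nsmul', ← h6, addOrderOf_nsmul_eq_zero, nsmul_zero]
    have h10 : addOrderOf a = q ^ K * 6 := by
      rw [← hQ]
      exact Nat.dvd_antisymm h9 h8
    have hqj : q ^ j ≠ 0 := pow_ne_zero _ hD.hq.ne_zero
    have h11 : addOrderOf ((q : ZMod m) ^ j * a) = q ^ (K - j) * 6 := by
      have h12 : (q : ZMod m) ^ j * a = (q ^ j) • a := by rw [nsmul_eq_mul]; push_cast; ring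
      have h13 : q ^ K = q ^ j * q ^ (K - j) := by
        rw [← pow_add]; congr 1; omega
      rw [h12, addOrderOf_nsmul_of_dvd hqj (by
        rw [h10, h13, mul_assoc]
        exact dvd_mul_right _ _), h10, h13, mul_assoc, Nat.mul_div_cancel_left _
        (Nat.pos_of_ne_zero hqj)]
    rcases Nat.lt_or_ge (K - j) 2 with h12 | h12
    · have h13 : K - j = 1 := by omega
      apply h3
      rw [h11, h13, pow_one, mul_comm]
    · apply h2
      rw [h11]
      refine Dvd.dvd.mul_right ?_ 6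
      rw [← sq]
      exact pow_dvd_pow q h12
  · exact absurd rfl hx

end Pool.Agent.Lib.MP_938ce2_ag_h99w
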