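import Pool.Agent.Lib.MP_938ce2_ag_h99w.C01
import Pool.Agent.Lib.MP_938ce2_ag_h99w.C02
import Pool.Agent.Lib.MP_938ce2_ag_h99w.C03

/-!
Norm fourteen for the prime `29`.
-/

set_option autoImplicit false
set_option linter.style.haveILetI false
set_option linter.unusedSectionVars false

open Finset

namespace Pool.Agent.Lib.MP_938ce2_ag_h99w

open Pool.Agent.Lib.MP_938ce2_ag_h99 Pool.Agent.Lib.MP_938ce2_ag_H7f
open Pool.Agent.Lib.MP_938ce2_ag_H7e

variable {m Q n q : ℕ} [NeZero m]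

/-- the contribution of a function to the twisted sum -/
lemma part_bound4 {n f : ℕ} [NeZero n] (hf : f ∣ n) (χ : ZMod f →* ℂ) {g : ZMod n → ℤ} {K : ℝ}
    (hK : ∀ a, g a ≠ 0 → ‖Vx hf χ a‖ ≤ K) :
    ‖∑ a, (g a : ℂ) * Vx hf χ a‖ ≤ ((∑ a, |g a| : ℤ) : ℝ) * K := by
  refine (norm_sum_le _ _).trans ?_
  push_cast
  rw [sum_mul]
  refine sum_le_sum fun a _ => ?_
  rw [norm_mul, Complex.norm_intCast]
  by_cases ha : g a = 0
  · rw [ha]
    simp
  · exact mul_le_mul_of_nonneg_left (hK a ha) (abs_nonneg _)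

/-- Write `F = A + B1 + B2` with `A` supported at the order `174`, `B1` at the other orders not
divisible by `29 ^ 2`, `B2` at the orders divisible by `29 ^ 2`. As in `key_sum` and `func_three`
(H7f/Func2.lean), with `h = push hD (upF Q 29 K F)` and `v` the norm of the transform of `chi3` at a
point of order three: `Q.totient * v ≤ ‖∑ h a * Vx a‖`, and the parts `A`, `B1`, `B2` contribute at
most `2 v`, `v`, `2 v` times the norms of their push-forwards (`norm_Vx_le`, `norm_Vx3` with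
`push_supp6`), that is at most `29 ^ (K - 1) * v` times `2 ∑ |A|`, `∑ |B1|`, `∑ |B2|` (`upF_norm`,
`upF_norm2`, `push_norm`; `2 / 29 ≤ 1`). Since `Q.totient = 28 * 29 ^ (K - 1)` (`tot_eq`):
`28 ≤ 2 ∑ |A| + ∑ |B1| + ∑ |B2|` and the sum of the three norms is at most `14`. -/
theorem fourteen (hD : Dat m Q n 29) [NeZero n] {K : ℕ} (hQ : Q = 29 ^ K) {F : ZMod m → ℤ}
    (hs : ∀ a, F a ≠ 0 → 29 ∣ addOrderOf a) {b : ZMod n} (hb3 : addOrderOf b = 3)
    (hb : ∀ t : (ZMod n)ˣ, PH (push hD (upF Q 29 K F)) t = Q.totient * W t b)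
    (hN : ∑ a, |F a| ≤ 14) : ∑ a, |F a| = 14 ∧ ∀ a, F a ≠ 0 → addOrderOf a = 174 := by
  classical
  set A : ZMod m → ℤ := fun a => if addOrderOf a = 174 then F a else 0 with hA
  set B1 : ZMod m → ℤ := fun a => if addOrderOf a ≠ 174 ∧ ¬ 29 * 29 ∣ addOrderOf a then F a else 0
    with hB1
  set B2 : ZMod m → ℤ := fun a => if 29 * 29 ∣ addOrderOf a then F a else 0 with hB2
  have hsum : ∀ a, F a = A a + B1 a + B2 a ∧ |F a| = |A a| + |B1 a| + |B2 a| := by
    intro a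
    simp only [hA, hB1, hB2]
    by_cases h1 : addOrderOf a = 174
    · have h2 : ¬ 29 * 29 ∣ addOrderOf a := by rw [h1]; norm_num
      rw [if_pos h1, if_neg (fun h => h.1 h1), if_neg h2]
      simp
    · by_cases h2 : 29 * 29 ∣ addOrderOf a
      · rw [if_neg h1, if_neg (fun h => h.2 h2), if_pos h2]
        simp
      · rw [if_neg h1, if_pos ⟨h1, h2⟩, if_neg h2]
        simp
  have hF : F = A + B1 + B2 := by
    funext a
    exact (hsum a).1
  have hN2 : ∑ a, |F a| = ∑ a, |A a| + ∑ a, |B1 a| + ∑ a, |B2 a| := by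
    rw [← sum_add_distrib, ← sum_add_distrib]
    exact sum_congr rfl fun a _ => (hsum a).2
  have hAs : ∀ a, A a ≠ 0 → 29 ∣ addOrderOf a := by
    intro a ha
    simp only [hA] at ha
    split_ifs at ha with h1
    · rw [h1]; norm_num
    · exact absurd rfl ha
  have hB1s : ∀ a, B1 a ≠ 0 → 29 ∣ addOrderOf a ∧ ¬ 29 * 29 ∣ addOrderOf a ∧
      addOrderOf a ≠ 6 * 29 := by
    intro a ha
    simp only [hB1] at ha
    split_ifs at ha with h1
    · exact ⟨hs a ha, h1.2, by norm_num; exact h1.1⟩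
    · exact absurd rfl ha
  have hB2s : ∀ a, B2 a ≠ 0 → 29 * 29 ∣ addOrderOf a := by
    intro a ha
    simp only [hB2] at ha
    split_ifs at ha with h1
    · exact h1
    · exact absurd rfl ha
  have hf : 3 ∣ n := hb3 ▸ addOrderOf_dvd_m b
  have hz0 : addOrderOf (jj hf (1 : ZMod 3)) = 3 := addOrderOf_unit hf 1
  have hK := norm_Vx_le hf chi3 chi3_norm (Vx_van_prime hf Nat.prime_three chi3 chi3_neg)
    (c := 2) (by norm_num) (fun _ => by rw [chi3_two]; norm_num) hz0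
  have hpos := chi3_pos hf
  set v : ℝ := ‖Vx hf chi3 (jj hf 1)‖ with hv
  have hK2 : ∀ a : ZMod n, ‖Vx hf chi3 a‖ ≤ 2 * v := by
    intro a
    refine (hK a).trans (mul_le_mul_of_nonneg_right ?_ hpos.le)
    split_ifs <;> norm_num
  set hA' := push hD (upF Q 29 K A) with hhA
  set hB1' := push hD (upF Q 29 K B1) with hhB1
  set hB2' := push hD (upF Q 29 K B2) with hhB2
  have hh : push hD (upF Q 29 K F) = hA' + hB1' + hB2' := by
    rw [hF, upF_add, upF_add, push_add, push_add]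
  have h1 : ((Q.totient : ℤ) : ℂ) * Vx hf chi3 b = ∑ a, (hA' a : ℂ) * Vx hf chi3 a
      + ∑ a, (hB1' a : ℂ) * Vx hf chi3 a + ∑ a, (hB2' a : ℂ) * Vx hf chi3 a := by
    have h2 : ((Q.totient : ℤ) : ℂ) * Vx hf chi3 b =
        ∑ a, (push hD (upF Q 29 K F) a : ℂ) * Vx hf chi3 a := by
      rw [← sum_PH hf chi3 (push hD (upF Q 29 K F))]
      unfold Vx
      rw [mul_sum]
      refine sum_congr rfl fun t _ => ?_
      rw [hb]
      push_cast
      ring
    rw [h2, hh, ← sum_add_distrib, ← sum_add_distrib]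
    refine sum_congr rfl fun a _ => ?_
    simp only [Pi.add_apply]
    push_cast
    ring
  have hbA := part_bound4 hf chi3 (g := hA') (K := 2 * v) (fun a _ => hK2 a)
  have hbB2 := part_bound4 hf chi3 (g := hB2') (K := 2 * v) (fun a _ => hK2 a)
  have hbB1 := part_bound4 hf chi3 (g := hB1') (K := v) (fun a ha =>
    norm_Vx3 hf (push_supp6 hD hQ hB1s ha) hz0)
  have h3 : (Q.totient : ℝ) * v ≤ (2 * ((∑ a, |hA' a| : ℤ) : ℝ) + ((∑ a, |hB1' a| : ℤ) : ℝ)
      + 2 * ((∑ a, |hB2' a| : ℤ) : ℝ)) * v := by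
    have h4 : (Q.totient : ℝ) * v = ‖((Q.totient : ℤ) : ℂ) * Vx hf chi3 b‖ := by
      rw [norm_mul, norm_Vx_eq hf chi3 chi3_norm (z := jj hf 1) (by rw [hb3, hz0])]
      congr 1
      rw [Complex.norm_intCast]
      simp
    rw [h4, h1]
    refine (norm_add₃_le).trans ?_
    linarith
  have h5 : (Q.totient : ℝ) ≤ 2 * ((∑ a, |hA' a| : ℤ) : ℝ) + ((∑ a, |hB1' a| : ℤ) : ℝ)
      + 2 * ((∑ a, |hB2' a| : ℤ) : ℝ) := le_of_mul_le_mul_right h3 hpos
  have h6 : (Q.totient : ℤ) ≤ 2 * (∑ a, |hA' a|) + (∑ a, |hB1' a|) + 2 * (∑ a, |hB2' a|) := by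
    exact_mod_cast h5
  have htot := tot_eq hD hQ
  have hnA := (push_norm hD (upF Q 29 K A)).trans (upF_norm hD hQ A hAs)
  have hnB1 := (push_norm hD (upF Q 29 K B1)).trans (upF_norm hD hQ B1 (fun a ha => (hB1s a ha).1))
  have hnB2 := push_norm hD (upF Q 29 K B2)
  have hnB2' := upF_norm2 hD hQ B2 hB2s
  rw [htot] at h6
  set P : ℤ := (29 : ℤ) ^ (K - 1) with hP
  have hP0 : 0 < P := by positivity
  rw [← hhA] at hnA
  rw [← hhB1] at hnB1
  rw [← hhB2] at hnB2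
  push_cast at h6 hnA hnB1 hnB2 hnB2'
  rw [← hP] at h6 hnA hnB1 hnB2'
  set a := ∑ a, |A a| with ha
  set b1 := ∑ a, |B1 a| with hb1
  set b2 := ∑ a, |B2 a| with hb2
  have ha0 : 0 ≤ a := sum_nonneg fun _ _ => abs_nonneg _
  have hb10 : 0 ≤ b1 := sum_nonneg fun _ _ => abs_nonneg _
  have hb20 : 0 ≤ b2 := sum_nonneg fun _ _ => abs_nonneg _
  have h7 : P * 812 ≤ P * (58 * a + 29 * b1 + 2 * b2) := by linarith
  have h8 : 812 ≤ 58 * a + 29 * b1 + 2 * b2 := le_of_mul_le_mul_left h7 hP0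
  rw [hN2] at hN
  have hb1z : b1 = 0 := by linarith
  have hb2z : b2 = 0 := by linarith
  refine ⟨by rw [hN2]; linarith, ?_⟩
  intro x hx
  have e1 : B1 x = 0 := by
    have := (sum_eq_zero_iff_of_nonneg (fun i _ => abs_nonneg (B1 i))).mp hb1z x (mem_univ x)
    exact abs_eq_zero.mp this
  have e2 : B2 x = 0 := by
    have := (sum_eq_zero_iff_of_nonneg (fun i _ => abs_nonneg (B2 i))).mp hb2z x (mem_univ x)
    exact abs_eq_zero.mp this
  by_contra hne
  apply hx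
  have h9 := (hsum x).1
  rw [h9, e1, e2]
  simp only [hA]
  rw [if_neg hne]
  rfl

end Pool.Agent.Lib.MP_938ce2_ag_h99w
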