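import Pool.Agent.Lib.MP_938ce2_ag_H7f.StepGen

/-!
The transform of an odd character modulo `29`.
-/

set_option autoImplicit false
set_option linter.style.haveILetI false
set_option linter.unusedSectionVars false

open Finset

namespace Pool.Agent.Lib.MP_938ce2_ag_h99w

open Pool.Agent.Lib.MP_938ce2_ag_h99 Pool.Agent.Lib.MP_938ce2_ag_H7f
open Pool.Agent.Lib.MP_938ce2_ag_H7e

/-- `Vx_top` (H7f/Func2.lean) and `sum_units_ne_zero` (H7e/CharE.lean); the sum of an odd character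
over all residues is zero -/
theorem Vx29_ne {m : ℕ} [NeZero m] (hf : 29 ∣ m) {χ : DirichletCharacter ℂ 29} (hχ : χ.Odd) :
    Vx hf χ.toMonoidHom (jj hf 1) ≠ 0 := by
  classical
  haveI : Fact (Nat.Prime 29) := ⟨by norm_num⟩
  obtain ⟨κ, hκ, h⟩ := Vx_top hf (by norm_num) χ.toMonoidHom (fun x hx => χ.map_nonunit hx)
  rw [h]
  refine mul_ne_zero hκ ?_
  have hne : χ ≠ 1 := by
    intro h1
    have h2 : χ (-1) = -1 := hχ
    rw [h1, MulChar.one_apply (by exact isUnit_one.neg)] at h2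
    norm_num at h2
  have h0 : ∑ x : ZMod 29, χ x = 0 := MulChar.sum_eq_zero_of_ne_one hne
  have h1 : ∑ x : ZMod 29, χ.toMonoidHom x * ((2 * (x.val : ℤ) - (29 : ℕ) : ℤ) : ℂ)
      = 2 * ∑ x : ZMod 29, χ x * (x.val : ℂ) - 29 * ∑ x : ZMod 29, χ x := by
    rw [mul_sum, mul_sum, ← sum_sub_distrib]
    refine sum_congr rfl fun x _ => ?_
    show χ x * ((2 * (x.val : ℤ) - (29 : ℕ) : ℤ) : ℂ) = _
    push_cast
    ring
  rw [h1, h0, mul_zero, sub_zero]
  refine mul_ne_zero two_ne_zero ?_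
  have hcond : ∀ p, p.Prime → p ∣ 29 → p ∣ χ.conductor := by
    intro p hp hpd
    have hp29 : p = 29 := (Nat.prime_dvd_prime_iff_eq hp (by norm_num)).1 hpd
    have h3 := χ.conductor_dvd_level
    rcases (Nat.dvd_prime (by norm_num : Nat.Prime 29)).1 h3 with h4 | h4
    · exact absurd (DirichletCharacter.eq_one_iff_conductor_eq_one.2 h4) hne
    · rw [h4, hp29]
  have h2 := sum_units_ne_zero χ hχ hcond
  have h3 : ∑ x : ZMod 29, χ x * (x.val : ℂ)
      = ∑ v : (ZMod 29)ˣ, χ (v : ZMod 29) * ((v : ZMod 29).val : ℂ) := by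
    symm
    refine Fintype.sum_of_injective (fun v : (ZMod 29)ˣ => (v : ZMod 29)) Units.val_injective
      _ _ ?_ fun _ => rfl
    intro x hx
    have : ¬ IsUnit x := fun ⟨u, hu⟩ => hx ⟨u, hu⟩
    rw [χ.map_nonunit this, zero_mul]
  rw [h3]
  exact h2

/-- `2` and `3` are primitive roots modulo `29`, so an odd character takes at them a value different
from one (`2 ^ 14 = 3 ^ 14 = -1`) -/
theorem chi29_two {χ : DirichletCharacter ℂ 29} (hχ : χ.Odd) : χ 2 ≠ 1 ∧ χ 3 ≠ 1 := by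
  have h2 : (2 : ZMod 29) ^ 14 = -1 := by decide
  have h3 : (3 : ZMod 29) ^ 14 = -1 := by decide
  have h4 : χ (-1) = -1 := hχ
  constructor
  · intro h
    rw [← h2, map_pow, h, one_pow] at h4
    norm_num at h4
  · intro h
    rw [← h3, map_pow, h, one_pow] at h4
    norm_num at h4

/-- `Vx_B` for `p = 2` at `a` and for `p = 3` at `2 * a`, and `Vx_mul` -/
theorem Vx29_174 {m : ℕ} [NeZero m] (hf : 29 ∣ m) (χ : DirichletCharacter ℂ 29) {a : ZMod m}
    (ha : addOrderOf a = 174) {v : (ZMod 29)ˣ} (hv : 6 * a = jj hf (v : ZMod 29)) :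
    2 * χ (v : ZMod 29) * Vx hf χ.toMonoidHom a
      = (1 - χ 2) * (1 - χ 3) * Vx hf χ.toMonoidHom (jj hf 1) := by
  have h1 := Vx_B hf χ.toMonoidHom (p := 2) Nat.prime_two (z := a) (by rw [ha]; norm_num)
    (by rw [ha]; norm_num) (by rw [ha]; norm_num)
  have ho2 : addOrderOf (((2 : ℕ) : ZMod m) * a) = 87 := by
    rw [addOrderOf_natCast_mul two_ne_zero (by rw [ha]; norm_num), ha]
  have h2 := Vx_B hf χ.toMonoidHom (p := 3) Nat.prime_three (z := ((2 : ℕ) : ZMod m) * a)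
    (by rw [ho2]; norm_num) (by rw [ho2]; norm_num) (by rw [ho2])
  have h6 : ((3 : ℕ) : ZMod m) * (((2 : ℕ) : ZMod m) * a) = jj hf (v : ZMod 29) := by
    rw [← hv]
    push_cast
    ring
  rw [h6] at h2
  obtain ⟨s, hs⟩ := ZMod.unitsMap_surjective hf v
  have hs' : ZMod.castHom hf (ZMod 29) (s : ZMod m) = (v : ZMod 29) := by
    rw [← hs, ZMod.unitsMap_val]
    rfl
  have h3 := Vx_mul hf χ.toMonoidHom s (jj hf 1)
  rw [jj_mul, mul_one, hs'] at h3
  have e1 : χ.toMonoidHom ((2 : ℕ) : ZMod 29) = χ 2 := rfl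
  have e2 : χ.toMonoidHom ((3 : ℕ) : ZMod 29) = χ 3 := rfl
  have e3 : χ.toMonoidHom (v : ZMod 29) = χ (v : ZMod 29) := rfl
  rw [e1] at h1
  rw [e2] at h2
  rw [e3] at h3
  push_cast at h1 h2
  linear_combination 2 * χ (v : ZMod 29) * h1 + χ (v : ZMod 29) * (1 - χ 2) * h2 + (1 - χ 2) * (1 - χ 3) * h3

end Pool.Agent.Lib.MP_938ce2_ag_h99w
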