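import Pool.Agent.Lib.MP_938ce2_ag_h99w.C05

/-!
The sums over the elements with the same component at `29`.
-/

set_option autoImplicit false
set_option linter.style.haveILetI false
set_option linter.unusedSectionVars false

open Finset

namespace Pool.Agent.Lib.MP_938ce2_ag_h99w

open Pool.Agent.Lib.MP_938ce2_ag_h99 Pool.Agent.Lib.MP_938ce2_ag_H7f
open Pool.Agent.Lib.MP_938ce2_ag_H7e

private lemma order29 {m : ℕ} [NeZero m] {a : ZMod m} (ha : addOrderOf a = 174) :
    addOrderOf (6 * a) = 29 := by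
  have h1 : (6 : ZMod m) = ((6 : ℕ) : ZMod m) := by norm_num
  rw [h1, addOrderOf_natCast_mul (by norm_num) (by rw [ha]; norm_num), ha]

/-- For odd `χ`: `∑ F a * Vx a = 0` (`sum_PH`, `PH_odd`, `hT`), the terms with order prime to `29`
vanish (`Vx_van_prime`), and `Vx29_174`, `Vx29_ne`, `chi29_two` give
`∑ P v * (χ v)⁻¹ = 0` for the sums `P v`; for even `χ` the sum is zero because `P` is odd. All
character sums of `P` vanish (`eq_zero_of_char_sums`, h99/Fourier.lean). -/
theorem sum29 {m : ℕ} [NeZero m] (hf : 29 ∣ m) {F : ZMod m → ℤ} (ho : OddF F) (hT : TateF F)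
    (hs : ∀ a, F a ≠ 0 → 29 ∣ addOrderOf a → addOrderOf a = 174) (v : (ZMod 29)ˣ) :
    ∑ a ∈ univ.filter (fun a : ZMod m => addOrderOf a = 174 ∧ 6 * a = jj hf (v : ZMod 29)), F a
      = 0 := by
  classical
  haveI : Fact (Nat.Prime 29) := ⟨by norm_num⟩
  set P : (ZMod 29)ˣ → ℤ := fun v => ∑ a ∈ univ.filter (fun a : ZMod m =>
    addOrderOf a = 174 ∧ 6 * a = jj hf (v : ZMod 29)), F a with hPdef
  have hPodd : ∀ v, P (-v) = - P v := by
    intro v
    simp only [hPdef]
    rw [← sum_neg_distrib]
    refine sum_bij' (fun a _ => -a) (fun a _ => -a) ?_ ?_ ?_ ?_ ?_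
    · intro a ha
      simp only [mem_filter, mem_univ, true_and] at ha ⊢
      refine ⟨by rw [addOrderOf_neg]; exact ha.1, ?_⟩
      rw [mul_neg, ha.2, Units.val_neg, map_neg, neg_neg]
    · intro a ha
      simp only [mem_filter, mem_univ, true_and] at ha ⊢
      refine ⟨by rw [addOrderOf_neg]; exact ha.1, ?_⟩
      rw [mul_neg, ha.2, Units.val_neg, map_neg]
    · intro a _; exact neg_neg a
    · intro a _; exact neg_neg a
    · intro a _; rw [ho, neg_neg]
  suffices h : ∀ χ : DirichletCharacter ℂ 29, ∑ u : (ZMod 29)ˣ, χ (u : ZMod 29) * (P u : ℂ) = 0 from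
    eq_zero_of_char_sums P h v
  intro χ
  rcases χ.even_or_odd with hev | hodd
  · -- even characters
    set S := ∑ u : (ZMod 29)ˣ, χ (u : ZMod 29) * (P u : ℂ) with hS
    have h1 : S = -S := by
      conv_lhs => rw [hS]
      rw [hS, ← sum_neg_distrib]
      refine Fintype.sum_equiv (Equiv.neg _) _ _ fun u => ?_
      rw [Equiv.neg_apply, Units.val_neg, hPodd, hev.eval_neg]
      push_cast
      ring
    have h2 : (2 : ℂ) * S = 0 := by linear_combination h1
    exact (mul_eq_zero.mp h2).resolve_left two_ne_zero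
  · -- odd characters
    set ψ : DirichletCharacter ℂ 29 := χ⁻¹ with hψ
    have hψo : ψ.Odd := odd_inv hodd
    have hneg : ψ.toMonoidHom (-1) = -1 := hψo
    set V1 := Vx hf ψ.toMonoidHom (jj hf 1) with hV1
    have hV1ne : V1 ≠ 0 := Vx29_ne hf hψo
    obtain ⟨h2ne, h3ne⟩ := chi29_two hψo
    set K : ℂ := (1 - ψ 2) * (1 - ψ 3) * V1 with hK
    have hKne : K ≠ 0 := mul_ne_zero (mul_ne_zero (sub_ne_zero.mpr h2ne.symm)
      (sub_ne_zero.mpr h3ne.symm)) hV1ne
    have hzero : ∑ a, (F a : ℂ) * Vx hf ψ.toMonoidHom a = 0 := by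
      rw [← sum_PH]
      refine sum_eq_zero fun t _ => ?_
      have h1 : PH F t = 0 := by
        rw [PH_odd ho]
        have : SS F t = 0 := hT t
        rw [this, mul_zero]
      rw [h1]
      simp
    -- the value of the transform
    have hval : ∀ (u : (ZMod 29)ˣ) (a : ZMod m), addOrderOf a = 174 → 6 * a = jj hf (u : ZMod 29) →
        2 * Vx hf ψ.toMonoidHom a = K * χ (u : ZMod 29) := by
      intro u a ha hu
      have h1 := Vx29_174 hf ψ ha hu
      have h2 : χ (u : ZMod 29) * ψ (u : ZMod 29) = 1 := by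
        rw [hψ, ← MulChar.mul_apply, mul_inv_cancel, MulChar.one_apply_coe]
      rw [← hK] at h1
      linear_combination (χ (u : ZMod 29)) * h1 - 2 * Vx hf ψ.toMonoidHom a * h2
    have hsum : ∑ u : (ZMod 29)ˣ, K * χ (u : ZMod 29) * (P u : ℂ)
        = 2 * ∑ a, (F a : ℂ) * Vx hf ψ.toMonoidHom a := by
      have e1 : ∀ u : (ZMod 29)ˣ, K * χ (u : ZMod 29) * (P u : ℂ) =
          ∑ a : ZMod m, if (addOrderOf a = 174 ∧ 6 * a = jj hf (u : ZMod 29)) then
            2 * ((F a : ℂ) * Vx hf ψ.toMonoidHom a) else 0 := by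
        intro u
        rw [← sum_filter]
        simp only [hPdef]
        push_cast
        rw [mul_sum]
        refine sum_congr rfl fun a ha => ?_
        simp only [mem_filter, mem_univ, true_and] at ha
        rw [← hval u a ha.1 ha.2]
        ring
      rw [sum_congr rfl fun u _ => e1 u, sum_comm, mul_sum]
      refine sum_congr rfl fun a _ => ?_
      by_cases ha : addOrderOf a = 174
      · obtain ⟨u, hu⟩ := exists_unit_of_order hf (a := 6 * a) (order29 ha)
        rw [sum_eq_single u]
        · rw [if_pos ⟨ha, hu.symm⟩]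
        · intro w _ hw
          rw [if_neg]
          rintro ⟨-, h⟩
          apply hw
          rw [← hu] at h
          exact Units.ext (jj_injective hf h.symm)
        · intro h; exact absurd (mem_univ u) h
      · rw [sum_eq_zero (fun u _ => if_neg (fun h => ha h.1))]
        by_cases hF : F a = 0
        · rw [hF]; simp
        · have h29 : ¬ 29 ∣ addOrderOf a := fun h => ha (hs a hF h)
          rw [Vx_van_prime hf (by norm_num) _ hneg a h29]
          simp
    rw [hzero, mul_zero] at hsum
    have h3 : K * ∑ u : (ZMod 29)ˣ, χ (u : ZMod 29) * (P u : ℂ) = 0 := by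
      rw [mul_sum, ← hsum]
      refine sum_congr rfl fun u _ => ?_
      ring
    exact (mul_eq_zero.mp h3).resolve_left hKne

end Pool.Agent.Lib.MP_938ce2_ag_h99w
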