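import Pool.Agent.Lib.MP_938ce2_ag_H7f.StepGen

/-!
A congruence for the norm.
-/

set_option autoImplicit false
set_option linter.style.haveILetI false
set_option linter.unusedSectionVars false

open Finset

namespace Pool.Agent.Lib.MP_938ce2_ag_h99w

open Pool.Agent.Lib.MP_938ce2_ag_h99 Pool.Agent.Lib.MP_938ce2_ag_H7f
open Pool.Agent.Lib.MP_938ce2_ag_H7e

private lemma nat_mul_eq_zero_iff {m : ℕ} [NeZero m] {a : ZMod m} (k : ℕ) :
    ((k : ℕ) : ZMod m) * a = 0 ↔ addOrderOf a ∣ k := by
  rw [addOrderOf_dvd_iff_nsmul_eq_zero, nsmul_eq_mul]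

private lemma ord_mul_unit {m : ℕ} [NeZero m] {a : ZMod m} (ha : addOrderOf a = 174) {k : ℕ}
    (hk : Nat.Coprime 174 k) : addOrderOf ((k : ZMod m) * a) = 174 := by
  rw [← nsmul_eq_mul, ← ha]
  apply Nat.Coprime.addOrderOf_nsmul
  rw [ha]
  exact hk

/-- For each `v` there are exactly two elements `a` of order `174` with `6 * a = jj hf v` (the
elements `jj (u)`, `u` a unit modulo `174`), so their values are `c` and `- c`; together with
the two elements for `-v` the norm is `4 |c|`. Equivalently `|F|` is invariant under the free action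
of the group `{1, -1, 59, -59}` on the units modulo `174`. -/
theorem four_dvd {m : ℕ} [NeZero m] (hf : 29 ∣ m) (hm : 174 ∣ m) {F : ZMod m → ℤ} (ho : OddF F)
    (hP : ∀ v : (ZMod 29)ˣ, ∑ a ∈ univ.filter (fun a : ZMod m =>
      addOrderOf a = 174 ∧ 6 * a = jj hf (v : ZMod 29)), F a = 0) :
    4 ∣ ∑ a ∈ univ.filter (fun a : ZMod m => addOrderOf a = 174), |F a| := by
  set S : Finset (ZMod m) := univ.filter (fun a : ZMod m => addOrderOf a = 174) with hS
  -- facts on multiples
  have hz : ∀ a : ZMod m, addOrderOf a = 174 → ∀ k : ℕ, ¬ 174 ∣ k → ((k : ℕ) : ZMod m) * a ≠ 0 := by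
    intro a ha k hk h0
    rw [nat_mul_eq_zero_iff, ha] at h0
    exact hk h0
  have hz' : ∀ a : ZMod m, addOrderOf a = 174 → ((174 : ℕ) : ZMod m) * a = 0 := by
    intro a ha
    rw [nat_mul_eq_zero_iff, ha]
  have h59 : ∀ a : ZMod m, addOrderOf a = 174 → F (59 * a) = - F a := by
    intro a ha
    have hz1 := hz' a ha
    push_cast at hz1
    have h6 : addOrderOf (6 * a) = 29 := by
      have h1 := addOrderOf_natCast_mul (m := m) (p := 6) (by norm_num) (a := a) (by rw [ha]; norm_num)
      rw [ha] at h1
      push_cast at h1
      rw [h1]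
    obtain ⟨v, hv⟩ := exists_unit_of_order hf h6
    have h1 := hP v
    have hset : univ.filter (fun b : ZMod m => addOrderOf b = 174 ∧ 6 * b = jj hf (v : ZMod 29))
        = {a, 59 * a} := by
      ext b
      rw [mem_filter, mem_insert, mem_singleton, hv]
      constructor
      · rintro ⟨_, hb1, hb2⟩
        obtain ⟨s, hs⟩ := exists_unit_mul (z := a) (b := b) (by rw [hb1, ha])
        set k := (s : ZMod m).val with hk
        have hks : ((k : ℕ) : ZMod m) * a = b := by rw [hk, ZMod.natCast_zmod_val, hs]
        have hkm : Nat.Coprime k m := ZMod.val_coe_unit_coprime s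
        have hk174 : Nat.Coprime k 174 := Nat.Coprime.coprime_dvd_right hm hkm
        have hr : ((k % 174 : ℕ) : ZMod m) * a = b := by
          rw [← hks]
          conv_rhs => rw [← Nat.div_add_mod k 174]
          push_cast
          linear_combination (-((k / 174 : ℕ) : ZMod m)) * hz1
        have hr174 : Nat.Coprime (k % 174) 174 := by
          unfold Nat.Coprime
          rw [← Nat.gcd_rec, Nat.gcd_comm]
          exact hk174
        have hlt : k % 174 < 174 := Nat.mod_lt _ (by norm_num)
        generalize k % 174 = r at hr hr174 hlt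
        have hdiv : 174 ∣ 6 * r + 168 := by
          rw [← ha, ← nat_mul_eq_zero_iff]
          push_cast
          linear_combination 6 * hr + hb2 + hz1
        have hr2 : ¬ 2 ∣ r := by
          intro h2
          have h3 := Nat.dvd_gcd h2 (show 2 ∣ 174 by norm_num)
          rw [hr174] at h3
          omega
        have hr3 : ¬ 3 ∣ r := by
          intro h2
          have h3 := Nat.dvd_gcd h2 (show 3 ∣ 174 by norm_num)
          rw [hr174] at h3
          omega
        have key : r = 1 ∨ r = 59 := by omega
        rcases key with h2 | h2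
        · left
          rw [← hr, h2, Nat.cast_one, one_mul]
        · right
          rw [← hr, h2]
          push_cast
          rfl
      · rintro (rfl | rfl)
        · exact ⟨mem_univ _, ha, rfl⟩
        · refine ⟨mem_univ _, ?_, ?_⟩
          · have := ord_mul_unit ha (k := 59) (by norm_num)
            exact_mod_cast this
          · linear_combination 2 * hz1
    have hne : a ≠ 59 * a := by
      intro h2
      apply hz a ha 58 (by norm_num)
      push_cast
      linear_combination -h2
    rw [hset, sum_pair hne] at h1
    linarith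
  -- orbits
  set φ : ZMod m → Finset (ZMod m) := fun a => {a, -a, 59 * a, -(59 * a)} with hφ
  have hF : ∀ a, addOrderOf a = 174 → ∀ b ∈ φ a, |F b| = |F a| := by
    intro a ha b hb
    rw [hφ] at hb
    simp only [mem_insert, mem_singleton] at hb
    rcases hb with rfl | rfl | rfl | rfl
    · rfl
    · rw [ho, abs_neg]
    · rw [h59 a ha, abs_neg]
    · rw [ho, h59 a ha, neg_neg]
  have hcard : ∀ a, addOrderOf a = 174 → (φ a).card = 4 := by
    intro a ha
    have e1 : a ≠ -a := by
      intro h2
      apply hz a ha 2 (by norm_num)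
      push_cast
      linear_combination h2
    have e2 : a ≠ 59 * a := by
      intro h2
      apply hz a ha 58 (by norm_num)
      push_cast
      linear_combination -h2
    have e3 : a ≠ -(59 * a) := by
      intro h2
      apply hz a ha 60 (by norm_num)
      push_cast
      linear_combination h2
    have e4 : -a ≠ 59 * a := by
      intro h2
      apply e3
      rw [← h2, neg_neg]
    have e5 : -a ≠ -(59 * a) := fun h2 => e2 (neg_injective h2)
    have e6 : 59 * a ≠ -(59 * a) := by
      intro h2
      apply hz a ha 118 (by norm_num)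
      push_cast
      linear_combination h2
    rw [hφ]
    dsimp only
    rw [card_insert_of_notMem, card_insert_of_notMem, card_insert_of_notMem, card_singleton]
    · simpa using e6
    · simp only [mem_insert, mem_singleton, not_or]
      exact ⟨e4, e5⟩
    · simp only [mem_insert, mem_singleton, not_or]
      exact ⟨e1, e2, e3⟩
  have hord : ∀ a, addOrderOf a = 174 → ∀ b ∈ φ a, addOrderOf b = 174 := by
    intro a ha b hb
    have h2 : addOrderOf (59 * a) = 174 := by
      have := ord_mul_unit ha (k := 59) (by norm_num)
      exact_mod_cast this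
    rw [hφ] at hb
    simp only [mem_insert, mem_singleton] at hb
    rcases hb with rfl | rfl | rfl | rfl
    · exact ha
    · rw [addOrderOf_neg, ha]
    · exact h2
    · rw [addOrderOf_neg, h2]
  have h5959 : ∀ a : ZMod m, addOrderOf a = 174 → 59 * (59 * a) = a := by
    intro a ha
    have hz1 := hz' a ha
    push_cast at hz1
    linear_combination 20 * hz1
  have hsame : ∀ a, addOrderOf a = 174 → ∀ b ∈ φ a, φ b = φ a := by
    intro a ha b hb
    have h2 := h5959 a ha
    rw [hφ] at hb ⊢
    simp only [mem_insert, mem_singleton] at hb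
    ext c
    simp only [mem_insert, mem_singleton]
    rcases hb with rfl | rfl | rfl | rfl
    · rfl
    · rw [mul_neg, neg_neg, neg_neg]
      tauto
    · rw [h2]
      tauto
    · rw [mul_neg, h2, neg_neg, neg_neg]
      tauto
  rw [← sum_fiberwise_of_maps_to (s := S) (t := S.image φ) (g := φ)
    (fun a ha => mem_image_of_mem φ ha)]
  apply dvd_sum
  intro O hO
  obtain ⟨a, ha, rfl⟩ := mem_image.mp hO
  have ha' : addOrderOf a = 174 := (mem_filter.mp ha).2
  have h1 : S.filter (fun b => φ b = φ a) = φ a := by
    ext b
    rw [mem_filter, hS, mem_filter]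
    constructor
    · rintro ⟨_, h2⟩
      rw [← h2, hφ]
      simp
    · intro hb
      exact ⟨⟨mem_univ _, hord a ha' b hb⟩, hsame a ha' b hb⟩
  rw [h1, sum_congr rfl (hF a ha'), sum_const, hcard a ha', nsmul_eq_mul]
  exact Dvd.intro _ rfl

end Pool.Agent.Lib.MP_938ce2_ag_h99w
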