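import Pool.Agent.Lib.MP_938ce2_ag_h99w.C04
import Pool.Agent.Lib.MP_938ce2_ag_h99w.C06
import Pool.Agent.Lib.MP_938ce2_ag_h99w.C07

/-!
The prime `29` for functions of norm at most sixteen.
-/

set_option autoImplicit false
set_option linter.style.haveILetI false
set_option linter.unusedSectionVars false

open Finset

namespace Pool.Agent.Lib.MP_938ce2_ag_h99w

open Pool.Agent.Lib.MP_938ce2_ag_h99 Pool.Agent.Lib.MP_938ce2_ag_H7f
open Pool.Agent.Lib.MP_938ce2_ag_H7e

variable {m Q n : ℕ} [NeZero m]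

private lemma c08_norm {F : ZMod m → ℤ} (ho : OddF F) (h : F ≠ 0) : 2 ≤ ∑ a, |F a| := by
  obtain ⟨a, ha⟩ := Function.ne_iff.mp h
  have ha' : F a ≠ 0 := ha
  have hne : a ≠ -a := by
    intro h1
    have h2 := ho a
    rw [← h1] at h2
    exact ha' (by linarith)
  have h1 : ∑ x ∈ ({a, -a} : Finset (ZMod m)), |F x| ≤ ∑ x, |F x| :=
    sum_le_sum_of_subset_of_nonneg (subset_univ _) (fun x _ _ => abs_nonneg _)
  rw [sum_pair hne, ho a, abs_neg] at h1
  have h2 : 1 ≤ |F a| := Int.one_le_abs ha'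
  linarith

/-- `exists_point_gen` (H7f/StepGen.lean) with its last clause: if `part0 29 F = 0` then
`28 * b = 0`. By `step_gen` we may assume that there is `b'` of order three with
the same property, hence `b' = b` (`eq_of_W`), so `part0 29 F ≠ 0` and `∑ |part1 29 F| ≤ 14`
(`part_norm`; an odd nonzero function has norm at least two). Then `fourteen`, `sum29` and
`four_dvd` give a contradiction, because `4` does not divide `14`. -/
theorem drop29 (hD : Dat m Q n 29) [NeZero n] {K : ℕ} (hQ : Q = 29 ^ K) (h2 : 2 ∣ n)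
    {F : ZMod m → ℤ} (ho : OddF F) (hT : TateF F) (hN : ∑ a, |F a| ≤ 16) :
    part1 29 F ∈ relSub m := by
  have hnorm := part_norm (q := 29) F
  have h0 : 0 ≤ ∑ a, |part0 29 F a| := sum_nonneg fun a _ => abs_nonneg _
  have h2Q : 2 < Q := by
    have := Nat.le_of_dvd hD.Qpos hD.qQ
    omega
  rcases step_gen hD hQ h2Q h2 ho hT (by push_cast; linarith) with h3 | ⟨b', hb3', -, hb'⟩
  · exact h3
  exfalso
  obtain ⟨b, hb0, -, hb, hlast⟩ := exists_point_gen hD hQ h2 ho hT (by push_cast; linarith)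
  have hb'0 : b' ≠ 0 := by
    rintro rfl
    rw [addOrderOf_zero] at hb3'
    omega
  have hbb : b = b' := by
    have h4 := hb 1
    rw [hb' 1] at h4
    have hQ0 : (Q.totient : ℤ) ≠ 0 := by
      exact_mod_cast (Nat.totient_pos.mpr hD.Qpos).ne'
    have h5 := mul_left_cancel₀ hQ0 h4
    unfold W at h5
    rw [if_neg hb0, if_neg hb'0, Units.val_one, one_mul, one_mul] at h5
    apply ZMod.val_injective n
    have h6 : (b.val : ℤ) = (b'.val : ℤ) := by linarith
    exact_mod_cast h6
  have hp0 : part0 29 F ≠ 0 := by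
    intro h4
    have h5 := hlast h4
    rw [hbb] at h5
    have h6 : addOrderOf b' ∣ 28 := by
      apply addOrderOf_dvd_of_nsmul_eq_zero
      rw [nsmul_eq_mul]
      exact_mod_cast h5
    rw [hb3'] at h6
    omega
  have h14 : ∑ a, |part1 29 F a| ≤ 14 := by
    have := c08_norm (part0_odd (q := 29) ho) hp0
    linarith
  have hs1 : ∀ a, part1 29 F a ≠ 0 → 29 ∣ addOrderOf a := fun a ha => (part1_supp ha).1
  obtain ⟨h15, h16⟩ := fourteen hD hQ hs1 hb3' hb' h14
  have hf : 29 ∣ m := hD.qQ.trans hD.Qm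
  have hsF : ∀ a, F a ≠ 0 → 29 ∣ addOrderOf a → addOrderOf a = 174 := by
    intro a ha hd
    apply h16
    unfold part1
    rw [if_pos hd]
    exact ha
  have hm : 174 ∣ m := by
    have h17 : ∑ a, |part1 29 F a| ≠ 0 := by rw [h15]; norm_num
    obtain ⟨a, _, ha⟩ := exists_ne_zero_of_sum_ne_zero h17
    rw [← h16 a (fun h => ha (by rw [h, abs_zero]))]
    exact addOrderOf_dvd_m a
  have h18 := four_dvd hf hm ho (fun v => sum29 hf ho hT hsF v)
  have h19 : ∑ a ∈ univ.filter (fun a : ZMod m => addOrderOf a = 174), |F a|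
      = ∑ a, |part1 29 F a| := by
    rw [sum_filter]
    refine sum_congr rfl fun a _ => ?_
    unfold part1
    by_cases h20 : addOrderOf a = 174
    · rw [if_pos h20, if_pos (by rw [h20]; norm_num)]
    · rw [if_neg h20]
      split_ifs with h21
      · by_contra h22
        exact h20 (hsF a (fun h => h22 (by rw [h, abs_zero])) h21)
      · simp
  rw [h19, h15] at h18
  norm_num at h18

end Pool.Agent.Lib.MP_938ce2_ag_h99w
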