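import Pool.Agent.Lib.MP_938ce2_ag_h99w.DD

/-!
Mixed differences.
-/

set_option autoImplicit false
set_option linter.style.haveILetI false
set_option linter.unusedSectionVars false

open Finset

namespace Pool.Agent.Lib.MP_938ce2_ag_h99w

open Pool.Agent.Lib.MP_938ce2_ag_h99

variable {A : Type*} [CommGroup A]

lemma DS_congr {T : Finset ℕ} {h h' : ℕ → A} (hh : ∀ p ∈ T, h p = h' p) (G : A → ℤ) (x : A) :
    DS T h G x = DS T h' G x := by
  unfold DS
  refine sum_congr rfl fun S hS => ?_
  rw [prod_congr rfl fun p hp => hh p (mem_powerset.mp hS hp)]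

lemma DS_insert {T : Finset ℕ} {q : ℕ} (hq : q ∉ T) (h : ℕ → A) (G : A → ℤ) (x : A) :
    DS (insert q T) h G x = DS T h (fun y => G y - G (h q * y)) x := by
  unfold DS
  rw [sum_powerset_insert hq, ← sum_add_distrib]
  refine sum_congr rfl fun S hS => ?_
  have hqS : q ∉ S := fun h1 => hq (mem_powerset.mp hS h1)
  rw [card_insert_of_notMem hqS, prod_insert hqS, mul_assoc, pow_succ]
  ring

/-- induction on the list, with `MD_cons`; the sets containing the first member of the list give the
translate -/
theorem MD_of_DS (K : ℕ → Subgroup A) : ∀ (ps : List ℕ), ps.Nodup → ∀ G : A → ℤ,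
    (∀ h : ℕ → A, (∀ p ∈ ps, h p ∈ K p) → ∀ x, DS ps.toFinset h G x = 0) → MD (ps.map K) G
  | [], _, G, hG => by
      intro x
      have h1 := hG (fun _ => 1) (by simp) x
      show G x = 0
      simpa [DS] using h1
  | q :: ps, hnd, G, hG => by
      rw [List.map_cons, MD_cons]
      intro k hk
      obtain ⟨hq, hnd'⟩ := List.nodup_cons.mp hnd
      apply MD_of_DS K ps hnd'
      intro h hh x
      have hqT : q ∉ ps.toFinset := by simpa using hq
      have h1 := hG (Function.update h q k) (by
        intro p hp
        rcases List.mem_cons.mp hp with rfl | hp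
        · simpa using hk
        · have hne : p ≠ q := fun e => hq (e ▸ hp)
          rw [Function.update_of_ne hne]
          exact hh p hp) x
      rw [List.toFinset_cons, DS_insert hqT, Function.update_self] at h1
      rw [← h1]
      apply DS_congr
      intro p hp
      have hne : p ≠ q := fun e => hqT (e ▸ hp)
      rw [Function.update_of_ne hne]

/-- the converse -/
theorem DS_of_MD (K : ℕ → Subgroup A) : ∀ (ps : List ℕ), ps.Nodup → ∀ G : A → ℤ,
    MD (ps.map K) G → ∀ h : ℕ → A, (∀ p ∈ ps, h p ∈ K p) → ∀ x, DS ps.toFinset h G x = 0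
  | [], _, G, hG, h, _, x => by
      have h1 : G x = 0 := hG x
      simp [DS, h1]
  | q :: ps, hnd, G, hG, h, hh, x => by
      rw [List.map_cons, MD_cons] at hG
      obtain ⟨hq, hnd'⟩ := List.nodup_cons.mp hnd
      have hqT : q ∉ ps.toFinset := by simpa using hq
      rw [List.toFinset_cons, DS_insert hqT]
      exact DS_of_MD K ps hnd' _ (hG (h q) (hh q List.mem_cons_self)) h
        (fun p hp => hh p (List.mem_cons_of_mem _ hp)) x

end Pool.Agent.Lib.MP_938ce2_ag_h99w
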