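import Pool.Agent.Lib.MP_938ce2_ag_h99w.D01

/-!
Invariance of mixed differences.
-/

set_option autoImplicit false
set_option linter.style.haveILetI false
set_option linter.unusedSectionVars false

open Finset

namespace Pool.Agent.Lib.MP_938ce2_ag_h99w

open Pool.Agent.Lib.MP_938ce2_ag_h99

variable {A : Type*} [CommGroup A]

/-- `DS` of the difference `G y - G (z * y)` vanishes by `MD_cons` and `DS_of_MD` -/
theorem DS_inv (K : ℕ → Subgroup A) {q : ℕ} {ps : List ℕ} (hnd : ps.Nodup) {G : A → ℤ}
    (hG : MD (K q :: ps.map K) G) {h : ℕ → A} (hh : ∀ p ∈ ps, h p ∈ K p) {z : A} (hz : z ∈ K q)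
    (x : A) : DS ps.toFinset h G (z * x) = DS ps.toFinset h G x := by
  have h1 := DS_of_MD K ps hnd _ ((MD_cons.mp hG) z hz) h hh x
  have h2 : DS ps.toFinset h (fun y => G y - G (z * y)) x
      = DS ps.toFinset h G x - DS ps.toFinset h G (z * x) := by
    unfold DS
    rw [← sum_sub_distrib]
    refine sum_congr rfl fun S _ => ?_
    rw [mul_sub, mul_left_comm z]
  rw [h2] at h1
  linarith

end Pool.Agent.Lib.MP_938ce2_ag_h99w
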