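import Pool.Agent.Lib.MP_938ce2_ag_h99w.DD

/-!
Identities for mixed differences.
-/

set_option autoImplicit false
set_option linter.style.haveILetI false
set_option linter.unusedSectionVars false

open Finset

namespace Pool.Agent.Lib.MP_938ce2_ag_h99w

open Pool.Agent.Lib.MP_938ce2_ag_h99

variable {A : Type*} [CommGroup A]

/-- the part of the sum over the sets without `p` -/
private lemma DS_split {T : Finset ℕ} {h : ℕ → A} {G : A → ℤ} {p : ℕ} (hp : p ∈ T) (x : A) :
    DS T h G x = DS (T.erase p) h G x - DS (T.erase p) h G (h p * x) := by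
  have hpe : p ∉ T.erase p := notMem_erase p T
  unfold DS
  conv_lhs => rw [← insert_erase hp]
  rw [sum_powerset_insert hpe, ← sum_sub_distrib, ← sum_add_distrib]
  refine sum_congr rfl fun S hS => ?_
  have hqS : p ∉ S := fun h1 => hpe (mem_powerset.mp hS h1)
  rw [card_insert_of_notMem hqS, prod_insert hqS, pow_succ,
    mul_comm (h p) (∏ p ∈ S, h p), mul_assoc (∏ p ∈ S, h p)]
  ring

private lemma DS_update {T : Finset ℕ} {h : ℕ → A} {G : A → ℤ} {p : ℕ} (z x : A) :
    DS (T.erase p) (Function.update h p z) G x = DS (T.erase p) h G x := by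
  unfold DS
  refine sum_congr rfl fun S hS => ?_
  congr 3
  refine prod_congr rfl fun r hr => ?_
  have hne : r ≠ p := fun e => notMem_erase p T (e ▸ mem_powerset.mp hS hr)
  rw [Function.update_of_ne hne]

private lemma DS_upd {T : Finset ℕ} {h : ℕ → A} {G : A → ℤ} {p : ℕ} (hp : p ∈ T) (z x : A) :
    DS T (Function.update h p z) G x
      = DS (T.erase p) h G x - DS (T.erase p) h G (z * x) := by
  rw [DS_split hp, DS_update, DS_update, Function.update_self]

lemma DS_one {T : Finset ℕ} {h : ℕ → A} {G : A → ℤ} {p : ℕ} (hp : p ∈ T) (h1 : h p = 1) (x : A) :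
    DS T h G x = 0 := by
  rw [DS_split hp, h1, one_mul, sub_self]

/-- the cocycle identity -/
lemma DS_mul {T : Finset ℕ} {h : ℕ → A} {G : A → ℤ} {p : ℕ} (hp : p ∈ T) (z w x : A) :
    DS T (Function.update h p (z * w)) G x
      = DS T (Function.update h p z) G x + DS T (Function.update h p w) G (z * x) := by
  rw [DS_upd hp, DS_upd hp, DS_upd hp, mul_comm z w, mul_assoc]
  ring

/-- `DS h x - DS h (c * x) = DS (update h p c) x - DS (update h p c) (h p * x)` -/
lemma DS_flip {T : Finset ℕ} {h : ℕ → A} {G : A → ℤ} {p : ℕ} (hp : p ∈ T) {c : A}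
    (h0 : ∀ x, DS T (Function.update h p c) G x = 0) (x : A) :
    DS T h G (c * x) = DS T h G x := by
  have h1 := h0 x
  have h2 := h0 (h p * x)
  rw [DS_upd hp] at h1 h2
  rw [DS_split hp, DS_split hp, mul_left_comm (h p) c x]
  linarith

end Pool.Agent.Lib.MP_938ce2_ag_h99w
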