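import Pool.Agent.Lib.MP_938ce2_ag_h99w.DD

/-!
The weights `VV`.
-/

set_option autoImplicit false
set_option linter.style.haveILetI false
set_option linter.unusedSectionVars false

open Finset

namespace Pool.Agent.Lib.MP_938ce2_ag_h99w

open Pool.Agent.Lib.MP_938ce2_ag_h99

variable {A : Type*} [CommGroup A] [Fintype A]

open Classical in
private lemma card_filter_mem (K : Subgroup A) :
    ((univ.filter (· ∈ K)).card : ℚ) = (Nat.card K : ℚ) := by
  rw [Nat.card_eq_fintype_card, Fintype.card_subtype]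

private lemma natCard_pos (K : Subgroup A) : (0 : ℚ) < (Nat.card K : ℚ) := by
  have : 0 < Nat.card K := Nat.card_pos
  exact_mod_cast this

lemma VV_pair {K : Subgroup A} {T : Finset ℕ} {h : ℕ → A} {G : A → ℤ}
    (hinv : ∀ z ∈ K, ∀ x, DS T h G (z * x) = DS T h G x) (x : A) :
    ∑ u, (G u : ℚ) * VV K T h x u = (DS T h G x : ℚ) := by
  classical
  have h0 : (Nat.card K : ℚ) ≠ 0 := (natCard_pos K).ne'
  have h1 : ∀ u, (G u : ℚ) * VV K T h x u = (∑ z ∈ univ.filter (· ∈ K), ∑ S ∈ T.powerset,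
      if u = z * ((∏ p ∈ S, h p) * x) then (-1 : ℚ) ^ S.card * (G u : ℚ) else 0)
        / (Nat.card K : ℚ) := by
    intro u
    unfold VV
    rw [mul_div_assoc', mul_sum]
    congr 1
    refine sum_congr rfl fun z _ => ?_
    rw [mul_sum]
    refine sum_congr rfl fun S _ => ?_
    split_ifs
    · ring
    · ring
  rw [sum_congr rfl fun u _ => h1 u, ← sum_div, sum_comm]
  have h2 : ∀ z ∈ univ.filter (· ∈ K), (∑ u : A, ∑ S ∈ T.powerset,
      if u = z * ((∏ p ∈ S, h p) * x) then (-1 : ℚ) ^ S.card * (G u : ℚ) else 0)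
        = (DS T h G x : ℚ) := by
    intro z hz
    rw [sum_comm]
    rw [← hinv z (mem_filter.mp hz).2 x]
    unfold DS
    push_cast
    refine sum_congr rfl fun S _ => ?_
    rw [sum_ite_eq' univ (z * ((∏ p ∈ S, h p) * x)) fun u => (-1 : ℚ) ^ S.card * (G u : ℚ)]
    rw [if_pos (mem_univ _), mul_left_comm z]
  rw [sum_congr rfl h2, sum_const, nsmul_eq_mul, card_filter_mem]
  field_simp

open Classical in
/-- pair the sets `S` without `p` with the sets `insert p S` -/
lemma VV_sum {K K' : Subgroup A} {T : Finset ℕ} {h : ℕ → A} {p : ℕ} (hp : p ∈ T) (hK : h p ∈ K')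
    (x u : A) : ∑ w ∈ univ.filter (· ∈ K'), VV K T h x (w * u) = 0 := by
  have hpe : p ∉ T.erase p := notMem_erase p T
  unfold VV
  rw [← sum_div, sum_comm]
  rw [sum_eq_zero, zero_div]
  intro z _
  rw [sum_comm]
  conv_lhs => rw [← insert_erase hp]
  rw [sum_powerset_insert hpe, ← sum_add_distrib]
  refine sum_eq_zero fun S hS => ?_
  have hqS : p ∉ S := fun h1 => hpe (mem_powerset.mp hS h1)
  rw [card_insert_of_notMem hqS, prod_insert hqS]
  have h1 : (∑ w ∈ univ.filter (· ∈ K'),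
      if w * u = z * (h p * (∏ r ∈ S, h r) * x) then (-1 : ℚ) ^ (S.card + 1) else 0)
      = ∑ w ∈ univ.filter (· ∈ K'),
        if w * u = z * ((∏ r ∈ S, h r) * x) then (-1 : ℚ) ^ (S.card + 1) else 0 := by
    refine sum_bij' (fun w _ => (h p)⁻¹ * w) (fun w _ => h p * w) ?_ ?_ ?_ ?_ ?_
    · intro w hw
      simp only [mem_filter, mem_univ, true_and] at hw ⊢
      exact K'.mul_mem (K'.inv_mem hK) hw
    · intro w hw
      simp only [mem_filter, mem_univ, true_and] at hw ⊢
      exact K'.mul_mem hK hw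
    · intro w _
      simp
    · intro w _
      simp
    · intro w _
      have : (w * u = z * (h p * (∏ r ∈ S, h r) * x))
          ↔ ((h p)⁻¹ * w * u = z * ((∏ r ∈ S, h r) * x)) := by
        rw [mul_assoc (h p)⁻¹, inv_mul_eq_iff_eq_mul, mul_left_comm (h p) z, mul_assoc (h p)]
      simp only [this]
  rw [h1, ← sum_add_distrib]
  refine sum_eq_zero fun w _ => ?_
  split_ifs
  · rw [pow_succ]
    ring
  · simp

lemma VV_supp {K : Subgroup A} {T : Finset ℕ} {h : ℕ → A} {x u : A} (hu : VV K T h x u ≠ 0) :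
    ∃ z ∈ K, ∃ S ⊆ T, u = z * ((∏ p ∈ S, h p) * x) := by
  classical
  by_contra hcon
  push Not at hcon
  apply hu
  unfold VV
  rw [sum_eq_zero, zero_div]
  intro z hz
  refine sum_eq_zero fun S hS => ?_
  rw [if_neg]
  exact hcon z (mem_filter.mp hz).2 S (mem_powerset.mp hS)

lemma VV_abs {K : Subgroup A} {T : Finset ℕ} {h : ℕ → A}
    (hi : ∀ z ∈ K, ∀ z' ∈ K, ∀ S ⊆ T, ∀ S' ⊆ T, z * ∏ p ∈ S, h p = z' * ∏ p ∈ S', h p →
      z = z' ∧ S = S') (x u : A) : |VV K T h x u| ≤ 1 / (Nat.card K : ℚ) := by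
  classical
  by_cases hu : VV K T h x u = 0
  · rw [hu, abs_zero]
    have := natCard_pos K
    positivity
  obtain ⟨z, hz, S, hS, hzS⟩ := VV_supp hu
  unfold VV
  rw [abs_div, abs_of_pos (natCard_pos K)]
  refine div_le_div_of_nonneg_right ?_ (natCard_pos K).le
  have hkey : ∀ z' ∈ K, ∀ S' ⊆ T, u = z' * ((∏ p ∈ S', h p) * x) → z' = z ∧ S' = S := by
    intro z' hz' S' hS' he
    have h1 : z' * (∏ p ∈ S', h p) = z * ∏ p ∈ S, h p := by
      have h2 : z' * ((∏ p ∈ S', h p) * x) = z * ((∏ p ∈ S, h p) * x) := he.symm.trans hzS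
      rw [← mul_assoc, ← mul_assoc] at h2
      exact mul_right_cancel h2
    exact hi z' hz' z hz S' hS' S hS h1
  rw [sum_eq_single z]
  · rw [sum_eq_single S]
    · rw [if_pos hzS, abs_pow]
      simp
    · intro S' hS' hne
      rw [if_neg]
      intro he
      exact hne (hkey z hz S' (mem_powerset.mp hS') he).2
    · intro hn
      exact absurd (mem_powerset.mpr hS) hn
  · intro z' hz' hne
    refine sum_eq_zero fun S' hS' => ?_
    rw [if_neg]
    intro he
    exact hne (hkey z' (mem_filter.mp hz').2 S' (mem_powerset.mp hS') he).1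
  · intro hn
    exact absurd (mem_filter.mpr ⟨mem_univ _, hz⟩) hn

end Pool.Agent.Lib.MP_938ce2_ag_h99w
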