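import Pool.Agent.Lib.MP_938ce2_ag_h99.SplitGen

/-!
Mixed differences along a finite set: definitions.
-/

set_option autoImplicit false
set_option linter.style.haveILetI false
set_option linter.unusedSectionVars false

open Finset

namespace Pool.Agent.Lib.MP_938ce2_ag_h99w

open Pool.Agent.Lib.MP_938ce2_ag_h99

variable {A : Type*} [CommGroup A]

/-- the mixed difference of `G` along `h`, over the set `T` -/
def DS (T : Finset ℕ) (h : ℕ → A) (G : A → ℤ) (x : A) : ℤ :=
  ∑ S ∈ T.powerset, (-1) ^ S.card * G ((∏ p ∈ S, h p) * x)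

/-- the weight which computes the mixed difference averaged over `K` -/
noncomputable def VV [Fintype A] (K : Subgroup A) (T : Finset ℕ) (h : ℕ → A) (x u : A) : ℚ := by
  classical
  exact (∑ z ∈ univ.filter (· ∈ K), ∑ S ∈ T.powerset,
    if u = z * ((∏ p ∈ S, h p) * x) then (-1 : ℚ) ^ S.card else 0) / (Nat.card K : ℚ)

end Pool.Agent.Lib.MP_938ce2_ag_h99w
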