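import Pool.Agent.Lib.MP_938ce2_ag_h99w.WD

/-!
The unit classes. Use `addOrderOf_jj`, `jj_injective`, `exists_unit_of_order`, `addOrderOf_unit`.
-/

set_option autoImplicit false
set_option linter.style.haveILetI false
set_option linter.unusedSectionVars false

open Finset

namespace Pool.Agent.Lib.MP_938ce2_ag_h99w

open Pool.Agent.Lib.MP_938ce2_ag_h99

variable {m f : ℕ} [NeZero m] [NeZero f]

lemma pr_spec (hf : f ∣ m) {a : ZMod m} (h : f ∣ addOrderOf a) :
    jj hf (pr hf a : ZMod f) = ((addOrderOf a / f : ℕ) : ZMod m) * a := by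
  classical
  have hN : addOrderOf a ≠ 0 := by
    have := addOrderOf_dvd_m a
    exact (Nat.pos_of_dvd_of_pos this (Nat.pos_of_ne_zero (NeZero.ne m))).ne'
  obtain ⟨c, hc⟩ := h
  have hf0 : 0 < f := Nat.pos_of_ne_zero (NeZero.ne f)
  have hc0 : c ≠ 0 := by
    rintro rfl
    rw [mul_zero] at hc
    exact hN hc
  have hq : addOrderOf a / f = c := by rw [hc, Nat.mul_div_cancel_left c hf0]
  have ho : addOrderOf (((addOrderOf a / f : ℕ) : ZMod m) * a) = f := by
    rw [← nsmul_eq_mul, hq, addOrderOf_nsmul_of_dvd hc0 ⟨f, by rw [hc]; ring⟩, hc,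
      Nat.mul_div_cancel f (Nat.pos_of_ne_zero hc0)]
  have hex := exists_unit_of_order hf ho
  unfold pr
  rw [dif_pos hex]
  exact hex.choose_spec

lemma pr_eq (hf : f ∣ m) {a : ZMod m} {u : (ZMod f)ˣ}
    (h : jj hf (u : ZMod f) = ((addOrderOf a / f : ℕ) : ZMod m) * a) : pr hf a = u := by
  classical
  have hex : ∃ u : (ZMod f)ˣ, jj hf (u : ZMod f) = ((addOrderOf a / f : ℕ) : ZMod m) * a := ⟨u, h⟩
  unfold pr
  rw [dif_pos hex]
  apply Units.ext
  apply jj_injective hf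
  rw [hex.choose_spec, h]

lemma pr_neg (hf : f ∣ m) {a : ZMod m} (h : f ∣ addOrderOf a) :
    pr hf (-a) = -1 * pr hf a := by
  apply pr_eq
  have e1 : jj hf (-(pr hf a : ZMod f)) = - jj hf (pr hf a : ZMod f) := map_neg _ _
  rw [neg_one_mul, Units.val_neg, e1, pr_spec hf h, addOrderOf_neg, mul_neg]

lemma pr_jj (hf : f ∣ m) (u : (ZMod f)ˣ) : pr hf (jj hf (u : ZMod f)) = u := by
  apply pr_eq
  rw [addOrderOf_unit hf u, Nat.div_self (Nat.pos_of_ne_zero (NeZero.ne f)), Nat.cast_one, one_mul]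

lemma Ext_jj (hf : f ∣ m) (R : ℕ → Prop) (V : (ZMod f)ˣ → ℚ) (u : (ZMod f)ˣ) :
    Ext hf R V (jj hf (u : ZMod f)) = V u := by
  classical
  have hf0 : 0 < f := Nat.pos_of_ne_zero (NeZero.ne f)
  have h1 : f ∣ addOrderOf (jj hf (u : ZMod f)) ∧
      ∀ r, r.Prime → r ∣ addOrderOf (jj hf (u : ZMod f)) / f → R r := by
    rw [addOrderOf_unit hf u, Nat.div_self hf0]
    refine ⟨dvd_refl f, fun r hr h => ?_⟩
    exact absurd (Nat.dvd_one.mp h) hr.one_lt.ne'
  unfold Ext
  rw [if_pos h1, addOrderOf_unit hf u, Finset.sdiff_self, Finset.powerset_empty,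
    Finset.sum_singleton, Finset.card_empty, pow_zero, one_mul, Finset.prod_empty, pr_jj]
  have h2 : iv f 1 = 1 := by
    unfold iv
    rw [dif_pos (Nat.coprime_one_left f)]
    rw [inv_eq_one]
    apply Units.ext
    simp
  have h3 : (f.totient : ℚ) ≠ 0 := by
    have := Nat.totient_pos.mpr hf0
    positivity
  rw [h2, one_mul, div_self h3, one_mul]

end Pool.Agent.Lib.MP_938ce2_ag_h99w
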