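import Pool.Agent.Lib.MP_938ce2_ag_h99w.E01
import Pool.Agent.Lib.MP_938ce2_ag_h99w.E02

/-!
The sum of the extension over a fibre: the prime divides the order.
-/

set_option autoImplicit false
set_option linter.style.haveILetI false
set_option linter.unusedSectionVars false

open Finset

namespace Pool.Agent.Lib.MP_938ce2_ag_h99w

open Pool.Agent.Lib.MP_938ce2_ag_h99

variable {m f : ℕ} [NeZero m] [NeZero f]

open Classical in
/-- Here all the `p` elements `b` of the fibre have order `p * addOrderOf (p * b0)` (`fib_dvd`), and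
`pr hf b = pr hf (p * b0)` (`pr_eq`, `pr_spec`), so each value is the `p`-th part of
`Ext hf R V (p * b0)`. -/
theorem Ext_fib1 (hf : f ∣ m) {R : ℕ → Prop} (V : (ZMod f)ˣ → ℚ) {p : ℕ} (hp : p.Prime)
    (hpm : p ∣ m) (hR : R p) (b0 : ZMod m) (h1 : f ∣ addOrderOf ((p : ZMod m) * b0))
    (h2 : p ∣ addOrderOf ((p : ZMod m) * b0)) :
    ∑ b ∈ univ.filter (fun b : ZMod m => (p : ZMod m) * b = (p : ZMod m) * b0), Ext hf R V b
      = Ext hf R V ((p : ZMod m) * b0) := by
  classical
  set c : ZMod m := (p : ZMod m) * b0 with hc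
  set K : ℕ := addOrderOf c with hK
  have hf0 : 0 < f := Nat.pos_of_ne_zero (NeZero.ne f)
  have hK0 : K ≠ 0 :=
    (Nat.pos_of_dvd_of_pos (addOrderOf_dvd_m c) (Nat.pos_of_ne_zero (NeZero.ne m))).ne'
  have hp0 : (p : ℚ) ≠ 0 := by exact_mod_cast hp.ne_zero
  have hφ : ((K.totient : ℕ) : ℚ) ≠ 0 := by
    have := Nat.totient_pos.mpr (Nat.pos_of_ne_zero hK0)
    positivity
  have hval : ∀ b ∈ univ.filter (fun b : ZMod m => (p : ZMod m) * b = c),
      Ext hf R V b = (1 / (p : ℚ)) * Ext hf R V c := by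
    intro b hb
    have hb' : (p : ZMod m) * b = c := (mem_filter.mp hb).2
    have ho : addOrderOf b = p * K := by
      have h3 := fib_dvd hp (b := b) (by rw [hb']; exact h2)
      rw [hb'] at h3
      exact h3
    have hdiv : p * K / f = p * (K / f) := Nat.mul_div_assoc p h1
    have hpr : pr hf b = pr hf c := by
      apply pr_eq
      rw [pr_spec hf h1, ho, hdiv, ← hK, ← hb']
      push_cast
      ring
    have hiff : (f ∣ addOrderOf b ∧ ∀ r, r.Prime → r ∣ addOrderOf b / f → R r) ↔
        (f ∣ addOrderOf c ∧ ∀ r, r.Prime → r ∣ addOrderOf c / f → R r) := by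
      rw [ho, ← hK, hdiv]
      constructor
      · rintro ⟨-, h4⟩
        exact ⟨h1, fun r hr h5 => h4 r hr (Dvd.dvd.mul_left h5 p)⟩
      · rintro ⟨-, h4⟩
        refine ⟨Dvd.dvd.mul_left h1 p, fun r hr h5 => ?_⟩
        rcases (Nat.Prime.dvd_mul hr).mp h5 with h6 | h6
        · rw [(Nat.prime_dvd_prime_iff_eq hr hp).mp h6]
          exact hR
        · exact h4 r hr h6
    have hpf : (p * K).primeFactors = K.primeFactors := by
      rw [Nat.primeFactors_mul hp.ne_zero hK0, hp.primeFactors]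
      apply union_eq_right.mpr
      rw [singleton_subset_iff]
      exact Nat.mem_primeFactors.mpr ⟨hp, h2, hK0⟩
    unfold Ext
    by_cases hcond : f ∣ addOrderOf c ∧ ∀ r, r.Prime → r ∣ addOrderOf c / f → R r
    · rw [if_pos hcond, if_pos (hiff.mpr hcond), ho, ← hK, hpr, hpf,
        Nat.totient_mul_of_prime_of_dvd hp h2]
      push_cast
      field_simp
    · rw [if_neg hcond, if_neg (fun h => hcond (hiff.mp h)), mul_zero]
  rw [sum_congr rfl hval, sum_const, fib_card hp hpm b0, nsmul_eq_mul]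
  field_simp

end Pool.Agent.Lib.MP_938ce2_ag_h99w
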