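import Pool.Agent.Lib.MP_938ce2_ag_h99w.E01
import Pool.Agent.Lib.MP_938ce2_ag_h99w.E02

/-!
The sum of the extension over a fibre: the prime does not divide the order.
-/

set_option autoImplicit false
set_option linter.style.haveILetI false
set_option linter.unusedSectionVars false

open Finset

namespace Pool.Agent.Lib.MP_938ce2_ag_h99w

open Pool.Agent.Lib.MP_938ce2_ag_h99

variable {m f : ℕ} [NeZero m] [NeZero f]

lemma iv_coprime4 {f N : ℕ} (h : Nat.Coprime N f) : iv f N = (ZMod.unitOfCoprime N h)⁻¹ := by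
  unfold iv
  rw [dif_pos h]

lemma iv_mul4 {f M N : ℕ} (hM : Nat.Coprime M f) (hN : Nat.Coprime N f) :
    iv f (M * N) = iv f M * iv f N := by
  rw [iv_coprime4 hM, iv_coprime4 hN, iv_coprime4 (Nat.Coprime.mul_left hM hN), ← mul_inv]
  congr 1
  ext
  simp [ZMod.coe_unitOfCoprime]

open Classical in
/-- Put `c = p * b0`, `K = addOrderOf c`. The element `a0` of `fib_one` has
`p * pr hf a0 = pr hf c`, so `pr hf a0 = iv f p * pr hf c`; the other `p - 1` elements `b` have order
`p * K` and `pr hf b = pr hf c`; in the sum for such `b` the sets `S` are the old ones and the old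
ones with `p` added (`iv f (p * N) = iv f p * iv f N`), and `φ (p K) = (p - 1) φ (K)`. -/
theorem Ext_fib2 (hf : f ∣ m) {R : ℕ → Prop} (V : (ZMod f)ˣ → ℚ) {p : ℕ} (hp : p.Prime)
    (hpm : p ∣ m) (hR : R p) (b0 : ZMod m) (h1 : f ∣ addOrderOf ((p : ZMod m) * b0))
    (h2 : ¬ p ∣ addOrderOf ((p : ZMod m) * b0)) :
    ∑ b ∈ univ.filter (fun b : ZMod m => (p : ZMod m) * b = (p : ZMod m) * b0), Ext hf R V b
      = Ext hf R V ((p : ZMod m) * b0) := by
  have hf0 : 0 < f := Nat.pos_of_ne_zero (NeZero.ne f)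
  have hp0 : 0 < p := hp.pos
  obtain ⟨a0, ha1, ha2, ha3⟩ := fib_one hp b0 h2
  set c : ZMod m := (p : ZMod m) * b0 with hc
  have hK0 : 0 < addOrderOf c := addOrderOf_pos c
  set K := addOrderOf c with hK
  obtain ⟨k, hk⟩ := h1
  have hKf : K / f = k := by rw [hk, Nat.mul_div_cancel_left k hf0]
  have hpKf : p * K / f = p * k := by
    rw [hk, Nat.mul_left_comm, Nat.mul_div_cancel_left _ hf0]
  have hpf : ¬ p ∣ f := fun h => h2 (h.trans ⟨k, hk⟩)
  have hcopf : Nat.Coprime p f := (Nat.Prime.coprime_iff_not_dvd hp).mpr hpf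
  have hcopK : Nat.Coprime p K := (Nat.Prime.coprime_iff_not_dvd hp).mpr h2
  -- orders
  have hor : ∀ b : ZMod m, (p : ZMod m) * b = c → addOrderOf b = K ∨ addOrderOf b = p * K := by
    intro b hb
    rcases fib_not hp b with h | h
    · left; rw [h, hb]
    · right; rw [h, hb]
  have hfK : f ∣ K := ⟨k, hk⟩
  have hfpK : f ∣ p * K := Dvd.dvd.mul_left hfK p
  have hspecc : jj hf (pr hf c : ZMod f) = (k : ZMod m) * c := by
    have h := pr_spec hf (a := c) (by rw [← hK]; exact hfK)
    rw [h, ← hK, hKf]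
  have hspeca : jj hf (pr hf a0 : ZMod f) = (k : ZMod m) * a0 := by
    have h := pr_spec hf (a := a0) (by rw [ha2]; exact hfK)
    rw [h, ha2, hKf]
  have hprb : ∀ b : ZMod m, (p : ZMod m) * b = c → addOrderOf b = p * K → pr hf b = pr hf c := by
    intro b hb1 hb2
    apply pr_eq hf
    rw [hspecc, hb2, hpKf, ← hb1]
    push_cast
    ring
  have hpra : pr hf a0 = iv f p * pr hf c := by
    have h5 : (p : ZMod f) * (pr hf a0 : ZMod f) = (pr hf c : ZMod f) := by
      apply jj_injective hf
      rw [← natCast_mul_jj, hspeca, hspecc, ← ha1]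
      ring
    have h6 : ZMod.unitOfCoprime p hcopf * pr hf a0 = pr hf c := by
      ext
      rw [Units.val_mul, ZMod.coe_unitOfCoprime]
      rw [h5]
    rw [iv_coprime4 hcopf, ← h6, inv_mul_cancel_left]
  -- the condition
  by_cases hcond : ∀ r, r.Prime → r ∣ k → R r
  swap
  · have hz : ∀ b : ZMod m, (p : ZMod m) * b = c → Ext hf R V b = 0 := by
      intro b hb
      unfold Ext
      rw [if_neg]
      rintro ⟨-, h⟩
      apply hcond
      intro r hr hrk
      apply h r hr
      rcases hor b hb with h7 | h7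
      · rw [h7, hKf]; exact hrk
      · rw [h7, hpKf]; exact Dvd.dvd.mul_left hrk p
    have hz2 : Ext hf R V c = 0 := by
      unfold Ext
      rw [if_neg]
      rintro ⟨-, h⟩
      apply hcond
      intro r hr hrk
      apply h r hr
      rw [← hK, hKf]; exact hrk
    rw [hz2]
    apply Finset.sum_eq_zero
    intro b hb
    exact hz b (Finset.mem_filter.mp hb).2
  set P := K.primeFactors \ f.primeFactors with hP
  have hpP : p ∉ P := by
    intro h
    rw [hP, Finset.mem_sdiff] at h
    exact h2 (Nat.dvd_of_mem_primeFactors h.1)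
  have hPp : (p * K).primeFactors \ f.primeFactors = insert p P := by
    rw [Nat.primeFactors_mul hp.ne_zero hK0.ne', hp.primeFactors]
    ext r
    rw [hP]
    simp only [Finset.mem_sdiff, Finset.mem_union, Finset.mem_singleton, Finset.mem_insert]
    constructor
    · rintro ⟨h | h, h'⟩
      · exact Or.inl h
      · exact Or.inr ⟨h, h'⟩
    · rintro (h | ⟨h, h'⟩)
      · refine ⟨Or.inl h, ?_⟩
        rw [h]
        intro h'
        exact hpf (Nat.dvd_of_mem_primeFactors h')
      · exact ⟨Or.inr h, h'⟩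
  set T : (ZMod f)ˣ → ℚ := fun w => ∑ S ∈ P.powerset,
    (-1 : ℚ) ^ S.card * V (iv f (∏ p ∈ S, p) * w) with hT
  have hExtc : Ext hf R V c = ((f.totient : ℚ) / (K.totient : ℚ)) * T (pr hf c) := by
    unfold Ext
    rw [if_pos]
    rw [← hK]
    refine ⟨hfK, ?_⟩
    intro r hr hrk
    rw [hKf] at hrk
    exact hcond r hr hrk
  have hExta : Ext hf R V a0 = ((f.totient : ℚ) / (K.totient : ℚ)) * T (iv f p * pr hf c) := by
    unfold Ext
    rw [if_pos]
    · rw [ha2, hpra]
    · rw [ha2]
      refine ⟨hfK, ?_⟩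
      intro r hr hrk
      rw [hKf] at hrk
      exact hcond r hr hrk
  have hExtb : ∀ b : ZMod m, (p : ZMod m) * b = c → addOrderOf b = p * K →
      Ext hf R V b = ((f.totient : ℚ) / ((p * K).totient : ℚ)) *
        (T (pr hf c) - T (iv f p * pr hf c)) := by
    intro b hb1 hb2
    unfold Ext
    rw [if_pos]
    · rw [hb2, hprb b hb1 hb2, hPp, Finset.sum_powerset_insert hpP]
      congr 1
      rw [sub_eq_add_neg]
      congr 1
      rw [hT]
      simp only
      rw [← Finset.sum_neg_distrib]
      apply Finset.sum_congr rfl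
      intro S hS
      have hSP : S ⊆ P := Finset.mem_powerset.mp hS
      have hpS : p ∉ S := fun h => hpP (hSP h)
      have hcopS : Nat.Coprime (∏ r ∈ S, r) f := by
        apply Nat.Coprime.prod_left
        intro r hr
        have h8 := hSP hr
        rw [hP, Finset.mem_sdiff] at h8
        have hrp : r.Prime := Nat.prime_of_mem_primeFactors h8.1
        rw [Nat.Prime.coprime_iff_not_dvd hrp]
        intro h9
        exact h8.2 (Nat.mem_primeFactors.mpr ⟨hrp, h9, hf0.ne'⟩)
      rw [Finset.card_insert_of_notMem hpS, Finset.prod_insert hpS, iv_mul4 hcopf hcopS]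
      rw [pow_succ]
      have : iv f p * iv f (∏ r ∈ S, r) * pr hf c = iv f (∏ r ∈ S, r) * (iv f p * pr hf c) := by
        rw [mul_comm (iv f p), mul_assoc]
      rw [this]
      ring
    · rw [hb2]
      refine ⟨hfpK, ?_⟩
      intro r hr hrk
      rw [hpKf] at hrk
      rcases (Nat.Prime.dvd_mul hr).mp hrk with h10 | h10
      · rw [(Nat.prime_dvd_prime_iff_eq hr hp).mp h10]
        exact hR
      · exact hcond r hr h10
  -- the sum
  have hcard := fib_card hp hpm b0
  rw [← hc] at hcard
  have hsplit : univ.filter (fun b : ZMod m => (p : ZMod m) * b = c) =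
      insert a0 ((univ.filter (fun b : ZMod m => (p : ZMod m) * b = c)).erase a0) := by
    rw [Finset.insert_erase]
    rw [Finset.mem_filter]
    exact ⟨Finset.mem_univ _, ha1⟩
  have hcard2 : ((univ.filter (fun b : ZMod m => (p : ZMod m) * b = c)).erase a0).card = p - 1 := by
    rw [Finset.card_erase_of_mem, hcard]
    rw [Finset.mem_filter]
    exact ⟨Finset.mem_univ _, ha1⟩
  rw [hsplit, Finset.sum_insert (Finset.notMem_erase _ _)]
  rw [Finset.sum_congr (g := fun _ => ((f.totient : ℚ) / ((p * K).totient : ℚ)) *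
        (T (pr hf c) - T (iv f p * pr hf c))) rfl]
  · rw [Finset.sum_const, hcard2, nsmul_eq_mul, hExtc, hExta]
    rw [Nat.totient_mul hcopK, Nat.totient_prime hp]
    have h11 : ((p - 1 : ℕ) : ℚ) ≠ 0 := by
      have := hp.two_le
      have : p - 1 ≠ 0 := by omega
      exact_mod_cast this
    have h12 : ((K.totient : ℕ) : ℚ) ≠ 0 := by
      have := Nat.totient_pos.mpr hK0
      exact_mod_cast this.ne'
    rw [Nat.cast_mul]
    field_simp
    ring
  · intro b hb
    rw [Finset.mem_erase, Finset.mem_filter] at hb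
    obtain ⟨hb1, _, hb2⟩ := hb
    rcases hor b hb2 with h | h
    · exact absurd (ha3 b hb2 h) hb1
    · exact hExtb b hb2 h

end Pool.Agent.Lib.MP_938ce2_ag_h99w
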