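import Pool.Agent.Lib.MP_938ce2_ag_h99w.E01
import Pool.Agent.Lib.MP_938ce2_ag_h99w.E02

/-!
The orbit of the group at a prime in a fibre.
-/

set_option autoImplicit false
set_option linter.style.haveILetI false
set_option linter.unusedSectionVars false

open Finset

namespace Pool.Agent.Lib.MP_938ce2_ag_h99w

open Pool.Agent.Lib.MP_938ce2_ag_h99

variable {m f : ℕ} [NeZero m] [NeZero f]

/-- Let `b1` be in the fibre, with `f ∣ addOrderOf b1` but not `f ∣ addOrderOf (p * b1)`. Then
`addOrderOf b1 = p * addOrderOf (p * b1)` and `addOrderOf b1 / f` is prime to `p`. The map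
`b ↦ pr hf b` is a bijection of the elements of the fibre of order `addOrderOf b1` with the coset
`Kp f p * pr hf b1`: the difference of two such elements is killed by `p`, and multiplication by
`addOrderOf b1 / f` is bijective on the elements killed by `p`. -/
theorem fib_orbit (hf : f ∣ m) {p : ℕ} (hp : p.Prime) (b1 : ZMod m) (h1 : f ∣ addOrderOf b1)
    (h2 : ¬ f ∣ addOrderOf ((p : ZMod m) * b1)) :
    Set.BijOn (fun b => pr hf b * (pr hf b1)⁻¹)
      {b : ZMod m | (p : ZMod m) * b = (p : ZMod m) * b1 ∧ addOrderOf b = addOrderOf b1}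
      {z : (ZMod f)ˣ | z ∈ Kp f p} := by
  have hp0 : 0 < p := hp.pos
  have hN : addOrderOf b1 = p * addOrderOf ((p : ZMod m) * b1) := by
    rcases fib_not hp b1 with h | h
    · exact absurd (h ▸ h1) h2
    · exact h
  obtain ⟨k, hk⟩ := h1
  have hf0 : 0 < f := Nat.pos_of_ne_zero (NeZero.ne f)
  have hkN : addOrderOf b1 / f = k := by rw [hk, Nat.mul_div_cancel_left k hf0]
  have hpk : ¬ p ∣ k := by
    rintro ⟨t, rfl⟩
    apply h2
    refine ⟨t, ?_⟩
    apply Nat.eq_of_mul_eq_mul_left hp0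
    rw [← hN, hk]
    ring
  have hcop : Nat.Coprime p k := (Nat.Prime.coprime_iff_not_dvd hp).mpr hpk
  obtain ⟨x, y, hxy⟩ : ∃ x y : ℤ, (p : ℤ) * x + (k : ℤ) * y = 1 := by
    have h := Nat.gcd_eq_gcd_ab p k
    rw [hcop] at h
    exact ⟨Nat.gcdA p k, Nat.gcdB p k, by rw [← h]; norm_num⟩
  have hxy' : (p : ZMod m) * (x : ZMod m) + (k : ZMod m) * (y : ZMod m) = 1 := by
    have := congrArg (Int.cast : ℤ → ZMod m) hxy
    push_cast at this
    exact this
  have hspec : ∀ b : ZMod m, addOrderOf b = addOrderOf b1 →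
      jj hf (pr hf b : ZMod f) = (k : ZMod m) * b := by
    intro b hb
    have h := pr_spec hf (a := b) (by rw [hb, hk]; exact Dvd.intro k rfl)
    rw [h, hb, hkN]
  have hpmul : ∀ u : (ZMod f)ˣ, jj hf ((p : ZMod f) * (u : ZMod f)) =
      (p : ZMod m) * jj hf (u : ZMod f) := fun u => (natCast_mul_jj hf p _).symm
  refine ⟨?_, ?_, ?_⟩
  · rintro b ⟨hb1, hb2⟩
    change pr hf b * (pr hf b1)⁻¹ ∈ Kp f p
    rw [mem_Kp]
    have h3 : (p : ZMod f) * (pr hf b : ZMod f) = (p : ZMod f) * (pr hf b1 : ZMod f) := by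
      apply jj_injective hf
      rw [hpmul, hpmul, hspec b hb2, hspec b1 rfl]
      linear_combination (k : ZMod m) * hb1
    rw [Units.val_mul]
    calc (pr hf b : ZMod f) * (((pr hf b1)⁻¹ : (ZMod f)ˣ) : ZMod f) * (p : ZMod f)
        = ((p : ZMod f) * (pr hf b : ZMod f)) * (((pr hf b1)⁻¹ : (ZMod f)ˣ) : ZMod f) := by ring
      _ = (p : ZMod f) * ((pr hf b1 : ZMod f) * (((pr hf b1)⁻¹ : (ZMod f)ˣ) : ZMod f)) := by
          rw [h3]; ring
      _ = p := by rw [Units.mul_inv, mul_one]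
  · rintro b ⟨hb1, hb2⟩ b' ⟨hb1', hb2'⟩ h
    have h3 : pr hf b = pr hf b' := mul_right_cancel h
    have h4 : (k : ZMod m) * b = (k : ZMod m) * b' := by
      rw [← hspec b hb2, ← hspec b' hb2', h3]
    have h5 : (p : ZMod m) * b = (p : ZMod m) * b' := by rw [hb1, hb1']
    linear_combination (b' - b) * hxy' + (x : ZMod m) * h5 + (y : ZMod m) * h4
  · intro z hz
    have hz' : (z : ZMod f) * (p : ZMod f) = p := hz
    have hd : (p : ZMod m) * (jj hf ((z * pr hf b1 : (ZMod f)ˣ) : ZMod f) - (k : ZMod m) * b1)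
        = 0 := by
      rw [mul_sub, ← hspec b1 rfl, ← hpmul, ← hpmul, sub_eq_zero]
      congr 1
      rw [Units.val_mul]
      linear_combination (pr hf b1 : ZMod f) * hz'
    set d : ZMod m := jj hf ((z * pr hf b1 : (ZMod f)ˣ) : ZMod f) - (k : ZMod m) * b1 with hdd
    have hb1 : (p : ZMod m) * (b1 + (y : ZMod m) * d) = (p : ZMod m) * b1 := by
      linear_combination (y : ZMod m) * hd
    have hb2 : (k : ZMod m) * (b1 + (y : ZMod m) * d) =
        jj hf ((z * pr hf b1 : (ZMod f)ˣ) : ZMod f) := by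
      have h5 : (k : ZMod m) * (y : ZMod m) * d = d := by
        linear_combination d * hxy' - (x : ZMod m) * hd
      linear_combination h5 + hdd
    have hb3 : addOrderOf (b1 + (y : ZMod m) * d) = addOrderOf b1 := by
      rcases fib_not hp (b1 + (y : ZMod m) * d) with h | h
      · exfalso
        apply h2
        rw [hb1] at h
        rw [← h]
        have h6 : addOrderOf ((k : ZMod m) * (b1 + (y : ZMod m) * d)) = f := by
          rw [hb2, addOrderOf_unit]
        rw [← h6, ← nsmul_eq_mul]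
        exact addOrderOf_smul_dvd k
      · rw [h, hb1, ← hN]
    refine ⟨b1 + (y : ZMod m) * d, ⟨hb1, hb3⟩, ?_⟩
    have h7 : pr hf (b1 + (y : ZMod m) * d) = z * pr hf b1 := by
      apply pr_eq hf
      rw [hb3, hkN, hb2]
    change pr hf (b1 + (y : ZMod m) * d) * (pr hf b1)⁻¹ = z
    rw [h7, mul_assoc, mul_inv_cancel, mul_one]

end Pool.Agent.Lib.MP_938ce2_ag_h99w
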