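import Pool.Agent.Lib.MP_938ce2_ag_h99w.E05

/-!
The sum of the extension over a fibre: new primes in the order.
-/

set_option autoImplicit false
set_option linter.style.haveILetI false
set_option linter.unusedSectionVars false

open Finset

namespace Pool.Agent.Lib.MP_938ce2_ag_h99w

open Pool.Agent.Lib.MP_938ce2_ag_h99

variable {m f : ℕ} [NeZero m] [NeZero f]

open Classical in
/-- If some `b1` in the fibre has `f ∣ addOrderOf b1`, then `fib_not` and `fib_orbit` show that the
elements `b` with nonzero value have order `addOrderOf b1`, and for each set `S` the sum of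
`V (iv f N * pr hf b)` is the sum over a coset of `Kp f p`, which is zero. -/
theorem Ext_fib3 (hf : f ∣ m) {R : ℕ → Prop} {V : (ZMod f)ˣ → ℚ} (hV : ZS f R V) {p : ℕ}
    (hp : p.Prime) (hR : R p) (b0 : ZMod m)
    (h1 : ¬ f ∣ addOrderOf ((p : ZMod m) * b0)) :
    ∑ b ∈ univ.filter (fun b : ZMod m => (p : ZMod m) * b = (p : ZMod m) * b0), Ext hf R V b
      = 0 := by
  by_cases hex : ∃ b1 : ZMod m, (p : ZMod m) * b1 = (p : ZMod m) * b0 ∧
      (f ∣ addOrderOf b1 ∧ ∀ r, r.Prime → r ∣ addOrderOf b1 / f → R r)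
  swap
  · apply Finset.sum_eq_zero
    intro b hb
    have hb' : (p : ZMod m) * b = (p : ZMod m) * b0 := (Finset.mem_filter.mp hb).2
    unfold Ext
    rw [if_neg]
    intro h
    exact hex ⟨b, hb', h⟩
  obtain ⟨b1, hb1, hc⟩ := hex
  obtain ⟨hfb1, hRb1⟩ := hc
  have h1' : ¬ f ∣ addOrderOf ((p : ZMod m) * b1) := by rw [hb1]; exact h1
  have hN : addOrderOf b1 = p * addOrderOf ((p : ZMod m) * b0) := by
    rcases fib_not hp b1 with h | h
    · exact absurd (h ▸ hfb1) h1'
    · rw [h, hb1]
  have hpf : p ∣ f := by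
    by_contra hpf
    apply h1
    have hcop : Nat.Coprime f p := ((Nat.Prime.coprime_iff_not_dvd hp).mpr hpf).symm
    exact hcop.dvd_of_dvd_mul_left (hN ▸ hfb1)
  have horb := fib_orbit hf hp b1 hfb1 h1'
  -- the inner sums
  have hin : ∀ w : (ZMod f)ˣ,
      ∑ b ∈ univ.filter (fun b : ZMod m => (p : ZMod m) * b = (p : ZMod m) * b1 ∧
        addOrderOf b = addOrderOf b1), V (w * pr hf b) = 0 := by
    intro w
    have hz := hV p hp hR hpf (w * pr hf b1)
    rw [← hz]
    refine Finset.sum_nbij (fun b => pr hf b * (pr hf b1)⁻¹) ?_ ?_ ?_ ?_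
    · intro b hb
      have hb' := (Finset.mem_filter.mp hb).2
      have h3 : pr hf b * (pr hf b1)⁻¹ ∈ Kp f p := horb.1 hb'
      simpa using h3
    · intro b hb b' hb' h
      have hb2 := (Finset.mem_filter.mp (Finset.mem_coe.mp hb)).2
      have hb3 := (Finset.mem_filter.mp (Finset.mem_coe.mp hb')).2
      exact horb.2.1 hb2 hb3 h
    · intro z hz
      have hz' := (Finset.mem_filter.mp (Finset.mem_coe.mp hz)).2
      obtain ⟨b, hb, hbz⟩ := horb.2.2 hz'
      exact ⟨b, Finset.mem_coe.mpr (Finset.mem_filter.mpr ⟨Finset.mem_univ _, hb⟩), hbz⟩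
    · intro b _
      congr 1
      have : pr hf b * (pr hf b1)⁻¹ * (w * pr hf b1) = w * (pr hf b * ((pr hf b1)⁻¹ * pr hf b1)) := by
        rw [mul_comm w (pr hf b1)]
        rw [mul_assoc, ← mul_assoc (pr hf b1)⁻¹, inv_mul_cancel, one_mul, mul_one, mul_comm]
      rw [this, inv_mul_cancel, mul_one]
  -- the sum over the fibre
  have hsum : ∑ b ∈ univ.filter (fun b : ZMod m => (p : ZMod m) * b = (p : ZMod m) * b0),
      Ext hf R V b = ∑ b ∈ univ.filter (fun b : ZMod m => (p : ZMod m) * b = (p : ZMod m) * b1 ∧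
        addOrderOf b = addOrderOf b1), ((f.totient : ℚ) / ((addOrderOf b1).totient : ℚ)) *
      ∑ S ∈ ((addOrderOf b1).primeFactors \ f.primeFactors).powerset,
        (-1 : ℚ) ^ S.card * V (iv f (∏ p ∈ S, p) * pr hf b) := by
    rw [← Finset.filter_filter, hb1]
    rw [← Finset.sum_filter_add_sum_filter_not (univ.filter
      (fun b : ZMod m => (p : ZMod m) * b = (p : ZMod m) * b0))
      (fun b => addOrderOf b = addOrderOf b1)]
    have hz : ∑ b ∈ (univ.filter (fun b : ZMod m => (p : ZMod m) * b = (p : ZMod m) * b0)).filter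
        (fun b => ¬ addOrderOf b = addOrderOf b1), Ext hf R V b = 0 := by
      apply Finset.sum_eq_zero
      intro b hb
      rw [Finset.mem_filter, Finset.mem_filter] at hb
      obtain ⟨⟨_, hb2⟩, hb3⟩ := hb
      unfold Ext
      rw [if_neg]
      rintro ⟨h, -⟩
      rcases fib_not hp b with h5 | h5
      · rw [hb2] at h5
        exact h1 (h5 ▸ h)
      · rw [hb2, ← hN] at h5
        exact hb3 h5
    rw [hz, add_zero]
    apply Finset.sum_congr rfl
    intro b hb
    have hb3 := (Finset.mem_filter.mp hb).2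
    unfold Ext
    rw [if_pos (by rw [hb3]; exact ⟨hfb1, hRb1⟩), hb3]
  rw [hsum, ← Finset.mul_sum, Finset.sum_comm]
  rw [Finset.sum_eq_zero, mul_zero]
  intro S _
  rw [← Finset.mul_sum, hin, mul_zero]

end Pool.Agent.Lib.MP_938ce2_ag_h99w
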