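import Pool.Agent.Lib.MP_938ce2_ag_h99w.E03
import Pool.Agent.Lib.MP_938ce2_ag_h99w.E04
import Pool.Agent.Lib.MP_938ce2_ag_h99w.E06

/-!
The extension kills the relations.
-/

set_option autoImplicit false
set_option linter.style.haveILetI false
set_option linter.unusedSectionVars false

open Finset

namespace Pool.Agent.Lib.MP_938ce2_ag_h99w

open Pool.Agent.Lib.MP_938ce2_ag_h99

variable {m f : ℕ} [NeZero m] [NeZero f]

open Classical in
/-- the three cases together -/
theorem Ext_fibre (hf : f ∣ m) {R : ℕ → Prop} {V : (ZMod f)ˣ → ℚ} (hV : ZS f R V) {p : ℕ}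
    (hp : p.Prime) (hpm : p ∣ m) (hR : R p) (b0 : ZMod m) :
    ∑ b ∈ univ.filter (fun b : ZMod m => (p : ZMod m) * b = (p : ZMod m) * b0), Ext hf R V b
      = Ext hf R V ((p : ZMod m) * b0) := by
  by_cases h1 : f ∣ addOrderOf ((p : ZMod m) * b0)
  · by_cases h2 : p ∣ addOrderOf ((p : ZMod m) * b0)
    · exact Ext_fib1 hf V hp hpm hR b0 h1 h2
    · exact Ext_fib2 hf V hp hpm hR b0 h1 h2
  · rw [Ext_fib3 hf hV hp hR b0 h1]
    unfold Ext
    rw [if_neg fun h => h1 h.1]

/-- regroup the sum for `rel p g` over the fibres (as in `rel_tate`, h99/Peel.lean) -/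
theorem Ext_rel (hf : f ∣ m) {R : ℕ → Prop} {V : (ZMod f)ˣ → ℚ} (hV : ZS f R V)
    {F : ZMod m → ℤ} (hF : F ∈ relSubR m R) : ∑ a, (F a : ℚ) * Ext hf R V a = 0 := by
  classical
  unfold relSubR at hF
  induction hF using AddSubgroup.closure_induction with
  | mem F hF =>
    obtain ⟨p, g, hp, hpm, hR, -, hg, rfl⟩ := hF
    have h1 : ∑ a, (g ((p : ZMod m) * a) : ℚ) * Ext hf R V a = ∑ c, (g c : ℚ) * Ext hf R V c := by
      rw [← Finset.sum_fiberwise univ (fun a : ZMod m => (p : ZMod m) * a)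
        (fun a => (g ((p : ZMod m) * a) : ℚ) * Ext hf R V a)]
      refine sum_congr rfl fun c _ => ?_
      have h2 : ∑ a ∈ univ.filter (fun a : ZMod m => (p : ZMod m) * a = c),
          (g ((p : ZMod m) * a) : ℚ) * Ext hf R V a =
          (g c : ℚ) * ∑ a ∈ univ.filter (fun a : ZMod m => (p : ZMod m) * a = c),
            Ext hf R V a := by
        rw [mul_sum]
        refine sum_congr rfl fun a ha => ?_
        rw [(mem_filter.mp ha).2]
      rw [h2]
      by_cases hc : g c = 0
      · rw [hc, Int.cast_zero, zero_mul, zero_mul]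
      · obtain ⟨b0, rfl⟩ := hg c hc
        congr 1
        convert Ext_fibre hf hV hp hpm hR b0
    have h2 : ∑ a, ((rel p g a : ℤ) : ℚ) * Ext hf R V a =
        ∑ a, (g ((p : ZMod m) * a) : ℚ) * Ext hf R V a - ∑ c, (g c : ℚ) * Ext hf R V c := by
      rw [← sum_sub_distrib]
      refine sum_congr rfl fun a _ => ?_
      unfold rel
      push_cast
      ring
    rw [h2, h1, sub_self]
  | zero => simp
  | add x y _ _ hx hy =>
    simp only [Pi.add_apply, Int.cast_add, add_mul, sum_add_distrib]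
    rw [hx, hy, add_zero]
  | neg x _ hx =>
    simp only [Pi.neg_apply, Int.cast_neg, neg_mul, sum_neg_distrib]
    rw [hx, neg_zero]

end Pool.Agent.Lib.MP_938ce2_ag_h99w
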