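import Pool.Agent.Lib.MP_938ce2_ag_h99w.E01

/-!
Bound for the extension.
-/

set_option autoImplicit false
set_option linter.style.haveILetI false
set_option linter.unusedSectionVars false

open Finset

namespace Pool.Agent.Lib.MP_938ce2_ag_h99w

open Pool.Agent.Lib.MP_938ce2_ag_h99

variable {m f : ℕ} [NeZero m] [NeZero f]

/-- the prime power attached to a prime in the count -/
def gE8 (r : ℕ) : ℕ := if r = 2 then 4 else r

lemma gE8_coprime {r N : ℕ} (hr : r.Prime) (h : ¬ r ∣ N) : Nat.Coprime (gE8 r) N := by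
  have h1 : Nat.Coprime r N := (Nat.Prime.coprime_iff_not_dvd hr).mpr h
  unfold gE8
  split_ifs with h2
  · subst h2
    exact Nat.Coprime.pow_left 2 h1
  · exact h1

lemma gE8_totient {r : ℕ} (hr : r.Prime) : 2 ≤ (gE8 r).totient := by
  unfold gE8
  split_ifs with h2
  · decide
  · rw [Nat.totient_prime hr]
    have := hr.two_le
    omega

lemma count_E8 {f K : ℕ} (hK : 0 < K) (hfK : f ∣ K) (T : Finset ℕ)
    (hT : ∀ r ∈ T, r.Prime ∧ r ∣ K ∧ ¬ r ∣ f ∧ (r = 2 → 4 ∣ K)) :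
    f * ∏ r ∈ T, gE8 r ∣ K ∧ (∀ r, r.Prime → r ∣ ∏ r ∈ T, gE8 r → r ∈ T) ∧
      2 ^ T.card ≤ (∏ r ∈ T, gE8 r).totient ∧ Nat.Coprime f (∏ r ∈ T, gE8 r) := by
  classical
  induction T using Finset.induction_on with
  | empty =>
    refine ⟨by simpa using hfK, ?_, by simp, by simp⟩
    intro r hr h
    rw [Finset.prod_empty, Nat.dvd_one] at h
    exact absurd h hr.ne_one
  | insert a T haT ih =>
    obtain ⟨ih1, ih2, ih3, ih4⟩ := ih (fun r hr => hT r (Finset.mem_insert_of_mem hr))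
    obtain ⟨ha1, ha2, ha3, ha4⟩ := hT a (Finset.mem_insert_self a T)
    have hna : ¬ a ∣ ∏ r ∈ T, gE8 r := fun h => haT (ih2 a ha1 h)
    have hcop1 : Nat.Coprime (gE8 a) f := gE8_coprime ha1 ha3
    have hcop2 : Nat.Coprime (gE8 a) (∏ r ∈ T, gE8 r) := gE8_coprime ha1 hna
    have hga : gE8 a ∣ K := by
      unfold gE8
      split_ifs with h
      · exact ha4 h
      · exact ha2
    rw [Finset.prod_insert haT]
    refine ⟨?_, ?_, ?_, ?_⟩
    · have h5 : gE8 a * (f * ∏ r ∈ T, gE8 r) ∣ K :=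
        Nat.Coprime.mul_dvd_of_dvd_of_dvd (Nat.Coprime.mul_right hcop1 hcop2) hga ih1
      convert h5 using 1
      ring
    · intro r hr h
      rcases (Nat.Prime.dvd_mul hr).mp h with h6 | h6
      · apply Finset.mem_insert.mpr
        left
        unfold gE8 at h6
        split_ifs at h6 with h7
        · rw [h7]
          have : r ∣ 2 ^ 2 := h6
          exact (Nat.prime_dvd_prime_iff_eq hr Nat.prime_two).mp (hr.dvd_of_dvd_pow this)
        · exact (Nat.prime_dvd_prime_iff_eq hr ha1).mp h6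
      · exact Finset.mem_insert_of_mem (ih2 r hr h6)
    · rw [Finset.card_insert_of_notMem haT, Nat.totient_mul hcop2, pow_succ, mul_comm]
      exact Nat.mul_le_mul (gE8_totient ha1) ih3
    · exact Nat.Coprime.mul_right hcop1.symm ih4

lemma totient_E8 {f K : ℕ} (hK : 0 < K) (hfK : f ∣ K) (T : Finset ℕ)
    (hT : ∀ r ∈ T, r.Prime ∧ r ∣ K ∧ ¬ r ∣ f ∧ (r = 2 → 4 ∣ K)) :
    2 ^ T.card * f.totient ≤ K.totient := by
  obtain ⟨h1, -, h3, h4⟩ := count_E8 hK hfK T hT
  calc 2 ^ T.card * f.totient ≤ (∏ r ∈ T, gE8 r).totient * f.totient :=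
        Nat.mul_le_mul_right _ h3
    _ = (f * ∏ r ∈ T, gE8 r).totient := by rw [Nat.totient_mul h4, mul_comm]
    _ ≤ K.totient := Nat.le_of_dvd (Nat.totient_pos.mpr hK) (Nat.totient_dvd_of_dvd h1)

lemma ratio_E8 {f K n : ℕ} (hK : 0 < K) (h : 2 ^ n * f.totient ≤ K.totient) {C x : ℚ}
    (hC : 0 ≤ C) (hx : |x| ≤ 2 ^ n * C) :
    |((f.totient : ℚ) / (K.totient : ℚ)) * x| ≤ C := by
  have hK1 : (0 : ℚ) < (K.totient : ℚ) := by exact_mod_cast Nat.totient_pos.mpr hK
  have hf1 : (0 : ℚ) ≤ (f.totient : ℚ) := by positivity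
  have h' : (2 : ℚ) ^ n * (f.totient : ℚ) ≤ (K.totient : ℚ) := by exact_mod_cast h
  rw [abs_mul, abs_of_nonneg (div_nonneg hf1 hK1.le), div_mul_eq_mul_div, div_le_iff₀ hK1]
  calc (f.totient : ℚ) * |x| ≤ (f.totient : ℚ) * (2 ^ n * C) :=
        mul_le_mul_of_nonneg_left hx hf1
    _ = C * (2 ^ n * (f.totient : ℚ)) := by ring
    _ ≤ C * (K.totient : ℚ) := mul_le_mul_of_nonneg_left h' hC

lemma sum_E8 {P : Finset ℕ} {C : ℚ} (W : Finset ℕ → ℚ) (h : ∀ S ∈ P.powerset, |W S| ≤ C) :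
    |∑ S ∈ P.powerset, (-1 : ℚ) ^ S.card * W S| ≤ 2 ^ P.card * C := by
  calc |∑ S ∈ P.powerset, (-1 : ℚ) ^ S.card * W S|
      ≤ ∑ S ∈ P.powerset, |(-1 : ℚ) ^ S.card * W S| := Finset.abs_sum_le_sum_abs _ _
    _ ≤ ∑ S ∈ P.powerset, C := by
        apply Finset.sum_le_sum
        intro S hS
        rw [abs_mul, abs_pow, abs_neg, abs_one, one_pow, one_mul]
        exact h S hS
    _ = 2 ^ P.card * C := by rw [Finset.sum_const, Finset.card_powerset, nsmul_eq_mul]; push_cast; rfl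

lemma iv_coprime8 {f N : ℕ} (h : Nat.Coprime N f) : iv f N = (ZMod.unitOfCoprime N h)⁻¹ := by
  unfold iv
  rw [dif_pos h]

lemma iv_mul8 {f M N : ℕ} (hM : Nat.Coprime M f) (hN : Nat.Coprime N f) :
    iv f (M * N) = iv f M * iv f N := by
  rw [iv_coprime8 hM, iv_coprime8 hN, iv_coprime8 (Nat.Coprime.mul_left hM hN), ← mul_inv]
  congr 1
  ext
  simp [ZMod.coe_unitOfCoprime]

/-- Put `K = addOrderOf a`, `T = K.primeFactors \ f.primeFactors`. If `f` is odd and `K % 4 = 2`,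
pair the sets `S` without `2` with `S ∪ {2}` and use the second bound; otherwise use the first bound
for each `S`. The number of terms times `φ f / φ K` is at most one, because an odd prime `r` in `T`
contributes a factor `r - 1 ≥ 2` to `φ K / φ f`, and so does `4`. Negation: `pr_neg`. -/
theorem Ext_bound (hf : f ∣ m) {R : ℕ → Prop} {V : (ZMod f)ˣ → ℚ} {C : ℚ} (hB : Bd f V C)
    (hf4 : f % 4 ≠ 2) (a : ZMod m) : |Ext hf R V a - Ext hf R V (-a)| ≤ C := by
  classical
  have hf0 : 0 < f := Nat.pos_of_ne_zero (NeZero.ne f)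
  have hC : 0 ≤ C := le_trans (abs_nonneg _) (hB.1 1)
  have hon : addOrderOf (-a) = addOrderOf a := addOrderOf_neg a
  by_cases hcond : f ∣ addOrderOf a ∧ ∀ r, r.Prime → r ∣ addOrderOf a / f → R r
  swap
  · have h1 : Ext hf R V a = 0 := by
      unfold Ext
      rw [if_neg hcond]
    have h2 : Ext hf R V (-a) = 0 := by
      unfold Ext
      rw [if_neg]
      rw [hon]
      exact hcond
    rw [h1, h2, sub_zero, abs_zero]
    exact hC
  have hK0 : 0 < addOrderOf a := addOrderOf_pos a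
  set K := addOrderOf a with hK
  set P := K.primeFactors \ f.primeFactors with hP
  have hPm : ∀ r ∈ P, r.Prime ∧ r ∣ K ∧ ¬ r ∣ f := by
    intro r hr
    rw [hP, Finset.mem_sdiff] at hr
    have h1 := Nat.prime_of_mem_primeFactors hr.1
    refine ⟨h1, Nat.dvd_of_mem_primeFactors hr.1, ?_⟩
    intro h2
    exact hr.2 (Nat.mem_primeFactors.mpr ⟨h1, h2, hf0.ne'⟩)
  have hdiff : Ext hf R V a - Ext hf R V (-a) = ((f.totient : ℚ) / (K.totient : ℚ)) *
      ∑ S ∈ P.powerset, (-1 : ℚ) ^ S.card * (V (iv f (∏ p ∈ S, p) * pr hf a) -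
        V (-1 * (iv f (∏ p ∈ S, p) * pr hf a))) := by
    have h1 : Ext hf R V a = ((f.totient : ℚ) / (K.totient : ℚ)) *
        ∑ S ∈ P.powerset, (-1 : ℚ) ^ S.card * V (iv f (∏ p ∈ S, p) * pr hf a) := by
      unfold Ext
      rw [if_pos hcond]
    have h2 : Ext hf R V (-a) = ((f.totient : ℚ) / (K.totient : ℚ)) *
        ∑ S ∈ P.powerset, (-1 : ℚ) ^ S.card * V (-1 * (iv f (∏ p ∈ S, p) * pr hf a)) := by
      unfold Ext
      rw [if_pos (by rw [hon]; exact hcond), hon, pr_neg hf hcond.1]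
      congr 1
      apply Finset.sum_congr rfl
      intro S _
      congr 2
      rw [mul_left_comm]
    rw [h1, h2, ← mul_sub, ← Finset.sum_sub_distrib]
    congr 1
    apply Finset.sum_congr rfl
    intro S _
    ring
  rw [hdiff]
  by_cases hcase : 2 ∈ P → 4 ∣ K
  · apply ratio_E8 (n := P.card) hK0 _ hC
    · apply sum_E8 (P := P) (C := C) (fun S => V (iv f (∏ p ∈ S, p) * pr hf a) -
        V (-1 * (iv f (∏ p ∈ S, p) * pr hf a)))
      intro S _
      exact hB.1 _
    · apply totient_E8 hK0 hcond.1 P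
      intro r hr
      obtain ⟨h1, h2, h3⟩ := hPm r hr
      exact ⟨h1, h2, h3, fun h => hcase (h ▸ hr)⟩
  · push Not at hcase
    obtain ⟨h2P, h4K⟩ := hcase
    obtain ⟨_, _, h2f⟩ := hPm 2 h2P
    have hins : insert 2 (P.erase 2) = P := Finset.insert_erase h2P
    have h2e : 2 ∉ P.erase 2 := Finset.notMem_erase 2 P
    apply ratio_E8 (n := (P.erase 2).card) hK0 _ hC
    · rw [← hins, Finset.sum_powerset_insert h2e, ← Finset.sum_add_distrib, hins]
      have hcop2 : Nat.Coprime 2 f := (Nat.Prime.coprime_iff_not_dvd Nat.prime_two).mpr h2f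
      have heq : ∀ S ∈ (P.erase 2).powerset,
          (-1 : ℚ) ^ S.card * (V (iv f (∏ p ∈ S, p) * pr hf a) -
            V (-1 * (iv f (∏ p ∈ S, p) * pr hf a))) +
          (-1 : ℚ) ^ (insert 2 S).card * (V (iv f (∏ p ∈ insert 2 S, p) * pr hf a) -
            V (-1 * (iv f (∏ p ∈ insert 2 S, p) * pr hf a))) =
          (-1 : ℚ) ^ S.card * (V (iv f (∏ p ∈ S, p) * pr hf a) -
            V (-1 * (iv f (∏ p ∈ S, p) * pr hf a)) -
            (V (iv f 2 * (iv f (∏ p ∈ S, p) * pr hf a)) -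
              V (-1 * (iv f 2 * (iv f (∏ p ∈ S, p) * pr hf a))))) := by
        intro S hS
        have hSP : S ⊆ P.erase 2 := Finset.mem_powerset.mp hS
        have h2S : 2 ∉ S := fun h => h2e (hSP h)
        have hcopS : Nat.Coprime (∏ r ∈ S, r) f := by
          apply Nat.Coprime.prod_left
          intro r hr
          obtain ⟨h1, h2, h3⟩ := hPm r (Finset.mem_of_mem_erase (hSP hr))
          exact (Nat.Prime.coprime_iff_not_dvd h1).mpr h3
        rw [Finset.card_insert_of_notMem h2S, Finset.prod_insert h2S, iv_mul8 hcop2 hcopS,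
          mul_assoc (iv f 2), pow_succ]
        ring
      rw [Finset.sum_congr rfl heq]
      apply sum_E8 (P := P.erase 2) (C := C) (fun S => V (iv f (∏ p ∈ S, p) * pr hf a) -
            V (-1 * (iv f (∏ p ∈ S, p) * pr hf a)) -
            (V (iv f 2 * (iv f (∏ p ∈ S, p) * pr hf a)) -
              V (-1 * (iv f 2 * (iv f (∏ p ∈ S, p) * pr hf a)))))
      intro S _
      exact hB.2 h2f _
    · apply totient_E8 hK0 hcond.1
      intro r hr
      obtain ⟨h1, h2, h3⟩ := hPm r (Finset.mem_of_mem_erase hr)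
      exact ⟨h1, h2, h3, fun h => absurd h (Finset.ne_of_mem_erase hr)⟩

end Pool.Agent.Lib.MP_938ce2_ag_h99w
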