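import Pool.Agent.Lib.MP_938ce2_ag_h99w.E07
import Pool.Agent.Lib.MP_938ce2_ag_h99w.E08

/-!
The values of functionals on functions of small norm.
-/

set_option autoImplicit false
set_option linter.style.haveILetI false
set_option linter.unusedSectionVars false

open Finset

namespace Pool.Agent.Lib.MP_938ce2_ag_h99w

open Pool.Agent.Lib.MP_938ce2_ag_h99

variable {m f : ℕ} [NeZero m] [NeZero f]

lemma half_bound {F : ZMod m → ℤ} (ho : OddF F) {e : ZMod m → ℚ} {C : ℚ}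
    (h : ∀ a, |e a - e (-a)| ≤ C) :
    |∑ a, (F a : ℚ) * e a| ≤ ((∑ a, |F a| : ℤ) : ℚ) / 2 * C := by
  have h1 : ∑ a, (F a : ℚ) * e (-a) = - ∑ a, (F a : ℚ) * e a := by
    rw [← Equiv.sum_comp (Equiv.neg (ZMod m)) (fun a => (F a : ℚ) * e (-a)), ← sum_neg_distrib]
    refine sum_congr rfl fun a _ => ?_
    show ((F (-a) : ℤ) : ℚ) * e (- -a) = _
    rw [ho, neg_neg]
    push_cast
    ring
  have h2 : ∑ a, (F a : ℚ) * e a = (∑ a, (F a : ℚ) * (e a - e (-a))) / 2 := by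
    have h3 : ∑ a, (F a : ℚ) * (e a - e (-a)) =
        ∑ a, (F a : ℚ) * e a - ∑ a, (F a : ℚ) * e (-a) := by
      rw [← sum_sub_distrib]
      exact sum_congr rfl fun a _ => by ring
    rw [h3, h1]
    ring
  rw [h2, abs_div, abs_of_pos (by norm_num : (0 : ℚ) < 2)]
  have h4 : |∑ a, (F a : ℚ) * (e a - e (-a))| ≤ ((∑ a, |F a| : ℤ) : ℚ) * C := by
    refine (abs_sum_le_sum_abs _ _).trans ?_
    push_cast
    rw [sum_mul]
    refine sum_le_sum fun a _ => ?_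
    rw [abs_mul]
    exact mul_le_mul_of_nonneg_left (h a) (abs_nonneg _)
  linarith

/-- at the top level (`Ext_jj`, `exists_unit_of_order`, `jj_injective`) -/
lemma Ext_top (hf : f ∣ m) {R : ℕ → Prop} {V : (ZMod f)ˣ → ℚ} {F : ZMod m → ℤ}
    (hsup : ∀ a, F a ≠ 0 → f ∣ addOrderOf a → addOrderOf a = f) :
    ∑ a, (F a : ℚ) * Ext hf R V a = ∑ u : (ZMod f)ˣ, (F (jj hf (u : ZMod f)) : ℚ) * V u := by
  classical
  have h1 : ∑ u : (ZMod f)ˣ, (F (jj hf (u : ZMod f)) : ℚ) * V u =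
      ∑ a ∈ (univ : Finset (ZMod f)ˣ).image (fun u : (ZMod f)ˣ => jj hf (u : ZMod f)),
        (F a : ℚ) * Ext hf R V a := by
    rw [sum_image]
    · refine sum_congr rfl fun u _ => ?_
      rw [Ext_jj]
    · intro u _ w _ huw
      exact Units.ext (jj_injective hf huw)
  rw [h1]
  symm
  apply sum_subset (subset_univ _)
  intro a _ ha
  by_cases hF : F a = 0
  · rw [hF, Int.cast_zero, zero_mul]
  · by_cases hfa : f ∣ addOrderOf a
    · exfalso
      obtain ⟨u, hu⟩ := exists_unit_of_order hf (hsup a hF hfa)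
      exact ha (mem_image.mpr ⟨u, mem_univ _, hu⟩)
    · unfold Ext
      rw [if_neg fun h => hfa h.1, mul_zero]

/-- `F` and `F1` have the same value (`Ext_rel`), `F1` and `F0` too, and `F0` is small -/
theorem small_top (hf : f ∣ m) (hf4 : f % 4 ≠ 2) {R : ℕ → Prop} {V : (ZMod f)ˣ → ℚ} {C : ℚ}
    (hV : ZS f R V) (hB : Bd f V C) {F F1 F0 : ZMod m → ℤ} (ho : OddF F0)
    (hrel : F - F1 ∈ relSubR m R)
    (h10 : ∀ a, f ∣ addOrderOf a → (∀ r, r.Prime → r ∣ addOrderOf a / f → R r) → F1 a = F0 a)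
    (hsup : ∀ a, F a ≠ 0 → f ∣ addOrderOf a → addOrderOf a = f) {l : ℕ}
    (hN : ∑ a, |F0 a| ≤ 2 * l) :
    |∑ u : (ZMod f)ˣ, (F (jj hf (u : ZMod f)) : ℚ) * V u| ≤ l * C := by
  rw [← Ext_top (R := R) hf hsup]
  have h1 := Ext_rel hf hV hrel
  have h2 : ∑ a, (F a : ℚ) * Ext hf R V a = ∑ a, (F1 a : ℚ) * Ext hf R V a := by
    have h3 : ∑ a, ((F - F1) a : ℚ) * Ext hf R V a =
        ∑ a, (F a : ℚ) * Ext hf R V a - ∑ a, (F1 a : ℚ) * Ext hf R V a := by
      rw [← sum_sub_distrib]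
      refine sum_congr rfl fun a _ => ?_
      rw [Pi.sub_apply]
      push_cast
      ring
    rw [h3] at h1
    linarith
  have h3 : ∑ a, (F1 a : ℚ) * Ext hf R V a = ∑ a, (F0 a : ℚ) * Ext hf R V a := by
    refine sum_congr rfl fun a _ => ?_
    by_cases hc : f ∣ addOrderOf a ∧ ∀ r, r.Prime → r ∣ addOrderOf a / f → R r
    · rw [h10 a hc.1 hc.2]
    · unfold Ext
      rw [if_neg hc, mul_zero, mul_zero]
  have hb : ∀ a : ZMod m, |Ext hf R V a - Ext hf R V (-a)| ≤ C := Ext_bound hf hB hf4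
  have hC : 0 ≤ C := (abs_nonneg _).trans (hb 0)
  rw [h2, h3]
  refine (half_bound ho hb).trans ?_
  apply mul_le_mul_of_nonneg_right _ hC
  have h4 : ((∑ a, |F0 a| : ℤ) : ℚ) ≤ 2 * l := by exact_mod_cast hN
  linarith

end Pool.Agent.Lib.MP_938ce2_ag_h99w
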