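import Pool.Agent.Lib.MP_938ce2_ag_h99w.Q04
import Pool.Agent.Lib.MP_938ce2_ag_h99w.C08
import Pool.Agent.Lib.MP_938ce2_ag_h99.Fun4

/-!
Removing the large primes, and the levels with a large prime and at most three effective primes.
-/

set_option autoImplicit false
set_option linter.style.haveILetI false
set_option linter.unusedSectionVars false

open Finset

namespace Pool.Agent.Lib.MP_938ce2_ag_h99w

open Pool.Agent.Lib.MP_938ce2_ag_h99 Pool.Agent.Lib.MP_938ce2_ag_H7f
open Pool.Agent.Lib.MP_938ce2_ag_H7e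

variable {m : ℕ} [NeZero m]

/-- the prime `q` can always be removed from functions of norm at most `N` -/
def Free (m : ℕ) [NeZero m] (N : ℤ) (q : ℕ) : Prop :=
  ∀ F : ZMod m → ℤ, OddF F → TateF F → ∑ a, |F a| ≤ N → part1 q F ∈ relSub m

/-- one large prime is removed -/
theorem drop_one5 (X : AddSubgroup (ZMod m → ℤ)) (h2 : 2 ∣ m) {q : ℕ} (hq : q.Prime) {N : ℤ}
    (hNq : N < q - 1) (hq4 : 4 ≤ q) {F : ZMod m → ℤ} (ho : OddF F) (hT : TateF F)
    (hN : ∑ a, |F a| ≤ N) {m0 : ℕ} (hs : ∀ a, F a ≠ 0 → addOrderOf a ∣ m0)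
    (hR : 3 ∣ m0 → q ∣ m → (q : ℤ) - 1 ≤ 2 * N → Ref3 m X q ∨ Free m N q) :
    ∃ F' : ZMod m → ℤ, F - F' ∈ X ⊔ relSub m ∧ OddF F' ∧ TateF F' ∧ ∑ a, |F' a| ≤ N ∧
      ∀ a, F' a ≠ 0 → ¬ q ∣ addOrderOf a ∧ (F a ≠ 0 ∨ 3 ∣ m0 ∧ addOrderOf a ∣ 6) := by
  have hpn := part_norm (q := q) F
  have hpa := part_add (q := q) F
  by_cases h : part1 q F ∈ relSub m
  · refine ⟨part0 q F, ?_, part0_odd ho, ?_, ?_, ?_⟩
    · have h1 : F - part0 q F = part1 q F := by
        funext a
        have e := congrFun hpa a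
        simp only [Pi.sub_apply, Pi.add_apply] at *
        linarith
      rw [h1]
      exact AddSubgroup.mem_sup_right h
    · have h1 : part0 q F = F - part1 q F := by
        funext a
        have e := congrFun hpa a
        simp only [Pi.sub_apply, Pi.add_apply] at *
        linarith
      rw [h1]
      exact hT.sub (TateF_of_mem_relSub h)
    · have hp1 : 0 ≤ ∑ a, |part1 q F a| := sum_nonneg fun _ _ => abs_nonneg _
      linarith
    · intro a ha
      exact ⟨(part0_supp ha).1, Or.inl (part0_supp ha).2⟩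
  · refine drop_one4 X h2 hq hNq hq4 ho hT hN hs fun h3 hqm hq1 => ?_
    rcases hR h3 hqm hq1 with h4 | h4
    · exact h4
    · exact absurd (h4 F ho hT hN) h

/-- all large primes are removed -/
theorem drop_all5 (X : AddSubgroup (ZMod m → ℤ)) (h2 : 2 ∣ m) {N : ℤ} {m0 : ℕ}
    (h6 : 3 ∣ m0 → 6 ∣ m0) (B : Finset ℕ) :
    (∀ q ∈ B, q.Prime ∧ 4 ≤ q ∧ N < q - 1 ∧
      (3 ∣ m0 → q ∣ m → (q : ℤ) - 1 ≤ 2 * N → Ref3 m X q ∨ Free m N q)) →
    ∀ F : ZMod m → ℤ, OddF F → TateF F → ∑ a, |F a| ≤ N → (∀ a, F a ≠ 0 → addOrderOf a ∣ m0) →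
    ∃ F' : ZMod m → ℤ, F - F' ∈ X ⊔ relSub m ∧ OddF F' ∧ TateF F' ∧ ∑ a, |F' a| ≤ N ∧
      ∀ a, F' a ≠ 0 → (F a ≠ 0 ∨ 3 ∣ m0 ∧ addOrderOf a ∣ 6) ∧ ∀ q ∈ B, ¬ q ∣ addOrderOf a := by
  classical
  induction B using Finset.induction_on with
  | empty =>
    intro _ F ho hT hN hs
    refine ⟨F, ?_, ho, hT, hN, fun a ha => ⟨Or.inl ha, by simp⟩⟩
    rw [sub_self]
    exact (X ⊔ relSub m).zero_mem
  | insert q B hqB ih =>
    intro hB F ho hT hN hs
    obtain ⟨hq, hq4, hNq, hR⟩ := hB q (mem_insert_self q B)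
    obtain ⟨F1, h1, h2', h3, h4, h5⟩ := drop_one5 X h2 hq hNq hq4 ho hT hN hs hR
    have hs1 : ∀ a, F1 a ≠ 0 → addOrderOf a ∣ m0 := by
      intro a ha
      rcases (h5 a ha).2 with h | ⟨h, h'⟩
      · exact hs a h
      · exact h'.trans (h6 h)
    obtain ⟨F2, g1, g2, g3, g4, g5⟩ := ih (fun p hp => hB p (mem_insert_of_mem hp)) F1 h2' h3 h4 hs1
    refine ⟨F2, ?_, g2, g3, g4, ?_⟩
    · have e : F - F2 = (F - F1) + (F1 - F2) := by abel
      rw [e]
      exact (X ⊔ relSub m).add_mem h1 g1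
    · intro a ha
      obtain ⟨k1, k2⟩ := g5 a ha
      rcases k1 with k1 | k1
      · obtain ⟨k3, k4⟩ := h5 a k1
        refine ⟨k4, ?_⟩
        intro p hp
        rcases mem_insert.mp hp with rfl | hp
        · exact k3
        · exact k2 p hp
      · refine ⟨Or.inr k1, ?_⟩
        intro p hp
        rcases mem_insert.mp hp with rfl | hp
        · intro hpa
          have h7 := Nat.le_of_dvd (by norm_num) (hpa.trans k1.2)
          have h8 : p ∣ 6 := hpa.trans k1.2
          interval_cases p <;> first | omega | exact absurd hq (by norm_num)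
        · exact k2 p hp

/-- the prime `29` -/
theorem free29 (h2 : 2 ∣ m) : Free m 16 29 := by
  intro F ho hT hN
  have hq : Nat.Prime 29 := by norm_num
  by_cases hqm : 29 ∣ m
  · obtain ⟨Q, n, K, hD, hQ, hn⟩ := exists_Dat (m := m) hq hqm
    have h2n : 2 ∣ n := by
      have h3 : Nat.Coprime 2 Q := by
        rw [hQ]
        apply Nat.Coprime.pow_right
        norm_num
      exact h3.dvd_of_dvd_mul_left (h2.trans (dvd_of_eq hD.hm))
    exact drop29 hD hQ h2n ho hT hN
  · have : part1 29 F = 0 := by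
      funext a
      by_contra ha
      exact hqm ((part1_supp ha).1.trans (addOrderOf_dvd_m a))
    rw [this]
    exact (relSub m).zero_mem

/-! ### one level -/

/-- one level is removed -/
def StepP (X : AddSubgroup (ZMod m → ℤ)) (f : ℕ) : Prop :=
  ∀ F : ZMod m → ℤ, OddF F → TateF F → (∀ a, F a ≠ 0 → f ∣ addOrderOf a → addOrderOf a = f) →
    ∃ F' : ZMod m → ℤ, F - F' ∈ X ⊔ relSub m ∧ OddF F' ∧ TateF F' ∧
      (∀ a, addOrderOf a = f → F' a = 0) ∧
      (∀ a, F' a ≠ F a → addOrderOf a ∣ Nat.lcm 2 f ∧ addOrderOf a ≤ f)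

lemma StepP.of_peeled {X : AddSubgroup (ZMod m → ℤ)} {f : ℕ} (hf0 : f ≠ 0)
    (h : ∀ F : ZMod m → ℤ, OddF F → TateF F →
      (∀ a, F a ≠ 0 → f ∣ addOrderOf a → addOrderOf a = f) → ∃ F', Peeled f F F') :
    StepP X f := by
  intro F ho hT hs
  obtain ⟨F', h1, h2, h3, h4, h5⟩ := h F ho hT hs
  refine ⟨F', AddSubgroup.mem_sup_right h1, h2, h3, h4, fun a ha => ?_⟩
  have := h5 a ha
  exact ⟨this.trans (Nat.dvd_lcm_right 2 f), Nat.le_of_dvd (Nat.pos_of_ne_zero hf0) this⟩

/-- Levels with two primes, with any elements of larger order. -/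
lemma stepP_two {X : AddSubgroup (ZMod m → ℤ)} {f : ℕ} [NeZero f] (hf : f ∣ m) {p q : ℕ}
    (hp : p.Prime) (hq : q.Prime) (hpf : p ∣ f) (hqf : q ∣ f) (hpq : p ≠ q)
    (hall : ∀ r, r.Prime → r ∣ f → r ∈ [p, q])
    (hcard : Nat.card (Kp f p) * Nat.card (Kp f q) = f.totient)
    (hex : Exc (· ∣ Nat.lcm 2 f) X f p q hf) : StepP X f := by
  intro F hodd hT hsup
  obtain ⟨c1, c2, E, hc1, hc2, hc, hEX, hEodd, hET, hEsup, hEpar⟩ := hex
  have hprime : ∀ r ∈ [p, q], r.Prime ∧ r ∣ f := by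
    intro r hr
    simp only [List.mem_cons, List.not_mem_nil, or_false] at hr
    rcases hr with rfl | rfl
    · exact ⟨hp, hpf⟩
    · exact ⟨hq, hqf⟩
  have hI := indep_Kp [p, q] hprime (by simp [hpq])
  have hd : Disjoint (Kp f p) (Kp f q) := by
    have := hI.1
    simpa [spanL] using this
  have htop : Kp f p ⊔ Kp f q = ⊤ := by
    apply Subgroup.eq_top_of_card_eq
    rw [card_sup hd, hcard, Nat.card_eq_fintype_card, ZMod.card_units_eq_totient]
  -- the even parity case
  have hev : ∀ H : ZMod m → ℤ, OddF H → TateF H →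
      (∀ a, H a ≠ 0 → f ∣ addOrderOf a → addOrderOf a = f) →
      Even (H (jj hf 1) + H (jj hf (c2 : ZMod f))) → ∃ F', Peeled f H F' := by
    intro H hHodd hHT hHsup hHpar
    have hMD := MD_top hf H hHodd hHT hHsup [p, q] hall
    simp only [List.map_cons, List.map_nil] at hMD
    obtain ⟨G1, G2, h1, h2, h3, h4, h5⟩ := split_two (-1) c1 c2 (Kp f p) (Kp f q) hd htop hc1 hc2 hc
      (fun u : (ZMod f)ˣ => H (jj hf (u : ZMod f))) hMD (odd_top hf hHodd)
      (by simpa using hHpar)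
    refine Peeled.of_peel hf hHodd hHT [p, q] hprime
      (fun r => if r = p then G1 else G2) ?_ ?_ ?_
    · intro r hr z hz u
      simp only [List.mem_cons, List.not_mem_nil, or_false] at hr
      rcases hr with rfl | rfl
      · simp only [if_true]
        exact h1 z hz u
      · rw [if_neg (Ne.symm hpq)]
        exact h2 z hz u
    · intro u
      simp only [List.map_cons, List.map_nil, List.sum_cons, List.sum_nil, add_zero, if_true]
      rw [if_neg (Ne.symm hpq)]
      exact h3 u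
    · intro r hr u
      simp only [List.mem_cons, List.not_mem_nil, or_false] at hr
      rcases hr with rfl | rfl
      · simp only [if_true]
        exact h4 u
      · rw [if_neg (Ne.symm hpq)]
        exact h5 u
  have hf0 : 0 < f := Nat.pos_of_ne_zero (NeZero.ne f)
  rcases Int.even_or_odd (F (jj hf 1) + F (jj hf (c2 : ZMod f))) with hpar | hpar
  · obtain ⟨F', g1, g2, g3, g4, g5⟩ := hev F hodd hT hsup hpar
    refine ⟨F', AddSubgroup.mem_sup_right g1, g2, g3, g4, fun a ha => ?_⟩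
    exact ⟨(g5 a ha).trans (Nat.dvd_lcm_right 2 f), Nat.le_of_dvd hf0 (g5 a ha)⟩
  · have hsupE : ∀ a, (F - E) a ≠ 0 → f ∣ addOrderOf a → addOrderOf a = f := by
      intro a ha hfa
      by_cases hFa : F a = 0
      · have hE : E a ≠ 0 := by
          intro h0
          apply ha
          rw [Pi.sub_apply, hFa, h0, sub_zero]
        exact le_antisymm (hEsup a hE).1
          (Nat.le_of_dvd (Nat.pos_of_ne_zero (by
            intro h
            have := addOrderOf_dvd_m a
            rw [h] at this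
            exact NeZero.ne m (Nat.eq_zero_of_zero_dvd this))) hfa)
      · exact hsup a hFa hfa
    obtain ⟨F', g1, g2, g3, g4, g5⟩ := hev (F - E) (hodd.sub hEodd) (hT.sub hET) hsupE
      (by
        have : (F - E) (jj hf 1) + (F - E) (jj hf (c2 : ZMod f))
            = (F (jj hf 1) + F (jj hf (c2 : ZMod f))) - (E (jj hf 1) + E (jj hf (c2 : ZMod f))) := by
          simp only [Pi.sub_apply]
          ring
        rw [this]
        exact hpar.sub_odd hEpar)
    refine ⟨F', ?_, g2, g3, g4, fun a ha => ?_⟩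
    · have h1 : F - F' = E + (F - E - F') := by abel
      rw [h1]
      exact (X ⊔ relSub m).add_mem hEX ((le_sup_right : relSub m ≤ X ⊔ relSub m) g1)
    · by_cases hE : E a = 0
      · have h1 : F' a ≠ (F - E) a := by
          rw [Pi.sub_apply, hE, sub_zero]
          exact ha
        exact ⟨(g5 a h1).trans (Nat.dvd_lcm_right 2 f), Nat.le_of_dvd hf0 (g5 a h1)⟩
      · exact ⟨(hEsup a hE).2, (hEsup a hE).1⟩

/-! ### the levels which are not smooth -/

/-- all primes at most `7` -/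
def Sm (k : ℕ) : Prop := ∀ p, p.Prime → p ∣ k → p ≤ 7

lemma effP_mono {a b : ℕ} (h : a ∣ b) (hb : b ≠ 0) : effP a ⊆ effP b := by
  intro p hp
  unfold effP at hp ⊢
  rw [mem_filter] at hp ⊢
  exact ⟨Nat.primeFactors_mono h hb hp.1, fun h2 => (hp.2 h2).trans h⟩

lemma effP_lcm {f g : ℕ} (hf0 : f ≠ 0) (hg : g ∣ Nat.lcm 2 f) : effP g ⊆ effP f := by
  have hl0 : Nat.lcm 2 f ≠ 0 := Nat.lcm_ne_zero two_ne_zero hf0
  intro p hp
  unfold effP at hp ⊢
  rw [mem_filter, Nat.mem_primeFactors] at hp ⊢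
  obtain ⟨⟨hp, hpg, _⟩, h4⟩ := hp
  by_cases h2 : p = 2
  · subst h2
    have h5 : 4 ∣ Nat.lcm 2 f := (h4 rfl).trans hg
    have h6 : 4 ∣ f := by
      by_contra h7
      by_cases h8 : 2 ∣ f
      · rw [Nat.lcm_eq_right h8] at h5
        exact h7 h5
      · have h9 : Nat.Coprime 2 f := (Nat.Prime.coprime_iff_not_dvd Nat.prime_two).mpr h8
        rw [h9.lcm_eq_mul] at h5
        omega
    exact ⟨⟨hp, (by norm_num : 2 ∣ 4).trans h6, hf0⟩, fun _ => h6⟩
  · have h5 : p ∣ f := by
      rcases (hp.dvd_lcm).mp (hpg.trans hg) with h6 | h6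
      · exact absurd ((Nat.prime_dvd_prime_iff_eq hp Nat.prime_two).mp h6) h2
      · exact h6
    exact ⟨⟨hp, h5, hf0⟩, fun h => absurd h h2⟩

/-- changed smooth orders have at most two effective primes -/
lemma effP_card_two {f g : ℕ} (hf0 : f ≠ 0) (h3 : (effP f).card ≤ 3) (hf : ¬ Sm f)
    (hg : g ∣ Nat.lcm 2 f) (hgs : Sm g) : (effP g).card ≤ 2 := by
  unfold Sm at hf
  push Not at hf
  obtain ⟨r, hr, hrf, hr7⟩ := hf
  have h1 : r ∈ effP f := by
    unfold effP
    rw [mem_filter, Nat.mem_primeFactors]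
    exact ⟨⟨hr, hrf, hf0⟩, fun h => by omega⟩
  have h2 : effP g ⊆ (effP f).erase r := by
    intro p hp
    rw [mem_erase]
    refine ⟨?_, effP_lcm hf0 hg hp⟩
    rintro rfl
    unfold effP at hp
    rw [mem_filter, Nat.mem_primeFactors] at hp
    have := hgs p hp.1.1 hp.1.2.1
    omega
  have h4 := card_le_card h2
  rw [card_erase_of_mem h1] at h4
  omega

/-- the levels which are not smooth are removed -/
theorem peel_ns {X : AddSubgroup (ZMod m → ℤ)} {n : ℕ} (h2n : 2 ∣ n)
    (hstep : ∀ f, f ∣ m → f ∣ n → ¬ Sm f → (effP f).card ≤ 3 → f % 4 ≠ 2 → f ∣ 2 * rad f →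
      StepP X f) :
    ∀ (k : ℕ) (F : ZMod m → ℤ), OddF F → TateF F → (∀ a, F a ≠ 0 → addOrderOf a ∣ n) →
      (∀ a, F a ≠ 0 → ¬ Sm (addOrderOf a) → (effP (addOrderOf a)).card ≤ 3) →
      (∀ a, F a ≠ 0 → ¬ Sm (addOrderOf a) → addOrderOf a ≤ k) →
      ∃ F' : ZMod m → ℤ, F - F' ∈ X ⊔ relSub m ∧ OddF F' ∧ TateF F' ∧
        (∀ a, F' a ≠ 0 → Sm (addOrderOf a)) ∧
        (∀ a, Sm (addOrderOf a) → 3 ≤ (effP (addOrderOf a)).card → F' a = F a) := by
  have hord : ∀ a : ZMod m, addOrderOf a ≠ 0 := by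
    intro a h
    have := addOrderOf_dvd_m a
    rw [h] at this
    exact NeZero.ne m (Nat.eq_zero_of_zero_dvd this)
  intro k
  induction k with
  | zero =>
    intro F ho hT _ _ h0
    refine ⟨F, ?_, ho, hT, ?_, fun a _ _ => rfl⟩
    · rw [sub_self]
      exact (X ⊔ relSub m).zero_mem
    · intro a ha
      by_contra hs
      exact hord a (Nat.le_zero.mp (h0 a ha hs))
  | succ k ih =>
    intro F ho hT hn h3 hk
    by_cases hex : ∃ a, F a ≠ 0 ∧ ¬ Sm (addOrderOf a) ∧ addOrderOf a = k + 1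
    · obtain ⟨a0, b1, b2, b3⟩ := hex
      have hfm : k + 1 ∣ m := b3 ▸ addOrderOf_dvd_m a0
      have hfn : k + 1 ∣ n := b3 ▸ hn a0 b1
      have hf3 : (effP (k + 1)).card ≤ 3 := b3 ▸ h3 a0 b1 b2
      rw [b3] at b2
      haveI : NeZero (k + 1) := ⟨Nat.succ_ne_zero k⟩
      have hS : StepP X (k + 1) := by
        by_cases hf4 : (k + 1) % 4 = 2
        · exact StepP.of_peeled (Nat.succ_ne_zero k) fun F ho hT _ => level_even hfm hf4 F ho hT
        · by_cases hfr : k + 1 ∣ 2 * rad (k + 1)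
          · exact hstep _ hfm hfn b2 hf3 hf4 hfr
          · exact StepP.of_peeled (Nat.succ_ne_zero k) fun F ho hT hs =>
              level_general hfm hfr F ho hT hs
      obtain ⟨F1, g1, g2, g3, g4, g5⟩ := hS F ho hT (by
        intro a ha hfa
        have h5 : ¬ Sm (addOrderOf a) := fun h => b2 fun p hp hpf => h p hp (hpf.trans hfa)
        exact le_antisymm (hk a ha h5) (Nat.le_of_dvd (Nat.pos_of_ne_zero (hord a)) hfa))
      have hlcm : Nat.lcm 2 (k + 1) ∣ n := Nat.lcm_dvd h2n hfn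
      obtain ⟨F2, f1, f2, f3, f4, f5⟩ := ih F1 g2 g3 (by
        intro a ha
        by_cases hc : F1 a = F a
        · rw [hc] at ha
          exact hn a ha
        · exact (g5 a hc).1.trans hlcm) (by
        intro a ha hs
        by_cases hc : F1 a = F a
        · rw [hc] at ha
          exact h3 a ha hs
        · exact (card_le_card (effP_lcm (Nat.succ_ne_zero k) (g5 a hc).1)).trans hf3) (by
        intro a ha hs
        have h6 : addOrderOf a ≠ k + 1 := fun h => ha (g4 a h)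
        by_cases hc : F1 a = F a
        · rw [hc] at ha
          have := hk a ha hs
          omega
        · have := (g5 a hc).2
          omega)
      refine ⟨F2, ?_, f2, f3, f4, ?_⟩
      · have e : F - F2 = (F - F1) + (F1 - F2) := by abel
        rw [e]
        exact (X ⊔ relSub m).add_mem g1 f1
      · intro a hs ha3
        rw [f5 a hs ha3]
        by_contra hc
        have := effP_card_two (Nat.succ_ne_zero k) hf3 b2 (g5 a hc).1 hs
        omega
    · refine ih F ho hT hn h3 ?_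
      intro a ha hs
      have h5 := hk a ha hs
      have h6 : addOrderOf a ≠ k + 1 := fun h => hex ⟨a, ha, hs, h⟩
      omega

end Pool.Agent.Lib.MP_938ce2_ag_h99w
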