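import Pool.Agent.Lib.MP_938ce2_ag_h99w.F01
import Pool.Agent.Lib.MP_938ce2_ag_h99w.B17
import Pool.Agent.Lib.MP_938ce2_ag_h99v.Final6

/-!
All Tate characters of length at most eight are algebraic.
-/

set_option autoImplicit false
set_option linter.style.haveILetI false
set_option linter.unusedSectionVars false

open Finset

namespace Pool.Agent.Lib.MP_938ce2_ag_h99w

open Pool.Agent.Lib.MP_938ce2_ag_h99 Pool.Agent.Lib.MP_938ce2_ag_H7f
open Pool.Agent.Lib.MP_938ce2_ag_H7e Pool.Agent.Lib.MP_938ce2_ag_h6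
open Pool.Agent.Lib.MP_938ce2_ag_h99v Pool.Agent.Lib.MP_938ce2_ag_h99t
open Pool.Agent.Lib.MP_938ce2_ag_h85c

variable {m : ℕ} [NeZero m]

lemma effP_eq {f : ℕ} (hf4 : f % 4 ≠ 2) : effP f = f.primeFactors := by
  unfold effP
  rw [filter_eq_self]
  intro p hp h2
  subst h2
  have := Nat.dvd_of_mem_primeFactors hp
  omega

/-- the levels dividing `2 * rad f`, with at most three primes, pairs being good -/
theorem stepP_of_pairs {X : AddSubgroup (ZMod m → ℤ)} {f : ℕ} (hf : f ∣ m) (hf1 : f ≠ 1)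
    (hf4 : f % 4 ≠ 2) (hfr : f ∣ 2 * rad f) (h3 : f.primeFactors.card ≤ 3)
    (hP : ∀ p q, p ∈ f.primeFactors → q ∈ f.primeFactors → p < q → PX X p q) : StepP X f := by
  have hf0 : f ≠ 0 := f_ne_zero hf
  haveI : NeZero f := ⟨hf0⟩
  have hprod := eff_prod hf0 hf4 hfr
  have htot := tot_prod hf0 hf4 hfr
  have hall : ∀ {l : List ℕ}, (∀ x ∈ f.primeFactors, x ∈ l) → ∀ r, r.Prime → r ∣ f → r ∈ l :=
    fun h r hr hrf => h r (Nat.mem_primeFactors.mpr ⟨hr, hrf, hf0⟩)
  have hpos : 0 < f.primeFactors.card := by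
    rw [Finset.card_pos, Nat.nonempty_primeFactors]
    omega
  have hc : f.primeFactors.card = 1 ∨ f.primeFactors.card = 2 ∨ f.primeFactors.card = 3 := by
    omega
  rcases hc with hc | hc | hc
  · obtain ⟨p, hp⟩ := Finset.card_eq_one.mp hc
    have hpm : p ∈ f.primeFactors := by rw [hp]; exact mem_singleton_self p
    exact StepP.of_peeled hf0 fun F ho hT hs => level_one hf (Nat.prime_of_mem_primeFactors hpm)
      (Nat.dvd_of_mem_primeFactors hpm) (hall (by rw [hp]; simp)) F ho hT hs
  · obtain ⟨p', q', hpq', hp'⟩ := Finset.card_eq_two.mp hc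
    obtain ⟨p, q, hpq, hp⟩ : ∃ p q, p < q ∧ f.primeFactors = {p, q} := by
      rcases lt_or_gt_of_ne hpq' with h | h
      · exact ⟨p', q', h, hp'⟩
      · exact ⟨q', p', h, by rw [hp', pair_comm]⟩
    have hpm : p ∈ f.primeFactors := by rw [hp]; simp
    have hqm : q ∈ f.primeFactors := by rw [hp]; simp
    have hPX := hP p q hpm hqm hpq
    rw [hp, prod_pair hpq.ne] at htot
    have hfe := ep_mul_of_pair hpq.ne hprod hp
    have hall' := hall (l := [p, q]) (by rw [hp]; simp)
    have hpp := Nat.prime_of_mem_primeFactors hpm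
    have hqq := Nat.prime_of_mem_primeFactors hqm
    have hpf := Nat.dvd_of_mem_primeFactors hpm
    have hqf := Nat.dvd_of_mem_primeFactors hqm
    clear hp hpm hqm hc hpos hprod hall hf4 hfr hf1 h3 hP hp' hpq'
    subst hfe
    exact stepP_two hf hpp hqq hpf hqf hpq.ne hall'
      (by rw [card_Kp hpp hpf, card_Kp hqq hqf]; exact htot)
      (PX.exc hpp hqq hpq.ne hf (Nat.dvd_lcm_right 2 _) (Nat.dvd_lcm_left 2 _) hPX)
  · obtain ⟨p, q, r, hpq, hpr, hqr, hp⟩ := Finset.card_eq_three.mp hc
    have hpm : p ∈ f.primeFactors := by rw [hp]; simp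
    have hqm : q ∈ f.primeFactors := by rw [hp]; simp
    have hrm : r ∈ f.primeFactors := by rw [hp]; simp
    have hpp := Nat.prime_of_mem_primeFactors hpm
    have hqq := Nat.prime_of_mem_primeFactors hqm
    have hrr := Nat.prime_of_mem_primeFactors hrm
    have hpf := Nat.dvd_of_mem_primeFactors hpm
    have hqf := Nat.dvd_of_mem_primeFactors hqm
    have hrf := Nat.dvd_of_mem_primeFactors hrm
    have htot' : (if r ∣ f / r then r else r - 1) * ((if p ∣ f / p then p else p - 1) *
        (if q ∣ f / q then q else q - 1)) = f.totient := by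
      rw [← htot, hp, prod_insert (by simp [hpq, hpr]), prod_pair hqr]
      ring
    have key : ∀ a b c : ℕ, a.Prime → b.Prime → c.Prime → a ∣ f → b ∣ f → c ∣ f → a ≠ b → a ≠ c →
        b ≠ c → ¬ f ∣ 2 * (a * b) := by
      intro a b c ha hb hc ha' hb' hc' hab hac hbc h
      have h1 : c ∣ 2 * (a * b) := hc'.trans h
      rcases (Nat.Prime.dvd_mul hc).mp h1 with h2 | h2
      · have hc2 : c = 2 := (Nat.prime_dvd_prime_iff_eq hc Nat.prime_two).mp h2
        subst hc2
        have h4 : 4 ∣ f := by omega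
        have h5 : 4 ∣ 2 * (a * b) := h4.trans h
        have h6 : 2 ∣ a * b := by omega
        rcases (Nat.Prime.dvd_mul Nat.prime_two).mp h6 with h7 | h7
        · exact hac ((Nat.prime_dvd_prime_iff_eq Nat.prime_two ha).mp h7).symm
        · exact hbc ((Nat.prime_dvd_prime_iff_eq Nat.prime_two hb).mp h7).symm
      · rcases (Nat.Prime.dvd_mul hc).mp h2 with h3 | h3
        · exact hac ((Nat.prime_dvd_prime_iff_eq hc ha).mp h3).symm
        · exact hbc ((Nat.prime_dvd_prime_iff_eq hc hb).mp h3).symm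
    exact StepP.of_peeled hf0 fun F ho hT hs => level_three hf hpp hqq hrr hpf hqf hrf hpq hpr hqr
      (hall (by rw [hp]; simp)) (by rw [card_Kp hpp hpf, card_Kp hqq hqf, card_Kp hrr hrf]; exact htot')
      (key p q r hpp hqq hrr hpf hqf hrf hpq hpr hqr)
      (key p r q hpp hrr hqq hpf hrf hqf hpr hpq hqr.symm)
      (key q r p hqq hrr hpp hqf hrf hpf hqr hpq.symm hpr.symm) F ho hT hs

/-- all pairs of primes up to `17` are good -/
lemma NB_small {p q : ℕ} (hp : p.Prime) (hq : q.Prime) (hpq : p < q) (h17 : q ≤ 17) : NB p q := by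
  have key : ∀ r : ℕ, r.Prime → r ≤ 17 → r % 4 ≠ 1 ∨ r = 5 ∨ r = 13 ∨ r = 17 := by
    intro r hr h
    interval_cases r <;> first | omega | exact absurd hr (by norm_num)
  right; right; right
  exact ⟨key p hp (by omega), key q hq h17⟩

/-- pairs of `3` and a prime `3 mod 4` -/
lemma NB_three {q : ℕ} (hq : q % 4 = 3) : NB 3 q := Or.inl ⟨by norm_num, by omega⟩

/-! ### transfer -/

/-- the smooth part of the level -/
lemma smooth_part (L : ℕ) {m : ℕ} (hm0 : m ≠ 0) : ∃ f, f ∣ m ∧ (∀ p, p.Prime → p ∣ f → p ≤ L) ∧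
    (∀ p, p.Prime → p ∣ f → ¬ p ∣ m / f) ∧
      ∀ d, d ∣ m → (∀ p, p.Prime → p ∣ d → p ≤ L) → d ∣ f := by
  set f := ∏ p ∈ m.primeFactors.filter (· ≤ L), p ^ m.factorization p with hf
  set g := ∏ p ∈ m.primeFactors.filter (¬ · ≤ L), p ^ m.factorization p with hg
  have hfg : m = f * g := by
    rw [hf, hg, prod_filter_mul_prod_filter_not]
    exact (Nat.prod_factorization_pow_eq_self hm0).symm
  have hf7 : ∀ p, p.Prime → p ∣ f → p ≤ L := by
    intro q hq hqm
    obtain ⟨p, hp, hqp⟩ := (Prime.dvd_finsetProd_iff hq.prime _).mp hqm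
    have h1 := mem_filter.mp hp
    have h2 := Nat.prime_of_mem_primeFactors h1.1
    have h3 := (Nat.prime_dvd_prime_iff_eq hq h2).mp (hq.dvd_of_dvd_pow hqp)
    rw [h3]
    exact h1.2
  have hg7 : ∀ p, p.Prime → p ∣ g → L < p := by
    intro q hq hqm
    obtain ⟨p, hp, hqp⟩ := (Prime.dvd_finsetProd_iff hq.prime _).mp hqm
    have h1 := mem_filter.mp hp
    have h2 := Nat.prime_of_mem_primeFactors h1.1
    have h3 := (Nat.prime_dvd_prime_iff_eq hq h2).mp (hq.dvd_of_dvd_pow hqp)
    rw [h3]
    exact not_le.mp h1.2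
  have hf0 : 0 < f := by
    rcases Nat.eq_zero_or_pos f with h | h
    · rw [h, zero_mul] at hfg
      exact absurd hfg hm0
    · exact h
  refine ⟨f, ⟨g, hfg⟩, hf7, ?_, ?_⟩
  · intro p hp hpf hpg
    rw [hfg, Nat.mul_div_cancel_left _ hf0] at hpg
    have h1 := hf7 p hp hpf
    have h2 := hg7 p hp hpg
    omega
  · intro d hd hs
    rw [hfg] at hd
    have hcop : Nat.Coprime d g := by
      apply Nat.coprime_of_dvd
      intro p hp hpd hpg
      have h1 := hs p hp hpd
      have h2 := hg7 p hp hpg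
      omega
    exact hcop.dvd_of_dvd_mul_right hd

/-- the restriction of a Tate function supported on the `f`-torsion -/
lemma tate_restrict {f : ℕ} [NeZero f] (hf : f ∣ m) {F : ZMod m → ℤ} (hT : TateF F)
    (hs : ∀ a, F a ≠ 0 → addOrderOf a ∣ f) : TateF (fun y : ZMod f => F (jj hf y)) := by
  intro t
  obtain ⟨T, hTt⟩ := ZMod.unitsMap_surjective hf t
  have h1 := hT T
  rw [← sum_jj hf (G := fun a => F a * (((T : ZMod m) * a).val : ℤ)) (by
    intro a ha
    apply hs
    intro h0
    apply ha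
    beta_reduce
    rw [h0, zero_mul])] at h1
  have h2 : ∀ y : ZMod f, F (jj hf y) * (((T : ZMod m) * jj hf y).val : ℤ)
      = (m / f : ℕ) * (F (jj hf y) * (((t : ZMod f) * y).val : ℤ)) := by
    intro y
    rw [jj_mul, jj_val]
    have h3 : ZMod.castHom hf (ZMod f) (T : ZMod m) = (t : ZMod f) := by
      rw [← hTt, ZMod.unitsMap_val]
      rfl
    rw [h3]
    push_cast
    ring
  rw [sum_congr rfl fun y _ => h2 y, ← mul_sum] at h1
  have h3 : ((m / f : ℕ) : ℤ) ≠ 0 := by
    have : 0 < m / f := Nat.div_pos (Nat.le_of_dvd (Nat.pos_of_ne_zero (NeZero.ne m)) hf)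
      (Nat.pos_of_ne_zero (NeZero.ne f))
    exact_mod_cast this.ne'
  exact (mul_eq_zero.mp h1).resolve_left h3

lemma transfer2 {f : ℕ} [NeZero f] (hf : f ∣ m) (hpart : ∀ p, p.Prime → p ∣ f → ¬ p ∣ m / f)
    {F : ZMod m → ℤ} (hs : ∀ a, F a ≠ 0 → addOrderOf a ∣ f)
    (hb : (fun y : ZMod f => F (jj hf y)) ∈ XF f ⊔ relSub f) : F ∈ XF m ⊔ relSub m := by
  have hFG : extZ hf (fun y : ZMod f => F (jj hf y)) = F := by
    apply ext_cases hf
    · intro y
      rw [extZ_jj]
    · intro a ha
      rw [extZ_out hf _ ha]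
      by_contra h0
      obtain ⟨y, hy⟩ := exists_jj hf (hs a (fun h => h0 h.symm))
      exact ha y hy
  rw [← hFG]
  exact extZ_sup hf hpart hb

/-- the mass at the orders with three effective primes, for smooth orders -/
theorem smooth_part_mem (h420 : 420 ∣ m) {F : ZMod m → ℤ} (ho : OddF F) (hT : TateF F)
    (hs : ∀ a, F a ≠ 0 → Sm (addOrderOf a)) (hN : N3 F ≤ 16) : F ∈ XF m ⊔ relSub m := by
  classical
  obtain ⟨f, hf, hf7, hpart, hdiv⟩ := smooth_part 7 (NeZero.ne m)
  haveI : NeZero f := ⟨f_ne_zero hf⟩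
  have h420f : 420 ∣ f := hdiv 420 h420 (by
    intro p hp hpd
    have h1 : p ∣ 2 * 2 * 3 * 5 * 7 := by norm_num; exact hpd
    by_contra h7
    push Not at h7
    have h2 : ∀ k, k ≤ 7 → 0 < k → ¬ p ∣ k := fun k hk hk0 h => by
      have := Nat.le_of_dvd hk0 h
      omega
    rcases hp.dvd_mul.mp h1 with h1 | h1
    · rcases hp.dvd_mul.mp h1 with h1 | h1
      · rcases hp.dvd_mul.mp h1 with h1 | h1
        · rcases hp.dvd_mul.mp h1 with h1 | h1
          · exact h2 2 (by norm_num) (by norm_num) h1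
          · exact h2 2 (by norm_num) (by norm_num) h1
        · exact h2 3 (by norm_num) (by norm_num) h1
      · exact h2 5 (by norm_num) (by norm_num) h1
    · exact h2 7 (by norm_num) (by norm_num) h1)
  have hs' : ∀ a, F a ≠ 0 → addOrderOf a ∣ f := fun a ha =>
    hdiv _ (addOrderOf_dvd_m a) (hs a ha)
  apply transfer2 hf hpart hs'
  apply smooth7 h420f hf7
  · intro y
    show F (jj hf (-y)) = - F (jj hf y)
    rw [map_neg, ho]
  · exact tate_restrict hf hT hs'
  · refine le_trans (le_of_eq ?_) hN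
    unfold N3
    rw [← sum_jj hf (G := fun a => if 3 ≤ (effB (addOrderOf a)).card then |F a| else 0) (by
      intro a ha
      apply hs'
      intro h0
      apply ha
      beta_reduce
      rw [h0, abs_zero, ite_self])]
    refine sum_congr rfl fun y _ => ?_
    rw [addOrderOf_jj]

/-! ### the main theorem -/

/-- the product of the primes up to `31`, except `29` -/
def KK : ℕ := 2 * 3 * 5 * 7 * 11 * 13 * 17 * 19 * 23 * 31

lemma dvd_KK {p : ℕ} (hp : p.Prime) (h : p ≤ 17) : p ∣ KK := by
  unfold KK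
  interval_cases p <;> first | omega | exact absurd hp (by norm_num)


theorem six_aux {m' : ℕ} (hm' : m' ∣ m) (h420 : 420 ∣ m')
    (hP : ∀ p q, p.Prime → q.Prime → p ∣ KK → q ∣ KK → p < q → NB p q →
      PX (YY (GT1 (m := m))) p q) {F : ZMod m → ℤ} (ho : OddF F) (hT : TateF F)
    (hN : ∑ a, |F a| ≤ 16) (hs : ∀ a, F a ≠ 0 → addOrderOf a ∣ m') :
    F ∈ YY (GT1 (m := m)) ⊔ relSub m := by
  classical
  have h420m : 420 ∣ m := h420.trans hm'
  have h2m : 2 ∣ m := (by norm_num : 2 ∣ 420).trans h420m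
  have h6m : 6 ∣ m := (by norm_num : 6 ∣ 420).trans h420m
  have h6m' : 6 ∣ m' := (by norm_num : 6 ∣ 420).trans h420
  have h3m' : 3 ∣ m' := (by norm_num : 3 ∣ 420).trans h420
  have hm'0 : m' ≠ 0 := fun h => NeZero.ne m (by rw [h] at hm'; exact Nat.eq_zero_of_zero_dvd hm')
  set X := YY (GT1 (m := m)) ⊔ relSub m with hX
  have hXX : X ⊔ relSub m = X := by rw [hX, sup_assoc, sup_idem]
  -- the large primes
  obtain ⟨F1, a1, a2, a3, a4, a5⟩ := drop_all5 X h2m (N := 16) (m0 := m') (fun _ => h6m')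
    (m'.primeFactors.filter (17 < ·)) (by
      intro q hq
      rw [mem_filter] at hq
      have hqp := Nat.prime_of_mem_primeFactors hq.1
      have hqm := Nat.dvd_of_mem_primeFactors hq.1
      have h17 := hq.2
      have h18 : 18 < q := by
        by_contra h
        have h2 : q = 18 := by omega
        rw [h2] at hqp
        exact absurd hqp (by norm_num)
      refine ⟨hqp, by omega, by omega, ?_⟩
      intro _ hqm' hq32
      have h33 : q ≤ 33 := by omega
      have hcase : q = 19 ∨ q = 23 ∨ q = 29 ∨ q = 31 := by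
        clear hq hqm hqm' hq32 h17
        interval_cases q <;> first | omega | exact absurd hqp (by norm_num)
      rcases hcase with h | h | h | h
      · left
        rw [hX]
        exact ref3_PX h6m hqp (by omega) hqm' (hP 3 q Nat.prime_three hqp (dvd_KK Nat.prime_three (by norm_num))
          (by rw [h]; unfold KK; norm_num) (by omega)
          (NB_three (by omega)))
      · left
        rw [hX]
        exact ref3_PX h6m hqp (by omega) hqm' (hP 3 q Nat.prime_three hqp (dvd_KK Nat.prime_three (by norm_num))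
          (by rw [h]; unfold KK; norm_num) (by omega)
          (NB_three (by omega)))
      · right
        rw [h]
        exact free29 h2m
      · left
        rw [hX]
        exact ref3_PX h6m hqp (by omega) hqm' (hP 3 q Nat.prime_three hqp (dvd_KK Nat.prime_three (by norm_num))
          (by rw [h]; unfold KK; norm_num) (by omega)
          (NB_three (by omega)))) F ho hT hN hs
  -- the condition on the orders
  set D : ℕ → Prop := fun k => k ∣ m' ∧ ∀ p, p.Prime → p ∣ k → p ≤ 17 with hD
  have hDc : ∀ f g, D f → g ∣ f → D g := fun f g h1 h2 =>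
    ⟨h2.trans h1.1, fun p hp hpg => h1.2 p hp (hpg.trans h2)⟩
  have hs1 : ∀ a, F1 a ≠ 0 → D (addOrderOf a) := by
    intro a ha
    obtain ⟨b1, b2⟩ := a5 a ha
    have b3 : addOrderOf a ∣ m' := by
      rcases b1 with b1 | b1
      · exact hs a b1
      · exact b1.2.trans h6m'
    refine ⟨b3, fun p hp hpa => ?_⟩
    by_contra h
    exact b2 p (by
      rw [mem_filter, Nat.mem_primeFactors]
      exact ⟨⟨hp, hpa.trans b3, hm'0⟩, by omega⟩) hpa
  -- levels with four effective primes
  obtain ⟨F2, b1, b2, b3, b4, b5, b6⟩ := four_outD hDc (l := 8) a2 a3 (by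
    have : (2 : ℤ) * ((8 : ℕ) : ℤ) = 16 := by norm_num
    rw [this]
    exact a4) hs1
  have hsm9 : ∀ a, (∀ r, r.Prime → r ∣ addOrderOf a → r ≤ 8 + 1) ↔ Sm (addOrderOf (a : ZMod m)) := by
    intro a
    constructor
    · intro h p hp hpa
      have := h p hp hpa
      by_contra h7
      have h8 : p = 8 ∨ p = 9 := by omega
      rcases h8 with h8 | h8 <;> rw [h8] at hp <;> exact absurd hp (by norm_num)
    · intro h p hp hpa
      have := h p hp hpa
      omega
  -- levels which are not smooth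
  obtain ⟨n, hn, hn17, _, hndiv⟩ := smooth_part 17 hm'0
  have h2n : 2 ∣ n := hndiv 2 ((by norm_num : 2 ∣ 420).trans h420) (by
    intro p hp hp2
    have := Nat.le_of_dvd (by norm_num) hp2
    omega)
  obtain ⟨F3, c1, c2, c3, c4, c5⟩ := peel_ns (X := X) (n := n) h2n (by
      intro f hf hfn _ h3 hf4 hfr
      by_cases hf1 : f = 1
      · subst hf1
        refine StepP.of_peeled one_ne_zero fun F ho hT _ => ⟨F, ?_, ho, hT, ?_, fun a ha => absurd rfl ha⟩
        · rw [sub_self]
          exact (relSub m).zero_mem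
        · intro a ha
          rw [AddMonoid.addOrderOf_eq_one_iff] at ha
          have h4 := ho 0
          rw [neg_zero] at h4
          rw [ha]
          omega
      · rw [effP_eq hf4] at h3
        refine stepP_of_pairs hf hf1 hf4 hfr h3 fun p q hp hq hpq => ?_
        have hpp := Nat.prime_of_mem_primeFactors hp
        have hqq := Nat.prime_of_mem_primeFactors hq
        have hqn := (Nat.dvd_of_mem_primeFactors hq).trans hfn
        have hq17 := hn17 q hqq hqn
        rw [hX]
        exact PX.mono le_sup_left (hP p q hpp hqq (dvd_KK hpp (by omega)) (dvd_KK hqq hq17) hpq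
          (NB_small hpp hqq hpq hq17)))
    m F2 b2 b3 (fun a ha => hndiv _ (b6 a ha).1 (b6 a ha).2)
    (by
      intro a ha hns
      by_contra h4
      push Not at h4
      exact hns ((hsm9 a).mp (b5 a ha h4)))
    (fun a _ _ => Nat.le_of_dvd (Nat.pos_of_ne_zero (NeZero.ne m)) (addOrderOf_dvd_m a))
  have hN3 : N3 F3 ≤ 16 := by
    refine le_trans ?_ a4
    unfold N3
    refine sum_le_sum fun a _ => ?_
    split_ifs with h3
    · by_cases hF3 : F3 a = 0
      · rw [hF3, abs_zero]
        exact abs_nonneg _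
      · have h4 := c4 a hF3
        rw [c5 a h4 h3, b4 a ((hsm9 a).mpr h4)]
    · exact abs_nonneg _
  have hmem := smooth_part_mem h420m c2 c3 c4 hN3
  have hle : XF m ⊔ relSub m ≤ X := by
    rw [hX]
    exact sup_le_sup_right XF_le_GT1 _
  have e : F = (F - F1) + (-(F2 - F1)) + (F2 - F3) + F3 := by abel
  rw [e]
  have hrel : relSub m ≤ X := by
    rw [hX]
    exact le_sup_right
  rw [hXX] at a1 c1
  exact X.add_mem (X.add_mem (X.add_mem a1 (X.neg_mem (hrel b1))) c1) (hle hmem)

end Pool.Agent.Lib.MP_938ce2_ag_h99w
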