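import Pool.Agent.Lib.MP_938ce2_ag_h99w.F02

/-!
All Tate characters of length at most eight are algebraic: conclusion.
-/

set_option autoImplicit false
set_option linter.style.haveILetI false
set_option linter.unusedSectionVars false

open Finset

namespace Pool.Agent.Lib.MP_938ce2_ag_h99w

open Pool.Agent.Lib.MP_938ce2_ag_h99 Pool.Agent.Lib.MP_938ce2_ag_H7f
open Pool.Agent.Lib.MP_938ce2_ag_H7e Pool.Agent.Lib.MP_938ce2_ag_h6
open Pool.Agent.Lib.MP_938ce2_ag_h99v Pool.Agent.Lib.MP_938ce2_ag_h99t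

variable {m : ℕ} [NeZero m]

/-- All Tate characters of length at most eight, in all degrees divisible by `L m`, for a
constant `L`. -/
theorem tate_all8 : ∃ L : ℕ, L ≠ 0 ∧ ∀ (m M : ℕ) [NeZero m] [NeZero M], L * m ∣ M →
    ∀ (hm : m ∣ M) (s : Multiset (ZMod m)), IsTate s → s.card ≤ 8 →
      IsAlgG GT1 (s.map (jj hm)) := by
  obtain ⟨N, hN, hNM⟩ := exists_level (m := KK) (by unfold KK; norm_num)
  refine ⟨N * 420, mul_ne_zero hN (by norm_num), ?_⟩
  intro m M _ _ hLM hm s hs h8
  have h1 : N ∣ M := (Dvd.intro (420 * m) (by ring)).trans hLM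
  have h2 : 420 * m ∣ M := (Dvd.intro_left N (by ring)).trans hLM
  set s' := s.map (jj hm) with hs'
  have hT := hs.lift hm
  have hcard : s'.card = s.card := Multiset.card_map _ _
  have hl1 := l1_le s'
  have hmem := six_aux (m := M) (m' := 420 * m) h2 (Dvd.intro _ rfl) (hNM M h1)
    (F := oddPart s') (oddPart_odd s') (isTate_iff.mp hT).2.2 (by
      rw [hcard] at hl1
      have : (2 : ℤ) * (s.card : ℤ) ≤ 16 := by exact_mod_cast (by omega : 2 * s.card ≤ 16)
      exact hl1.trans this) (by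
      intro a ha
      by_cases h : ∃ y, jj hm y = a
      · obtain ⟨y, rfl⟩ := h
        exact (Pool.Agent.Lib.MP_938ce2_ag_H7f.order_jj_dvd hm y).trans (Dvd.intro_left _ rfl)
      · push Not at h
        exact absurd (oddPart_lift_of_forall_ne hm s h) ha)
  exact isAlgG_of_mem (fun r hr => hr.neg) hT hmem

end Pool.Agent.Lib.MP_938ce2_ag_h99w
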