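import Pool.Agent.Lib.MP_938ce2_ag_h99w.WD

/-!
Peeling with relations at given primes.
-/

set_option autoImplicit false
set_option linter.style.haveILetI false
set_option linter.unusedSectionVars false

open Finset

namespace Pool.Agent.Lib.MP_938ce2_ag_h99w

open Pool.Agent.Lib.MP_938ce2_ag_h99

variable {m f : ℕ} [NeZero m] [NeZero f]

omit [NeZero f] in
private lemma relSubR_le' {R : ℕ → Prop} : relSubR m R ≤ relSub m := by
  unfold relSubR relSub
  apply AddSubgroup.closure_mono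
  rintro h ⟨p, g, hp, hpm, _, hodd, hs, rfl⟩
  exact ⟨p, g, hp, hpm, hodd, hs, rfl⟩

/-- As `peel` (h99/Peel.lean) and `Peeled.of_peel`: the relations used are `rel p (gOf hf p (G p))`
with `p ∈ ps`. -/
theorem peelR {R : ℕ → Prop} (hf : f ∣ m) {F : ZMod m → ℤ} (hodd : OddF F) (hT : TateF F)
    (ps : List ℕ) (hps : ∀ p ∈ ps, p.Prime ∧ p ∣ f) (hR : ∀ p ∈ ps, R p)
    (G : ℕ → (ZMod f)ˣ → ℤ) (hG1 : ∀ p ∈ ps, ∀ z ∈ Kp f p, ∀ u, G p (z * u) = G p u)
    (hG2 : ∀ u : (ZMod f)ˣ, F (jj hf (u : ZMod f)) = (ps.map fun p => G p u).sum)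
    (hG3 : ∀ p ∈ ps, ∀ u, G p ((-1) * u) = - G p u) :
    ∃ F' : ZMod m → ℤ, F - F' ∈ relSubR m R ∧ OddF F' ∧ TateF F' ∧
      (∀ a, addOrderOf a = f → F' a = 0) ∧
      (∀ a, F' a ≠ F a → addOrderOf a = f ∨ ∃ p ∈ ps, addOrderOf a = f / p) := by
  set S : ℕ → ZMod m → ℤ := fun p => rel p (gOf hf p (G p)) with hS
  have hSmem : ∀ p ∈ ps, S p ∈ relSubR m R := by
    intro p hp
    apply AddSubgroup.subset_closure
    refine ⟨p, gOf hf p (G p), (hps p hp).1, (hps p hp).2.trans hf, hR p hp,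
      gOf_odd hf (hG1 p hp) (hG3 p hp), ?_, rfl⟩
    intro a ha
    obtain ⟨u, hu⟩ := gOf_ne_zero hf ha
    exact ⟨_, hu⟩
  have hSsum : (ps.map S).sum ∈ relSubR m R := by
    apply AddSubgroup.list_sum_mem
    intro x hx
    obtain ⟨p, hp, rfl⟩ := List.mem_map.mp hx
    exact hSmem p hp
  have hSodd : OddF (ps.map S).sum := by
    apply OddF_list_sum
    intro h hh
    obtain ⟨p, hp, rfl⟩ := List.mem_map.mp hh
    exact (gOf_odd hf (hG1 p hp) (hG3 p hp)).rel p
  have hf0 : 0 < f := Nat.pos_of_ne_zero (NeZero.ne f)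
  refine ⟨F - (ps.map S).sum, ?_, hodd.sub hSodd,
    hT.sub (TateF_of_mem_relSub (relSubR_le' hSsum)), ?_, ?_⟩
  · rw [sub_sub_cancel]
    exact hSsum
  · -- top level
    intro a ha
    have hgzero : ∀ p ∈ ps, gOf hf p (G p) a = 0 := by
      intro p hp
      by_contra hne
      have h1 := gOf_order hf (hps p hp).1.ne_zero (hps p hp).2 hne
      have h2 := Nat.div_lt_self hf0 (hps p hp).1.one_lt
      omega
    obtain ⟨u, hu⟩ := exists_unit_of_order hf ha
    rw [Pi.sub_apply, list_sum_apply, sub_eq_zero, ← hu, hG2]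
    congr 1
    apply List.map_congr_left
    intro p hp
    have h1 := hgzero p hp
    rw [← hu] at h1
    show G p u = gOf hf p (G p) ((p : ZMod m) * jj hf (u : ZMod f))
      - gOf hf p (G p) (jj hf (u : ZMod f))
    rw [h1, gOf_apply hf (hG1 p hp), sub_zero]
  · -- changes
    intro a ha
    have h1 : (ps.map S).sum a ≠ 0 := by
      intro h0
      apply ha
      rw [Pi.sub_apply, h0, sub_zero]
    rw [list_sum_apply] at h1
    obtain ⟨x, hx, hx0⟩ := List.exists_mem_ne_zero_of_sum_ne_zero h1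
    obtain ⟨p, hp, rfl⟩ := List.mem_map.mp hx
    have hpp := (hps p hp).1
    have hpf := (hps p hp).2
    have hx1 : gOf hf p (G p) ((p : ZMod m) * a) - gOf hf p (G p) a ≠ 0 := hx0
    by_cases h2 : gOf hf p (G p) a = 0
    · have h3 : gOf hf p (G p) ((p : ZMod m) * a) ≠ 0 := by
        intro h0
        apply hx1
        rw [h0, h2, sub_zero]
      have h4 := gOf_order hf hpp.ne_zero hpf h3
      rcases order_of_mul hpp h4 with h5 | h5
      · right
        exact ⟨p, hp, h5⟩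
      · left
        rw [h5, Nat.mul_div_cancel' hpf]
    · right
      exact ⟨p, hp, gOf_order hf hpp.ne_zero hpf h2⟩

omit [NeZero f] in
lemma relSubR_le {R : ℕ → Prop} : relSubR m R ≤ relSub m := relSubR_le'

omit [NeZero f] in
lemma relSubR_mono {R R' : ℕ → Prop} (h : ∀ p, R p → R' p) : relSubR m R ≤ relSubR m R' := by
  unfold relSubR
  apply AddSubgroup.closure_mono
  rintro g ⟨p, g', hp, hpm, hr, hodd, hs, rfl⟩
  exact ⟨p, g', hp, hpm, h p hr, hodd, hs, rfl⟩

end Pool.Agent.Lib.MP_938ce2_ag_h99w
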