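import Pool.Agent.Lib.MP_938ce2_ag_h99w.S07

/-!
Two flips.
-/

set_option autoImplicit false
set_option linter.style.haveILetI false
set_option linter.unusedSectionVars false

open Finset

namespace Pool.Agent.Lib.MP_938ce2_ag_h99w

open Pool.Agent.Lib.MP_938ce2_ag_h99

variable {f : ℕ} [NeZero f]

omit [NeZero f] in
private lemma once_of {p : ℕ} (hp : p ∈ f.primeFactors) (h5 : 5 ≤ p) (h3 : f ∣ 3 * rad f) :
    ¬ p ∣ f / p := by
  intro h
  have hpp := Nat.prime_of_mem_primeFactors hp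
  have hpf := Nat.dvd_of_mem_primeFactors hp
  have h2 : p * p ∣ f := by
    have := Nat.mul_dvd_mul_left p h
    rwa [Nat.mul_div_cancel' hpf] at this
  have h4 : p * p ∣ 3 * rad f := h2.trans h3
  have hr : rad f = p * ∏ r ∈ f.primeFactors.erase p, r := by
    unfold rad
    exact (Finset.mul_prod_erase _ _ hp).symm
  rw [hr] at h4
  have h6 : p * p ∣ p * (3 * ∏ r ∈ f.primeFactors.erase p, r) := by
    convert h4 using 1
    ring
  have h7 : p ∣ 3 * ∏ r ∈ f.primeFactors.erase p, r := Nat.dvd_of_mul_dvd_mul_left hpp.pos h6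
  rcases hpp.dvd_mul.1 h7 with h | h
  · have := Nat.le_of_dvd (by norm_num) h
    omega
  · rw [Prime.dvd_finsetProd_iff hpp.prime] at h
    obtain ⟨r, hr, hpr⟩ := h
    have hr' := Finset.mem_erase.1 hr
    exact hr'.1 ((Nat.prime_dvd_prime_iff_eq hpp
      (Nat.prime_of_mem_primeFactors hr'.2)).1 hpr).symm

/-- Case C. Otherwise the mixed difference is invariant under `c1, c2` (`DS_flip` and
`DS_flip_one`), so it is the value of the functional `V4`, which satisfies the bounds because there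
are at most four terms, each at most a quarter. -/
theorem DS_caseC {q : ℕ} (hL : Lev f q) (h2 : ¬ 2 ∣ f) (h3 : f ∣ 3 * rad f)
    {G : (ZMod f)ˣ → ℤ}
    (hG : MD ((q :: (f.primeFactors.erase q).toList).map (Kp f)) G) (hS : SmallF f q G)
    {h : ℕ → (ZMod f)ˣ} (hh : ∀ p ∈ f.primeFactors.erase q, h p ∈ Kp f p)
    (hno : ∀ p ∈ f.primeFactors.erase q, 5 ≤ p → ¬ Rdm f p (h p) (-1)) (x : (ZMod f)ˣ) :
    DS (f.primeFactors.erase q) h G x = 0 := by
  classical
  have hqT : q ∉ f.primeFactors.erase q := Finset.notMem_erase q _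
  have hT : ∀ p ∈ f.primeFactors.erase q, p.Prime ∧ p ∣ f := by
    intro p hp
    rw [Finset.mem_erase] at hp
    exact ⟨Nat.prime_of_mem_primeFactors hp.2, Nat.dvd_of_mem_primeFactors hp.2⟩
  have hinF : ∀ p ∈ f.primeFactors.erase q, p ∈ f.primeFactors := fun p hp =>
    (Finset.mem_erase.1 hp).2
  by_cases h1 : ∀ p ∈ f.primeFactors.erase q, h p ≠ 1
  swap
  · push Not at h1
    obtain ⟨p, hp, h1⟩ := h1
    exact DS_one hp h1 x
  -- two primes, at least 5
  have h5 : ∀ p ∈ f.primeFactors.erase q, p ≠ 3 → 5 ≤ p := by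
    intro p hp h3'
    have hpp := (hT p hp).1
    have e2 : p ≠ 2 := by
      rintro rfl
      exact h2 (hT 2 hp).2
    have e4 : p ≠ 4 := by
      rintro rfl
      exact absurd hpp (by norm_num)
    have := hpp.two_le
    omega
  have hqm : q ∈ f.primeFactors := by
    rw [Nat.mem_primeFactors]
    exact ⟨hL.hq, hL.hqf, NeZero.ne f⟩
  have hc := hL.hc
  have hc1 : (f.primeFactors.erase q).card = f.primeFactors.card - 1 :=
    Finset.card_erase_of_mem hqm
  have hc2 : (f.primeFactors.erase q).card - 1 ≤ ((f.primeFactors.erase q).erase 3).card :=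
    Finset.pred_card_le_card_erase
  have hc3 : 1 < ((f.primeFactors.erase q).erase 3).card := by omega
  obtain ⟨p1, hp1', p2, hp2', h12⟩ := Finset.one_lt_card.1 hc3
  rw [Finset.mem_erase] at hp1' hp2'
  obtain ⟨hp13, hp1⟩ := hp1'
  obtain ⟨hp23, hp2⟩ := hp2'
  have h51 := h5 p1 hp1 hp13
  have h52 := h5 p2 hp2 hp23
  have hf1 := once_of (hinF p1 hp1) h51 h3
  have hf2 := once_of (hinF p2 hp2) h52 h3
  have hm1 : ∀ p : ℕ, 5 ≤ p → ¬ (p : ℤ) ∣ -1 := by
    intro p hp hd
    have := Int.le_of_dvd one_pos ((dvd_neg (α := ℤ)).1 hd)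
    omega
  obtain ⟨c1, hcc1, hcr1⟩ := Rdm.exists (hT p1 hp1).1 (hT p1 hp1).2 hf1 (hm1 p1 h51)
  obtain ⟨c2, hcc2, hcr2⟩ := Rdm.exists (hT p2 hp2).1 (hT p2 hp2).2 hf2 (hm1 p2 h52)
  have hupd : ∀ (p' : ℕ) (c : (ZMod f)ˣ), c ∈ Kp f p' → ∀ p ∈ f.primeFactors.erase q,
      Function.update h p' c p ∈ Kp f p := by
    intro p' c hc p hp
    by_cases hpp : p = p'
    · subst hpp
      rw [Function.update_self]
      exact hc
    · rw [Function.update_of_ne hpp]
      exact hh p hp
  have fl1 : ∀ y, DS (f.primeFactors.erase q) h G (c1 * y) =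
      DS (f.primeFactors.erase q) h G y := fun y =>
    DS_flip hp1 (fun y' => DS_flip_one hL h2 hG hS (hupd p1 c1 hcc1) hp1 h51
      (by rw [Function.update_self]; exact hcr1) y') y
  have fl2 : ∀ y, DS (f.primeFactors.erase q) h G (c2 * y) =
      DS (f.primeFactors.erase q) h G y := fun y =>
    DS_flip hp2 (fun y' => DS_flip_one hL h2 hG hS (hupd p2 c2 hcc2) hp2 h52
      (by rw [Function.update_self]; exact hcr2) y') y
  have hinv : ∀ z ∈ Kp f q, ∀ y, DS (f.primeFactors.erase q) h G (z * y) =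
      DS (f.primeFactors.erase q) h G y := by
    intro z hz y
    have := DS_inv (Kp f) (q := q) (ps := (f.primeFactors.erase q).toList)
      (f.primeFactors.erase q).nodup_toList (G := G) hG (h := h)
      (fun p hp => hh p (Finset.mem_toList.1 hp)) hz y
    rwa [Finset.toList_toFinset] at this
  have hpair : ∑ u, (G u : ℚ) * V4 (Kp f q) (f.primeFactors.erase q) h c1 c2 x u =
      (DS (f.primeFactors.erase q) h G x : ℚ) := by
    have e : ∀ u, (G u : ℚ) * V4 (Kp f q) (f.primeFactors.erase q) h c1 c2 x u =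
        ((G u : ℚ) * VV (Kp f q) (f.primeFactors.erase q) h x u +
          (G u : ℚ) * VV (Kp f q) (f.primeFactors.erase q) h (c1 * x) u +
          (G u : ℚ) * VV (Kp f q) (f.primeFactors.erase q) h (c2 * x) u +
          (G u : ℚ) * VV (Kp f q) (f.primeFactors.erase q) h (c1 * (c2 * x)) u) / 4 := by
      intro u
      unfold V4
      ring
    rw [Finset.sum_congr rfl (fun u _ => e u), ← Finset.sum_div, Finset.sum_add_distrib,
      Finset.sum_add_distrib, Finset.sum_add_distrib, VV_pair hinv, VV_pair hinv, VV_pair hinv,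
      VV_pair hinv, fl1, fl1, fl2]
    ring
  have hb := fun u => V4_abs hL.hq hL.hqf hqT hT hh h1 hp1 hp2 h12 h51 h52 hf1 hf2
    (hno p1 hp1 h51) (hno p2 hp2 h52) hcc1 hcc2 hcr1 hcr2 x u
  have hC : (0 : ℚ) ≤ 1 / (Nat.card (Kp f q) : ℚ) := by positivity
  have hB : Bd f (V4 (Kp f q) (f.primeFactors.erase q) h c1 c2 x)
      (1 / (Nat.card (Kp f q) : ℚ)) := by
    refine ⟨fun u => ?_, fun _ u => ?_⟩
    · have a1 := abs_le.1 (hb u)
      have a2 := abs_le.1 (hb (-1 * u))
      rw [abs_le]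
      constructor <;> linarith [a1.1, a1.2, a2.1, a2.2]
    · have a1 := abs_le.1 (hb u)
      have a2 := abs_le.1 (hb (-1 * u))
      have a3 := abs_le.1 (hb (iv f 2 * u))
      have a4 := abs_le.1 (hb (-1 * (iv f 2 * u)))
      rw [abs_le]
      constructor <;> linarith [a1.1, a1.2, a2.1, a2.2, a3.1, a3.2, a4.1, a4.2]
  have hZ : ZS f (· ≠ q) (V4 (Kp f q) (f.primeFactors.erase q) h c1 c2 x) := by
    unfold ZS
    intro p hp hpq hpf u
    have hpT : p ∈ f.primeFactors.erase q := by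
      rw [Finset.mem_erase, Nat.mem_primeFactors]
      exact ⟨hpq, hp, hpf, NeZero.ne f⟩
    simp only [V4]
    rw [← Finset.sum_div, Finset.sum_add_distrib, Finset.sum_add_distrib,
      Finset.sum_add_distrib]
    have v1 := VV_sum (K := Kp f q) (K' := Kp f p) hpT (hh p hpT) x u
    have v2 := VV_sum (K := Kp f q) (K' := Kp f p) hpT (hh p hpT) (c1 * x) u
    have v3 := VV_sum (K := Kp f q) (K' := Kp f p) hpT (hh p hpT) (c2 * x) u
    have v4 := VV_sum (K := Kp f q) (K' := Kp f p) hpT (hh p hpT) (c1 * (c2 * x)) u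
    rw [v1, v2, v3, v4]
    norm_num
  have hlt := hS _ hZ hB
  rw [hpair] at hlt
  have hlt2 : |DS (f.primeFactors.erase q) h G x| < 1 := by exact_mod_cast hlt
  exact Int.abs_lt_one_iff.1 hlt2

/-- All levels: `DS_even`, `DS_of_span` (if `f` is odd and does not divide `3 * rad f`),
`DS_flip_one`, `DS_caseC`. -/
theorem DS_all {q : ℕ} (hL : Lev f q) {G : (ZMod f)ˣ → ℤ}
    (hG : MD ((q :: (f.primeFactors.erase q).toList).map (Kp f)) G) (hS : SmallF f q G)
    {h : ℕ → (ZMod f)ˣ} (hh : ∀ p ∈ f.primeFactors.erase q, h p ∈ Kp f p) (x : (ZMod f)ˣ) :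
    DS (f.primeFactors.erase q) h G x = 0 := by
  classical
  by_cases h2 : 2 ∣ f
  · exact DS_even hL h2 hG hS hh x
  by_cases h3 : f ∣ 3 * rad f
  · by_cases hno : ∀ p ∈ f.primeFactors.erase q, 5 ≤ p → ¬ Rdm f p (h p) (-1)
    · exact DS_caseC hL h2 h3 hG hS hh hno x
    · push Not at hno
      obtain ⟨p0, hp0, h5, hr⟩ := hno
      exact DS_flip_one hL h2 hG hS hh hp0 h5 hr x
  · have hr1 : ¬ f ∣ rad f := fun hd => h3 (hd.mul_left 3)
    have hr2 : ¬ f ∣ 2 * rad f := by
      intro hd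
      have hcop : Nat.Coprime f 2 :=
        Nat.Coprime.symm ((Nat.Prime.coprime_iff_not_dvd Nat.prime_two).2 h2)
      exact hr1 (hcop.dvd_of_dvd_mul_left hd)
    exact DS_of_span hL hG hS (neg_one_span hL hr2) (fun _ => half_span hL h2 hr1)
      (fun _ => neg_half_span hL h2 h3) hh x

end Pool.Agent.Lib.MP_938ce2_ag_h99w
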