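import Pool.Agent.Lib.MP_938ce2_ag_h99w.Q01
import Pool.Agent.Lib.MP_938ce2_ag_h99w.S08
import Pool.Agent.Lib.MP_938ce2_ag_h99w.E09

/-!
One level is removed.
-/

set_option autoImplicit false
set_option linter.style.haveILetI false
set_option linter.unusedSectionVars false

open Finset

namespace Pool.Agent.Lib.MP_938ce2_ag_h99w

open Pool.Agent.Lib.MP_938ce2_ag_h99

variable {m f : ℕ} [NeZero m] [NeZero f]

/-- the effective primes -/
def effP (k : ℕ) : Finset ℕ := k.primeFactors.filter fun p => p = 2 → 4 ∣ k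

omit [NeZero f] in
/-- A level with at least four effective primes, whose largest prime `q` is larger than `l + 1`.
`SmallF` by `small_top` (`l < q - 1 ≤ Nat.card (Kp f q)`, `card_Kp`); `MD` for all the primes by
`MD_top`; `MD` for the primes different from `q` by `DS_all` and `MD_of_DS`; `int_split` and
`neg_one_not_mem_span` give `G`, and then `peelR` with `ps = (f.primeFactors.erase q).toList`. -/
theorem level_out {l q : ℕ} (hf : f ∣ m) (hL : Lev f q) (hlq : l + 1 < q)
    (hle : ∀ p ∈ f.primeFactors, p ≤ q) {F F1 F0 : ZMod m → ℤ} (ho : OddF F) (hT : TateF F)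
    (ho0 : OddF F0) (hN : ∑ a, |F0 a| ≤ 2 * l) (hrel : F - F1 ∈ relSubR m (· < q))
    (h10 : ∀ a, (∀ r, r.Prime → r ∣ addOrderOf a → r ≤ q) → F1 a = F0 a)
    (hsup : ∀ a, F a ≠ 0 → f ∣ addOrderOf a → addOrderOf a = f) :
    ∃ F' : ZMod m → ℤ, F - F' ∈ relSubR m (· < q) ∧ OddF F' ∧ TateF F' ∧
      (∀ a, addOrderOf a = f → F' a = 0) ∧
      (∀ a, F' a ≠ F a → addOrderOf a = f ∨ ∃ p ∈ f.primeFactors.erase q,
        addOrderOf a = f / p) := by
  have hm0 : m ≠ 0 := NeZero.ne m
  have hf0 : f ≠ 0 := by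
    rintro rfl
    exact hm0 (zero_dvd_iff.mp hf)
  haveI : NeZero f := ⟨hf0⟩
  have hq := hL.hq
  have hps : ∀ p ∈ (f.primeFactors.erase q).toList, p.Prime ∧ p ∣ f := by
    intro p hp
    rw [mem_toList, mem_erase, Nat.mem_primeFactors] at hp
    exact ⟨hp.2.1, hp.2.2.1⟩
  have hpq : ∀ p ∈ (f.primeFactors.erase q).toList, p < q := by
    intro p hp
    rw [mem_toList, mem_erase] at hp
    exact lt_of_le_of_ne (hle p hp.2) hp.1
  have hS : SmallF f q (fun u : (ZMod f)ˣ => F (jj hf (u : ZMod f))) := by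
    intro V hV hB
    have hV' : ZS f (· < q) V := by
      unfold ZS at hV ⊢
      intro p hp hpq hpf
      exact hV p hp (ne_of_lt hpq) hpf
    have h1 := small_top hf hL.hf4 hV' hB ho0 hrel (by
      intro a hfa ha
      apply h10
      intro r hr hra
      have h2 : r ∣ f * (addOrderOf a / f) := by
        rwa [Nat.mul_div_cancel' hfa]
      rcases (Nat.Prime.dvd_mul hr).mp h2 with h3 | h3
      · exact hle r (by rw [Nat.mem_primeFactors]; exact ⟨hr, h3, hf0⟩)
      · exact (ha r hr h3).le) hsup hN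
    refine lt_of_le_of_lt h1 ?_
    have h2 : (q - 1 : ℕ) ≤ Nat.card (Kp f q) := by
      rw [card_Kp hq hL.hqf]
      split_ifs <;> omega
    have h3 : l < Nat.card (Kp f q) := by omega
    have h4 : (0 : ℚ) < (Nat.card (Kp f q) : ℚ) := by
      exact_mod_cast lt_of_le_of_lt (Nat.zero_le l) h3
    rw [mul_one_div, div_lt_one h4]
    exact_mod_cast h3
  have hMD := MD_top hf F ho hT hsup (q :: (f.primeFactors.erase q).toList) (by
    intro r hr hrf
    rw [List.mem_cons, mem_toList, mem_erase, Nat.mem_primeFactors]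
    by_cases h : r = q
    · exact Or.inl h
    · exact Or.inr ⟨h, hr, hrf, hf0⟩)
  have hnd : (f.primeFactors.erase q).toList.Nodup := nodup_toList _
  have hMD2 : MD ((f.primeFactors.erase q).toList.map (Kp f))
      (fun u : (ZMod f)ˣ => F (jj hf (u : ZMod f))) := by
    apply MD_of_DS (Kp f) _ hnd
    intro h hh x
    rw [toList_toFinset]
    exact DS_all hL hMD hS (fun p hp => hh p (mem_toList.mpr hp)) x
  have hc : (-1 : (ZMod f)ˣ) ∉ spanL ((f.primeFactors.erase q).toList.map (Kp f)) := by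
    apply neg_one_not_mem_span (∏ p ∈ f.primeFactors.erase q, p)
    · intro p hp
      exact dvd_prod_of_mem (fun p => p) (mem_toList.mp hp)
    · intro hd
      have h1 : q ∣ 2 * ∏ p ∈ f.primeFactors.erase q, p := hL.hqf.trans hd
      rcases (Nat.Prime.dvd_mul hq).mp h1 with h2 | h2
      · exact hL.hq2 ((Nat.prime_dvd_prime_iff_eq hq Nat.prime_two).mp h2)
      · rw [Prime.dvd_finsetProd_iff hq.prime] at h2
        obtain ⟨p, hp, hqp⟩ := h2
        rw [mem_erase, Nat.mem_primeFactors] at hp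
        exact hp.1 ((Nat.prime_dvd_prime_iff_eq hq hp.2.1).mp hqp).symm
  obtain ⟨G, hG1, hG2, hG3⟩ := int_split (-1) (by simp) (Kp f) _ hnd (indep_Kp _ hps hnd) hc _
    hMD2 (odd_top hf ho)
  obtain ⟨F', a1, a2, a3, a4, a5⟩ := peelR (R := (· < q)) hf ho hT _ hps hpq G hG1 hG2 hG3
  refine ⟨F', a1, a2, a3, a4, fun a ha => ?_⟩
  rcases a5 a ha with h | ⟨p, hp, h⟩
  · exact Or.inl h
  · exact Or.inr ⟨p, mem_toList.mp hp, h⟩

omit [NeZero f] in
/-- levels `2 mod 4`: as `level_even` (h99/MainA.lean), with `peelR` -/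
theorem level_out2 {q : ℕ} (hf : f ∣ m) (hf4 : f % 4 = 2) (hq : 2 < q) {F : ZMod m → ℤ}
    (ho : OddF F) (hT : TateF F) :
    ∃ F' : ZMod m → ℤ, F - F' ∈ relSubR m (· < q) ∧ OddF F' ∧ TateF F' ∧
      (∀ a, addOrderOf a = f → F' a = 0) ∧
      (∀ a, F' a ≠ F a → addOrderOf a = f ∨ addOrderOf a = f / 2) := by
  have hm0 : m ≠ 0 := NeZero.ne m
  have hf0 : f ≠ 0 := by
    rintro rfl
    exact hm0 (zero_dvd_iff.mp hf)
  haveI : NeZero f := ⟨hf0⟩
  have h2f : 2 ∣ f := by omega
  have hcard : Nat.card (Kp f 2) = 1 := by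
    rw [card_Kp Nat.prime_two h2f, if_neg (by omega)]
  have hK : ∀ z ∈ Kp f 2, z = 1 := by
    intro z hz
    have h1 := (Subgroup.card_eq_one (H := Kp f 2)).mp hcard
    rw [h1] at hz
    exact Subgroup.mem_bot.mp hz
  obtain ⟨F', a1, a2, a3, a4, a5⟩ := peelR (R := (· < q)) hf ho hT [2] (by
      intro p hp
      rw [List.mem_singleton] at hp
      rw [hp]
      exact ⟨Nat.prime_two, h2f⟩) (by
      intro p hp
      rw [List.mem_singleton] at hp
      rw [hp]
      exact hq) (fun _ u => F (jj hf (u : ZMod f))) (by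
      intro p hp z hz u
      rw [List.mem_singleton] at hp
      rw [hp] at hz
      rw [hK z hz, one_mul]) (by
      intro u; simp) (by
      intro p _ u
      exact odd_top hf ho u)
  refine ⟨F', a1, a2, a3, a4, fun a ha => ?_⟩
  rcases a5 a ha with h | ⟨p, hp, h⟩
  · exact Or.inl h
  · rw [List.mem_singleton] at hp
    rw [hp] at h
    exact Or.inr h

end Pool.Agent.Lib.MP_938ce2_ag_h99w
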