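import Pool.Agent.Lib.MP_938ce2_ag_h99w.Q02

/-!
One prime is processed.
-/

set_option autoImplicit false
set_option linter.style.haveILetI false
set_option linter.unusedSectionVars false

open Finset

namespace Pool.Agent.Lib.MP_938ce2_ag_h99w

open Pool.Agent.Lib.MP_938ce2_ag_h99

variable {m : ℕ} [NeZero m]

/-- the state before the prime `q` is processed -/
def Ready (F0 : ZMod m → ℤ) (q : ℕ) (F : ZMod m → ℤ) : Prop :=
  F - F0 ∈ relSub m ∧ OddF F ∧ TateF F ∧
    (∀ a, (∀ r, r.Prime → r ∣ addOrderOf a → r ≤ q) → F a = F0 a) ∧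
    (∀ a, F a ≠ 0 → 4 ≤ (effP (addOrderOf a)).card → ∀ r, r.Prime → r ∣ addOrderOf a → r ≤ q)

/-- the state, with a condition on the support -/
def ReadyD (D : ℕ → Prop) (F0 : ZMod m → ℤ) (q : ℕ) (F : ZMod m → ℤ) : Prop :=
  Ready F0 q F ∧ ∀ a, F a ≠ 0 → D (addOrderOf a)

private lemma q03_effP_mono {a b : ℕ} (h : a ∣ b) (hb : b ≠ 0) : effP a ⊆ effP b := by
  intro p hp
  unfold effP at hp ⊢
  rw [mem_filter] at hp ⊢
  exact ⟨Nat.primeFactors_mono h hb hp.1, fun h2 => (hp.2 h2).trans h⟩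

private lemma q03_order_dvd (a : ZMod m) : addOrderOf a ∣ m := by
  have h := addOrderOf_dvd_card (x := a)
  rwa [ZMod.card] at h

private lemma q03_order_ne (a : ZMod m) : addOrderOf a ≠ 0 := by
  intro h
  have h1 := q03_order_dvd a
  rw [h, zero_dvd_iff] at h1
  exact NeZero.ne m h1

/-- the invariant of the downward induction -/
private def Q03I (D : ℕ → Prop) (q : ℕ) (F : ZMod m → ℤ) (k : ℕ) (F' : ZMod m → ℤ) : Prop :=
  F' - F ∈ relSubR m (· < q) ∧ OddF F' ∧ TateF F' ∧ (∀ a, F' a ≠ F a → q ∣ addOrderOf a) ∧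
    (∀ a, F' a ≠ 0 → 4 ≤ (effP (addOrderOf a)).card → ∀ r, r.Prime → r ∣ addOrderOf a → r ≤ q) ∧
    (∀ a, F' a ≠ 0 → 4 ≤ (effP (addOrderOf a)).card → q ∣ addOrderOf a → addOrderOf a ≤ k) ∧
    (∀ a, F' a ≠ 0 → D (addOrderOf a))

private lemma q03_step {D : ℕ → Prop} (hD : ∀ f g, D f → g ∣ f → D g) {l q : ℕ} (hq : q.Prime) (hlq : l + 1 < q) (hq2 : q ≠ 2) {F0 F : ZMod m → ℤ}
    (ho0 : OddF F0) (hN : ∑ a, |F0 a| ≤ 2 * l)
    (h4 : ∀ a, (∀ r, r.Prime → r ∣ addOrderOf a → r ≤ q) → F a = F0 a) {k : ℕ}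
    {F1 : ZMod m → ℤ} (h : Q03I D q F (k + 1) F1) : ∃ F2, Q03I D q F k F2 := by
  obtain ⟨i1, i2, i3, i4, i5, i6, i7⟩ := h
  by_cases hex : ∃ a, F1 a ≠ 0 ∧ 4 ≤ (effP (addOrderOf a)).card ∧ q ∣ addOrderOf a ∧
      addOrderOf a = k + 1
  · obtain ⟨a0, b1, b2, b3, b4⟩ := hex
    have hple : ∀ p ∈ (k + 1).primeFactors, p ≤ q := by
      intro p hp
      rw [← b4] at hp
      exact i5 a0 b1 b2 p (Nat.prime_of_mem_primeFactors hp) (Nat.dvd_of_mem_primeFactors hp)
    have hfm : k + 1 ∣ m := by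
      rw [← b4]
      exact q03_order_dvd a0
    have hDk : D (k + 1) := by
      rw [← b4]
      exact i7 a0 b1
    rw [b4] at b2 b3
    have hfin : ∀ F2 : ZMod m → ℤ, F1 - F2 ∈ relSubR m (· < q) → OddF F2 → TateF F2 →
        (∀ a, addOrderOf a = k + 1 → F2 a = 0) →
        (∀ a, F2 a ≠ F1 a → addOrderOf a = k + 1 ∨ ∃ p, p.Prime ∧ p ∣ k + 1 ∧ p ≠ q ∧
          addOrderOf a = (k + 1) / p) → Q03I D q F k F2 := by
      intro F2 c1 c2 c3 c4 c5
      have c6 : ∀ a, F2 a ≠ F1 a → addOrderOf a ∣ k + 1 ∧ q ∣ addOrderOf a ∧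
          (F2 a ≠ 0 → addOrderOf a ≤ k) := by
        intro a ha
        rcases c5 a ha with h | ⟨p, d1, d2, d3, d4⟩
        · rw [h]
          exact ⟨dvd_refl _, b3, fun hn => absurd (c4 a h) hn⟩
        · rw [d4]
          refine ⟨Nat.div_dvd_of_dvd d2, ?_, fun _ => ?_⟩
          · have e1 : Nat.Coprime p q := (Nat.coprime_primes d1 hq).mpr d3
            have e2 : p * q ∣ k + 1 := e1.mul_dvd_of_dvd_of_dvd d2 b3
            obtain ⟨e, he⟩ := e2
            refine ⟨e, ?_⟩
            rw [he, mul_assoc, Nat.mul_div_cancel_left _ d1.pos]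
          · have : (k + 1) / p < k + 1 := Nat.div_lt_self (Nat.succ_pos k) d1.one_lt
            omega
      refine ⟨?_, c2, c3, ?_, ?_, ?_, ?_⟩
      · have : F2 - F = (F1 - F) - (F1 - F2) := by abel
        rw [this]
        exact AddSubgroup.sub_mem _ i1 c1
      · intro a ha
        by_cases hc : F2 a = F1 a
        · rw [hc] at ha
          exact i4 a ha
        · exact (c6 a hc).2.1
      · intro a ha ha4 r hr hra
        by_cases hc : F2 a = F1 a
        · rw [hc] at ha
          exact i5 a ha ha4 r hr hra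
        · apply hple
          rw [Nat.mem_primeFactors]
          exact ⟨hr, hra.trans (c6 a hc).1, Nat.succ_ne_zero k⟩
      · intro a ha ha4 hqa
        by_cases hc : F2 a = F1 a
        · have ha' : F1 a ≠ 0 := by rwa [hc] at ha
          have h7 := i6 a ha' ha4 hqa
          have h8 : addOrderOf a ≠ k + 1 := fun h => ha (c4 a h)
          omega
        · exact (c6 a hc).2.2 ha
      · intro a ha
        by_cases hc : F2 a = F1 a
        · rw [hc] at ha
          exact i7 a ha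
        · exact hD _ _ hDk (c6 a hc).1
    by_cases hf4 : (k + 1) % 4 = 2
    · obtain ⟨F2, c1, c2, c3, c4, c5⟩ := level_out2 hfm hf4
        (lt_of_le_of_ne hq.two_le (Ne.symm hq2)) i2 i3
      refine ⟨F2, hfin F2 c1 c2 c3 c4 ?_⟩
      intro a ha
      rcases c5 a ha with h | h
      · exact Or.inl h
      · right
        exact ⟨2, Nat.prime_two, by omega, Ne.symm hq2, h⟩
    · have hL : Lev (k + 1) q := by
        refine ⟨hq, hq2, b3, hf4, b2.trans ?_⟩
        exact card_le_card (filter_subset _ _)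
      obtain ⟨F2, c1, c2, c3, c4, c5⟩ := level_out hfm hL hlq hple i2 i3 ho0 hN i1 h4 (by
        intro a ha hfa
        have e1 : q ∣ addOrderOf a := b3.trans hfa
        have e2 : 4 ≤ (effP (addOrderOf a)).card :=
          b2.trans (card_le_card (q03_effP_mono hfa (q03_order_ne a)))
        have e3 := i6 a ha e2 e1
        have e4 := Nat.le_of_dvd (Nat.pos_of_ne_zero (q03_order_ne a)) hfa
        omega)
      refine ⟨F2, hfin F2 c1 c2 c3 c4 ?_⟩
      intro a ha
      rcases c5 a ha with h | ⟨p, hp, h⟩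
      · exact Or.inl h
      · right
        rw [mem_erase, Nat.mem_primeFactors] at hp
        exact ⟨p, hp.2.1, hp.2.2.1, hp.1, h⟩
  · refine ⟨F1, i1, i2, i3, i4, i5, ?_, i7⟩
    intro a ha ha4 hqa
    have h7 := i6 a ha ha4 hqa
    have h8 : addOrderOf a ≠ k + 1 := fun h => hex ⟨a, ha, ha4, hqa, h⟩
    omega

/-- Downward induction on `k`: the elements with at least four effective primes and order divisible
by `q` have order at most `k`; the functions differ from `F` by relations at primes below `q`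
and are changed only at orders divisible by `q`. At a level `f = k` with `4 ≤ (effP f).card` and
`q ∣ f` use `level_out` (if `f % 4 ≠ 2`, then `effP f = f.primeFactors`) or `level_out2`. -/
theorem prime_outD {D : ℕ → Prop} (hD : ∀ f g, D f → g ∣ f → D g) {l q : ℕ} (hq : q.Prime)
    (hlq : l + 1 < q) (hq2 : q ≠ 2) {F0 F : ZMod m → ℤ}
    (ho0 : OddF F0) (hN : ∑ a, |F0 a| ≤ 2 * l) (h : ReadyD D F0 q F) :
    ∃ F', ReadyD D F0 (q - 1) F' := by
  obtain ⟨⟨h1, h2, h3, h4, h5⟩, h6⟩ := h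
  have key : ∀ k, ∃ F1, Q03I D q F (m - k) F1 := by
    intro k
    induction k with
    | zero =>
      refine ⟨F, ?_, h2, h3, fun a ha => absurd rfl ha, h5, fun a _ _ _ => ?_, h6⟩
      · rw [sub_self]
        exact AddSubgroup.zero_mem _
      · rw [Nat.sub_zero]
        exact Nat.le_of_dvd (Nat.pos_of_ne_zero (NeZero.ne m)) (q03_order_dvd a)
    | succ k ih =>
      obtain ⟨F1, hF1⟩ := ih
      by_cases hk : m - k = 0
      · have hk' : m - (k + 1) = 0 := by omega
        rw [hk] at hF1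
        rw [hk']
        exact ⟨F1, hF1⟩
      · have hk' : m - k = m - (k + 1) + 1 := by omega
        rw [hk'] at hF1
        exact q03_step hD hq hlq hq2 ho0 hN h4 hF1
  obtain ⟨F1, i1, i2, i3, i4, i5, i6, i7⟩ := key m
  rw [Nat.sub_self] at i6
  refine ⟨F1, ⟨?_, i2, i3, ?_, ?_⟩, i7⟩
  · have : F1 - F0 = (F1 - F) + (F - F0) := by abel
    rw [this]
    exact AddSubgroup.add_mem _ (relSubR_le i1) h1
  · intro a ha
    have hqa : ¬ q ∣ addOrderOf a := by
      intro hqa
      have := ha q hq hqa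
      have := hq.pos
      omega
    have e1 : F1 a = F a := by
      by_contra hc
      exact hqa (i4 a hc)
    rw [e1]
    apply h4
    intro r hr hra
    have := ha r hr hra
    omega
  · intro a ha ha4 r hr hra
    have e1 := i5 a ha ha4 r hr hra
    have e2 : r ≠ q := by
      rintro rfl
      have := i6 a ha ha4 hra
      exact q03_order_ne a (Nat.le_zero.mp this)
    omega

end Pool.Agent.Lib.MP_938ce2_ag_h99w
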