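import Pool.Agent.Lib.MP_938ce2_ag_h99w.Q03

/-!
All the levels with a large prime and four effective primes are removed.
-/

set_option autoImplicit false
set_option linter.style.haveILetI false
set_option linter.unusedSectionVars false

open Finset

namespace Pool.Agent.Lib.MP_938ce2_ag_h99w

open Pool.Agent.Lib.MP_938ce2_ag_h99

variable {m : ℕ} [NeZero m]

private lemma q04_order_dvd (a : ZMod m) : addOrderOf a ∣ m := by
  have h := addOrderOf_dvd_card (x := a)
  rwa [ZMod.card] at h

/-- If `l = 0` then `F0 = 0`. Otherwise downward induction on `q`, from `m` to `l + 1`; if `q` is not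
prime, `Ready F0 q F` implies `Ready F0 (q - 1) F`. -/
theorem four_outD {D : ℕ → Prop} (hD : ∀ f g, D f → g ∣ f → D g) {l : ℕ} {F0 : ZMod m → ℤ}
    (ho : OddF F0) (hT : TateF F0) (hN : ∑ a, |F0 a| ≤ 2 * l)
    (hs : ∀ a, F0 a ≠ 0 → D (addOrderOf a)) :
    ∃ F : ZMod m → ℤ, F - F0 ∈ relSub m ∧ OddF F ∧ TateF F ∧
      (∀ a, (∀ r, r.Prime → r ∣ addOrderOf a → r ≤ l + 1) → F a = F0 a) ∧
      (∀ a, F a ≠ 0 → 4 ≤ (effP (addOrderOf a)).card →
        ∀ r, r.Prime → r ∣ addOrderOf a → r ≤ l + 1) ∧ (∀ a, F a ≠ 0 → D (addOrderOf a)) := by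
  rcases Nat.eq_zero_or_pos l with hl | hl
  · subst hl
    have h0 : ∀ a, F0 a = 0 := by
      intro a
      have h1 : |F0 a| ≤ ∑ a, |F0 a| :=
        single_le_sum (f := fun a => |F0 a|) (fun i _ => abs_nonneg _) (mem_univ a)
      have h2 : |F0 a| ≤ 0 := h1.trans (by simpa using hN)
      exact abs_nonpos_iff.mp h2
    refine ⟨F0, ?_, ho, hT, fun a _ => rfl, fun a ha => absurd (h0 a) ha, hs⟩
    rw [sub_self]
    exact AddSubgroup.zero_mem _
  · have hstart : ReadyD D F0 m F0 := by
      refine ⟨⟨?_, ho, hT, fun a _ => rfl, fun a _ _ r _ hra => ?_⟩, hs⟩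
      · rw [sub_self]
        exact AddSubgroup.zero_mem _
      · exact Nat.le_of_dvd (Nat.pos_of_ne_zero (NeZero.ne m)) (hra.trans (q04_order_dvd a))
    by_cases hml : m ≤ l + 1
    · obtain ⟨⟨a1, a2, a3, a4, a5⟩, a6⟩ := hstart
      exact ⟨F0, a1, a2, a3, fun a _ => rfl, fun a b1 b2 r b3 b4 => (a5 a b1 b2 r b3 b4).trans hml,
        a6⟩
    have key : ∀ k, k ≤ m - (l + 1) → ∃ F, ReadyD D F0 (m - k) F := by
      intro k
      induction k with
      | zero => exact fun _ => ⟨F0, hstart⟩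
      | succ k ih =>
        intro hk
        obtain ⟨F, hF⟩ := ih (by omega)
        have hq' : m - (k + 1) = (m - k) - 1 := by omega
        rw [hq']
        have hq1 : l + 1 < m - k := by omega
        by_cases hp : (m - k).Prime
        · exact prime_outD hD hp hq1 (by omega) ho hN hF
        · obtain ⟨⟨a1, a2, a3, a4, a5⟩, a6⟩ := hF
          refine ⟨F, ⟨a1, a2, a3, fun a ha => a4 a fun r hr hra => ?_, fun a b1 b2 r b3 b4 => ?_⟩,
            a6⟩
          · have := ha r hr hra
            omega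
          · have h6 := a5 a b1 b2 r b3 b4
            have h7 : r ≠ m - k := by
              rintro rfl
              exact hp b3
            omega
    obtain ⟨F, ⟨a1, a2, a3, a4, a5⟩, a6⟩ := key (m - (l + 1)) le_rfl
    have h8 : m - (m - (l + 1)) = l + 1 := by omega
    rw [h8] at a4 a5
    exact ⟨F, a1, a2, a3, a4, a5, a6⟩

end Pool.Agent.Lib.MP_938ce2_ag_h99w
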