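import Pool.Agent.Lib.MP_938ce2_ag_h99w.SD

/-!
Reduction modulo a prime.
-/

set_option autoImplicit false
set_option linter.style.haveILetI false
set_option linter.unusedSectionVars false

open Finset

namespace Pool.Agent.Lib.MP_938ce2_ag_h99w

open Pool.Agent.Lib.MP_938ce2_ag_h99

variable {f : ℕ} [NeZero f]

private lemma Rdm_iff {p : ℕ} (hp : p ∣ f) {z : (ZMod f)ˣ} {k : ℤ} :
    Rdm f p z k ↔ ZMod.castHom hp (ZMod p) (z : ZMod f) = (k : ZMod p) := by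
  unfold Rdm
  rw [← ZMod.intCast_zmod_eq_zero_iff_dvd, Int.cast_sub, sub_eq_zero, Int.cast_natCast,
    ZMod.natCast_val, ZMod.castHom_apply]

lemma Rdm.mul {p : ℕ} (hp : p ∣ f) {z w : (ZMod f)ˣ} {k l : ℤ} (hz : Rdm f p z k)
    (hw : Rdm f p w l) : Rdm f p (z * w) (k * l) := by
  rw [Rdm_iff hp] at *
  rw [Units.val_mul, map_mul, hz, hw, Int.cast_mul]

lemma Rdm.one (p : ℕ) (hp : p ∣ f) : Rdm f p (1 : (ZMod f)ˣ) 1 := by
  rw [Rdm_iff hp, Units.val_one, map_one, Int.cast_one]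

lemma Rdm.neg_one {p : ℕ} (hp : p ∣ f) : Rdm f p (-1 : (ZMod f)ˣ) (-1) := by
  rw [Rdm_iff hp, Units.val_neg, Units.val_one, map_neg, map_one, Int.cast_neg, Int.cast_one]

/-- twice the unit is one -/
lemma Rdm.iv_two {p : ℕ} (hp : p ∣ f) (h2 : ¬ 2 ∣ f) {k : ℤ} (h : Rdm f p (iv f 2) k) :
    (p : ℤ) ∣ 2 * k - 1 := by
  rw [Rdm_iff hp] at h
  have hc : Nat.Coprime 2 f := (Nat.Prime.coprime_iff_not_dvd Nat.prime_two).2 h2
  have h1 : ((iv f 2 : (ZMod f)ˣ) : ZMod f) * 2 = 1 := by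
    unfold iv
    rw [dif_pos hc]
    have := Units.inv_mul (ZMod.unitOfCoprime 2 hc)
    rwa [ZMod.coe_unitOfCoprime, Nat.cast_ofNat] at this
  have h3 := congrArg (ZMod.castHom hp (ZMod p)) h1
  rw [map_mul, h, map_one, map_ofNat] at h3
  rw [← ZMod.intCast_zmod_eq_zero_iff_dvd]
  push_cast
  rw [sub_eq_zero, mul_comm]
  exact h3

lemma Rdm.congr {p : ℕ} {z : (ZMod f)ˣ} {k l : ℤ} (hz : Rdm f p z k) (hw : Rdm f p z l) :
    (p : ℤ) ∣ k - l := by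
  unfold Rdm at hz hw
  have := dvd_sub hw hz
  have e : ((z : ZMod f).val : ℤ) - l - (((z : ZMod f).val : ℤ) - k) = k - l := by ring
  rwa [e] at this

/-- the members of `Kp f p'` reduce to one modulo the other primes (`mem_Kp`: `z * p' = p'`, so
`f / p'` divides `z - 1`) -/
lemma Rdm.of_Kp {p p' : ℕ} (hp : p.Prime) (hp' : p'.Prime) (hpf : p ∣ f) (hp'f : p' ∣ f)
    (hne : p ≠ p') {z : (ZMod f)ˣ} (hz : z ∈ Kp f p') : Rdm f p z 1 := by
  rw [Rdm_iff hpf, Int.cast_one]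
  have h1 : (z : ZMod f) * (p' : ZMod f) = p' := mem_Kp.mp hz
  have h2 := congrArg (ZMod.castHom hpf (ZMod p)) h1
  rw [map_mul, map_natCast] at h2
  have h3 : IsUnit ((p' : ℕ) : ZMod p) := by
    rw [ZMod.isUnit_iff_coprime]
    exact (Nat.coprime_primes hp' hp).mpr (Ne.symm hne)
  exact h3.mul_right_cancel (by rw [h2, one_mul])

/-- if `p` divides `f` once, a member of `Kp f p` which reduces to one is one -/
lemma Rdm.eq_one {p : ℕ} (hp : p.Prime) (hpf : p ∣ f) (h1 : ¬ p ∣ f / p) {z : (ZMod f)ˣ}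
    (hz : z ∈ Kp f p) (h : Rdm f p z 1) : z = 1 := by
  have hf0 : f / p ≠ 0 := by
    intro h0
    exact h1 (h0 ▸ dvd_zero p)
  have h2 : Rdm f (f / p) z 1 := by
    rw [Rdm_iff (Nat.div_dvd_of_dvd hpf), Int.cast_one]
    have h3 := (mem_Kp_iff_unitsMap hpf z).1 hz
    have h4 := congrArg (fun u : (ZMod (f / p))ˣ => (u : ZMod (f / p))) h3
    simp only [ZMod.unitsMap_val, Units.val_one] at h4
    rw [ZMod.castHom_apply]
    exact h4
  unfold Rdm at h h2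
  have hcop : IsCoprime (p : ℤ) ((f / p : ℕ) : ℤ) :=
    Nat.isCoprime_iff_coprime.2 ((Nat.Prime.coprime_iff_not_dvd hp).2 h1)
  have h5 := hcop.mul_dvd h h2
  have h6 : (p : ℤ) * ((f / p : ℕ) : ℤ) = f := by
    rw [← Nat.cast_mul, Nat.mul_div_cancel' hpf]
  rw [h6, ← ZMod.intCast_zmod_eq_zero_iff_dvd, Int.cast_sub, sub_eq_zero, Int.cast_natCast,
    ZMod.natCast_val, Int.cast_one, ZMod.cast_id', id_eq] at h5
  exact Units.ext h5

/-- if `p` divides `f` once, `Kp f p` has members with all reductions prime to `p` -/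
lemma Rdm.exists {p : ℕ} (hp : p.Prime) (hpf : p ∣ f) (h1 : ¬ p ∣ f / p) {k : ℤ}
    (hk : ¬ (p : ℤ) ∣ k) : ∃ z ∈ Kp f p, Rdm f p z k := by
  have hcop : IsCoprime (p : ℤ) ((f / p : ℕ) : ℤ) :=
    Nat.isCoprime_iff_coprime.2 ((Nat.Prime.coprime_iff_not_dvd hp).2 h1)
  obtain ⟨a, b, hab⟩ := hcop
  have h6 : (f : ℤ) = (p : ℤ) * ((f / p : ℕ) : ℤ) := by
    rw [← Nat.cast_mul, Nat.mul_div_cancel' hpf]
  obtain ⟨n, hn⟩ : ∃ n : ℤ, n = 1 + (k - 1) * (b * ((f / p : ℕ) : ℤ)) := ⟨_, rfl⟩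
  have hn1 : n = k - (k - 1) * a * p := by
    rw [hn]
    linear_combination (k - 1) * hab
  have c1 : IsCoprime (p : ℤ) n := by
    rw [Int.isCoprime_iff_gcd_eq_one]
    have h7 : ¬ (p : ℤ) ∣ n := by
      intro hd
      apply hk
      have : k = n + (k - 1) * a * p := by rw [hn1]; ring
      rw [this]
      exact dvd_add hd (Dvd.intro_left _ rfl)
    have h8 : Nat.Coprime p n.natAbs := by
      rw [Nat.Prime.coprime_iff_not_dvd hp]
      intro hd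
      exact h7 (Int.natCast_dvd.2 hd)
    simpa [Int.gcd] using h8
  have c2 : IsCoprime ((f / p : ℕ) : ℤ) n := ⟨-((k - 1) * b), 1, by rw [hn]; ring⟩
  have c3 : IsCoprime (f : ℤ) n := by
    rw [h6]
    exact IsCoprime.mul_left c1 c2
  have hu : IsUnit (n : ZMod f) := (ZMod.coe_int_isUnit_iff_isCoprime n f).2 c3
  obtain ⟨u, hu⟩ := hu
  refine ⟨u, ?_, ?_⟩
  · rw [mem_Kp, hu]
    have : (((n - 1) * p : ℤ) : ZMod f) = 0 := by
      rw [ZMod.intCast_zmod_eq_zero_iff_dvd]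
      refine ⟨(k - 1) * b, ?_⟩
      rw [hn]
      linear_combination (-(k - 1) * b) * h6
    push_cast at this
    linear_combination this
  · rw [Rdm_iff hpf, hu, map_intCast, ← sub_eq_zero, ← Int.cast_sub,
      ZMod.intCast_zmod_eq_zero_iff_dvd, hn1]
    exact ⟨-((k - 1) * a), by ring⟩

lemma Rdm.inv {p : ℕ} (hp : p ∣ f) {z : (ZMod f)ˣ} {k l : ℤ} (hz : Rdm f p z k)
    (h : (p : ℤ) ∣ k * l - 1) : Rdm f p z⁻¹ l := by
  rw [Rdm_iff hp] at *
  rw [← ZMod.intCast_zmod_eq_zero_iff_dvd] at h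
  push_cast at h
  have h1 := congrArg (ZMod.castHom hp (ZMod p)) (Units.inv_mul z)
  rw [map_mul, map_one, hz] at h1
  linear_combination (-ZMod.castHom hp (ZMod p) ((z⁻¹ : (ZMod f)ˣ) : ZMod f)) * h + l * h1

lemma Rdm.ne_zero {p : ℕ} (hp : p.Prime) (hpf : p ∣ f) {z : (ZMod f)ˣ} {k : ℤ}
    (hz : Rdm f p z k) : ¬ (p : ℤ) ∣ k := by
  intro hd
  rw [Rdm_iff hpf, (ZMod.intCast_zmod_eq_zero_iff_dvd k p).2 hd] at hz
  haveI : Fact p.Prime := ⟨hp⟩
  have h1 := congrArg (ZMod.castHom hpf (ZMod p)) (Units.inv_mul z)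
  rw [map_mul, map_one, hz, mul_zero] at h1
  exact zero_ne_one h1

end Pool.Agent.Lib.MP_938ce2_ag_h99w
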