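import Pool.Agent.Lib.MP_938ce2_ag_h99w.SD
import Pool.Agent.Lib.MP_938ce2_ag_h99w.S01

/-!
Independence of the groups at the primes.
-/

set_option autoImplicit false
set_option linter.style.haveILetI false
set_option linter.unusedSectionVars false

open Finset

namespace Pool.Agent.Lib.MP_938ce2_ag_h99w

open Pool.Agent.Lib.MP_938ce2_ag_h99

variable {f : ℕ} [NeZero f]

lemma le_spanL2 {A : Type*} [CommGroup A] {K : Subgroup A} : ∀ {L : List (Subgroup A)}, K ∈ L →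
    K ≤ spanL L
  | [], h => by simp at h
  | K' :: L, h => by
      rcases List.mem_cons.mp h with h | h
      · rw [h]
        exact le_sup_left
      · exact le_trans (le_spanL2 h) le_sup_right

lemma VV_supp2 {A : Type*} [CommGroup A] [Fintype A] {K : Subgroup A} {T : Finset ℕ} {h : ℕ → A}
    {x u : A} (hu : VV K T h x u ≠ 0) :
    ∃ z ∈ K, ∃ S ⊆ T, u = z * ((∏ p ∈ S, h p) * x) := by
  classical
  by_contra hcon
  push Not at hcon
  apply hu
  unfold VV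
  rw [Finset.sum_eq_zero, zero_div]
  intro z hz
  apply Finset.sum_eq_zero
  intro S hS
  rw [if_neg]
  have hz' : z ∈ K := by simpa using hz
  exact hcon z hz' S (Finset.mem_powerset.mp hS)

lemma prod_mem2 {q : ℕ} {T : Finset ℕ} {h : ℕ → (ZMod f)ˣ} (hh : ∀ p ∈ T, h p ∈ Kp f p)
    {z : (ZMod f)ˣ} (hz : z ∈ Kp f q) {S : Finset ℕ} (hS : S ⊆ T) :
    z * ∏ p ∈ S, h p ∈ spanL ((q :: T.toList).map (Kp f)) := by
  apply Subgroup.mul_mem
  · apply le_spanL2 (K := Kp f q) _ hz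
    exact List.mem_map.mpr ⟨q, List.mem_cons_self, rfl⟩
  · apply Subgroup.prod_mem
    intro p hp
    apply le_spanL2 (K := Kp f p) _ (hh p (hS hp))
    exact List.mem_map.mpr ⟨p, List.mem_cons_of_mem _ (Finset.mem_toList.mpr (hS hp)), rfl⟩

lemma Kp_indep_half {q : ℕ} (hq : q.Prime) (hqf : q ∣ f) {T : Finset ℕ} (hqT : q ∉ T)
    (hT : ∀ p ∈ T, p.Prime ∧ p ∣ f) {h : ℕ → (ZMod f)ˣ} (hh : ∀ p ∈ T, h p ∈ Kp f p)
    (h1 : ∀ p ∈ T, h p ≠ 1) {z z' : (ZMod f)ˣ} (hz : z ∈ Kp f q) (hz' : z' ∈ Kp f q)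
    {S S' : Finset ℕ} (hS : S ⊆ T) (hS' : S' ⊆ T)
    (heq : z * ∏ p ∈ S, h p = z' * ∏ p ∈ S', h p) : S ⊆ S' := by
  classical
  intro p hp
  by_contra hp'
  obtain ⟨hpp, hpf⟩ := hT p (hS hp)
  apply h1 p (hS hp)
  have hne : p ≠ q := fun h => hqT (h ▸ hS hp)
  have hdis := disjoint_Kp_span (f := f) hpp (q :: (T.erase p).toList) (by
    intro r hr
    rcases List.mem_cons.mp hr with h2 | h2
    · rw [h2]; exact ⟨hq, hqf⟩
    · exact hT r (Finset.mem_of_mem_erase (Finset.mem_toList.mp h2))) (by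
    intro hr
    rcases List.mem_cons.mp hr with h2 | h2
    · exact hne h2
    · exact Finset.notMem_erase p T (Finset.mem_toList.mp h2))
  have hh' : ∀ r ∈ T.erase p, h r ∈ Kp f r := fun r hr => hh r (Finset.mem_of_mem_erase hr)
  have hA := prod_mem2 hh' hz (S := S.erase p) (Finset.erase_subset_erase p hS)
  have hB := prod_mem2 hh' hz' (S := S') (by
    intro r hr
    exact Finset.mem_erase.mpr ⟨fun h => hp' (h ▸ hr), hS' hr⟩)
  have hkey : h p = (z' * ∏ r ∈ S', h r) * (z * ∏ r ∈ S.erase p, h r)⁻¹ := by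
    rw [eq_mul_inv_iff_mul_eq, ← heq, ← Finset.mul_prod_erase S h hp]
    rw [mul_left_comm]
  have hmem : h p ∈ spanL ((q :: (T.erase p).toList).map (Kp f)) := by
    rw [hkey]
    exact Subgroup.mul_mem _ hB (Subgroup.inv_mem _ hA)
  have := (Subgroup.disjoint_def.mp hdis) (hh p (hS hp)) hmem
  exact this

lemma Rdm_prod2 {p : ℕ} (hp : p ∣ f) {h : ℕ → (ZMod f)ˣ} {κ : ℕ → ℤ} (S : Finset ℕ)
    (hS : ∀ r ∈ S, Rdm f p (h r) (κ r)) : Rdm f p (∏ r ∈ S, h r) (∏ r ∈ S, κ r) := by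
  classical
  induction S using Finset.induction_on with
  | empty =>
    rw [Finset.prod_empty, Finset.prod_empty]
    exact Rdm.one p hp
  | insert a S ha ih =>
    rw [Finset.prod_insert ha, Finset.prod_insert ha]
    exact Rdm.mul hp (hS a (Finset.mem_insert_self a S))
      (ih fun r hr => hS r (Finset.mem_insert_of_mem hr))

/-- from `disjoint_Kp_span` (h99/Groups.lean): if `p ∈ S \\ S'` then `h p` is in the group spanned
by the groups at the other primes, hence `h p = 1` -/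
theorem Kp_indep {q : ℕ} (hq : q.Prime) (hqf : q ∣ f) {T : Finset ℕ} (hqT : q ∉ T)
    (hT : ∀ p ∈ T, p.Prime ∧ p ∣ f) {h : ℕ → (ZMod f)ˣ} (hh : ∀ p ∈ T, h p ∈ Kp f p)
    (h1 : ∀ p ∈ T, h p ≠ 1) : ∀ z ∈ Kp f q, ∀ z' ∈ Kp f q, ∀ S ⊆ T, ∀ S' ⊆ T,
      z * ∏ p ∈ S, h p = z' * ∏ p ∈ S', h p → z = z' ∧ S = S' := by
  intro z hz z' hz' S hS S' hS' heq
  have h2 : S ⊆ S' := Kp_indep_half hq hqf hqT hT hh h1 hz hz' hS hS' heq
  have h3 : S' ⊆ S := Kp_indep_half hq hqf hqT hT hh h1 hz' hz hS' hS heq.symm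
  have h4 : S = S' := Finset.Subset.antisymm h2 h3
  refine ⟨?_, h4⟩
  rw [h4] at heq
  exact mul_right_cancel heq

/-- the quotient of two members of the support of `VV` -/
theorem VV_ratio {q : ℕ} {T : Finset ℕ} (hT : ∀ p ∈ T, p.Prime ∧ p ∣ f) {h : ℕ → (ZMod f)ˣ}
    (hh : ∀ p ∈ T, h p ∈ Kp f p) {x u κ : (ZMod f)ˣ}
    (h1 : VV (Kp f q) T h x u ≠ 0) (h2 : VV (Kp f q) T h x (κ * u) ≠ 0) :
    κ ∈ spanL ((q :: T.toList).map (Kp f)) := by
  obtain ⟨z, hz, S, hS, hu⟩ := VV_supp2 h1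
  obtain ⟨z', hz', S', hS', hu'⟩ := VV_supp2 h2
  have hA := prod_mem2 hh hz hS
  have hB := prod_mem2 hh hz' hS'
  have hkey : κ = (z' * ∏ r ∈ S', h r) * (z * ∏ r ∈ S, h r)⁻¹ := by
    rw [eq_mul_inv_iff_mul_eq]
    apply mul_right_cancel (b := x)
    calc κ * (z * ∏ r ∈ S, h r) * x = κ * (z * ((∏ r ∈ S, h r) * x)) := by
          simp only [mul_assoc]
      _ = z' * ((∏ r ∈ S', h r) * x) := by rw [← hu, ← hu']
      _ = z' * (∏ r ∈ S', h r) * x := by simp only [mul_assoc]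
  rw [hkey]
  exact Subgroup.mul_mem _ hB (Subgroup.inv_mem _ hA)

/-- the same modulo one of the primes of `T` -/
theorem VV_ratio_mod {q : ℕ} (hq : q.Prime) (hqf : q ∣ f) {T : Finset ℕ} (hqT : q ∉ T)
    (hT : ∀ p ∈ T, p.Prime ∧ p ∣ f)
    {h : ℕ → (ZMod f)ˣ} (hh : ∀ p ∈ T, h p ∈ Kp f p) {p : ℕ} (hp : p ∈ T)
    {x u κ : (ZMod f)ˣ} {k s : ℤ} (hk : Rdm f p (h p) k) (hs : Rdm f p κ s)
    (h1 : VV (Kp f q) T h x u ≠ 0) (h2 : VV (Kp f q) T h x (κ * u) ≠ 0) :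
    (p : ℤ) ∣ s - 1 ∨ (p : ℤ) ∣ s - k ∨ (p : ℤ) ∣ s * k - 1 := by
  classical
  obtain ⟨hpp, hpf⟩ := hT p hp
  obtain ⟨z, hz, S, hS, hu⟩ := VV_supp2 h1
  obtain ⟨z', hz', S', hS', hu'⟩ := VV_supp2 h2
  have heq : κ * (z * ∏ r ∈ S, h r) = z' * ∏ r ∈ S', h r := by
    apply mul_right_cancel (b := x)
    calc κ * (z * ∏ r ∈ S, h r) * x = κ * (z * ((∏ r ∈ S, h r) * x)) := by
          simp only [mul_assoc]
      _ = z' * ((∏ r ∈ S', h r) * x) := by rw [← hu, ← hu']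
      _ = z' * (∏ r ∈ S', h r) * x := by simp only [mul_assoc]
  have hqp : p ≠ q := fun h => hqT (h ▸ hp)
  have hz1 : Rdm f p z 1 := Rdm.of_Kp hpp hq hpf hqf hqp hz
  have hz1' : Rdm f p z' 1 := Rdm.of_Kp hpp hq hpf hqf hqp hz'
  have hprod : ∀ S : Finset ℕ, S ⊆ T →
      Rdm f p (∏ r ∈ S, h r) (if p ∈ S then k else 1) := by
    intro S hS
    have h2 := Rdm_prod2 hpf (h := h) (κ := fun r => if r = p then k else 1) S (by
      intro r hr
      split_ifs with h3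
      · rw [h3]; exact hk
      · obtain ⟨h4, h5⟩ := hT r (hS hr)
        exact Rdm.of_Kp hpp h4 hpf h5 (fun h => h3 h.symm) (hh r (hS hr)))
    rwa [Finset.prod_ite_eq'] at h2
  have h6 := Rdm.mul hpf hs (Rdm.mul hpf hz1 (hprod S hS))
  have h7 := Rdm.mul hpf hz1' (hprod S' hS')
  rw [heq] at h6
  have h8 := Rdm.congr h6 h7
  have hpp' : Prime (p : ℤ) := Nat.prime_iff_prime_int.mp hpp
  have hk0 : ¬ (p : ℤ) ∣ k := Rdm.ne_zero hpp hpf hk
  split_ifs at h8 with h9 h10 h10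
  · left
    have : (s * (1 * k) - 1 * k : ℤ) = (s - 1) * k := by ring
    rw [this] at h8
    exact (hpp'.dvd_or_dvd h8).resolve_right hk0
  · right; right
    have : (s * (1 * k) - 1 * 1 : ℤ) = s * k - 1 := by ring
    rwa [this] at h8
  · right; left
    have : (s * (1 * 1) - 1 * k : ℤ) = s - k := by ring
    rwa [this] at h8
  · left
    have : (s * (1 * 1) - 1 * 1 : ℤ) = s - 1 := by ring
    rwa [this] at h8

end Pool.Agent.Lib.MP_938ce2_ag_h99w
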