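import Pool.Agent.Lib.MP_938ce2_ag_h99w.D02
import Pool.Agent.Lib.MP_938ce2_ag_h99w.D04
import Pool.Agent.Lib.MP_938ce2_ag_h99w.S02

/-!
Small functions have no mixed differences, if the weights are good.
-/

set_option autoImplicit false
set_option linter.style.haveILetI false
set_option linter.unusedSectionVars false

open Finset

namespace Pool.Agent.Lib.MP_938ce2_ag_h99w

open Pool.Agent.Lib.MP_938ce2_ag_h99

variable {f : ℕ} [NeZero f]

/-- `VV` satisfies the bounds as soon as at most one of its values at `u, -u, u / 2, -u / 2` is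
nonzero -/
theorem Bd_of_one {W : (ZMod f)ˣ → ℚ} {C : ℚ} (hW : ∀ u, |W u| ≤ C)
    (h1 : ∀ u, W u = 0 ∨ W (-1 * u) = 0)
    (h2 : ¬ 2 ∣ f → ∀ u, W u = 0 ∨ W (iv f 2 * u) = 0)
    (h3 : ¬ 2 ∣ f → ∀ u, W u = 0 ∨ W (-1 * (iv f 2 * u)) = 0) : Bd f W C := by
  have hC : (0 : ℚ) ≤ C := (abs_nonneg _).trans (hW 1)
  refine ⟨fun u => ?_, fun h u => ?_⟩
  · have a1 := abs_le.1 (hW u)
    have a2 := abs_le.1 (hW (-1 * u))
    rw [abs_le]
    rcases h1 u with e | e <;> rw [e] <;> constructor <;>
      linarith [a1.1, a1.2, a2.1, a2.2]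
  · have a1 := abs_le.1 (hW u)
    have a2 := abs_le.1 (hW (-1 * u))
    have a3 := abs_le.1 (hW (iv f 2 * u))
    have a4 := abs_le.1 (hW (-1 * (iv f 2 * u)))
    have b1 := h1 u
    have b2 := h1 (iv f 2 * u)
    have b3 := h2 h u
    have b4 := h2 h (-1 * u)
    have b5 := h3 h u
    have b6 := h3 h (-1 * u)
    have e1 : iv f 2 * (-1 * u) = -1 * (iv f 2 * u) := mul_left_comm _ _ _
    have e2 : -1 * (iv f 2 * (-1 * u)) = iv f 2 * u := by
      rw [e1, ← mul_assoc, neg_one_mul, neg_neg, one_mul]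
    rw [e1] at b4
    rw [e2] at b6
    rw [abs_le]
    by_cases z1 : W u = 0
    · by_cases z2 : W (-1 * u) = 0
      · rcases b2 with z | z <;> rw [z1, z2, z] <;> constructor <;>
          linarith [a3.1, a3.2, a4.1, a4.2]
      · have z4 := b4.resolve_left z2
        have z3 := b6.resolve_left z2
        rw [z1, z3, z4]
        constructor <;> linarith [a2.1, a2.2]
    · have z2 := b1.resolve_left z1
      have z3 := b3.resolve_left z1
      have z4 := b5.resolve_left z1
      rw [z2, z3, z4]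
      constructor <;> linarith [a1.1, a1.2]

/-- the mixed difference is an integer of absolute value less than one (`VV_pair`, `VV_sum`,
`DS_inv`) -/
theorem DS_of_Bd {q : ℕ} (hL : Lev f q) {G : (ZMod f)ˣ → ℤ}
    (hG : MD ((q :: (f.primeFactors.erase q).toList).map (Kp f)) G) (hS : SmallF f q G)
    {h : ℕ → (ZMod f)ˣ} (hh : ∀ p ∈ f.primeFactors.erase q, h p ∈ Kp f p) (x : (ZMod f)ˣ)
    (hB : Bd f (VV (Kp f q) (f.primeFactors.erase q) h x) (1 / (Nat.card (Kp f q) : ℚ))) :
    DS (f.primeFactors.erase q) h G x = 0 := by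
  classical
  have hinv : ∀ z ∈ Kp f q, ∀ y, DS (f.primeFactors.erase q) h G (z * y) =
      DS (f.primeFactors.erase q) h G y := by
    intro z hz y
    have := DS_inv (Kp f) (q := q) (ps := (f.primeFactors.erase q).toList)
      (f.primeFactors.erase q).nodup_toList (G := G) hG (h := h)
      (fun p hp => hh p (Finset.mem_toList.1 hp)) hz y
    rwa [Finset.toList_toFinset] at this
  have hZ : ZS f (· ≠ q) (VV (Kp f q) (f.primeFactors.erase q) h x) := by
    unfold ZS
    intro p hp hpq hpf u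
    have hpT : p ∈ f.primeFactors.erase q := by
      rw [Finset.mem_erase, Nat.mem_primeFactors]
      exact ⟨hpq, hp, hpf, NeZero.ne f⟩
    exact VV_sum (K := Kp f q) (K' := Kp f p) hpT (hh p hpT) x u
  have hlt := hS _ hZ hB
  rw [VV_pair hinv] at hlt
  have hlt2 : |DS (f.primeFactors.erase q) h G x| < 1 := by exact_mod_cast hlt
  exact Int.abs_lt_one_iff.1 hlt2

end Pool.Agent.Lib.MP_938ce2_ag_h99w
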