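import Pool.Agent.Lib.MP_938ce2_ag_h99w.S03
import Pool.Agent.Lib.MP_938ce2_ag_h99w.D03

/-!
Levels with no signs: all the weights are good.
-/

set_option autoImplicit false
set_option linter.style.haveILetI false
set_option linter.unusedSectionVars false

open Finset

namespace Pool.Agent.Lib.MP_938ce2_ag_h99w

open Pool.Agent.Lib.MP_938ce2_ag_h99

variable {f : ℕ} [NeZero f]

/-- If some `h p` is one, `DS_one`. Otherwise `VV_abs` with `Kp_indep`, and `Bd_of_one` with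
`VV_ratio`. -/
theorem DS_of_span {q : ℕ} (hL : Lev f q) {G : (ZMod f)ˣ → ℤ}
    (hG : MD ((q :: (f.primeFactors.erase q).toList).map (Kp f)) G) (hS : SmallF f q G)
    (h1 : (-1 : (ZMod f)ˣ) ∉ spanL ((q :: (f.primeFactors.erase q).toList).map (Kp f)))
    (h2 : ¬ 2 ∣ f → iv f 2 ∉ spanL ((q :: (f.primeFactors.erase q).toList).map (Kp f)))
    (h3 : ¬ 2 ∣ f → -1 * iv f 2 ∉ spanL ((q :: (f.primeFactors.erase q).toList).map (Kp f)))
    {h : ℕ → (ZMod f)ˣ} (hh : ∀ p ∈ f.primeFactors.erase q, h p ∈ Kp f p) (x : (ZMod f)ˣ) :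
    DS (f.primeFactors.erase q) h G x = 0 := by
  classical
  have hT : ∀ p ∈ f.primeFactors.erase q, p.Prime ∧ p ∣ f := by
    intro p hp
    rw [Finset.mem_erase] at hp
    exact ⟨Nat.prime_of_mem_primeFactors hp.2, Nat.dvd_of_mem_primeFactors hp.2⟩
  by_cases hne : ∀ p ∈ f.primeFactors.erase q, h p ≠ 1
  swap
  · push Not at hne
    obtain ⟨p, hp, hne⟩ := hne
    exact DS_one hp hne x
  have key : ∀ κ : (ZMod f)ˣ, κ ∉ spanL ((q :: (f.primeFactors.erase q).toList).map (Kp f)) →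
      ∀ u, VV (Kp f q) (f.primeFactors.erase q) h x u = 0 ∨
        VV (Kp f q) (f.primeFactors.erase q) h x (κ * u) = 0 := by
    intro κ hκ u
    by_contra hc
    push Not at hc
    exact hκ (VV_ratio hT hh hc.1 hc.2)
  apply DS_of_Bd hL hG hS hh x
  apply Bd_of_one
  · exact VV_abs (Kp_indep hL.hq hL.hqf (Finset.notMem_erase q _) hT hh hne) x
  · exact key _ h1
  · exact fun h2' => key _ (h2 h2')
  · intro h2' u
    have := key _ (h3 h2') u
    rwa [mul_assoc] at this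

omit [NeZero f] in
private lemma mem_rad {q : ℕ} (hqm : q ∈ f.primeFactors) :
    ∀ q' ∈ q :: (f.primeFactors.erase q).toList, q' ∣ rad f := by
  intro q' hq'
  have hm : q' ∈ f.primeFactors := by
    rcases List.mem_cons.1 hq' with rfl | hq'
    · exact hqm
    · exact (Finset.mem_erase.1 (Finset.mem_toList.1 hq')).2
  exact Finset.dvd_prod_of_mem (fun p => p) hm

private lemma q_mem {q : ℕ} (hL : Lev f q) : q ∈ f.primeFactors := by
  rw [Nat.mem_primeFactors]
  exact ⟨hL.hq, hL.hqf, NeZero.ne f⟩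

private lemma iv_two_mul (h2 : ¬ 2 ∣ f) : ((iv f 2 : (ZMod f)ˣ) : ZMod f) * 2 = 1 := by
  have hc : Nat.Coprime 2 f := (Nat.Prime.coprime_iff_not_dvd Nat.prime_two).2 h2
  unfold iv
  rw [dif_pos hc]
  have := Units.inv_mul (ZMod.unitOfCoprime 2 hc)
  rwa [ZMod.coe_unitOfCoprime, Nat.cast_ofNat] at this

/-- the members of the span fix `rad f` (`spanL_le_stab`) -/
lemma neg_one_span {q : ℕ} (hL : Lev f q) (h : ¬ f ∣ 2 * rad f) :
    (-1 : (ZMod f)ˣ) ∉ spanL ((q :: (f.primeFactors.erase q).toList).map (Kp f)) :=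
  neg_one_not_mem_span (rad f) _ (mem_rad (q_mem hL)) h

lemma half_span {q : ℕ} (hL : Lev f q) (h2 : ¬ 2 ∣ f) (h : ¬ f ∣ rad f) :
    iv f 2 ∉ spanL ((q :: (f.primeFactors.erase q).toList).map (Kp f)) := by
  intro hc
  have h1 := spanL_le_stab (rad f) _ (mem_rad (q_mem hL)) hc
  rw [mem_stab] at h1
  apply h
  rw [← ZMod.natCast_eq_zero_iff]
  linear_combination (-2 : ZMod f) * h1 + (rad f : ZMod f) * iv_two_mul h2

lemma neg_half_span {q : ℕ} (hL : Lev f q) (h2 : ¬ 2 ∣ f) (h : ¬ f ∣ 3 * rad f) :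
    -1 * iv f 2 ∉ spanL ((q :: (f.primeFactors.erase q).toList).map (Kp f)) := by
  intro hc
  have h1 := spanL_le_stab (rad f) _ (mem_rad (q_mem hL)) hc
  rw [mem_stab, Units.val_mul, Units.val_neg, Units.val_one] at h1
  apply h
  rw [← ZMod.natCast_eq_zero_iff]
  push_cast
  linear_combination (-2 : ZMod f) * h1 - (rad f : ZMod f) * iv_two_mul h2

end Pool.Agent.Lib.MP_938ce2_ag_h99w
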