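import Pool.Agent.Lib.MP_938ce2_ag_h99w.S01
import Pool.Agent.Lib.MP_938ce2_ag_h99w.S04

/-!
One flip.
-/

set_option autoImplicit false
set_option linter.style.haveILetI false
set_option linter.unusedSectionVars false

open Finset

namespace Pool.Agent.Lib.MP_938ce2_ag_h99w

open Pool.Agent.Lib.MP_938ce2_ag_h99

variable {f : ℕ} [NeZero f]

/-- Case A. `h p0` reduces to `-1` modulo the prime `p0 ≥ 5`, and either `-1` is not in the span or
`h p1` does not reduce to `-1` modulo the odd prime `p1`. Use `Bd_of_one` with `VV_ratio_mod` at `p0`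
for the halves, and for the sign `VV_ratio` or `VV_ratio_mod` at `p1` (note that `p1` divides `f`
once, `h p1` reduces to some `k` with `k ≠ -1`, and `-1 = k`, `-k = 1` are impossible). -/
theorem DS_caseA {q : ℕ} (hL : Lev f q) {G : (ZMod f)ˣ → ℤ}
    (hG : MD ((q :: (f.primeFactors.erase q).toList).map (Kp f)) G) (hS : SmallF f q G)
    {h : ℕ → (ZMod f)ˣ} (hh : ∀ p ∈ f.primeFactors.erase q, h p ∈ Kp f p)
    {p0 : ℕ} (hp0 : p0 ∈ f.primeFactors.erase q) (h5 : ¬ 2 ∣ f → 5 ≤ p0)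
    (hp0' : ¬ 2 ∣ f → Rdm f p0 (h p0) (-1))
    (hs : (-1 : (ZMod f)ˣ) ∉ spanL ((q :: (f.primeFactors.erase q).toList).map (Kp f)) ∨
      ∃ p1 ∈ f.primeFactors.erase q, p1 ≠ 2 ∧ ¬ Rdm f p1 (h p1) (-1)) (x : (ZMod f)ˣ) :
    DS (f.primeFactors.erase q) h G x = 0 := by
  classical
  have hT : ∀ p ∈ f.primeFactors.erase q, p.Prime ∧ p ∣ f := fun p hp =>
    ⟨Nat.prime_of_mem_primeFactors (mem_of_mem_erase hp),
      Nat.dvd_of_mem_primeFactors (mem_of_mem_erase hp)⟩
  have hqT : q ∉ f.primeFactors.erase q := notMem_erase q _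
  by_cases hone : ∃ p ∈ f.primeFactors.erase q, h p = 1
  · obtain ⟨p, hp, h1⟩ := hone
    exact DS_one hp h1 x
  push Not at hone
  have hval : ∀ (p : ℕ) (z : (ZMod f)ˣ), Rdm f p z ((z : ZMod f).val : ℤ) := by
    intro p z
    unfold Rdm
    rw [sub_self]
    exact dvd_zero _
  have hindep := Kp_indep hL.hq hL.hqf hqT hT hh hone
  refine DS_of_Bd hL hG hS hh x (Bd_of_one ?_ ?_ ?_ ?_)
  · intro u
    exact VV_abs hindep x u
  · intro u
    by_contra hcon
    push Not at hcon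
    rcases hs with hs | ⟨p1, hp1, hp12, hp1'⟩
    · exact hs (VV_ratio hT hh hcon.1 hcon.2)
    · have hpr := (hT p1 hp1).1
      have hk := hval p1 (h p1)
      have h2 := VV_ratio_mod hL.hq hL.hqf hqT hT hh hp1 hk
        (Rdm.neg_one (hT p1 hp1).2) hcon.1 hcon.2
      have h3 : ¬ (p1 : ℤ) ∣ ((h p1 : ZMod f).val : ℤ) + 1 := by
        intro h3
        apply hp1'
        unfold Rdm
        rwa [sub_neg_eq_add]
      rcases h2 with h2 | h2 | h2
      · have h4 : (p1 : ℤ) ∣ 2 := by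
          have h5 : (2 : ℤ) = -(-1 - 1) := by norm_num
          rw [h5]
          exact (dvd_neg).2 h2
        have h5 : p1 ∣ 2 := by exact_mod_cast h4
        exact hp12 ((Nat.prime_dvd_prime_iff_eq hpr Nat.prime_two).mp h5)
      · apply h3
        have h5 : ((h p1 : ZMod f).val : ℤ) + 1 = -(-1 - ((h p1 : ZMod f).val : ℤ)) := by ring
        rw [h5]
        exact (dvd_neg).2 h2
      · apply h3
        have h5 : ((h p1 : ZMod f).val : ℤ) + 1 = -(-1 * ((h p1 : ZMod f).val : ℤ) - 1) := by ring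
        rw [h5]
        exact (dvd_neg).2 h2
  · intro h2f u
    by_contra hcon
    push Not at hcon
    have hpr := (hT p0 hp0).1
    have h5' := h5 h2f
    have hs0 := hval p0 (iv f 2)
    have h6 := Rdm.iv_two (hT p0 hp0).2 h2f hs0
    have h7 := VV_ratio_mod hL.hq hL.hqf hqT hT hh hp0 (hp0' h2f) hs0 hcon.1 hcon.2
    set s : ℤ := ((iv f 2 : ZMod f).val : ℤ) with hsdef
    have hsmall : ∀ n : ℕ, 0 < n → n < 5 → ¬ (p0 : ℤ) ∣ (n : ℤ) := by
      intro n hn0 hn5 hd
      have := Nat.le_of_dvd hn0 (by exact_mod_cast hd)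
      omega
    rcases h7 with h7 | h7 | h7
    · apply hsmall 1 (by norm_num) (by norm_num)
      have h8 : ((1 : ℕ) : ℤ) = (2 * s - 1) - 2 * (s - 1) := by push_cast; ring
      rw [h8]
      exact dvd_sub h6 (dvd_mul_of_dvd_right h7 _)
    · apply hsmall 3 (by norm_num) (by norm_num)
      have h8 : ((3 : ℕ) : ℤ) = 2 * (s - -1) - (2 * s - 1) := by push_cast; ring
      rw [h8]
      exact dvd_sub (dvd_mul_of_dvd_right h7 _) h6
    · apply hsmall 3 (by norm_num) (by norm_num)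
      have h8 : ((3 : ℕ) : ℤ) = (-2) * (s * -1 - 1) - (2 * s - 1) := by push_cast; ring
      rw [h8]
      exact dvd_sub (dvd_mul_of_dvd_right h7 _) h6
  · intro h2f u
    by_contra hcon
    push Not at hcon
    have hpr := (hT p0 hp0).1
    have h5' := h5 h2f
    have hs0 := hval p0 (iv f 2)
    have h6 := Rdm.iv_two (hT p0 hp0).2 h2f hs0
    have hcon2 : VV (Kp f q) (f.primeFactors.erase q) h x ((-1 * iv f 2) * u) ≠ 0 := by
      rw [mul_assoc]
      exact hcon.2
    have h7 := VV_ratio_mod hL.hq hL.hqf hqT hT hh hp0 (hp0' h2f)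
      (Rdm.mul (hT p0 hp0).2 (Rdm.neg_one (hT p0 hp0).2) hs0) hcon.1 hcon2
    set s : ℤ := ((iv f 2 : ZMod f).val : ℤ) with hsdef
    have hsmall : ∀ n : ℕ, 0 < n → n < 5 → ¬ (p0 : ℤ) ∣ (n : ℤ) := by
      intro n hn0 hn5 hd
      have := Nat.le_of_dvd hn0 (by exact_mod_cast hd)
      omega
    rcases h7 with h7 | h7 | h7
    · apply hsmall 3 (by norm_num) (by norm_num)
      have h8 : ((3 : ℕ) : ℤ) = (-2) * (-1 * s - 1) - (2 * s - 1) := by push_cast; ring
      rw [h8]
      exact dvd_sub (dvd_mul_of_dvd_right h7 _) h6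
    · apply hsmall 1 (by norm_num) (by norm_num)
      have h8 : ((1 : ℕ) : ℤ) = (2 * s - 1) + 2 * (-1 * s - -1) := by push_cast; ring
      rw [h8]
      exact dvd_add h6 (dvd_mul_of_dvd_right h7 _)
    · apply hsmall 1 (by norm_num) (by norm_num)
      have h8 : ((1 : ℕ) : ℤ) = (2 * s - 1) - 2 * (-1 * s * -1 - 1) := by push_cast; ring
      rw [h8]
      exact dvd_sub h6 (dvd_mul_of_dvd_right h7 _)

end Pool.Agent.Lib.MP_938ce2_ag_h99w
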