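import Pool.Agent.Lib.MP_938ce2_ag_h99w.S05

/-!
All flips.
-/

set_option autoImplicit false
set_option linter.style.haveILetI false
set_option linter.unusedSectionVars false

open Finset

namespace Pool.Agent.Lib.MP_938ce2_ag_h99w

open Pool.Agent.Lib.MP_938ce2_ag_h99

variable {f : ℕ} [NeZero f]

private lemma s06_once {p : ℕ} (hp : p.Prime) (hp2 : p ≠ 2) (hpf : p ∣ f)
    (h : f ∣ 2 * rad f) : ¬ p ∣ f / p := by
  intro hd
  have hf0 : f ≠ 0 := NeZero.ne f
  obtain ⟨e, he⟩ := hd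
  have h1 : f = p * (p * e) := by
    rw [← he, Nat.mul_div_cancel' hpf]
  have hmem : p ∈ f.primeFactors := by
    rw [Nat.mem_primeFactors]
    exact ⟨hp, hpf, hf0⟩
  have h2 : rad f = p * ∏ r ∈ f.primeFactors.erase p, r := by
    unfold rad
    rw [mul_prod_erase f.primeFactors (fun r => r) hmem]
  have h3 : p * p ∣ p * (2 * ∏ r ∈ f.primeFactors.erase p, r) := by
    have h4 : p * p ∣ f := ⟨e, by rw [mul_assoc]; exact h1⟩
    have h5 := h4.trans h
    rw [h2] at h5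
    have h6 : 2 * (p * ∏ r ∈ f.primeFactors.erase p, r)
        = p * (2 * ∏ r ∈ f.primeFactors.erase p, r) := by ring
    rwa [h6] at h5
  have h4 := Nat.dvd_of_mul_dvd_mul_left hp.pos h3
  rcases (Nat.Prime.dvd_mul hp).mp h4 with h5 | h5
  · exact hp2 ((Nat.prime_dvd_prime_iff_eq hp Nat.prime_two).mp h5)
  · rw [Prime.dvd_finsetProd_iff hp.prime] at h5
    obtain ⟨r, hr, hpr⟩ := h5
    rw [mem_erase, Nat.mem_primeFactors] at hr
    exact hr.1 ((Nat.prime_dvd_prime_iff_eq hp hr.2.1).mp hpr).symm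

omit [NeZero f] in
private lemma s06_choose {q : ℕ} (hL : Lev f q) : ∃ p0 ∈ f.primeFactors.erase q,
    ∃ p1 ∈ f.primeFactors.erase q, p0 ≠ p1 ∧ 5 ≤ p1 ∧ (¬ 2 ∣ f → 5 ≤ p0) := by
  set T := f.primeFactors.erase q with hT
  have hcT : 3 ≤ T.card := by
    have h1 := hL.hc
    by_cases hm : q ∈ f.primeFactors
    · rw [hT, card_erase_of_mem hm]
      omega
    · rw [hT, erase_eq_of_notMem hm]
      omega
  have hge : ∀ r ∈ T, r ≠ 2 → r ≠ 3 → 5 ≤ r := by
    intro r hr h2 h3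
    rw [hT, mem_erase, Nat.mem_primeFactors] at hr
    have hp := hr.2.1
    have h4 := hp.two_le
    have h5 : r ≠ 4 := by
      rintro rfl
      norm_num at hp
    omega
  by_cases h2 : 2 ∣ f
  · have hc1 : 1 ≤ ((T.erase 2).erase 3).card := by
      have a1 := pred_card_le_card_erase (s := T) (a := 2)
      have a2 := pred_card_le_card_erase (s := T.erase 2) (a := 3)
      omega
    obtain ⟨p1, hp1⟩ := card_pos.mp hc1
    rw [mem_erase, mem_erase] at hp1
    have hc2 : 1 ≤ (T.erase p1).card := by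
      have a1 := pred_card_le_card_erase (s := T) (a := p1)
      omega
    obtain ⟨p0, hp0⟩ := card_pos.mp hc2
    rw [mem_erase] at hp0
    exact ⟨p0, hp0.2, p1, hp1.2.2, hp0.1, hge p1 hp1.2.2 hp1.2.1 hp1.1, fun h => absurd h2 h⟩
  · have h2T : ∀ r ∈ T, r ≠ 2 := by
      rintro r hr rfl
      rw [hT, mem_erase, Nat.mem_primeFactors] at hr
      exact h2 hr.2.2.1
    have hc1 : 1 < (T.erase 3).card := by
      have a1 := pred_card_le_card_erase (s := T) (a := 3)
      omega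
    obtain ⟨p0, hp0, p1, hp1, hne⟩ := one_lt_card.mp hc1
    rw [mem_erase] at hp0 hp1
    exact ⟨p0, hp0.2, p1, hp1.2, hne, hge p1 hp1.2 (h2T p1 hp1.2) hp1.1,
      fun _ => hge p0 hp0.2 (h2T p0 hp0.2) hp0.1⟩

private lemma s06_ndvd {p : ℕ} (hp : 5 ≤ p) {k : ℤ} (h0 : 0 < k) (h1 : k < 5) :
    ¬ (p : ℤ) ∣ k := by
  intro h
  have := Int.le_of_dvd h0 h
  omega

private lemma s06_upd {q p1 : ℕ} {h : ℕ → (ZMod f)ˣ}
    (hh : ∀ p ∈ f.primeFactors.erase q, h p ∈ Kp f p) {z : (ZMod f)ˣ} (hz : z ∈ Kp f p1) :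
    ∀ p ∈ f.primeFactors.erase q, Function.update h p1 z p ∈ Kp f p := by
  intro p hp
  by_cases hpp : p = p1
  · rw [hpp, Function.update_self]
    exact hz
  · rw [Function.update_of_ne hpp]
    exact hh p hp

/-- Case B. `h p` reduces to `-1` modulo all the odd primes `p` of `T = f.primeFactors.erase q`, each
of which divides `f` once. Choose `p1 ≥ 5` in `T`, different from some `p0 ∈ T` (with `5 ≤ p0` if
`f` is odd; `T` has at least three members), and `z ∈ Kp f p1` not reducing to `1` or `-1`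
(`Rdm.exists` with `k = 2`); apply `DS_mul` at `p1` to `h p1 = z * (z⁻¹ * h p1)` and Case A twice. -/
theorem DS_caseB {q : ℕ} (hL : Lev f q) {G : (ZMod f)ˣ → ℤ}
    (hG : MD ((q :: (f.primeFactors.erase q).toList).map (Kp f)) G) (hS : SmallF f q G)
    {h : ℕ → (ZMod f)ˣ} (hh : ∀ p ∈ f.primeFactors.erase q, h p ∈ Kp f p)
    (hfr : ∀ p ∈ f.primeFactors.erase q, p ≠ 2 → ¬ p ∣ f / p)
    (hall : ∀ p ∈ f.primeFactors.erase q, p ≠ 2 → Rdm f p (h p) (-1)) (x : (ZMod f)ˣ) :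
    DS (f.primeFactors.erase q) h G x = 0 := by
  obtain ⟨p0, hp0, p1, hp1, hne, h51, h50⟩ := s06_choose hL
  have hp1' := hp1
  rw [mem_erase, Nat.mem_primeFactors] at hp1'
  have hp12 : p1 ≠ 2 := by omega
  obtain ⟨z, hz, hz2⟩ := Rdm.exists hp1'.2.1 hp1'.2.2.1 (hfr p1 hp1 hp12) (k := 2)
    (s06_ndvd h51 (by norm_num) (by norm_num))
  have hw : z⁻¹ * h p1 ∈ Kp f p1 := Subgroup.mul_mem _ (Subgroup.inv_mem _ hz) (hh p1 hp1)
  have e1 : h = Function.update h p1 (z * (z⁻¹ * h p1)) := by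
    rw [mul_inv_cancel_left, Function.update_eq_self]
  have hp02 : ¬ 2 ∣ f → Rdm f p0 (h p0) (-1) := fun h2 => hall p0 hp0 (by
    have := h50 h2
    omega)
  rw [e1, DS_mul hp1]
  have c1 : DS (f.primeFactors.erase q) (Function.update h p1 z) G x = 0 := by
    refine DS_caseA hL hG hS (s06_upd hh hz) hp0 h50 ?_ (Or.inr ⟨p1, hp1, hp12, ?_⟩) x
    · intro h2
      rw [Function.update_of_ne hne]
      exact hp02 h2
    · rw [Function.update_self]
      intro hc
      have h3 := Rdm.congr hz2 hc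
      exact s06_ndvd h51 (k := 2 - -1) (by norm_num) (by norm_num) h3
  have c2 : DS (f.primeFactors.erase q) (Function.update h p1 (z⁻¹ * h p1)) G (z * x) = 0 := by
    refine DS_caseA hL hG hS (s06_upd hh hw) hp0 h50 ?_ (Or.inr ⟨p1, hp1, hp12, ?_⟩) (z * x)
    · intro h2
      rw [Function.update_of_ne hne]
      exact hp02 h2
    · rw [Function.update_self]
      intro hc
      have h3 := Rdm.mul hp1'.2.2.1 hz2 hc
      rw [mul_inv_cancel_left] at h3
      have h4 := Rdm.congr (hall p1 hp1 hp12) h3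
      exact s06_ndvd h51 (k := -1 - 2 * -1) (by norm_num) (by norm_num) h4
  rw [c1, c2, add_zero]

/-- Even levels: Case A or Case B (`neg_one_span` if `f` does not divide `2 * rad f`; otherwise the
odd primes divide `f` once). -/
theorem DS_even {q : ℕ} (hL : Lev f q) (h2 : 2 ∣ f) {G : (ZMod f)ˣ → ℤ}
    (hG : MD ((q :: (f.primeFactors.erase q).toList).map (Kp f)) G) (hS : SmallF f q G)
    {h : ℕ → (ZMod f)ˣ} (hh : ∀ p ∈ f.primeFactors.erase q, h p ∈ Kp f p) (x : (ZMod f)ˣ) :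
    DS (f.primeFactors.erase q) h G x = 0 := by
  have h2T : 2 ∈ f.primeFactors.erase q := by
    rw [mem_erase, Nat.mem_primeFactors]
    exact ⟨Ne.symm hL.hq2, Nat.prime_two, h2, NeZero.ne f⟩
  by_cases hr : f ∣ 2 * rad f
  · by_cases hex : ∃ p1 ∈ f.primeFactors.erase q, p1 ≠ 2 ∧ ¬ Rdm f p1 (h p1) (-1)
    · exact DS_caseA hL hG hS hh h2T (fun hn => absurd h2 hn) (fun hn => absurd h2 hn)
        (Or.inr hex) x
    · push Not at hex
      refine DS_caseB hL hG hS hh ?_ hex x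
      intro p hp hp2
      rw [mem_erase, Nat.mem_primeFactors] at hp
      exact s06_once hp.2.1 hp2 hp.2.2.1 hr
  · exact DS_caseA hL hG hS hh h2T (fun hn => absurd h2 hn) (fun hn => absurd h2 hn)
      (Or.inl (neg_one_span hL hr)) x

/-- Odd levels dividing `3 * rad f`, one flip at a prime at least `5`: Case A or Case B. If `f` does
not divide `2 * rad f` use `neg_one_span`; otherwise `f = rad f` and all the primes divide `f`
once. -/
theorem DS_flip_one {q : ℕ} (hL : Lev f q) (h2 : ¬ 2 ∣ f) {G : (ZMod f)ˣ → ℤ}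
    (hG : MD ((q :: (f.primeFactors.erase q).toList).map (Kp f)) G) (hS : SmallF f q G)
    {h : ℕ → (ZMod f)ˣ} (hh : ∀ p ∈ f.primeFactors.erase q, h p ∈ Kp f p)
    {p0 : ℕ} (hp0 : p0 ∈ f.primeFactors.erase q) (h5 : 5 ≤ p0) (hp0' : Rdm f p0 (h p0) (-1))
    (x : (ZMod f)ˣ) : DS (f.primeFactors.erase q) h G x = 0 := by
  by_cases hr : f ∣ 2 * rad f
  · by_cases hex : ∃ p1 ∈ f.primeFactors.erase q, p1 ≠ 2 ∧ ¬ Rdm f p1 (h p1) (-1)
    · exact DS_caseA hL hG hS hh hp0 (fun _ => h5) (fun _ => hp0') (Or.inr hex) x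
    · push Not at hex
      refine DS_caseB hL hG hS hh ?_ hex x
      intro p hp hp2
      rw [mem_erase, Nat.mem_primeFactors] at hp
      exact s06_once hp.2.1 hp2 hp.2.2.1 hr
  · exact DS_caseA hL hG hS hh hp0 (fun _ => h5) (fun _ => hp0') (Or.inl (neg_one_span hL hr)) x

end Pool.Agent.Lib.MP_938ce2_ag_h99w
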