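import Pool.Agent.Lib.MP_938ce2_ag_h99w.S06

/-!
Averages over four flips.
-/

set_option autoImplicit false
set_option linter.style.haveILetI false
set_option linter.unusedSectionVars false

open Finset

namespace Pool.Agent.Lib.MP_938ce2_ag_h99w

open Pool.Agent.Lib.MP_938ce2_ag_h99

variable {f : ℕ} [NeZero f]

/-- the average of `VV` over the translates of `x` by `1, c1, c2, c1 * c2` -/
noncomputable def V4 (K : Subgroup (ZMod f)ˣ) (T : Finset ℕ) (h : ℕ → (ZMod f)ˣ)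
    (c1 c2 x u : (ZMod f)ˣ) : ℚ :=
  (VV K T h x u + VV K T h (c1 * x) u + VV K T h (c2 * x) u + VV K T h (c1 * (c2 * x)) u) / 4

lemma Rdm_prod7 {p : ℕ} (hp : p ∣ f) {h : ℕ → (ZMod f)ˣ} {κ : ℕ → ℤ} (S : Finset ℕ)
    (hS : ∀ r ∈ S, Rdm f p (h r) (κ r)) : Rdm f p (∏ r ∈ S, h r) (∏ r ∈ S, κ r) := by
  classical
  induction S using Finset.induction_on with
  | empty =>
    rw [Finset.prod_empty, Finset.prod_empty]
    exact Rdm.one p hp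
  | insert a S ha ih =>
    rw [Finset.prod_insert ha, Finset.prod_insert ha]
    exact Rdm.mul hp (hS a (Finset.mem_insert_self a S))
      (ih fun r hr => hS r (Finset.mem_insert_of_mem hr))

/-- two translates of `x` which differ by a sign modulo `p1` have disjoint supports -/
lemma V4_key7 {q : ℕ} (hq : q.Prime) (hqf : q ∣ f) {T : Finset ℕ} (hqT : q ∉ T)
    (hT : ∀ p ∈ T, p.Prime ∧ p ∣ f) {h : ℕ → (ZMod f)ˣ} (hh : ∀ p ∈ T, h p ∈ Kp f p)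
    {p1 : ℕ} (hp1 : p1 ∈ T) (h51 : 5 ≤ p1) (hr1 : ¬ Rdm f p1 (h p1) (-1))
    {g g' x u : (ZMod f)ˣ} (hg : Rdm f p1 g 1) (hg' : Rdm f p1 g' (-1))
    (hV : VV (Kp f q) T h (g * x) u ≠ 0) (hV' : VV (Kp f q) T h (g' * x) u ≠ 0) : False := by
  obtain ⟨hpp, hpf⟩ := hT p1 hp1
  obtain ⟨z, hz, S, hS, hu⟩ := VV_supp hV
  obtain ⟨z', hz', S', hS', hu'⟩ := VV_supp hV'
  have heq : z * (∏ p ∈ S, h p) * g = z' * (∏ p ∈ S', h p) * g' := by
    have h1 : z * (∏ p ∈ S, h p) * g * x = z' * (∏ p ∈ S', h p) * g' * x := by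
      calc z * (∏ p ∈ S, h p) * g * x = z * ((∏ p ∈ S, h p) * (g * x)) := by
            simp only [mul_assoc]
        _ = z' * ((∏ p ∈ S', h p) * (g' * x)) := by rw [← hu, ← hu']
        _ = z' * (∏ p ∈ S', h p) * g' * x := by simp only [mul_assoc]
    exact mul_right_cancel h1
  have hqp : p1 ≠ q := fun h => hqT (h ▸ hp1)
  have hz1 : Rdm f p1 z 1 := Rdm.of_Kp hpp hq hpf hqf hqp hz
  have hz1' : Rdm f p1 z' 1 := Rdm.of_Kp hpp hq hpf hqf hqp hz'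
  obtain ⟨k, hk⟩ : ∃ k : ℤ, Rdm f p1 (h p1) k :=
    ⟨((h p1 : (ZMod f)ˣ) : ZMod f).val, by unfold Rdm; simp⟩
  have hprod : ∀ S : Finset ℕ, S ⊆ T →
      Rdm f p1 (∏ p ∈ S, h p) (if p1 ∈ S then k else 1) := by
    intro S hS
    have h2 := Rdm_prod7 hpf (h := h) (κ := fun r => if r = p1 then k else 1) S (by
      intro r hr
      split_ifs with h3
      · rw [h3]; exact hk
      · obtain ⟨h4, h5⟩ := hT r (hS hr)
        exact Rdm.of_Kp hpp h4 hpf h5 (fun h => h3 h.symm) (hh r (hS hr)))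
    rwa [Finset.prod_ite_eq'] at h2
  have h6 := Rdm.mul hpf (Rdm.mul hpf hz1 (hprod S hS)) hg
  have h7 := Rdm.mul hpf (Rdm.mul hpf hz1' (hprod S' hS')) hg'
  rw [heq] at h6
  have h8 := Rdm.congr h6 h7
  have hpp' : Prime (p1 : ℤ) := Nat.prime_iff_prime_int.mp hpp
  have hk0 : ¬ (p1 : ℤ) ∣ k := Rdm.ne_zero hpp hpf hk
  have h52 : (5 : ℤ) ≤ (p1 : ℤ) := by exact_mod_cast h51
  have h20 : ¬ (p1 : ℤ) ∣ 2 := by
    intro h
    have := Int.le_of_dvd (by norm_num) h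
    linarith
  have hk1 : ¬ (p1 : ℤ) ∣ k + 1 := by
    intro hd
    apply hr1
    unfold Rdm at hk ⊢
    have h9 := dvd_add hk hd
    have h10 : ((((h p1 : (ZMod f)ˣ) : ZMod f).val : ℤ) - -1) =
        (((h p1 : (ZMod f)ˣ) : ZMod f).val : ℤ) - k + (k + 1) := by ring
    rw [h10]
    exact h9
  split_ifs at h8 with h9 h10 h10
  · have : (1 * k * 1 - 1 * k * -1 : ℤ) = 2 * k := by ring
    rw [this] at h8
    rcases hpp'.dvd_or_dvd h8 with h11 | h11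
    · exact h20 h11
    · exact hk0 h11
  · have : (1 * k * 1 - 1 * 1 * -1 : ℤ) = k + 1 := by ring
    rw [this] at h8
    exact hk1 h8
  · have : (1 * 1 * 1 - 1 * k * -1 : ℤ) = k + 1 := by ring
    rw [this] at h8
    exact hk1 h8
  · have : (1 * 1 * 1 - 1 * 1 * -1 : ℤ) = 2 := by ring
    rw [this] at h8
    exact h20 h8

lemma four_abs7 {v0 v1 v2 v3 C : ℚ} (hC : 0 ≤ C) (h0 : |v0| ≤ C) (h1 : |v1| ≤ C) (h2 : |v2| ≤ C)
    (h3 : |v3| ≤ C) (h01 : v0 = 0 ∨ v1 = 0) (h02 : v0 = 0 ∨ v2 = 0) (h03 : v0 = 0 ∨ v3 = 0)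
    (h12 : v1 = 0 ∨ v2 = 0) (h13 : v1 = 0 ∨ v3 = 0) (h23 : v2 = 0 ∨ v3 = 0) :
    |(v0 + v1 + v2 + v3) / 4| ≤ 1 / 4 * C := by
  rw [abs_div]
  have h4 : |(4 : ℚ)| = 4 := by norm_num
  rw [h4]
  have : |v0 + v1 + v2 + v3| ≤ C := by
    by_cases e0 : v0 = 0
    · by_cases e1 : v1 = 0
      · by_cases e2 : v2 = 0
        · rw [e0, e1, e2]
          simpa using h3
        · rw [e0, e1, h23.resolve_left e2]
          simpa using h2
      · rw [e0, h12.resolve_left e1, h13.resolve_left e1]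
        simpa using h1
    · rw [h01.resolve_left e0, h02.resolve_left e0, h03.resolve_left e0]
      simpa using h0
  linarith

/-- The four supports are disjoint: `p1, p2` divide `f` once, `c1, c2` reduce to `-1` there and the
reductions of `h p1, h p2` are not `1, -1`, so the products of `h p1 ^ (0, 1)` and
`c1 ^ (0, 1)` are different modulo `p1`. -/
theorem V4_abs {q : ℕ} (hq : q.Prime) (hqf : q ∣ f) {T : Finset ℕ} (hqT : q ∉ T)
    (hT : ∀ p ∈ T, p.Prime ∧ p ∣ f) {h : ℕ → (ZMod f)ˣ} (hh : ∀ p ∈ T, h p ∈ Kp f p)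
    (h1 : ∀ p ∈ T, h p ≠ 1) {p1 p2 : ℕ} (hp1 : p1 ∈ T) (hp2 : p2 ∈ T) (h12 : p1 ≠ p2)
    (h51 : 5 ≤ p1) (h52 : 5 ≤ p2) (hf1 : ¬ p1 ∣ f / p1) (hf2 : ¬ p2 ∣ f / p2)
    (hr1 : ¬ Rdm f p1 (h p1) (-1)) (hr2 : ¬ Rdm f p2 (h p2) (-1))
    {c1 c2 : (ZMod f)ˣ} (hc1 : c1 ∈ Kp f p1) (hc2 : c2 ∈ Kp f p2) (hc1' : Rdm f p1 c1 (-1))
    (hc2' : Rdm f p2 c2 (-1)) (x u : (ZMod f)ˣ) :
    |V4 (Kp f q) T h c1 c2 x u| ≤ 1 / 4 * (1 / (Nat.card (Kp f q) : ℚ)) := by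
  classical
  obtain ⟨hpp1, hpf1⟩ := hT p1 hp1
  obtain ⟨hpp2, hpf2⟩ := hT p2 hp2
  have hind := Kp_indep hq hqf hqT hT hh h1
  have hb : ∀ y, |VV (Kp f q) T h y u| ≤ 1 / (Nat.card (Kp f q) : ℚ) := fun y => VV_abs hind y u
  have hc12 : Rdm f p2 c1 1 := Rdm.of_Kp hpp2 hpp1 hpf2 hpf1 (Ne.symm h12) hc1
  have hc21 : Rdm f p1 c2 1 := Rdm.of_Kp hpp1 hpp2 hpf1 hpf2 h12 hc2
  have hcc1 : Rdm f p1 (c1 * c2) (-1) := by
    have := Rdm.mul hpf1 hc1' hc21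
    rwa [mul_one] at this
  have hcc2 : Rdm f p2 (c1 * c2) (-1) := by
    have := Rdm.mul hpf2 hc12 hc2'
    rwa [one_mul] at this
  have key1 : ∀ g g' : (ZMod f)ˣ, Rdm f p1 g 1 → Rdm f p1 g' (-1) →
      VV (Kp f q) T h (g * x) u = 0 ∨ VV (Kp f q) T h (g' * x) u = 0 := by
    intro g g' hg hg'
    by_contra hcon
    push Not at hcon
    exact V4_key7 hq hqf hqT hT hh hp1 h51 hr1 hg hg' hcon.1 hcon.2
  have key2 : ∀ g g' : (ZMod f)ˣ, Rdm f p2 g 1 → Rdm f p2 g' (-1) →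
      VV (Kp f q) T h (g * x) u = 0 ∨ VV (Kp f q) T h (g' * x) u = 0 := by
    intro g g' hg hg'
    by_contra hcon
    push Not at hcon
    exact V4_key7 hq hqf hqT hT hh hp2 h52 hr2 hg hg' hcon.1 hcon.2
  have h01 := key1 1 c1 (Rdm.one p1 hpf1) hc1'
  have h02 := key2 1 c2 (Rdm.one p2 hpf2) hc2'
  have h03 := key1 1 (c1 * c2) (Rdm.one p1 hpf1) hcc1
  have h12' := (key1 c2 c1 hc21 hc1').symm
  have h13 := key2 c1 (c1 * c2) hc12 hcc2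
  have h23 := key1 c2 (c1 * c2) hc21 hcc1
  rw [one_mul] at h01 h02 h03
  rw [mul_assoc] at h03 h13 h23
  unfold V4
  exact four_abs7 (by positivity) (hb _) (hb _) (hb _) (hb _) h01 h02 h03 h12' h13 h23

end Pool.Agent.Lib.MP_938ce2_ag_h99w
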