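import Pool.Agent.Lib.MP_938ce2_ag_h99w.WD
import Pool.Agent.Lib.MP_938ce2_ag_h99w.DD

/-!
Small functions at a level: definitions.
-/

set_option autoImplicit false
set_option linter.style.haveILetI false
set_option linter.unusedSectionVars false

open Finset

namespace Pool.Agent.Lib.MP_938ce2_ag_h99w

open Pool.Agent.Lib.MP_938ce2_ag_h99

variable {f : ℕ} [NeZero f]

/-- all functionals with small bounds have value less than one -/
def SmallF (f q : ℕ) [NeZero f] (G : (ZMod f)ˣ → ℤ) : Prop :=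
  ∀ V : (ZMod f)ˣ → ℚ, ZS f (· ≠ q) V → Bd f V (1 / (Nat.card (Kp f q) : ℚ)) →
    |∑ u, (G u : ℚ) * V u| < 1

/-- reduction of the units modulo `p`, as a statement -/
def Rdm (f p : ℕ) (z : (ZMod f)ˣ) (k : ℤ) : Prop := (p : ℤ) ∣ ((z : ZMod f).val : ℤ) - k

/-- the standard situation: a level with at least four effective primes, `q` odd -/
structure Lev (f q : ℕ) : Prop where
  hq : q.Prime
  hq2 : q ≠ 2
  hqf : q ∣ f
  hf4 : f % 4 ≠ 2
  hc : 4 ≤ f.primeFactors.card

end Pool.Agent.Lib.MP_938ce2_ag_h99w
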