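import Pool.Agent.Lib.MP_938ce2_ag_h99.MainA

/-!
Extension of functions on the units: definitions.
-/

set_option autoImplicit false
set_option linter.style.haveILetI false
set_option linter.unusedSectionVars false

open Finset

namespace Pool.Agent.Lib.MP_938ce2_ag_h99w

open Pool.Agent.Lib.MP_938ce2_ag_h99

variable {m f : ℕ} [NeZero m] [NeZero f]

/-- the unit class of an element whose order is divisible by `f` -/
noncomputable def pr (hf : f ∣ m) (a : ZMod m) : (ZMod f)ˣ := by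
  classical
  exact if h : ∃ u : (ZMod f)ˣ, jj hf (u : ZMod f) = ((addOrderOf a / f : ℕ) : ZMod m) * a
    then h.choose else 1

omit [NeZero f] in
/-- the inverse of a natural number modulo `f` -/
noncomputable def iv (f N : ℕ) : (ZMod f)ˣ := by
  classical
  exact if h : Nat.Coprime N f then (ZMod.unitOfCoprime N h)⁻¹ else 1

/-- the extension of `V`, using the primes in `R` -/
noncomputable def Ext (hf : f ∣ m) (R : ℕ → Prop) (V : (ZMod f)ˣ → ℚ) (a : ZMod m) : ℚ := by
  classical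
  exact if f ∣ addOrderOf a ∧ ∀ r, r.Prime → r ∣ addOrderOf a / f → R r then
    ((f.totient : ℚ) / ((addOrderOf a).totient : ℚ)) *
      ∑ S ∈ ((addOrderOf a).primeFactors \ f.primeFactors).powerset,
        (-1 : ℚ) ^ S.card * V (iv f (∏ p ∈ S, p) * pr hf a)
  else 0

/-- the relations at the primes in `R` -/
def relSubR (m : ℕ) [NeZero m] (R : ℕ → Prop) : AddSubgroup (ZMod m → ℤ) :=
  AddSubgroup.closure {h | ∃ (p : ℕ) (g : ZMod m → ℤ), p.Prime ∧ p ∣ m ∧ R p ∧ OddF g ∧
    (∀ a, g a ≠ 0 → ∃ b, a = (p : ZMod m) * b) ∧ h = rel p g}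

/-- the sums of `V` over the cosets of `Kp f p` vanish for the primes `p` in `R` -/
def ZS (f : ℕ) [NeZero f] (R : ℕ → Prop) (V : (ZMod f)ˣ → ℚ) : Prop := by
  classical
  exact ∀ p, p.Prime → R p → p ∣ f → ∀ u, ∑ z ∈ univ.filter (· ∈ Kp f p), V (z * u) = 0

/-- the two bounds for `V` -/
def Bd (f : ℕ) (V : (ZMod f)ˣ → ℚ) (C : ℚ) : Prop :=
  (∀ u, |V u - V (-1 * u)| ≤ C) ∧
    (¬ 2 ∣ f → ∀ u, |V u - V (-1 * u) - (V (iv f 2 * u) - V (-1 * (iv f 2 * u)))| ≤ C)

end Pool.Agent.Lib.MP_938ce2_ag_h99w
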